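import Pool.Agent.Tysz.Base
open Finset MvPolynomial Module

namespace Tysz

variable {σ : Type} [Fintype σ] [DecidableEq σ] {N : Type} [AddCommGroup N]

/-- one step of the chain -/
structure StepOK (θ : σ → N) (ε : σ → ℤˣ) (I I' : Ideal (A σ)) (e : ℕ) (κ : ℝ) : Prop where
  pos : (∀ D, 0 < Gam θ ε I D) → ∀ D, 0 < Gam θ ε I' D
  rank : ∀ D, (rk I' D : ℝ) ≤ rk I D - sh e (fun D => (rk I D : ℝ)) D
  ineq : (∀ D, 0 < Gam θ ε I D) → ∃ C : ℝ, 0 ≤ C ∧ ∀ D, -Real.log (Gam θ ε I' D) ≤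
    -Real.log (Gam θ ε I D) - sh e (fun D => -Real.log (Gam θ ε I D)) D
      + κ * sh e (fun D => (rk I D : ℝ)) D
      + C * (rk I D - sh e (fun D => (rk I D : ℝ)) D - rk I' D) + C

theorem step_rank {I I' : Ideal (A σ)} (hI : I ≤ I') {f : MvPolynomial σ ℤ} {e : ℕ}
    (hfe : f.IsHomogeneous e) (hfI : toA f ∈ I') (hf : NZD I f) (D : ℕ) :
    (rk I' D : ℝ) ≤ rk I D - sh e (fun D => (rk I D : ℝ)) D := by
  unfold sh
  split_ifs with h
  · have := rk_cut hI hfe hfI hf h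
    have h2 : (rk I' D : ℝ) + rk I (D - e) ≤ rk I D := by exact_mod_cast this
    simp only; linarith
  · have : (rk I' D : ℝ) ≤ rk I D := by exact_mod_cast rk_le hI D
    simpa using this

theorem step_op (θ : σ → N) (ε : σ → ℤˣ) {I I' : Ideal (A σ)} (hI : I ≤ I')
    {f : MvPolynomial σ ℤ} {e : ℕ} (hfe : f.IsHomogeneous e) (hfI : toA f ∈ I') (hf : NZD I f)
    {c : ℝ} (hc : 0 < c) (hfc : ∀ x, ‖ev θ ε f * x‖ ≤ c * ‖x‖) :
    StepOK θ ε I I' e (Real.log c) := by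
  obtain ⟨H, hH⟩ := exists_gens I'
  obtain ⟨C, hC1, hC⟩ := genList_norm θ ε H
  have hCl : 0 ≤ Real.log C := Real.log_nonneg hC1
  refine ⟨fun hp D => (enlarge_log θ ε hI hH hC1 hC (hp D)).1, step_rank hI hfe hfI hf, ?_⟩
  intro hp
  refine ⟨Real.log C + Real.log 2, by positivity, fun D => ?_⟩
  have ht := step_rank hI hfe hfI hf D
  have hl2 : 0 ≤ Real.log 2 := Real.log_nonneg (by norm_num)
  by_cases h : e ≤ D
  · have h1 := (cut_log θ ε hI hH hC1 hC hfe hfI hf h hc hfc (hp D) (hp (D - e))).2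
    unfold sh at ht ⊢
    rw [if_pos h] at ht
    rw [if_pos h, if_pos h]
    simp only at ht ⊢
    nlinarith
  · have h1 := (enlarge_log θ ε hI hH hC1 hC (hp D)).2
    unfold sh at ht ⊢
    rw [if_neg h] at ht
    rw [if_neg h, if_neg h]
    nlinarith

theorem step_mon (θ : σ → N) (ε : σ → ℤˣ) {I I' : Ideal (A σ)} (hI : I ≤ I')
    {f : MvPolynomial σ ℤ} {e : ℕ} (hfe : f.IsHomogeneous e) (hfI : toA f ∈ I') (hf : NZD I f)
    {c : ℝ} (hc : 0 < c) (hfc : ‖ev θ ε f‖ ≤ c) (hG : ∀ D, Gam θ ε I D = 1) :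
    StepOK θ ε I I' e (Real.log c) := by
  obtain ⟨H, hH⟩ := exists_gens I'
  obtain ⟨C, hC1, hC⟩ := genList_norm θ ε H
  have hCl : 0 ≤ Real.log C := Real.log_nonneg hC1
  refine ⟨fun hp D => (enlarge_log θ ε hI hH hC1 hC (hp D)).1, step_rank hI hfe hfI hf, ?_⟩
  intro hp
  refine ⟨Real.log C, by positivity, fun D => ?_⟩
  have ht := step_rank hI hfe hfI hf D
  by_cases h : e ≤ D
  · have h1 := (cut_log_mon θ ε hI hH hC1 hC hfe hfI hf h hc hfc (hp D)).2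
    rw [hG D] at h1 ⊢
    unfold sh at ht ⊢
    rw [if_pos h] at ht
    rw [if_pos h, if_pos h]
    simp only [hG, Real.log_one] at ht h1 ⊢
    nlinarith
  · have h1 := (enlarge_log θ ε hI hH hC1 hC (hp D)).2
    rw [hG D] at h1 ⊢
    unfold sh at ht ⊢
    rw [if_neg h] at ht
    rw [if_neg h, if_neg h]
    simp only [Real.log_one] at h1 ⊢
    nlinarith

/-- arithmetic Bezout along a chain of steps -/
theorem chain_AB (θ : σ → N) (ε : σ → ℤˣ) {q m : ℕ} (hσ : 1 ≤ Fintype.card σ)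
    (Q : ℕ → Ideal (A σ)) (e : ℕ → ℕ)
    (κ : ℕ → ℝ) (he : ∀ j, 1 ≤ e j) (hκ : ∀ j, 0 ≤ κ j)
    (hstep : ∀ j < m, StepOK θ ε (Q j) (Q (j + 1)) (e j) (κ j))
    {J J' : Ideal (A σ)} (hJ : ∀ D F, F.IsHomogeneous D → (F ∈ J ↔ phiQ θ ε F = 0)) (hJQ : J ≤ Q 0)
    (hrk : ∀ D, rk J D ≤ rk J' D)
    (hs : ∀ D, (S 2)^[q] (fun D => (rk J' D : ℝ)) D
      ≤ (Nat.choose (D + (Fintype.card σ - 1)) (Fintype.card σ - 1) : ℝ))
    {G : ℝ} (hG : ∃ C : ℝ, ∀ D : ℕ, 0 < Gam θ ε (Q m) D → G * D - C ≤ -Real.log (Gam θ ε (Q m) D))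
    (hqm : Fintype.card σ ≤ q + m + 1) :
    G ≤ 2 ^ q * (∏ j ∈ range m, (e j : ℝ)) * ∑ j ∈ range m, κ j / e j := by
  -- positivity
  obtain ⟨H, hH⟩ := exists_gens (Q 0)
  obtain ⟨C0, hC01, hC0⟩ := genList_norm θ ε H
  have hC0l : 0 ≤ Real.log C0 := Real.log_nonneg hC01
  have hGJ : ∀ D, 1 ≤ Gam θ ε J D := gam_base_ge θ ε hJ
  have hpos0 : ∀ D, 0 < Gam θ ε (Q 0) D := fun D =>
    (enlarge_log θ ε hJQ hH hC01 hC0 (lt_of_lt_of_le one_pos (hGJ D))).1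
  have hpos : ∀ j ≤ m, ∀ D, 0 < Gam θ ε (Q j) D := by
    intro j
    induction j with
    | zero => intro _; exact hpos0
    | succ j ih => intro hj; exact (hstep j hj).pos (ih (by omega))
  have hCj : ∀ j, ∃ C : ℝ, 0 ≤ C ∧ (j < m → ∀ D, -Real.log (Gam θ ε (Q (j+1)) D) ≤
    -Real.log (Gam θ ε (Q j) D) - sh (e j) (fun D => -Real.log (Gam θ ε (Q j) D)) D
      + κ j * sh (e j) (fun D => (rk (Q j) D : ℝ)) D
      + C * (rk (Q j) D - sh (e j) (fun D => (rk (Q j) D : ℝ)) D - rk (Q (j+1)) D) + C) := by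
    intro j
    by_cases hj : j < m
    · obtain ⟨C, hC, h⟩ := (hstep j hj).ineq (hpos j hj.le)
      exact ⟨C, hC, fun _ => h⟩
    · exact ⟨0, le_rfl, fun h => absurd h hj⟩
  choose Cj hCj0 hCj1 using hCj
  obtain ⟨CF, hCF⟩ := hG
  set C : ℝ := |CF| + Real.log C0 + ∑ j ∈ range m, Cj j with hCdef
  have hsum : 0 ≤ ∑ j ∈ range m, Cj j := Finset.sum_nonneg fun j _ => hCj0 j
  have hCjC : ∀ j < m, Cj j ≤ C := by
    intro j hj
    have := Finset.single_le_sum (f := Cj) (fun j _ => hCj0 j) (Finset.mem_range.mpr hj)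
    have := abs_nonneg CF
    linarith
  refine chain_asymp (n := Fintype.card σ) (q := q) (m := m) hσ e he κ hκ
    (fun D => (rk J' D : ℝ)) (fun D => Nat.cast_nonneg _) hs
    (fun j D => (rk (Q j) D : ℝ)) (fun j D => -Real.log (Gam θ ε (Q j) D)) C
    (fun j D => Nat.cast_nonneg _) ?_ ?_ ?_ ?_ G ?_ hqm
  · intro D
    have h1 : rk (Q 0) D ≤ rk J' D := (rk_le hJQ D).trans (hrk D)
    exact_mod_cast h1
  · intro D
    have h1 := (enlarge_log θ ε hJQ hH hC01 hC0 (lt_of_lt_of_le one_pos (hGJ D))).2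
    have h2 : 0 ≤ Real.log (Gam θ ε J D) := Real.log_nonneg (hGJ D)
    have h3 : (rk J D : ℝ) ≤ rk J' D := by exact_mod_cast hrk D
    have h4 : (0:ℝ) ≤ rk (Q 0) D := Nat.cast_nonneg _
    have h5 : (0:ℝ) ≤ rk J' D := Nat.cast_nonneg _
    have h6 : Real.log C0 ≤ C := by have := abs_nonneg CF; linarith
    have h7 : (rk J D - rk (Q 0) D : ℝ) * Real.log C0 ≤ rk J' D * Real.log C0 := by
      apply mul_le_mul_of_nonneg_right _ hC0l; linarith
    have h8 : Real.log C0 * rk J' D ≤ C * rk J' D := mul_le_mul_of_nonneg_right h6 h5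
    nlinarith
  · intro j hj D
    exact (hstep j hj).rank D
  · intro j hj D
    refine (hCj1 j hj D).trans ?_
    have ht := (hstep j hj).rank D
    have h1 := hCjC j hj
    have h2 : 0 ≤ (rk (Q j) D - sh (e j) (fun D => (rk (Q j) D : ℝ)) D - rk (Q (j+1)) D : ℝ) := by linarith
    have h3 := mul_le_mul_of_nonneg_right h1 h2
    linarith
  · intro D
    have h1 := hCF D (hpos m le_rfl D)
    have h2 : CF ≤ C := by have := le_abs_self CF; linarith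
    linarith

end Tysz
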