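import Pool.Agent.Tysz.Defs2
open Finset MvPolynomial Module

namespace Tysz

variable {σ : Type} [Fintype σ] [DecidableEq σ] {N : Type} [AddCommGroup N]

theorem ev_monomial (θ : σ → N) (ε : σ → ℤˣ) (α : σ →₀ ℕ) (a : ℤ) :
    ev θ ε (monomial α a) = GA.mon (cls θ α) ((a : ℂ) * sgn ε α) := by
  rw [ev_apply]
  change phi θ ε (toC (toA (monomial α a))) = _
  rw [toC_toA, map_monomial, phi_monomial]
  rfl

theorem phiQ_monomial (θ : σ → N) (ε : σ → ℤˣ) (α : σ →₀ ℕ) (a : ℚ) :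
    phiQ θ ε (monomial α a) = GA.mon (cls θ α) ((a : ℂ) * sgn ε α) := by
  change phi θ ε (toC (monomial α a)) = _
  unfold toC
  rw [map_monomial, phi_monomial]
  rfl

/-- integral sign -/
def sgZ (ε : σ → ℤˣ) (α : σ →₀ ℕ) : ℤˣ := ∏ i, ε i ^ α i

theorem sgn_eq (ε : σ → ℤˣ) (α : σ →₀ ℕ) : sgn ε α = (((sgZ ε α : ℤˣ) : ℤ) : ℂ) := by
  unfold sgn sgZ
  rw [Units.coe_prod]
  push_cast
  rfl

theorem sgn_ne_zero (ε : σ → ℤˣ) (α : σ →₀ ℕ) : sgn ε α ≠ 0 := by
  intro h
  have := norm_sgn ε α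
  rw [h, norm_zero] at this
  exact zero_ne_one this

/-- coefficient map as an additive homomorphism -/
noncomputable def GA.cfA (χ : N) : GA N →+ ℂ where
  toFun x := GA.cf x χ
  map_zero' := by rw [GA.cf_zero]; rfl
  map_add' x y := by rw [GA.cf_add]; rfl

theorem GA.cfA_apply (χ : N) (x : GA N) : GA.cfA χ x = GA.cf x χ := rfl

theorem GA.cf_mon_apply [DecidableEq N] (n : N) (c : ℂ) (χ : N) :
    GA.cf (GA.mon n c) χ = if n = χ then c else 0 := by
  rw [GA.cf_mon, Finsupp.single_apply]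

theorem cf_ev_int (θ : σ → N) (ε : σ → ℤˣ) (F : MvPolynomial σ ℤ) (χ : N) :
    ∃ z : ℤ, GA.cf (ev θ ε F) χ = z := by
  classical
  induction F using MvPolynomial.induction_on' with
  | monomial α a =>
    rw [ev_monomial, GA.cf_mon_apply]
    split_ifs with h
    · exact ⟨a * ((sgZ ε α : ℤˣ) : ℤ), by rw [sgn_eq]; push_cast; rfl⟩
    · exact ⟨0, by simp⟩
  | add p q hp hq =>
    obtain ⟨a, ha⟩ := hp
    obtain ⟨b, hb⟩ := hq
    refine ⟨a + b, ?_⟩
    rw [map_add, GA.cf_add, Finsupp.add_apply, ha, hb]; push_cast; rfl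

theorem cf_ev_supp (θ : σ → N) (ε : σ → ℤˣ) {D : ℕ} {F : MvPolynomial σ ℤ} (hF : F.IsHomogeneous D)
    {χ : N} (h : GA.cf (ev θ ε F) χ ≠ 0) : ∃ α ∈ exps σ D, cls θ α = χ := by
  classical
  by_contra hcon
  push Not at hcon
  apply h
  rw [F.as_sum, map_sum, ← GA.cfA_apply, map_sum]
  apply Finset.sum_eq_zero
  intro α hα
  rw [ev_monomial, GA.cfA_apply, GA.cf_mon_apply, if_neg (hcon α (homog_support hF hα))]

theorem Ind.li {V ι : Type} [AddCommGroup V] [Module ℚ V] {φ : ι → V} {r : ℕ} {f : Fin r → ι}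
    (h : Ind ℚ φ (List.ofFn f)) : LinearIndependent ℚ (fun j => φ (f j)) := by
  rw [linearIndependent_iff_card_eq_finrank_span]
  unfold Ind at h
  rw [List.length_ofFn] at h
  rw [Fintype.card_fin, Set.finrank]
  refine h.symm.trans ?_
  unfold sp
  have : {v | ∃ x ∈ List.ofFn f, v = φ x} = Set.range (fun j => φ (f j)) := by
    ext v
    simp only [List.mem_ofFn, Set.mem_ofPred_eq, Set.mem_range]
    constructor
    · rintro ⟨x, ⟨j, rfl⟩, rfl⟩; exact ⟨j, rfl⟩
    · rintro ⟨j, rfl⟩; exact ⟨f j, ⟨j, rfl⟩, rfl⟩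
  rw [this]

theorem exists_ofFn {ι : Type} {r : ℕ} {l : List ι} (h : l.length = r) :
    ∃ f : Fin r → ι, l = List.ofFn f := by
  subst h
  exact ⟨l.get, (List.ofFn_get l).symm⟩

theorem orthonormal_mon {r : ℕ} {χ : Fin r → N} (hχ : Function.Injective χ) :
    Orthonormal ℂ (fun j => (GA.mon (χ j) 1 : GA N)) := by
  classical
  rw [orthonormal_iff_ite]
  intro i j
  rw [GA.inner_def, GA.ip_eq _ _ (s := {χ i}) (by rw [GA.cf_mon]; exact Finsupp.support_single_subset),
    Finset.sum_singleton, GA.cf_mon_apply, GA.cf_mon_apply, if_pos rfl]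
  by_cases h : i = j
  · subst h; simp
  · rw [if_neg h, if_neg (fun h' => h (hχ h').symm)]; simp

/-- monomials representing the classes of degree D -/
theorem classes (θ : σ → N) (ε : σ → ℤˣ) {I : Ideal (A σ)}
    (hI : ∀ D F, F.IsHomogeneous D → (F ∈ I ↔ phiQ θ ε F = 0)) (D : ℕ) :
    ∃ α : Fin (rk I D) → (σ →₀ ℕ), (∀ j, α j ∈ exps σ D) ∧
      Function.Injective (fun j => cls θ (α j)) ∧ ∀ β ∈ exps σ D, ∃ j, cls θ (α j) = cls θ β := by
  classical
  obtain ⟨l0, hl0, hl0m⟩ := exists_BL I D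
  obtain ⟨f0, rfl⟩ := exists_ofFn hl0.len
  have hli0 := hl0.ind.li
  have hm : ∀ j, ∃ α ∈ exps σ D, f0 j = monomial α 1 := fun j => hl0m _ (by simp [List.mem_ofFn])
  choose α hα hf0 using hm
  -- classes are distinct
  have hinj : Function.Injective (fun j => cls θ (α j)) := by
    intro j k hjk
    by_contra hne
    have hjk' : cls θ (α j) = cls θ (α k) := hjk
    have h1 : ((((sgZ ε (α k) : ℤˣ) : ℤ) : ℚ) • (monomial (α j) 1 : A σ)
        - (((sgZ ε (α j) : ℤˣ) : ℤ) : ℚ) • monomial (α k) 1) ∈ I := by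
      rw [hI D]
      · rw [map_sub, phiQ_smul, phiQ_smul, phiQ_monomial, phiQ_monomial, smul_mon, smul_mon, hjk',
          sgn_eq, sgn_eq]
        push_cast
        rw [one_mul, one_mul, mul_comm, sub_self]
      · exact ((homogeneousSubmodule σ ℚ D).smul_mem _ (homog_monomial (hα j) 1)).sub
          ((homogeneousSubmodule σ ℚ D).smul_mem _ (homog_monomial (hα k) 1))
    rw [← mkL_eq_zero, map_sub, map_smul, map_smul, ← toA_monomial, ← toA_monomial, ← hf0, ← hf0] at h1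
    have h2 := Fintype.linearIndependent_iff.mp hli0
      (Pi.single j (((sgZ ε (α k) : ℤˣ) : ℤ) : ℚ) - Pi.single k (((sgZ ε (α j) : ℤˣ) : ℤ) : ℚ)) (by
        simp only [Pi.sub_apply, sub_smul, Finset.sum_sub_distrib, Pi.single_apply, ite_smul, zero_smul,
          Finset.sum_ite_eq', Finset.mem_univ, if_true]
        exact h1) j
    have h3 : (((sgZ ε (α k) : ℤˣ) : ℤ) : ℚ) = 0 := by
      simpa [Pi.single_apply, hne] using h2
    have : ((sgZ ε (α k) : ℤˣ) : ℤ) ≠ 0 := Units.ne_zero _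
    exact this (by exact_mod_cast h3)
  -- every class occurs
  have hcov : ∀ β ∈ exps σ D, ∃ j, cls θ (α j) = cls θ β := by
    intro β hβ
    have h1 : mkL I (monomial β 1) ∈ sp ℚ (fun F => mkL I (toA F)) (List.ofFn f0) :=
      hl0.spn (mem_gr (homog_monomial hβ 1))
    rw [sp_map_mkL] at h1
    obtain ⟨F', hF'1, hF'2⟩ := h1
    have h2 : (monomial β 1 : A σ) - F' ∈ I := by
      rw [← mkL_eq_zero, map_sub, hF'2, sub_self]
    have h3 : ((monomial β 1 : A σ) - F').IsHomogeneous D :=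
      (homog_monomial hβ 1).sub (sp_homog hl0.hom hF'1)
    rw [hI D _ h3, map_sub, sub_eq_zero] at h2
    have h4 := phiQ_mem θ ε hF'1
    rw [← h2, phiQ_monomial] at h4
    by_contra hcon
    push Not at hcon
    have h5 : ∀ x ∈ sp ℂ (fun G => ev θ ε G) (List.ofFn f0), GA.cf x (cls θ β) = 0 := by
      intro x hx
      unfold sp at hx
      induction hx using Submodule.span_induction with
      | mem x hx =>
        obtain ⟨G, hG, rfl⟩ := hx
        obtain ⟨j, rfl⟩ := List.mem_ofFn.mp hG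
        simp only
        rw [hf0, ev_monomial, GA.cf_mon_apply, if_neg (hcon j)]
      | zero => rw [GA.cf_zero]; rfl
      | add x y _ _ hx hy => rw [GA.cf_add, Finsupp.add_apply, hx, hy, add_zero]
      | smul c x _ hx => rw [GA.cf_smul, Finsupp.smul_apply, hx, smul_zero]
    have h6 := h5 _ h4
    rw [GA.cf_mon_apply, if_pos rfl] at h6
    simp [sgn_ne_zero] at h6
  exact ⟨α, hα, hinj, hcov⟩

/-- SPEC B1 -/
theorem gam_base_ge (θ : σ → N) (ε : σ → ℤˣ) {I : Ideal (A σ)}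
    (hI : ∀ D F, F.IsHomogeneous D → (F ∈ I ↔ phiQ θ ε F = 0)) (D : ℕ) : 1 ≤ Gam θ ε I D := by
  classical
  obtain ⟨α, hα, hinj, hcov⟩ := classes θ ε hI D
  have hW : WW θ ε I D = ⊥ := by
    unfold WW
    rw [Submodule.span_eq_bot]
    rintro x ⟨F, hF, hFh, rfl⟩
    exact (hI D F hFh).mp hF
  apply le_Gam
  intro l hl
  obtain ⟨f, rfl⟩ := exists_ofFn hl.len
  have hP : ∀ i j, ∃ z : ℤ, GA.cf (ev θ ε (f i)) (cls θ (α j)) = z := fun i j => cf_ev_int θ ε _ _
  choose P hP using hP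
  have hexp : ∀ i, ev θ ε (f i) = ∑ j, ((P i j : ℤ) : ℂ) • (GA.mon (cls θ (α j)) 1 : GA N) := by
    intro i
    apply GA.cf_inj
    ext χ
    rw [← GA.cfA_apply χ (∑ j, _), map_sum]
    simp only [GA.cfA_apply, smul_mon, mul_one, GA.cf_mon_apply]
    by_cases hχ : ∃ j, cls θ (α j) = χ
    · obtain ⟨j, rfl⟩ := hχ
      rw [Finset.sum_eq_single j]
      · rw [if_pos rfl, hP]
      · intro k _ hk; rw [if_neg (fun h => hk (hinj h))]
      · intro h; exact absurd (Finset.mem_univ _) h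
    · push Not at hχ
      rw [Finset.sum_eq_zero (fun j _ => by rw [if_neg (hχ j)])]
      by_contra h
      obtain ⟨β, hβ, hβχ⟩ := cf_ev_supp θ ε (hl.hom (f i) (by simp [List.mem_ofFn])) h
      obtain ⟨j, hj⟩ := hcov β hβ
      exact hχ j (hj.trans hβχ)
  have hdet : (Matrix.of P).det ≠ 0 := by
    intro h0
    have h1 : ((Matrix.of P).map (Int.castRingHom ℚ)).det = 0 := by
      rw [← RingHom.mapMatrix_apply, ← RingHom.map_det, h0]; simp
    obtain ⟨v, hv, hv2⟩ := Matrix.exists_vecMul_eq_zero_iff.mpr h1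
    have h2 : (∑ i, v i • toA (f i)) ∈ I := by
      rw [hI D]
      · rw [map_sum]
        simp only [phiQ_smul]
        have h3 : ∀ i, phiQ θ ε (toA (f i)) = ∑ j, ((P i j : ℤ) : ℂ) • (GA.mon (cls θ (α j)) 1 : GA N) :=
          fun i => hexp i
        simp only [h3, Finset.smul_sum, smul_smul]
        rw [Finset.sum_comm]
        apply Finset.sum_eq_zero
        intro j _
        rw [← Finset.sum_smul]
        have h4 := congrFun hv2 j
        simp only [Matrix.vecMul, dotProduct, Matrix.map_apply, Matrix.of_apply, Pi.zero_apply] at h4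
        have h5 : (∑ i, ((v i : ℚ) : ℂ) * ((P i j : ℤ) : ℂ)) = 0 := by
          have : (((∑ i, v i * (Int.castRingHom ℚ) (P i j) : ℚ)) : ℂ) = 0 := by rw [h4]; simp
          push_cast at this
          simpa using this
        rw [h5, zero_smul]
      · exact (homogeneousSubmodule σ ℚ D).sum_mem fun i _ =>
          (homogeneousSubmodule σ ℚ D).smul_mem _ (toA_homog (hl.hom (f i) (by simp [List.mem_ofFn])))
    rw [← mkL_eq_zero, map_sum] at h2
    simp only [map_smul] at h2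
    have h6 := Fintype.linearIndependent_iff.mp hl.ind.li v h2
    exact hv (funext h6)
  unfold vo
  rw [hW, List.map_ofFn]
  have h1 := vol_eq_det (⊥ : Submodule ℂ (GA N)) (fun j => (GA.mon (cls θ (α j)) 1 : GA N))
    (fun i => ev θ ε (f i)) ((Matrix.of P).map (fun z : ℤ => (z : ℂ))) (by
      intro i
      rw [hexp i]
      simp)
  rw [vol_orthonormal _ (orthonormal_mon hinj), mul_one] at h1
  have h2 : (⇑(ev θ ε) ∘ f) = fun i => ev θ ε (f i) := rfl
  rw [h2, h1]
  have h3 : ((Matrix.of P).map (fun z : ℤ => (z : ℂ))).det = (((Matrix.of P).det : ℤ) : ℂ) := by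
    have := (RingHom.map_det (Int.castRingHom ℂ) (Matrix.of P))
    simpa using this.symm
  rw [h3, Complex.norm_intCast]
  have h4 : (1:ℤ) ≤ |(Matrix.of P).det| := Int.one_le_abs hdet
  exact_mod_cast h4

/-- SPEC B2 -/
theorem gam_base_le (θ : σ → N) (ε : σ → ℤˣ) (I : Ideal (A σ)) (D : ℕ) : Gam θ ε I D ≤ 1 := by
  obtain ⟨l, hl, hlm⟩ := exists_BL I D
  refine (Gam_le θ ε hl).trans ?_
  have h1 := vo_mul_mon_le θ ε (I := I) (f := 1) (D := D) (D' := D) hlm
  have h2 : ‖ev θ ε (1 : MvPolynomial σ ℤ)‖ = 1 := by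
    rw [map_one, ← mon_zero_one, GA.norm_mon]; simp
  rw [h2, one_pow] at h1
  simpa using h1

/-- SPEC B3 -/
theorem mem_J0 (θ : σ → N) (ε : σ → ℤˣ) (D : ℕ) (F : A σ) (hF : F.IsHomogeneous D) :
    F ∈ J0 θ ε ↔ phiQ θ ε F = 0 := by
  constructor
  · intro h
    have h1 : J0 θ ε ≤ RingHom.ker (phiQ θ ε) := by
      unfold J0
      rw [Ideal.span_le]
      rintro G ⟨_, hG⟩
      exact hG
    exact h1 h
  · intro h
    exact Ideal.subset_span ⟨⟨D, hF⟩, h⟩

end Tysz
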