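import Pool.Agent.Tysz.Sys
open Finset MvPolynomial Module

namespace Tysz

variable {σ : Type} [Fintype σ] [DecidableEq σ]

/-- coefficient of a variable in an optional variable -/
def cnt (o : Option σ) (s : σ) : ℤ := if o = some s then 1 else 0

theorem oX_eq (o : Option σ) : (oX o : MvPolynomial σ ℤ) = ∑ s, C (cnt o s) * X s := by
  cases o with
  | none => simp [oX, cnt]
  | some i =>
    unfold oX cnt
    rw [Finset.sum_eq_single i]
    · simp
    · intro j _ hj; rw [if_neg (fun h => hj (Option.some.inj h).symm)]; simp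
    · intro h; exact absurd (Finset.mem_univ _) h

/-- coefficient of a variable in a degree one form -/
def lc (l : Option σ × Option σ × Option σ) (s : σ) : ℤ := cnt l.1 s + cnt l.2.1 s - cnt l.2.2 s

theorem lf_eq (l : Option σ × Option σ × Option σ) : lf l = ∑ s, C ((lc l s : ℤ) : ℚ) * X s := by
  unfold lf lin
  rw [oX_eq, oX_eq, oX_eq, ← Finset.sum_add_distrib, ← Finset.sum_sub_distrib]
  unfold toA
  rw [map_sum]
  refine Finset.sum_congr rfl fun s _ => ?_
  unfold lc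
  rw [map_sub, map_add, map_mul, map_mul, map_mul, map_X, map_C, map_C, map_C]
  rw [← add_mul, ← sub_mul, ← C_add, ← C_sub]
  congr 2
  simp only [eq_intCast]
  push_cast
  rfl

theorem sum_cnt_le (o : Option σ) : ∑ s, cnt o s ≤ 1 := by
  cases o with
  | none => simp [cnt]
  | some i =>
    unfold cnt
    rw [Finset.sum_eq_single i]
    · simp
    · intro j _ hj; rw [if_neg (fun h => hj (Option.some.inj h).symm)]
    · intro h; exact absurd (Finset.mem_univ _) h

theorem cnt_nonneg (o : Option σ) (s : σ) : 0 ≤ cnt o s := by unfold cnt; split_ifs <;> simp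

theorem sum_lc_le (l : Option σ × Option σ × Option σ) : ∑ s, |lc l s| ≤ 3 := by
  have h1 : ∀ s, |lc l s| ≤ cnt l.1 s + cnt l.2.1 s + cnt l.2.2 s := by
    intro s
    have a := cnt_nonneg l.1 s
    have b := cnt_nonneg l.2.1 s
    have c := cnt_nonneg l.2.2 s
    unfold lc
    rw [abs_le]; constructor <;> linarith
  refine (Finset.sum_le_sum fun s _ => h1 s).trans ?_
  rw [Finset.sum_add_distrib, Finset.sum_add_distrib]
  have a := sum_cnt_le l.1
  have b := sum_cnt_le l.2.1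
  have c := sum_cnt_le l.2.2
  linarith

noncomputable instance embFintype {I : Ideal (A σ)} [I.IsMaximal] [Module.Finite ℚ (A σ ⧸ I)] :
    Fintype ((A σ ⧸ I) →ₐ[ℚ] ℂ) := by
  letI := Ideal.Quotient.field I
  exact minpoly.AlgHom.fintype ℚ (A σ ⧸ I) ℂ

theorem card_emb {I : Ideal (A σ)} [I.IsMaximal] [Module.Finite ℚ (A σ ⧸ I)] :
    Fintype.card ((A σ ⧸ I) →ₐ[ℚ] ℂ) = finrank ℚ (A σ ⧸ I) := by
  letI := Ideal.Quotient.field I
  rw [Fintype.card_eq_nat_card]
  exact AlgHom.natCard_of_splits ℚ (A σ ⧸ I) ℂ (fun _ => IsAlgClosed.splits _)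

theorem exists_emb {I : Ideal (A σ)} [I.IsMaximal] [Module.Finite ℚ (A σ ⧸ I)] :
    Nonempty ((A σ ⧸ I) →ₐ[ℚ] ℂ) := by
  letI := Ideal.Quotient.field I
  exact ⟨IsAlgClosed.lift⟩

namespace Sys
variable {i0 : σ} (S : Sys σ i0)

/-- the exceptional case -/
theorem exceptional (hcard : Fintype.card σ = 3) {I Q : Ideal (A σ)} (hI : I.IsPrime)
    (hQ : Q.IsPrime) (hfull : S.Full Q) (htd : td Q = 1) {l} (hl : l ∈ S.L) (hlI : lf l ∉ I) :
    Real.log ‖S.P‖ ≤ 2 * Real.log 2 := by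
  haveI := hQ
  obtain ⟨n, i, Q', h1, h2, h3, h4, h5, h6, h7, h8⟩ := td_cut_N (I := Q) (by omega) 2
  haveI := h4
  obtain ⟨hmax, hfin⟩ := td_zero (I := Q') (by omega)
  haveI := hmax
  haveI := hfin
  obtain ⟨τ⟩ := exists_emb (I := Q')
  set z := pt τ with hz
  have hv : ∀ G ∈ Q', aeval z G = 0 := fun G hG => van_pt τ hG
  have hfull' : S.Full Q' := hfull.mono S h5
  have hsol := S.sol hfull' hv
  have hmin := S.min_of_full hfull' hv
  have hz0 : z i0 = 1 := hsol.1
  -- the value at i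
  have hzi : z i ^ n = 2 := by
    have := hv _ h6
    rw [map_sub, map_pow, aeval_X, map_ofNat, sub_eq_zero] at this
    exact this
  have hsq : ‖z i‖ ≤ Real.sqrt 2 := by
    by_contra hcon
    push Not at hcon
    have h9 : ‖z i‖ ^ n = 2 := by rw [← norm_pow, hzi]; simp
    have h10 : Real.sqrt 2 ^ 2 = 2 := Real.sq_sqrt (by norm_num)
    have h11 : 1 ≤ ‖z i‖ := by
      have : (1:ℝ) ≤ Real.sqrt 2 := by
        rw [Real.one_le_sqrt]; norm_num
      linarith
    have h12 : ‖z i‖ ^ 2 ≤ ‖z i‖ ^ n := pow_le_pow_right₀ h11 h1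
    have h13 : Real.sqrt 2 ^ 2 < ‖z i‖ ^ 2 := pow_lt_pow_left₀ hcon (Real.sqrt_nonneg _) (by norm_num)
    linarith
  have hX0 : Ideal.Quotient.mk Q (X i0) = 1 := by
    rw [← map_one (Ideal.Quotient.mk Q)]
    exact Ideal.Quotient.eq.mpr hfull.hX
  have hne : i ≠ i0 := by
    rintro rfl
    rw [hX0] at h3
    exact h3 isAlgebraic_one
  -- the third variable
  obtain ⟨j, hj⟩ : ∃ j, Finset.univ \ {i0, i} = {j} := by
    rw [← Finset.card_eq_one, Finset.card_sdiff_of_subset (Finset.subset_univ _), Finset.card_univ, hcard,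
      Finset.card_pair hne.symm]
  have huniv : (Finset.univ : Finset σ) = {i0, i, j} := by
    have := Finset.sdiff_union_of_subset (Finset.subset_univ ({i0, i} : Finset σ))
    rw [hj] at this
    rw [← this]
    ext x; simp only [Finset.mem_union, Finset.mem_insert, Finset.mem_singleton]; tauto
  have hj' : j ∉ ({i0, i} : Finset σ) := by
    have : j ∈ Finset.univ \ {i0, i} := by rw [hj]; simp
    exact (Finset.mem_sdiff.mp this).2
  have hji0 : j ≠ i0 := fun h => hj' (by simp [h])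
  have hji : j ≠ i := fun h => hj' (by simp [h])
  have hsum3 : ∀ {M : Type} [AddCommMonoid M] (f : σ → M), ∑ s, f s = f i0 + (f i + f j) := by
    intro M _ f
    rw [huniv, Finset.sum_insert, Finset.sum_insert, Finset.sum_singleton]
    · simp only [Finset.mem_singleton]; exact hji.symm
    · simp only [Finset.mem_insert, Finset.mem_singleton, not_or]; exact ⟨hne.symm, hji0.symm⟩
  have hlQ := hfull.hL l hl
  have hlc := sum_lc_le l
  rw [hsum3] at hlc
  have hlfe := lf_eq l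
  rw [hsum3] at hlfe
  have hcj : lc l j ≠ 0 := by
    intro hcj
    rw [hcj] at hlfe
    have h9 := Ideal.Quotient.eq_zero_iff_mem.mpr hlQ
    rw [hlfe, map_add, map_add, map_mul, map_mul, map_mul, hX0] at h9
    simp only [Int.cast_zero, map_zero, zero_mul, add_zero, mul_one] at h9
    have h10 : lc l i = 0 := by
      by_contra hci
      apply h3
      refine ⟨Polynomial.C ((lc l i0 : ℤ) : ℚ) + Polynomial.C ((lc l i : ℤ) : ℚ) * Polynomial.X, ?_, ?_⟩
      · intro h0
        have h11 := congrArg (fun g => Polynomial.coeff g 1) h0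
        simp only [Polynomial.coeff_add, Polynomial.coeff_C_mul, Polynomial.coeff_X_one, mul_one,
          Polynomial.coeff_zero] at h11
        rw [Polynomial.coeff_C_of_ne_zero one_ne_zero, zero_add] at h11
        exact hci (by exact_mod_cast h11)
      · rw [map_add, map_mul, Polynomial.aeval_C, Polynomial.aeval_C, Polynomial.aeval_X]
        exact h9
    rw [h10] at h9
    simp only [Int.cast_zero, map_zero, zero_mul, add_zero] at h9
    have h11 : lc l i0 = 0 := by
      by_contra hc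
      have h12 : (C ((lc l i0 : ℤ) : ℚ) : A σ) ∈ Q := Ideal.Quotient.eq_zero_iff_mem.mp h9
      apply hQ.ne_top
      apply Ideal.eq_top_of_isUnit_mem _ h12
      apply IsUnit.map
      rw [isUnit_iff_ne_zero]
      exact_mod_cast hc
    apply hlI
    rw [hlfe, h10, h11]
    simp
  have hzl : ((lc l i0 : ℤ) : ℂ) + (((lc l i : ℤ) : ℂ) * z i + ((lc l j : ℤ) : ℂ) * z j) = 0 := by
    have h9 := hsol.2.2 l hl
    rw [hlfe] at h9
    simp only [map_add, map_mul, aeval_X, aeval_C, hz0, mul_one] at h9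
    simpa using h9
  have hzj : ‖z j‖ ≤ 2 * Real.sqrt 2 := by
    have h9 : ((lc l j : ℤ) : ℂ) * z j = -(((lc l i0 : ℤ) : ℂ) + ((lc l i : ℤ) : ℂ) * z i) := by
      linear_combination hzl
    have h10 := congrArg norm h9
    rw [norm_mul, norm_neg, Complex.norm_intCast] at h10
    have h11 : ‖(((lc l i0 : ℤ) : ℂ) + ((lc l i : ℤ) : ℂ) * z i)‖ ≤ |((lc l i0 : ℤ) : ℝ)| + |((lc l i : ℤ) : ℝ)| * ‖z i‖ := by
      refine (norm_add_le _ _).trans ?_
      rw [norm_mul, Complex.norm_intCast, Complex.norm_intCast]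
    have h12 : (1:ℝ) ≤ |((lc l j : ℤ) : ℝ)| := by
      have : (1:ℤ) ≤ |lc l j| := Int.one_le_abs hcj
      exact_mod_cast this
    have h13 : |((lc l i0 : ℤ) : ℝ)| + (|((lc l i : ℤ) : ℝ)| + |((lc l j : ℤ) : ℝ)|) ≤ 3 := by
      exact_mod_cast hlc
    have h14 : (1:ℝ) ≤ Real.sqrt 2 := by rw [Real.one_le_sqrt]; norm_num
    have h15 := abs_nonneg ((lc l i0 : ℤ) : ℝ)
    have h16 := abs_nonneg ((lc l i : ℤ) : ℝ)
    have h17 := norm_nonneg (z j)
    nlinarith
  have hzn : ‖z‖ ≤ 2 * Real.sqrt 2 := by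
    have h14 : (1:ℝ) ≤ Real.sqrt 2 := by rw [Real.one_le_sqrt]; norm_num
    rw [pi_norm_le_iff_of_nonneg (by positivity)]
    intro s
    have hs : s ∈ (Finset.univ : Finset σ) := Finset.mem_univ s
    rw [huniv] at hs
    simp only [Finset.mem_insert, Finset.mem_singleton] at hs
    rcases hs with rfl | rfl | rfl
    · rw [hz0, norm_one]; linarith
    · linarith
    · exact hzj
  have hcmp := S.norm_cmp (by omega) hz0 hmin
  rw [hcard] at hcmp
  have hz1 := one_le_norm hz0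
  have h20 := Real.log_le_log (by linarith) hzn
  rw [Real.log_mul (by norm_num) (by positivity), Real.log_sqrt (by norm_num)] at h20
  norm_num at hcmp
  linarith

/-- case (a): the point is not isolated -/
theorem caseA (hcard : 2 ≤ Fintype.card σ) {Is : Ideal (A σ)} (hIs : Is.IsPrime) (hfull : S.Full Is)
    (hle : Is ≤ S.PP) (htd : 1 ≤ td Is) :
    Real.log ‖S.P‖ ≤ 2 ^ (Fintype.card σ - 2) * Real.log 2 := by
  obtain ⟨q, ρ, hρ, hind, hspan⟩ := exists_rows i0 S.M
  obtain ⟨I, g1, g2, g3, g4, g5, g6, g7, g8⟩ := S.start ρ hρ hspan hIs hfull hle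
  obtain ⟨k, Q, k1, k2, k3, k4, k5, k6, k7⟩ := Lcuts (thR (latt i0 (Set.range ρ))) 1 S.L hIs
    (fun l hl => hfull.hL l hl) (td I) I g1 g2 rfl
  have hfQ : S.Full Q := ⟨k2 g3, fun t ht => k2 (g4 t ht), k4⟩
  have hdQ : 1 ≤ td Q := htd.trans (td_mono k3)
  set d := td Q with hd
  obtain ⟨q', hq'⟩ : ∃ q', q' + k + d + 1 = Fintype.card σ := ⟨Fintype.card σ - 1 - td I, by omega⟩
  have hq'q : q' ≤ q := by omega
  by_cases hexc : q' = 0 ∧ k = 1 ∧ d = 1
  · obtain ⟨e1, e2, e3⟩ := hexc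
    obtain ⟨l, hl, hlI⟩ := k7 (by omega)
    have := S.exceptional (by omega) g1 k1 hfQ e3 hl hlI
    have h3 : Fintype.card σ - 2 = 1 := by omega
    rw [h3, pow_one]; exact this
  · have hnum := num_a q' k d hdQ hexc
    set gap : ℝ := 2 ^ (q' + k + d - 1) * Real.log 2
      - (Real.log (q' + k + d : ℕ) / 2 + 2 ^ q' * k * Real.log 3) with hgap
    have hgap0 : 0 < gap := by linarith
    have hl3 : 0 < Real.log 3 := Real.log_pos (by norm_num)
    obtain ⟨N0, hN0⟩ := exists_nat_gt (2 ^ q' * d * Real.log 3 / gap)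
    obtain ⟨Ns, Qf, n1, n2, n3, n4, n5, n6⟩ := Ncuts (thR (latt i0 (Set.range ρ))) 1 d Q k1 hfQ.hX rfl (N0 + 1)
    haveI := n1
    obtain ⟨hmax, hfin⟩ := td_zero (I := Qf) n3
    haveI := hmax
    haveI := hfin
    have hfullf : S.Full Qf := hfQ.mono S n2
    have hch := k5.append n6
    have hAB := hch.AB (i0 := i0) (J' := J0 (thR (latt i0 (Set.range ρ))) 1) (mem_J0 _ _) g6 (fun D => le_rfl)
      hq'q (toric_rank i0 ρ hind) (by omega) hmax hfullf.hX
    -- lower bound of the sum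
    set x : ℝ := Real.log ‖S.P‖ - Real.log ((Fintype.card σ - 1 : ℕ) : ℝ) / 2 with hx
    have hlow : ∀ τ : (A σ ⧸ Qf) →ₐ[ℚ] ℂ, x ≤ Real.log ‖pt τ‖ := by
      intro τ
      have hv : ∀ G ∈ Qf, aeval (pt τ) G = 0 := fun G hG => van_pt τ hG
      have := S.norm_cmp hcard (S.sol hfullf hv).1 (S.min_of_full hfullf hv)
      rw [hx]; linarith
    have hsum : (finrank ℚ (A σ ⧸ Qf) : ℝ) * x ≤ ∑ τ : (A σ ⧸ Qf) →ₐ[ℚ] ℂ, Real.log ‖pt τ‖ := by
      have := Finset.card_nsmul_le_sum Finset.univ (fun τ : (A σ ⧸ Qf) →ₐ[ℚ] ℂ => Real.log ‖pt τ‖) x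
        (fun τ _ => hlow τ)
      rw [Finset.card_univ, card_emb, nsmul_eq_mul] at this
      exact this
    have hcard1 : Fintype.card σ - 1 = q' + k + d := by omega
    have hcard2 : Fintype.card σ - 2 = q' + k + d - 1 := by omega
    rw [hcard1] at hx
    rw [hcard2]
    by_cases hx0 : x ≤ 0
    · have h0 : 0 ≤ 2 ^ q' * k * Real.log 3 := by positivity
      linarith
    · push Not at hx0
      have hdvd := prod_dvd hmax (fun n hn => (n5 n hn).2)
      have hfr : 0 < finrank ℚ (A σ ⧸ Qf) := by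
        haveI : Nontrivial (A σ ⧸ Qf) := Ideal.Quotient.nontrivial_iff.mpr n1.ne_top
        exact Module.finrank_pos
      have hle2 : ((∏ n ∈ Ns, n : ℕ) : ℝ) ≤ finrank ℚ (A σ ⧸ Qf) := by exact_mod_cast Nat.le_of_dvd hfr hdvd
      have hEpos : (0:ℝ) < ∏ n ∈ Ns, (n : ℝ) :=
        Finset.prod_pos fun n hn => by exact_mod_cast (n5 n hn).2.1.pos
      push_cast at hle2
      have h1 : (∏ n ∈ Ns, (n : ℝ)) * x ≤ 2 ^ q' * (1 * ∏ n ∈ Ns, (n : ℝ)) * (k * Real.log 3 + ∑ n ∈ Ns, Real.log 3 / n) :=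
        (mul_le_mul_of_nonneg_right hle2 hx0.le).trans (hsum.trans hAB)
      have h2 : x ≤ 2 ^ q' * (k * Real.log 3 + ∑ n ∈ Ns, Real.log 3 / n) := by
        have h3 : (∏ n ∈ Ns, (n : ℝ)) * x ≤ (∏ n ∈ Ns, (n : ℝ)) * (2 ^ q' * (k * Real.log 3 + ∑ n ∈ Ns, Real.log 3 / n)) := by
          refine h1.trans (le_of_eq ?_); ring
        exact le_of_mul_le_mul_left h3 hEpos
      have h3 : ∑ n ∈ Ns, Real.log 3 / (n : ℝ) ≤ d * (Real.log 3 / (N0 + 1)) := by
        have h4 : ∀ n ∈ Ns, Real.log 3 / (n : ℝ) ≤ Real.log 3 / (N0 + 1) := by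
          intro n hn
          have h5 := (n5 n hn).1
          have h6 : ((N0 + 1 : ℕ) : ℝ) ≤ n := by exact_mod_cast h5
          push_cast at h6
          exact div_le_div_of_nonneg_left hl3.le (by positivity) h6
        have := Finset.sum_le_sum h4
        rw [Finset.sum_const, n4, nsmul_eq_mul] at this
        exact this
      have h4 : 2 ^ q' * (d * (Real.log 3 / (N0 + 1))) ≤ gap := by
        have h5 : 2 ^ q' * (d * (Real.log 3 / ((N0:ℝ) + 1))) = 2 ^ q' * d * Real.log 3 / (N0 + 1) := by ring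
        rw [h5, div_le_iff₀ (by positivity)]
        rw [div_lt_iff₀ hgap0] at hN0
        nlinarith
      have h5 : 2 ^ q' * ∑ n ∈ Ns, Real.log 3 / (n : ℝ) ≤ gap :=
        (mul_le_mul_of_nonneg_left h3 (by positivity)).trans h4
      have h6 : x ≤ 2 ^ q' * k * Real.log 3 + gap := by
        calc x ≤ 2 ^ q' * (k * Real.log 3 + ∑ n ∈ Ns, Real.log 3 / n) := h2
          _ = 2 ^ q' * k * Real.log 3 + 2 ^ q' * ∑ n ∈ Ns, Real.log 3 / (n : ℝ) := by ring
          _ ≤ _ := by linarith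
      rw [hx, hgap] at h6
      linarith

end Sys
end Tysz
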