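import Mathlib
open Finset
namespace Tysz

open Polynomial in
/-- `X^N - 2` is irreducible over `ℚ` for `N` prime. -/
theorem irreducible_X_pow_sub_two {N : ℕ} (hN : N.Prime) :
    Irreducible ((X : ℚ[X]) ^ N - C 2) := by
  apply X_pow_sub_C_irreducible_of_prime hN
  intro b hb
  have hb0 : b ≠ 0 := by
    rintro rfl
    rw [zero_pow hN.ne_zero] at hb
    norm_num at hb
  have h1 : padicValRat 2 (b ^ N) = N * padicValRat 2 b := padicValRat.pow (p := 2) b
  rw [hb] at h1
  have h2 : padicValRat 2 (2 : ℚ) = 1 := by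
    have := padicValRat.self (p := 2) (by norm_num)
    simpa using this
  rw [h2] at h1
  have h3 : (N : ℤ) ∣ 1 := ⟨_, h1⟩
  have h4 := Int.eq_one_of_dvd_one (by positivity) h3
  have := hN.one_lt
  omega

open Polynomial in
/-- SPEC U. -/
theorem exists_prime_not_isUnit {B : Type} [CommRing B] [IsDomain B] [Algebra ℚ B]
    [Algebra.FiniteType ℚ B] (x : B) (hx : Transcendental ℚ x) (N0 : ℕ) :
    ∃ N, N0 ≤ N ∧ N.Prime ∧ ¬ IsUnit (x ^ N - 2) := by
  classical
  let _ : Algebra ℚ[X] B := (aeval (R := ℚ) x).toRingHom.toAlgebra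
  have hmap : ∀ p : ℚ[X], algebraMap ℚ[X] B p = aeval x p := fun p => rfl
  have _ : IsScalarTower ℚ ℚ[X] B := IsScalarTower.of_algebraMap_eq (fun r => by
    rw [hmap]; simp)
  have hinj : Function.Injective (algebraMap ℚ[X] B) := by
    have := transcendental_iff_injective.mp hx
    exact this
  haveI hft : Algebra.FiniteType ℚ[X] B :=
    Algebra.FiniteType.of_restrictScalars_finiteType ℚ ℚ[X] B
  let K := FractionRing ℚ[X]
  let S := TensorProduct ℚ[X] K B
  haveI : Algebra.FiniteType K S := inferInstance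
  haveI : Nontrivial S := by
    have h1 : Function.Injective (LinearMap.lTensor K (Algebra.linearMap ℚ[X] B)) :=
      Module.Flat.lTensor_preserves_injective_linearMap _ hinj
    haveI : Nontrivial (TensorProduct ℚ[X] K ℚ[X]) :=
      (TensorProduct.rid ℚ[X] K).symm.injective.nontrivial
    exact h1.nontrivial
  obtain ⟨m, hm⟩ := Ideal.exists_maximal S
  let L := S ⧸ m
  let _ : Field L := Ideal.Quotient.field m
  haveI : Module.Finite K L := by
    haveI : Algebra.FiniteType K L := inferInstance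
    exact finite_of_finite_type_of_isJacobsonRing K L
  let π : B →ₐ[ℚ[X]] L := (Ideal.Quotient.mkₐ ℚ[X] m).comp Algebra.TensorProduct.includeRight
  haveI : IsScalarTower ℚ[X] K L := inferInstance
  have hKL : Function.Injective (algebraMap K L) := (algebraMap K L).injective
  have hAL : Function.Injective (algebraMap ℚ[X] L) := by
    rw [IsScalarTower.algebraMap_eq ℚ[X] K L]
    exact hKL.comp (IsFractionRing.injective ℚ[X] K)
  -- every element of `L` becomes integral over `ℚ[X]` after multiplication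
  have hmul : ∀ z : L, ∃ y : ℚ[X], y ≠ 0 ∧ IsIntegral ℚ[X] (y • z) := by
    intro z
    have h1 : IsAlgebraic K z := Algebra.IsAlgebraic.isAlgebraic z
    have h2 : IsAlgebraic ℚ[X] z := (IsFractionRing.isAlgebraic_iff ℚ[X] K L).mpr h1
    exact h2.exists_integral_multiple
  choose y hy0 hyi using hmul
  obtain ⟨s, hs⟩ := hft.out
  set a : ℚ[X] := ∏ b ∈ s, y (π b) with ha
  have ha0 : a ≠ 0 := Finset.prod_ne_zero_iff.mpr (fun b _ => hy0 _)
  have hall : ∀ b : B, ∃ n : ℕ, IsIntegral ℚ[X] (a ^ n • π b) := by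
    intro b
    have hb : b ∈ Algebra.adjoin ℚ[X] (s : Set B) := by rw [hs]; trivial
    induction hb using Algebra.adjoin_induction with
    | mem b hb =>
      refine ⟨1, ?_⟩
      rw [pow_one, ha, ← Finset.prod_erase_mul _ _ (Finset.mem_coe.mp hb), mul_smul]
      exact (hyi (π b)).smul _
    | algebraMap r =>
      refine ⟨0, ?_⟩
      rw [pow_zero, one_smul, AlgHom.commutes]
      exact isIntegral_algebraMap
    | add u v _ _ hu hv =>
      obtain ⟨n, hn⟩ := hu
      obtain ⟨k, hk⟩ := hv
      refine ⟨n + k, ?_⟩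
      rw [map_add, smul_add]
      refine IsIntegral.add ?_ ?_
      · rw [pow_add, mul_comm, mul_smul]; exact hn.smul _
      · rw [pow_add, mul_smul]; exact hk.smul _
    | mul u v _ _ hu hv =>
      obtain ⟨n, hn⟩ := hu
      obtain ⟨k, hk⟩ := hv
      refine ⟨n + k, ?_⟩
      have : a ^ (n + k) • π (u * v) = (a ^ n • π u) * (a ^ k • π v) := by
        rw [map_mul, smul_mul_smul_comm, pow_add]
      rw [this]
      exact hn.mul hk
  obtain ⟨N, hN1, hN⟩ := Nat.exists_infinite_primes (max N0 (a.natDegree + 1))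
  refine ⟨N, le_trans (le_max_left _ _) hN1, hN, ?_⟩
  intro hunit
  obtain ⟨c, hc⟩ := hunit.exists_right_inv
  obtain ⟨n, hn⟩ := hall c
  set P : ℚ[X] := X ^ N - C 2 with hP
  have hPx : algebraMap ℚ[X] B P = x ^ N - 2 := by
    rw [hmap, hP]
    simp only [map_sub, map_pow, aeval_X, aeval_C, map_ofNat]
  have hirr : Irreducible P := irreducible_X_pow_sub_two hN
  have hπc : algebraMap ℚ[X] L P * π c = 1 := by
    rw [← π.commutes P, hPx, ← map_mul, hc, map_one]
  have hP0 : P ≠ 0 := hirr.ne_zero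
  have hPK : algebraMap ℚ[X] K P ≠ 0 := by
    rw [Ne, IsFractionRing.to_map_eq_zero_iff]; exact hP0
  -- `a ^ n • π c` is the image of `a ^ n / P`
  have h3 : a ^ n • π c = algebraMap K L (algebraMap ℚ[X] K (a ^ n) / algebraMap ℚ[X] K P) := by
    have h4 : algebraMap ℚ[X] L P ≠ 0 := by
      intro h; rw [h, zero_mul] at hπc; exact zero_ne_one hπc
    rw [map_div₀, ← IsScalarTower.algebraMap_apply, ← IsScalarTower.algebraMap_apply,
      Algebra.smul_def, eq_div_iff h4, mul_assoc, mul_comm (π c), hπc, mul_one]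
  rw [h3, isIntegral_algebraMap_iff hKL] at hn
  obtain ⟨g, hg⟩ := IsIntegrallyClosed.isIntegral_iff.mp hn
  have h5 : a ^ n = P * g := by
    apply IsFractionRing.injective ℚ[X] K
    rw [map_mul, hg, mul_div_cancel₀ _ hPK]
  have h6 : P ∣ a := hirr.prime.dvd_of_dvd_pow ⟨g, h5⟩
  have h7 : P.natDegree ≤ a.natDegree := natDegree_le_of_dvd h6 ha0
  have h8 : P.natDegree = N := by
    rw [hP]; exact natDegree_X_pow_sub_C
  have h9 := le_trans (le_max_right _ _) hN1
  omega

end Tysz
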