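import Mathlib

/-!
The transcendence degree drops by at most one along a minimal prime over a principal ideal.
-/

namespace Tysz

open MvPolynomial

/-- A nonconstant polynomial: the other variables stay independent modulo it. -/
theorem trdeg_quot_ge {s : ℕ} (g : MvPolynomial (Fin s) ℚ) (hg : g ≠ 0) (hgu : ¬ IsUnit g)
    (P : Ideal (MvPolynomial (Fin s) ℚ)) [P.IsPrime] (hP : P = Ideal.span {g}) :
    (s : Cardinal) ≤ Algebra.trdeg ℚ (MvPolynomial (Fin s) ℚ ⧸ P) + 1 := by
  obtain ⟨i, hi⟩ : ∃ i, i ∈ g.vars := by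
    by_contra hcon
    push Not at hcon
    have h1 : g.vars = ∅ := Finset.eq_empty_of_forall_notMem hcon
    have h2 := vars_eq_empty_iff_eq_C.1 h1
    have h3 : g.coeff 0 ≠ 0 := by
      intro h4
      rw [h4, C_0] at h2
      exact hg h2
    apply hgu
    rw [h2]
    exact (isUnit_iff_ne_zero.2 h3).map C
  have hdeg : g.degreeOf i ≠ 0 := mem_vars_iff_degreeOf_ne_zero.1 hi
  have hind : AlgebraicIndependent ℚ
      (fun j : {j : Fin s // j ≠ i} => Ideal.Quotient.mk P (X j.1)) := by
    rw [algebraicIndependent_iff]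
    intro h hh
    have h1 : aeval (fun j : {j : Fin s // j ≠ i} => Ideal.Quotient.mk P (X j.1)) h =
        Ideal.Quotient.mk P (rename Subtype.val h) := by
      have := comp_aeval_apply (fun j : {j : Fin s // j ≠ i} => (X j.1 : MvPolynomial (Fin s) ℚ))
        (Ideal.Quotient.mkₐ ℚ P) h
      rw [rename_eq_aeval]
      exact this.symm
    rw [h1, Ideal.Quotient.eq_zero_iff_mem, hP, Ideal.mem_span_singleton] at hh
    by_contra hne
    have hne' : rename (Subtype.val : {j : Fin s // j ≠ i} → Fin s) h ≠ 0 := by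
      intro h2
      exact hne (rename_injective _ Subtype.val_injective (h2.trans (map_zero _).symm))
    obtain ⟨q, hq⟩ := hh
    have hq0 : q ≠ 0 := by
      rintro rfl
      rw [mul_zero] at hq
      exact hne' hq
    have h3 := degreeOf_mul_eq (n := i) hg hq0
    rw [← hq] at h3
    have h4 : degreeOf i (rename (Subtype.val : {j : Fin s // j ≠ i} → Fin s) h) = 0 := by
      by_contra h5
      have h6 := vars_rename (Subtype.val : {j : Fin s // j ≠ i} → Fin s) h
        (mem_vars_iff_degreeOf_ne_zero.2 h5)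
      obtain ⟨j, -, hj⟩ := Finset.mem_image.1 h6
      exact j.2 hj
    omega
  have hc := hind.cardinalMk_le_trdeg
  have hcard : Fintype.card {j : Fin s // j ≠ i} + 1 = s := by
    have := Fintype.card_subtype_compl (fun j : Fin s => j = i)
    rw [Fintype.card_subtype_eq, Fintype.card_fin] at this
    have h0 : 0 < s := i.pos
    rw [this]
    omega
  rw [Cardinal.mk_fintype] at hc
  calc (s : Cardinal) = ((Fintype.card {j : Fin s // j ≠ i} + 1 : ℕ) : Cardinal) := by rw [hcard]
    _ = (Fintype.card {j : Fin s // j ≠ i} : Cardinal) + 1 := by push_cast; rfl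
    _ ≤ _ := by gcongr

/-- SPEC K. -/
theorem trdeg_le_quotient_add_one {B : Type} [CommRing B] [IsDomain B] [Algebra ℚ B]
    [Algebra.FiniteType ℚ B] (f : B) (p : Ideal B) (hp : p ∈ (Ideal.span {f}).minimalPrimes) :
    Algebra.trdeg ℚ B ≤ Algebra.trdeg ℚ (B ⧸ p) + 1 := by
  have hpp : p.IsPrime := hp.isPrime
  have hnoeth : IsNoetherianRing B := Algebra.FiniteType.isNoetherianRing ℚ B
  by_cases hp0 : p = ⊥
  · subst hp0
    have e : (B ⧸ (⊥ : Ideal B)) ≃ₐ[ℚ] B := AlgEquiv.quotientBot ℚ B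
    rw [← e.trdeg_eq]
    exact le_self_add
  obtain ⟨s, g, hinj, hint⟩ := exists_integral_inj_algHom_of_fg ℚ B
  let _ : Algebra (MvPolynomial (Fin s) ℚ) B := g.toRingHom.toAlgebra
  have : IsScalarTower ℚ (MvPolynomial (Fin s) ℚ) B := IsScalarTower.of_algebraMap_eq fun c =>
    (g.commutes c).symm
  have : Algebra.IsIntegral (MvPolynomial (Fin s) ℚ) B := ⟨hint⟩
  have : FaithfulSMul (MvPolynomial (Fin s) ℚ) B :=
    (faithfulSMul_iff_algebraMap_injective _ _).2 hinj
  have hB : Algebra.trdeg ℚ B = s := by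
    have h1 := trdeg_add_eq ℚ (MvPolynomial (Fin s) ℚ) (A := B)
    have h2 : Algebra.trdeg (MvPolynomial (Fin s) ℚ) B = 0 := trdeg_eq_zero_iff.2 inferInstance
    rw [h2, add_zero, MvPolynomial.trdeg_of_isDomain] at h1
    rw [← h1]
    simp
  set P : Ideal (MvPolynomial (Fin s) ℚ) := p.under (MvPolynomial (Fin s) ℚ) with hP
  have hPp : P.IsPrime := inferInstance
  have hP0 : P ≠ ⊥ := by
    intro h0
    exact hp0 (Ideal.eq_bot_of_comap_eq_bot h0)
  -- an irreducible element of `P`
  obtain ⟨g0, hg0P, hg0⟩ : ∃ g0 ∈ P, Prime g0 := hPp.exists_mem_prime_of_ne_bot hP0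
  have hQp : (Ideal.span {g0}).IsPrime := (Ideal.span_singleton_prime hg0.ne_zero).2 hg0
  have hle : Ideal.span {g0} ≤ P := (Ideal.span_singleton_le_iff_mem P).2 hg0P
  -- no prime strictly between
  have hPQ : P = Ideal.span {g0} := by
    by_contra hne
    have hlt : Ideal.span {g0} < P := lt_of_le_of_ne hle (Ne.symm hne)
    have hlo : p.LiesOver P := ⟨rfl⟩
    obtain ⟨q, hqp, hqprime, hq⟩ := Ideal.exists_ideal_lt_liesOver_of_lt (S := B) p hlt
    have hq0 : (⊥ : Ideal B) < q := by
      rw [bot_lt_iff_ne_bot]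
      rintro rfl
      have h1 := hq.over
      have h2 : g0 ∈ Ideal.under (MvPolynomial (Fin s) ℚ) (⊥ : Ideal B) := by
        rw [← h1]
        exact Ideal.mem_span_singleton_self g0
      have h3 : g g0 = 0 := h2
      exact hg0.ne_zero (hinj (h3.trans (map_zero g).symm))
    have h1 := Ideal.height_add_one_le_of_lt_of_isPrime hq0
    have h2 := Ideal.height_add_one_le_of_lt_of_isPrime hqp
    have h3 := Ideal.height_le_one_of_isPrincipal_of_mem_minimalPrimes (Ideal.span {f}) p hp
    have h4 : (2 : ℕ∞) ≤ 1 := by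
      calc (2 : ℕ∞) = 0 + 1 + 1 := by norm_num
        _ ≤ (⊥ : Ideal B).height + 1 + 1 := by gcongr; exact bot_le
        _ ≤ q.height + 1 := by gcongr
        _ ≤ p.height := h2
        _ ≤ 1 := h3
    exact absurd h4 (by norm_num)
  have h5 := trdeg_quot_ge g0 hg0.ne_zero hg0.not_isUnit P hPQ
  rw [hB]
  refine h5.trans ?_
  gcongr
  -- the quotient embeds
  let ψ : (MvPolynomial (Fin s) ℚ ⧸ P) →ₐ[ℚ] B ⧸ p :=
    Ideal.quotientMapₐ p g (le_refl (p.comap g))
  have hψ : Function.Injective ψ := Ideal.quotientMap_injective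
  exact trdeg_le_of_injective ψ hψ

end Tysz
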