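import Pool.Agent.Tysz.Poly
import Pool.Agent.Tysz.TrDrop
import Pool.Agent.Tysz.NonUnit
open Finset MvPolynomial Module

namespace Tysz

variable {σ : Type} [Fintype σ] [DecidableEq σ]

/-- transcendence degree of the quotient -/
noncomputable def td (I : Ideal (A σ)) : ℕ := Cardinal.toNat (Algebra.trdeg ℚ (A σ ⧸ I))

theorem td_cast (I : Ideal (A σ)) : ((td I : ℕ) : Cardinal) = Algebra.trdeg ℚ (A σ ⧸ I) :=
  Cardinal.cast_toNat_of_lt_aleph0 trdeg_lt_aleph0_of_finiteType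

theorem td_mono {I I' : Ideal (A σ)} (h : I ≤ I') : td I' ≤ td I := by
  have h1 := trdeg_le_of_surjective (Ideal.Quotient.factorₐ ℚ h) (Ideal.Quotient.factor_surjective h)
  rw [← td_cast, ← td_cast] at h1
  exact_mod_cast h1

theorem td_bot : td (⊥ : Ideal (A σ)) = Fintype.card σ := by
  have h1 := (AlgEquiv.quotientBot ℚ (A σ)).trdeg_eq
  rw [MvPolynomial.trdeg_of_isDomain] at h1
  unfold td
  rw [h1]; simp

theorem td_strict {I I' : Ideal (A σ)} [hI : I.IsPrime] [hI' : I'.IsPrime] (h : I < I') :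
    td I' + 1 ≤ td I := by
  by_contra hcon
  push Not at hcon
  have hle : td I ≤ td I' := by omega
  obtain ⟨ι, x, hx⟩ := exists_isTranscendenceBasis' ℚ (A σ ⧸ I')
  have hcard := hx.cardinalMk_eq_trdeg
  rw [← td_cast] at hcard
  haveI : Finite ι := Cardinal.lt_aleph0_iff_finite.mp (by rw [hcard]; exact Cardinal.natCast_lt_aleph0)
  set π := Ideal.Quotient.factorₐ ℚ h.le with hπ
  have hsurj : Function.Surjective π := Ideal.Quotient.factor_surjective h.le
  choose y hy using fun i => hsurj (x i)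
  have hxy : π ∘ y = x := funext hy
  have hyi : AlgebraicIndependent ℚ y := AlgebraicIndependent.of_comp π (by rw [hxy]; exact hx.1)
  have hyb : IsTranscendenceBasis ℚ y := by
    apply hyi.isTranscendenceBasis_of_trdeg_le_of_finite
    rw [← td_cast, hcard]
    exact_mod_cast hle
  have halg := hyb.isAlgebraic
  obtain ⟨f, hfI', hfI⟩ := Set.exists_of_ssubset h
  have hf0 : Ideal.Quotient.mk I f ≠ 0 := fun h0 => hfI (Ideal.Quotient.eq_zero_iff_mem.mp h0)
  obtain ⟨r, hr0, hr⟩ := (halg.isAlgebraic (Ideal.Quotient.mk I f)).exists_nonzero_dvd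
    (mem_nonZeroDivisors_of_ne_zero hf0)
  obtain ⟨⟨r, hrm⟩, hrr⟩ : ∃ r' : Algebra.adjoin ℚ (Set.range y), r' = r := ⟨r, rfl⟩
  have hr2 : Ideal.Quotient.mk I f ∣ (r : A σ ⧸ I) := by rw [← hrr] at hr; exact hr
  have hr3 : r ≠ 0 := by
    intro h0; apply hr0; rw [← hrr]; exact Subtype.ext h0
  rw [Algebra.adjoin_range_eq_range_aeval] at hrm
  obtain ⟨G, hG⟩ := hrm
  have hπf : π (Ideal.Quotient.mk I f) = 0 := by
    change Ideal.Quotient.mk I' f = 0
    exact Ideal.Quotient.eq_zero_iff_mem.mpr hfI'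
  have hπr : π r = 0 := by
    obtain ⟨s, hs⟩ := hr2
    rw [hs, map_mul, hπf, zero_mul]
  have hG' : aeval y G = r := hG
  rw [← hG', MvPolynomial.comp_aeval_apply] at hπr
  have hxy' : (fun i => π (y i)) = x := hxy
  rw [hxy'] at hπr
  have hG0 : G = 0 := (algebraicIndependent_iff.mp hx.1) G hπr
  apply hr3
  rw [← hG', hG0, map_zero]

/-- one cut below a prime -/
theorem td_cut {I P : Ideal (A σ)} [hI : I.IsPrime] [hP : P.IsPrime] (h : I ≤ P) {f : A σ}
    (hf : f ∈ P) : ∃ I' : Ideal (A σ), I'.IsPrime ∧ I ≤ I' ∧ I' ≤ P ∧ f ∈ I' ∧ td I ≤ td I' + 1 := by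
  set B := A σ ⧸ I with hB
  set PB : Ideal B := P.map (Ideal.Quotient.mk I) with hPB
  have hPBp : PB.IsPrime := Ideal.map_isPrime_of_surjective Ideal.Quotient.mk_surjective (by rwa [Ideal.mk_ker])
  have hfP : Ideal.span {Ideal.Quotient.mk I f} ≤ PB := by
    rw [Ideal.span_singleton_le_iff_mem]; exact Ideal.mem_map_of_mem _ hf
  obtain ⟨p, hp, hpP⟩ := Ideal.exists_minimalPrimes_le hfP
  have hpp : p.IsPrime := hp.1.1
  have hK := trdeg_le_quotient_add_one (Ideal.Quotient.mk I f) p hp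
  set I' : Ideal (A σ) := p.comap (Ideal.Quotient.mk I) with hI'
  have hII' : I ≤ I' := by
    intro x hx
    change Ideal.Quotient.mk I x ∈ p
    rw [Ideal.Quotient.eq_zero_iff_mem.mpr hx]; exact p.zero_mem
  refine ⟨I', Ideal.comap_isPrime _ _, hII', ?_, ?_, ?_⟩
  · intro x hx
    have h1 : Ideal.Quotient.mk I x ∈ PB := hpP hx
    have h2 : PB.comap (Ideal.Quotient.mk I) = P := by
      rw [hPB, Ideal.comap_map_of_surjective _ Ideal.Quotient.mk_surjective]
      rw [← RingHom.ker_eq_comap_bot, Ideal.mk_ker]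
      exact sup_eq_left.mpr h
    rw [← h2]; exact h1
  · exact hp.1.2 (Ideal.mem_span_singleton_self _)
  · have h3 : Algebra.trdeg ℚ (B ⧸ p) ≤ Algebra.trdeg ℚ (A σ ⧸ I') := by
      let g : (A σ ⧸ I') →ₐ[ℚ] (B ⧸ p) := Ideal.Quotient.liftₐ I'
        ((Ideal.Quotient.mkₐ ℚ p).comp (Ideal.Quotient.mkₐ ℚ I)) (by
          intro a ha
          exact Ideal.Quotient.eq_zero_iff_mem.mpr ha)
      refine trdeg_le_of_surjective g ?_
      intro z
      obtain ⟨b, rfl⟩ := Ideal.Quotient.mk_surjective z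
      obtain ⟨a, rfl⟩ := Ideal.Quotient.mk_surjective b
      exact ⟨Ideal.Quotient.mk I' a, rfl⟩
    have h4 : Algebra.trdeg ℚ (A σ ⧸ I) ≤ Algebra.trdeg ℚ (A σ ⧸ I') + 1 :=
      hK.trans (by gcongr)
    rw [← td_cast, ← td_cast] at h4
    exact_mod_cast h4

theorem td_cut' {I P : Ideal (A σ)} [hI : I.IsPrime] [hP : P.IsPrime] (h : I ≤ P) {f : A σ}
    (hf : f ∈ P) (hfI : f ∉ I) :
    ∃ I' : Ideal (A σ), I'.IsPrime ∧ I ≤ I' ∧ I' ≤ P ∧ f ∈ I' ∧ td I = td I' + 1 := by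
  obtain ⟨I', h1, h2, h3, h4, h5⟩ := td_cut h hf
  refine ⟨I', h1, h2, h3, h4, le_antisymm h5 ?_⟩
  apply td_strict
  exact lt_of_le_of_ne h2 (fun he => hfI (by rw [he]; exact h4))

/-- transcendence degree zero -/
theorem td_zero {I : Ideal (A σ)} [hI : I.IsPrime] (h : td I = 0) :
    I.IsMaximal ∧ Module.Finite ℚ (A σ ⧸ I) := by
  have h1 := td_cast I
  rw [h] at h1
  have h2 : Algebra.IsAlgebraic ℚ (A σ ⧸ I) := trdeg_eq_zero_iff.mp (by rw [← h1]; simp)
  have h3 : Algebra.IsIntegral ℚ (A σ ⧸ I) := Algebra.isAlgebraic_iff_isIntegral.mp h2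
  have h4 : Module.Finite ℚ (A σ ⧸ I) := Algebra.IsIntegral.finite
  refine ⟨?_, h4⟩
  have h5 : IsField (A σ ⧸ I) := isField_of_isIntegral_of_isField' (Field.toIsField ℚ)
  exact Ideal.Quotient.maximal_of_isField I h5

theorem exists_transcendental {I : Ideal (A σ)} [hI : I.IsPrime] (h : 0 < td I) :
    ∃ i, Transcendental ℚ (Ideal.Quotient.mk I (X i)) := by
  by_contra hcon
  push Not at hcon
  have h1 : ∀ i, IsAlgebraic ℚ (Ideal.Quotient.mk I (X i)) := fun i => not_not.mp (hcon i)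
  have h2 : Algebra.IsAlgebraic ℚ (A σ ⧸ I) := by
    constructor
    intro x
    obtain ⟨F, rfl⟩ := Ideal.Quotient.mk_surjective x
    have h3 : Ideal.Quotient.mk I F ∈ (integralClosure ℚ (A σ ⧸ I)) := by
      induction F using MvPolynomial.induction_on with
      | C a => exact (integralClosure ℚ (A σ ⧸ I)).algebraMap_mem a
      | add p q hp hq => rw [map_add]; exact Subalgebra.add_mem _ hp hq
      | mul_X p i hp =>
        rw [map_mul]; exact Subalgebra.mul_mem _ hp (isAlgebraic_iff_isIntegral.mp (h1 i))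
    exact isAlgebraic_iff_isIntegral.mpr h3
  have h3 := td_cast I
  rw [trdeg_eq_zero_iff.mpr h2] at h3
  have : td I = 0 := by exact_mod_cast h3
  omega

/-- a cut by X_i^N - 2 -/
theorem td_cut_N {I : Ideal (A σ)} [hI : I.IsPrime] (h : 0 < td I) (N0 : ℕ) :
    ∃ (N : ℕ) (i : σ) (I' : Ideal (A σ)), N0 ≤ N ∧ N.Prime ∧ Transcendental ℚ (Ideal.Quotient.mk I (X i)) ∧
      I'.IsPrime ∧ I ≤ I' ∧ X i ^ N - 2 ∈ I' ∧ X i ^ N - 2 ∉ I ∧ td I = td I' + 1 := by
  obtain ⟨i, hi⟩ := exists_transcendental h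
  obtain ⟨N, hN0, hN, hu⟩ := exists_prime_not_isUnit _ hi N0
  obtain ⟨M, hM, hM2⟩ := exists_max_ideal_of_mem_nonunits (mem_nonunits_iff.mpr hu)
  have hMp : M.IsPrime := hM.isPrime
  set P : Ideal (A σ) := M.comap (Ideal.Quotient.mk I) with hP
  haveI : P.IsPrime := Ideal.comap_isPrime _ _
  have hIP : I ≤ P := by
    intro x hx
    change Ideal.Quotient.mk I x ∈ M
    rw [Ideal.Quotient.eq_zero_iff_mem.mpr hx]; exact M.zero_mem
  have hfP : X i ^ N - 2 ∈ P := by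
    change Ideal.Quotient.mk I (X i ^ N - 2) ∈ M
    rw [map_sub, map_pow, map_ofNat]; exact hM2
  have hfI : X i ^ N - 2 ∉ I := by
    intro h0
    have h1 := Ideal.Quotient.eq_zero_iff_mem.mpr h0
    rw [map_sub, map_pow, map_ofNat] at h1
    apply hi
    refine ⟨Polynomial.X ^ N - Polynomial.C 2, Polynomial.X_pow_sub_C_ne_zero hN.pos (2:ℚ), ?_⟩
    rw [map_sub, map_pow, Polynomial.aeval_X, Polynomial.aeval_C, map_ofNat]
    exact h1
  obtain ⟨I', h1, h2, h3, h4, h5⟩ := td_cut' hIP hfP hfI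
  exact ⟨N, i, I', hN0, hN, hi, h1, h2, h4, hfI, h5⟩

end Tysz
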