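import Pool.Agent.Tysz.Lat
import Pool.Agent.Tysz.Td
open Finset MvPolynomial Module

namespace Tysz

variable {σ : Type} [Fintype σ] [DecidableEq σ] {F : Type} [Field F] [Algebra ℚ F]

theorem cutList {PP : Ideal (A σ)} (hPP : PP.IsPrime) (fs : List (A σ)) (hfs : ∀ f ∈ fs, f ∈ PP) :
    ∀ I : Ideal (A σ), I.IsPrime → I ≤ PP → ∃ I' : Ideal (A σ), I'.IsPrime ∧ I ≤ I' ∧ I' ≤ PP ∧
      (∀ f ∈ fs, f ∈ I') ∧ td I ≤ td I' + fs.length := by
  induction fs with
  | nil => intro I hI hIP; exact ⟨I, hI, le_rfl, hIP, by simp, by simp⟩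
  | cons f fs ih =>
    intro I hI hIP
    haveI := hI
    obtain ⟨I1, h1, h2, h3, h4, h5⟩ := td_cut hIP (hfs f (by simp))
    obtain ⟨I', g1, g2, g3, g4, g5⟩ := ih (fun g hg => hfs g (List.mem_cons_of_mem _ hg)) I1 h1 h3
    refine ⟨I', g1, h2.trans g2, g3, ?_, ?_⟩
    · intro g hg
      rcases List.mem_cons.mp hg with rfl | hg
      · exact g2 h4
      · exact g4 g hg
    · rw [List.length_cons]; omega

theorem exists_start (i0 : σ) {q : ℕ} (ρ : Fin q → σ × σ × σ) {PP : Ideal (A σ)} (hPP : PP.IsPrime)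
    (hX : X i0 - 1 ∈ PP) (hρ : ∀ j, toA (bin i0 (ρ j)) ∈ PP) :
    ∃ I : Ideal (A σ), I.IsPrime ∧ I ≤ PP ∧ X i0 - 1 ∈ I ∧ (∀ j, toA (bin i0 (ρ j)) ∈ I) ∧
      Fintype.card σ ≤ td I + 1 + q ∧ td I + 1 ≤ Fintype.card σ := by
  obtain ⟨I, h1, h2, h3, h4, h5⟩ := cutList hPP ((X i0 - 1) :: List.ofFn (fun j => toA (bin i0 (ρ j))))
    (by
      intro f hf
      rcases List.mem_cons.mp hf with rfl | hf
      · exact hX
      · obtain ⟨j, rfl⟩ := List.mem_ofFn.mp hf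
        exact hρ j) ⊥ Ideal.isPrime_bot bot_le
  rw [td_bot, List.length_cons, List.length_ofFn] at h5
  refine ⟨I, h1, h3, h4 _ (by simp), fun j => h4 _ (by simp [List.mem_ofFn]), by omega, ?_⟩
  have h6 : (⊥ : Ideal (A σ)) < I := by
    refine lt_of_le_of_ne bot_le fun h0 => ?_
    have h7 : X i0 - 1 ∈ I := h4 _ (by simp)
    rw [← h0, Ideal.mem_bot, sub_eq_zero] at h7
    have h8 := congrArg (aeval (fun _ => (0:ℚ))) h7
    simp at h8
  haveI := h1
  haveI : (⊥ : Ideal (A σ)).IsPrime := Ideal.isPrime_bot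
  have := td_strict h6
  rw [td_bot] at this
  exact this

/-- the exponent vectors of a multiplicative equation -/
noncomputable def expL (t : σ × σ × σ) : σ →₀ ℕ := Finsupp.single t.1 1 + Finsupp.single t.2.1 1
noncomputable def expR (i0 : σ) (t : σ × σ × σ) : σ →₀ ℕ := Finsupp.single t.2.2 1 + Finsupp.single i0 1

theorem exp_sub (i0 : σ) (t : σ × σ × σ) (i : σ) : (expL t i : ℤ) - expR i0 t i = vecZ i0 t i := by
  unfold expL expR vecZ
  simp only [Finsupp.add_apply, Finsupp.single_apply, Pi.add_apply, Pi.sub_apply, Pi.single_apply, eq_comm]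
  push_cast
  ring

theorem tw_single (c : σ → ℚ) (i : σ) : tw c (Finsupp.single i 1) = C (c i) * X i := by
  unfold tw
  have : (∏ j, c j ^ (Finsupp.single i 1 : σ →₀ ℕ) j) = c i := by
    rw [Finset.prod_eq_single i]
    · simp
    · intro j _ hj; rw [Finsupp.single_apply, if_neg (fun h => hj h.symm)]; simp
    · intro h; exact absurd (Finset.mem_univ _) h
  rw [this, X, C_mul_monomial, mul_one]

theorem tw_expL (c : σ → ℚ) (t : σ × σ × σ) :
    tw c (expL t) = C (c t.1 * c t.2.1) * (X t.1 * X t.2.1) := by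
  unfold expL
  rw [tw_add, tw_single, tw_single, C_mul]; ring

theorem tw_expR (c : σ → ℚ) (i0 : σ) (t : σ × σ × σ) :
    tw c (expR i0 t) = C (c t.2.2 * c i0) * (X t.2.2 * X i0) := by
  unfold expR
  rw [tw_add, tw_single, tw_single, C_mul]; ring

theorem toA_bin (i0 : σ) (t : σ × σ × σ) : toA (bin i0 t) = X t.1 * X t.2.1 - X t.2.2 * X i0 := by
  unfold bin toA
  rw [map_sub, map_mul, map_mul, map_X, map_X, map_X, map_X]

theorem cls_thR (R : AddSubgroup (σ → ℤ)) (α : σ →₀ ℕ) :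
    cls (thR R) α = QuotientAddGroup.mk (fun i => (α i : ℤ)) := by
  unfold cls thR
  have h1 : (fun i => (α i : ℤ)) = ∑ i, α i • (Pi.single i (1:ℤ) : σ → ℤ) := by
    funext j
    rw [Finset.sum_apply, Finset.sum_eq_single j]
    · simp
    · intro i _ hij; simp [Pi.single_apply, hij.symm]
    · intro h; exact absurd (Finset.mem_univ _) h
  rw [h1]
  have h2 := map_sum (QuotientAddGroup.mk' R) (fun i => α i • (Pi.single i (1:ℤ) : σ → ℤ)) Finset.univ
  exact (h2.trans (Finset.sum_congr rfl fun i _ => map_nsmul (QuotientAddGroup.mk' R) _ _)).symm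

theorem one_ne : ∀ _ : σ, (1:ℚ) ≠ 0 := fun _ => one_ne_zero

theorem latt_le {I : Ideal (A σ)} {P : σ → F} (h : Good I P) {c : σ → ℚ} (hc : ∀ i, c i ≠ 0) (i0 : σ)
    {q : ℕ} (ρ : Fin q → σ × σ × σ) (hρ : ∀ j, toA (bin i0 (ρ j)) ∈ I)
    (hcρ : ∀ j, c (ρ j).1 * c (ρ j).2.1 = c (ρ j).2.2 * c i0) :
    latt i0 (Set.range ρ) ≤ Lat h hc := by
  unfold latt
  rw [AddSubgroup.closure_le]
  rintro v ⟨_, ⟨j, rfl⟩, rfl⟩
  change Rel I c _
  apply Rel.of h hc (exp_sub i0 (ρ j))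
  rw [tw_expL, tw_expR, hcρ j, ← mul_sub, ← toA_bin]
  exact I.mul_mem_left _ (hρ j)

theorem J0_le {I : Ideal (A σ)} {P : σ → F} (h : Good I P) (i0 : σ)
    {q : ℕ} (ρ : Fin q → σ × σ × σ) (hρ : ∀ j, toA (bin i0 (ρ j)) ∈ I) :
    J0 (thR (latt i0 (Set.range ρ))) 1 ≤ I := by
  unfold J0
  rw [Ideal.span_le]
  rintro G ⟨_, hG⟩
  apply transfer _ _ _ hG
  intro α _ β _ hαβ
  rw [cls_thR, cls_thR, QuotientAddGroup.eq] at hαβ
  have h1 := latt_le h (c := fun _ => 1) one_ne i0 ρ hρ (fun j => rfl) hαβ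
  rw [mem_Lat] at h1
  have h2 := h1 β α (by intro i; simp only [Pi.add_apply, Pi.neg_apply]; ring)
  have h3 : ∀ α : σ →₀ ℕ, (monomial α (((sgZ 1 α : ℤˣ) : ℤ) : ℚ) : A σ) = tw (fun _ => 1) α := by
    intro α
    unfold tw sgZ
    simp
  rw [h3, h3, ← neg_sub]
  exact I.neg_mem h2

theorem bin_mem {I : Ideal (A σ)} {P : σ → F} (h : Good I P) (i0 : σ)
    {q : ℕ} (ρ : Fin q → σ × σ × σ) (hρ : ∀ j, toA (bin i0 (ρ j)) ∈ I) {t : σ × σ × σ}
    (ht : vecM i0 t ∈ Submodule.span ℚ (Set.range fun j => vecM i0 (ρ j)))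
    (htP : P t.1 * P t.2.1 = P t.2.2 * P i0) : toA (bin i0 t) ∈ I := by
  have h1 : castV (vecZ i0 t) ∈ Submodule.span ℚ (Set.range fun j => castV (vecZ i0 (ρ j))) := by
    have h2 : ∀ t, castV (vecZ i0 t) = vecM i0 t := fun t => vecZ_cast i0 t
    simp only [h2]; exact ht
  obtain ⟨k, hk, z, hz⟩ := exists_zsmul _ h1
  have h3 : k • vecZ i0 t ∈ Lat h (c := fun _ => 1) one_ne := by
    rw [hz]
    refine AddSubgroup.sum_mem _ fun j _ => AddSubgroup.zsmul_mem _ ?_ _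
    exact latt_le h one_ne i0 ρ hρ (fun j => rfl) (AddSubgroup.subset_closure ⟨ρ j, ⟨j, rfl⟩, rfl⟩)
  have h4 := Lat_sat h one_ne (exp_sub i0 t) (by
    rw [tw_expL, tw_expR]
    simp only [map_mul, aeval_X, mul_one, C_1, map_one, one_mul]
    exact htP) hk h3
  rw [mem_Lat] at h4
  have h5 := h4 _ _ (exp_sub i0 t)
  rw [tw_expL, tw_expR] at h5
  simp only [mul_one, C_1, one_mul] at h5
  rw [toA_bin]; exact h5

end Tysz
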