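import Pool.Agent.Tysz.Two
import Pool.Agent.Tysz.Start
open Finset MvPolynomial Module

namespace Tysz

variable {σ : Type} [Fintype σ] [DecidableEq σ]

/-- classes in a rational quotient -/
def thQ (V : Submodule ℚ (σ → ℚ)) (i : σ) : (σ → ℚ) ⧸ V := Submodule.Quotient.mk (Pi.single i 1)

theorem cls_thQ (V : Submodule ℚ (σ → ℚ)) (α : σ →₀ ℕ) :
    cls (thQ V) α = Submodule.Quotient.mk (fun i => (α i : ℚ)) := by
  unfold cls thQ
  have h1 : (fun i => (α i : ℚ)) = ∑ i, α i • (Pi.single i (1:ℚ) : σ → ℚ) := by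
    funext j
    rw [Finset.sum_apply, Finset.sum_eq_single j]
    · simp
    · intro i _ hij; simp [hij.symm]
    · intro h; exact absurd (Finset.mem_univ _) h
  rw [h1]
  have h2 := map_sum V.mkQ (fun i => α i • (Pi.single i (1:ℚ) : σ → ℚ)) Finset.univ
  exact (h2.trans (Finset.sum_congr rfl fun i _ => map_nsmul V.mkQ _ _)).symm

theorem cls_thQ_eq {V : Submodule ℚ (σ → ℚ)} {α β : σ →₀ ℕ} {v : σ → ℤ}
    (hv : ∀ i, (α i : ℤ) - β i = v i) : cls (thQ V) α = cls (thQ V) β ↔ castV v ∈ V := by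
  rw [cls_thQ, cls_thQ, Submodule.Quotient.eq]
  have : (fun i => (α i : ℚ)) - (fun i => (β i : ℚ)) = castV v := by
    funext i
    change (α i : ℚ) - β i = (v i : ℚ)
    rw [← hv i]; push_cast; rfl
  rw [this]

instance GA.nzd {N : Type} [AddCommGroup N] [Module ℚ N] : NoZeroDivisors (GA N) :=
  inferInstanceAs (NoZeroDivisors (AddMonoidAlgebra ℂ N))

instance GA.nontriv {N : Type} [AddCommGroup N] : Nontrivial (GA N) :=
  inferInstanceAs (Nontrivial (AddMonoidAlgebra ℂ N))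

/-- toric ideals -/
noncomputable def TT (V : Submodule ℚ (σ → ℚ)) (ε : σ → ℤˣ) : Ideal (A σ) := RingHom.ker (phiQ (thQ V) ε)

theorem TT_prime (V : Submodule ℚ (σ → ℚ)) (ε : σ → ℤˣ) : (TT V ε).IsPrime := by
  haveI : IsDomain (GA ((σ → ℚ) ⧸ V)) := NoZeroDivisors.to_isDomain _
  exact RingHom.ker_isPrime _

theorem mem_TT {V : Submodule ℚ (σ → ℚ)} {ε : σ → ℤˣ} {G : A σ} : G ∈ TT V ε ↔ phiQ (thQ V) ε G = 0 :=
  Iff.rfl

theorem TT_mono {V V' : Submodule ℚ (σ → ℚ)} (h : V ≤ V') (ε : σ → ℤˣ) : TT V ε ≤ TT V' ε := by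
  intro G hG
  rw [mem_TT] at hG ⊢
  have h1 := push_phiQ (Submodule.factor h).toAddMonoidHom (thQ V) ε G
  rw [hG, map_zero] at h1
  exact h1.symm

theorem TT_bound (ε : σ → ℤˣ) {r : ℕ} (w : Fin r → σ → ℤ)
    (hw : LinearIndependent ℚ (fun j => castV (w j))) :
    td (TT (Submodule.span ℚ (Set.range fun j => castV (w j))) ε) + r ≤ Fintype.card σ := by
  induction r with
  | zero =>
    have h1 := td_mono (bot_le : (⊥ : Ideal (A σ)) ≤ TT (Submodule.span ℚ (Set.range fun j => castV (w j))) ε)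
    rw [td_bot] at h1
    simpa using h1
  | succ r ih =>
    rw [linearIndependent_finSucc'] at hw
    have h1 := ih (fun j => w j.castSucc) hw.1
    set V := Submodule.span ℚ (Set.range fun j : Fin r => castV (w j.castSucc)) with hV
    set V' := Submodule.span ℚ (Set.range fun j => castV (w j)) with hV'
    have hle : V ≤ V' := Submodule.span_mono (by rintro _ ⟨j, rfl⟩; exact ⟨j.castSucc, rfl⟩)
    have hlt : TT V ε < TT V' ε := by
      refine lt_of_le_of_ne (TT_mono hle ε) fun heq => ?_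
      set v := w (Fin.last r) with hv
      have hG : (monomial (posE v) (((sgZ ε (posE v) : ℤˣ) : ℤ) : ℚ)
          - monomial (negE v) (((sgZ ε (negE v) : ℤˣ) : ℤ) : ℚ) : A σ) ∈ TT V' ε := by
        rw [mem_TT, map_sub, phiQ_monomial, phiQ_monomial, sgn_eq, sgn_eq,
          (cls_thQ_eq (pos_neg v)).mpr (show castV v ∈ V' from Submodule.subset_span ⟨Fin.last r, rfl⟩),
          sub_eq_zero]
        congr 1
        push_cast
        have hsq : ∀ u : ℤˣ, (((u : ℤˣ) : ℤ) : ℂ) * (((u : ℤˣ) : ℤ) : ℂ) = 1 := by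
          intro u
          rcases Int.units_eq_one_or u with h | h <;> rw [h] <;> simp
        rw [hsq, hsq]
      rw [← heq, mem_TT, map_sub, phiQ_monomial, phiQ_monomial, sub_eq_zero] at hG
      classical
      have h2 := congrArg (fun x => GA.cf x (cls (thQ V) (posE v))) hG
      simp only [GA.cf_mon_apply, if_true] at h2
      have h3 : cls (thQ V) (negE v) ≠ cls (thQ V) (posE v) := by
        intro h4
        apply hw.2
        exact (cls_thQ_eq (pos_neg v)).mp h4.symm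
      rw [if_neg h3, sgn_eq] at h2
      rcases Int.units_eq_one_or (sgZ ε (posE v)) with h | h <;> rw [h] at h2 <;> simp at h2
    haveI := TT_prime V ε
    haveI := TT_prime V' ε
    have h2 := td_strict hlt
    omega

/-- transfer of vanishing between gradings with the same fibres -/
theorem phiQ_zero_of {N N' : Type} [AddCommGroup N] [AddCommGroup N'] (θ : σ → N) (θ' : σ → N')
    (ε : σ → ℤˣ) {G : A σ} (h : ∀ α ∈ G.support, ∀ β ∈ G.support, cls θ α = cls θ β ↔ cls θ' α = cls θ' β)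
    (h0 : phiQ θ ε G = 0) : phiQ θ' ε G = 0 := by
  classical
  apply GA.cf_inj
  ext χ
  rw [GA.cf_zero]
  have hexp : ∀ {M : Type} [AddCommGroup M] [DecidableEq M] (η : σ → M) (χ : M), GA.cf (phiQ η ε G) χ
      = ∑ α ∈ G.support, if cls η α = χ then ((coeff α G : ℚ) : ℂ) * sgn ε α else 0 := by
    intro M _ _ η χ
    conv_lhs => rw [G.as_sum]
    rw [map_sum, ← GA.cfA_apply, map_sum]
    simp only [phiQ_monomial, GA.cfA_apply, GA.cf_mon_apply]
  rw [hexp]
  by_cases hχ : ∃ β ∈ G.support, cls θ' β = χ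
  · obtain ⟨β, hβ, rfl⟩ := hχ
    have h1 := hexp θ (cls θ β)
    rw [h0, GA.cf_zero] at h1
    refine Eq.trans ?_ (h1.symm.trans rfl)
    refine Finset.sum_congr rfl fun α hα => ?_
    rw [if_congr (h α hα β hβ).symm rfl rfl]
  · push Not at hχ
    rw [Finset.sum_eq_zero fun α hα => by rw [if_neg (hχ α hα)]]; rfl

/-- sum of the coordinates -/
def sumL : (σ → ℚ) →ₗ[ℚ] ℚ := ∑ i, LinearMap.proj i

theorem sumL_apply (x : σ → ℚ) : sumL x = ∑ i, x i := by
  unfold sumL; rw [LinearMap.sum_apply]; rfl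

theorem sumL_single (i : σ) : sumL (Pi.single i 1 : σ → ℚ) = 1 := by
  rw [sumL_apply, Finset.sum_pi_single']; simp

theorem sumL_vecM (i0 : σ) (t : σ × σ × σ) : sumL (vecM i0 t) = 0 := by
  unfold vecM
  rw [map_sub, map_sub, map_add, sumL_single, sumL_single, sumL_single, sumL_single]; norm_num

namespace RatPt
variable {i0 : σ} {q : ℕ} (p : RatPt σ i0 q)

/-- span of the rows -/
def VV : Submodule ℚ (σ → ℚ) := Submodule.span ℚ (Set.range fun j => vecM i0 (p.ρ j))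

theorem castV_vecZ (t : σ × σ × σ) : castV (vecZ i0 t) = vecM i0 t := vecZ_cast i0 t

theorem mem_R_iff {v : σ → ℤ} : v ∈ p.R ↔ castV v ∈ p.VV := by
  constructor
  · rintro ⟨k, hk, hkv⟩
    have h1 := latt_span hkv
    rw [← Set.range_comp, map_zsmul] at h1
    have h3 : (k : ℚ) • castV v ∈ p.VV := by rw [Int.cast_smul_eq_zsmul]; exact h1
    exact (Submodule.smul_mem_iff _ (by exact_mod_cast hk)).mp h3
  · intro h
    have h1 : castV v ∈ Submodule.span ℚ (Set.range fun j => castV (vecZ i0 (p.ρ j))) := by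
      simp only [castV_vecZ]; exact h
    obtain ⟨k, hk, z, hz⟩ := exists_zsmul _ h1
    refine ⟨k, hk, ?_⟩
    rw [hz]
    exact AddSubgroup.sum_mem _ fun j _ => AddSubgroup.zsmul_mem _ (p.vecZ_mem_latt j) _

/-- generators of the affine relation space -/
def wv : Fin (q + 1) → σ → ℤ := Fin.cons (Pi.single i0 1) (fun j => vecZ i0 (p.ρ j))

/-- affine relation space -/
def W : Submodule ℚ (σ → ℚ) := Submodule.span ℚ (Set.range fun j => castV (p.wv j))

theorem castV_single (i : σ) : castV (Pi.single i (1:ℤ)) = (Pi.single i 1 : σ → ℚ) := by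
  funext j
  change (((Pi.single i (1:ℤ) : σ → ℤ) j : ℤ) : ℚ) = _
  simp only [Pi.single_apply]
  split_ifs <;> simp

theorem sumL_VV {x : σ → ℚ} (hx : x ∈ p.VV) : sumL x = 0 := by
  have h1 : p.VV ≤ LinearMap.ker (sumL (σ := σ)) := by
    unfold VV
    rw [Submodule.span_le]
    rintro _ ⟨j, rfl⟩
    exact sumL_vecM i0 (p.ρ j)
  exact h1 hx

theorem wv_eq : (fun j => castV (p.wv j)) = Fin.cons (Pi.single i0 1) (fun j => vecM i0 (p.ρ j)) := by
  funext j
  refine Fin.cases ?_ (fun j => ?_) j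
  · exact castV_single i0
  · exact castV_vecZ _

theorem wv_ind : LinearIndependent ℚ (fun j => castV (p.wv j)) := by
  rw [wv_eq]
  refine p.ind.finCons ?_
  intro h
  have := p.sumL_VV h
  rw [sumL_single] at this
  exact one_ne_zero this

theorem mem_W {x : σ → ℚ} : x ∈ p.W ↔ ∃ c : ℚ, ∃ y ∈ p.VV, x = c • Pi.single i0 1 + y := by
  unfold W
  rw [wv_eq, Fin.range_cons, Submodule.mem_span_insert]
  rfl

theorem mem_W_of_sum {x : σ → ℚ} (hx : sumL x = 0) : x ∈ p.W ↔ x ∈ p.VV := by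
  rw [mem_W]
  constructor
  · rintro ⟨c, y, hy, rfl⟩
    rw [map_add, map_smul, sumL_single, p.sumL_VV hy] at hx
    have hc : c = 0 := by simpa using hx
    rw [hc, zero_smul, zero_add]; exact hy
  · intro h; exact ⟨0, x, h, by simp⟩

/-- the toric prime of the point -/
noncomputable def qt : Ideal (A σ) := TT p.W p.sg

theorem qt_prime : p.qt.IsPrime := TT_prime _ _

theorem sg_i0 : p.sg i0 = 1 := by
  unfold sg; rw [p.P0]; simp

theorem qt_X : X i0 - 1 ∈ p.qt := by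
  unfold qt
  rw [mem_TT, map_sub, phiQ_X, map_one, p.sg_i0]
  have h1 : thQ p.W i0 = 0 := by
    unfold thQ
    rw [Submodule.Quotient.mk_eq_zero, mem_W]
    exact ⟨1, 0, Submodule.zero_mem _, by simp⟩
  rw [h1, Units.val_one, Int.cast_one, mon_zero_one, sub_self]

theorem cls_iff {D : ℕ} {α β : σ →₀ ℕ} (hα : α ∈ exps σ D) (hβ : β ∈ exps σ D) :
    cls (thR p.R) α = cls (thR p.R) β ↔ cls (thQ p.W) α = cls (thQ p.W) β := by
  set v : σ → ℤ := fun i => (α i : ℤ) - β i with hv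
  rw [cls_thQ_eq (v := v) (fun _ => rfl), cls_thR, cls_thR, eq_comm, QuotientAddGroup.eq]
  have h1 : -(fun i => (β i : ℤ)) + (fun i => (α i : ℤ)) = v := by
    funext i; simp only [Pi.add_apply, Pi.neg_apply, hv]; ring
  rw [h1, mem_R_iff, mem_W_of_sum]
  rw [sumL_apply]
  have h2 : ∑ i, castV v i = ((∑ i, α i : ℕ) : ℚ) - ((∑ i, β i : ℕ) : ℚ) := by
    push_cast
    rw [← Finset.sum_sub_distrib]
    refine Finset.sum_congr rfl fun i _ => ?_
    change ((v i : ℤ) : ℚ) = _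
    rw [hv]; push_cast; rfl
  rw [h2, mem_exps.mp hα, mem_exps.mp hβ, sub_self]

theorem qt_hom (D : ℕ) (G : A σ) (hG : G.IsHomogeneous D) : G ∈ p.qt ↔ p.ph G = 0 := by
  unfold qt
  rw [mem_TT]
  constructor
  · exact phiQ_zero_of _ _ _ fun α hα β hβ => (p.cls_iff (homog_support hG hα) (homog_support hG hβ)).symm
  · exact phiQ_zero_of _ _ _ fun α hα β hβ => p.cls_iff (homog_support hG hα) (homog_support hG hβ)

theorem qt_td : td p.qt + (q + 1) ≤ Fintype.card σ := TT_bound p.sg p.wv p.wv_ind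

theorem sg_mul {a b c : σ} (h : p.P a * p.P b = p.P c) : p.sg a * p.sg b = p.sg c := by
  have h1 := p.sg_mul_P a
  have h2 := p.sg_mul_P b
  have h3 := p.sg_mul_P c
  have h4 : |p.P a| * |p.P b| = |p.P c| := by rw [← abs_mul, h]
  have hc := p.Pne c
  have h5 : (((p.sg a : ℤˣ) : ℤ) : ℚ) * (((p.sg b : ℤˣ) : ℤ) : ℚ) * p.P c = (((p.sg c : ℤˣ) : ℤ) : ℚ) * p.P c := by
    rw [h3, ← h4, ← h1, ← h2, ← h]; ring
  have h6 := mul_right_cancel₀ hc h5
  apply Units.ext
  rw [Units.val_mul]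
  exact_mod_cast h6

theorem qt_bin {t : σ × σ × σ} (ht : vecM i0 t ∈ p.VV) (hP : p.P t.1 * p.P t.2.1 = p.P t.2.2) :
    toA (bin i0 t) ∈ p.qt := by
  rw [p.qt_hom 2 _ (toA_homog (bin_hom i0 t)), toA_bin]
  unfold ph
  rw [map_sub, map_mul, map_mul, phiQ_X, phiQ_X, phiQ_X, phiQ_X, mon_mul_mon, mon_mul_mon, sub_eq_zero]
  have h1 : thR p.R t.1 + thR p.R t.2.1 = thR p.R t.2.2 + thR p.R i0 := by
    rw [← sub_eq_zero, thR_rel, QuotientAddGroup.eq_zero_iff, mem_R_iff, castV_vecZ]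
    exact ht
  have h2 := p.sg_mul hP
  rw [h1, p.sg_i0, ← h2]
  push_cast
  ring_nf

/-- the signs as rational numbers -/
noncomputable def cs (i : σ) : ℚ := (((p.sg i : ℤˣ) : ℤ) : ℚ)

theorem cs_ne (i : σ) : p.cs i ≠ 0 := by
  unfold cs
  rcases Int.units_eq_one_or (p.sg i) with h | h <;> rw [h] <;> simp

theorem tw_cs (α : σ →₀ ℕ) : tw p.cs α = monomial α (((sgZ p.sg α : ℤˣ) : ℤ) : ℚ) := by
  unfold tw sgZ cs
  rw [Units.coe_prod]
  push_cast
  rfl

theorem aeval_cs {v : σ → ℤ} (hv : p.LG v = 0) {α β : σ →₀ ℕ} (h : ∀ i, (α i : ℤ) - β i = v i) :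
    aeval p.P (tw p.cs α) = aeval p.P (tw p.cs β) := by
  have h1 : ∀ α : σ →₀ ℕ, ((aeval p.P (tw p.cs α) : ℚ) : ℝ) = (2:ℝ) ^ (∑ i, (α i : ℝ) * p.lg i) := by
    intro α
    rw [aeval_tw, Real.rpow_sum_of_pos (by norm_num)]
    push_cast
    refine Finset.prod_congr rfl fun i _ => ?_
    rw [mul_comm ((α i : ℕ) : ℝ), Real.rpow_mul (by norm_num), p.two_rpow_lg, Real.rpow_natCast]
    congr 1
    have h2 := p.sg_mul_P i
    have h3 : algebraMap ℚ ℚ (p.cs i) * p.P i = |p.P i| := h2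
    have h4 : (((algebraMap ℚ ℚ (p.cs i) * p.P i : ℚ)) : ℝ) = |(p.P i : ℝ)| := by
      rw [h3]; push_cast; rfl
    rw [← h4]; push_cast; rfl
  have h2 : ∑ i, (α i : ℝ) * p.lg i = ∑ i, (β i : ℝ) * p.lg i := by
    have h3 : p.LG v = ∑ i, (v i : ℝ) * p.lg i := rfl
    rw [h3] at hv
    rw [← sub_eq_zero, ← Finset.sum_sub_distrib, ← hv]
    refine Finset.sum_congr rfl fun i _ => ?_
    rw [← h i]; push_cast; ring
  have h3 : ((aeval p.P (tw p.cs α) : ℚ) : ℝ) = ((aeval p.P (tw p.cs β) : ℚ) : ℝ) := by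
    rw [h1, h1, h2]
  exact_mod_cast h3

theorem LG_wv (j : Fin (q + 1)) : p.LG (p.wv j) = 0 := by
  refine Fin.cases ?_ (fun j => ?_) j
  · change p.LG (Pi.single i0 1) = 0
    rw [p.LG_single, p.lg_i0]
  · exact p.LG_R _ (p.mem_R_of_latt _ (p.vecZ_mem_latt j))

theorem qt_le {I : Ideal (A σ)} (h : Good I p.P) (hX : X i0 - 1 ∈ I)
    (hρ : ∀ j, toA (bin i0 (p.ρ j)) ∈ I) : p.qt ≤ I := by
  intro G hG
  refine transfer _ _ ?_ hG
  intro α _ β _ hαβ
  rw [cls_thQ_eq (v := fun i => (α i : ℤ) - β i) (fun _ => rfl)] at hαβ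
  set v : σ → ℤ := fun i => (α i : ℤ) - β i with hv
  obtain ⟨k, hk, z, hz⟩ := exists_zsmul _ hαβ
  have hwL : ∀ j, p.wv j ∈ Lat h p.cs_ne := by
    intro j
    refine Fin.cases ?_ (fun j => ?_) j
    · change Rel I p.cs (Pi.single i0 1)
      apply Rel.of h p.cs_ne (α := Finsupp.single i0 1) (β := 0)
      · intro i
        simp only [Finsupp.single_apply, Pi.single_apply, Finsupp.coe_zero, Pi.zero_apply, eq_comm]
        push_cast
        ring
      · rw [tw_single, tw_zero]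
        have : p.cs i0 = 1 := by unfold cs; rw [p.sg_i0]; simp
        rw [this, C_1, one_mul]; exact hX
    · refine Tysz.latt_le h p.cs_ne i0 p.ρ hρ (fun j => ?_) (p.vecZ_mem_latt j)
      have h1 := p.sg_mul (p.hρ j)
      unfold cs
      rw [p.sg_i0, ← h1]
      push_cast; ring
  have hkL : k • v ∈ Lat h p.cs_ne := by
    rw [hz]; exact AddSubgroup.sum_mem _ fun j _ => AddSubgroup.zsmul_mem _ (hwL j) _
  have hLG : p.LG v = 0 := by
    have h1 : p.LG (k • v) = 0 := by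
      rw [hz, map_sum]
      exact Finset.sum_eq_zero fun j _ => by rw [map_zsmul, p.LG_wv, smul_zero]
    rw [map_zsmul] at h1
    exact (smul_eq_zero.mp h1).resolve_left hk
  have h2 := Lat_sat h p.cs_ne (v := v) (α := α) (β := β) (fun _ => rfl)
    (p.aeval_cs hLG (fun _ => rfl)) hk hkL
  have h3 := h2 α β (fun _ => rfl)
  rw [p.tw_cs, p.tw_cs] at h3
  exact h3

end RatPt
end Tysz
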