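import Pool.Agent.Tysz.CaseA
import Pool.Agent.Tysz.QTor
open Finset MvPolynomial Module

namespace Tysz

variable {σ : Type} [Fintype σ] [DecidableEq σ]

/-- explicit sequences of cuts by degree one equations -/
theorem Lseq (L : Set (Option σ × Option σ × Option σ)) {P : Ideal (A σ)}
    (hP : P.IsPrime) (hL : ∀ l ∈ L, lf l ∈ P) :
    ∀ (t : ℕ) (I : Ideal (A σ)), I.IsPrime → I ≤ P → td I = t →
      ∃ (k : ℕ) (Q : ℕ → Ideal (A σ)) (l : ℕ → Option σ × Option σ × Option σ), Q 0 = I ∧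
        (∀ j ≤ k, (Q j).IsPrime) ∧ (∀ j < k, Q j ≤ Q (j + 1)) ∧ Q k ≤ P ∧
        (∀ j < k, l j ∈ L ∧ lf (l j) ∈ Q (j + 1) ∧ lf (l j) ∉ Q j) ∧ (∀ l ∈ L, lf l ∈ Q k) ∧
        td I = td (Q k) + k := by
  intro t
  induction t using Nat.strong_induction_on with
  | _ t ih =>
    intro I hI hIP ht
    by_cases hall : ∀ l ∈ L, lf l ∈ I
    · exact ⟨0, fun _ => I, fun _ => (none, none, none), rfl, fun _ _ => hI, fun _ h => absurd h (by omega), hIP,
        fun _ h => absurd h (by omega), hall, by simp⟩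
    · push Not at hall
      obtain ⟨l, hl, hlI⟩ := hall
      haveI := hI
      haveI := hP
      obtain ⟨I1, h1, h2, h3, h4, h5⟩ := td_cut' hIP (hL l hl) hlI
      obtain ⟨k, Q, ls, g0, g1, g2, g3, g4, g5, g6⟩ := ih (td I1) (by omega) I1 h1 h3 rfl
      refine ⟨k + 1, fun j => Nat.casesOn j I (fun j => Q j), fun j => Nat.casesOn j l (fun j => ls j), rfl,
        ?_, ?_, g3, ?_, g5, ?_⟩
      · intro j hj
        cases j with
        | zero => exact hI
        | succ j => exact g1 j (by omega)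
      · intro j hj
        cases j with
        | zero => change I ≤ Q 0; rw [g0]; exact h2
        | succ j => exact g2 j (by omega)
      · intro j hj
        cases j with
        | zero => change l ∈ L ∧ lf l ∈ Q 0 ∧ lf l ∉ I; rw [g0]; exact ⟨hl, h4, hlI⟩
        | succ j => exact g4 j (by omega)
      · change td I = td (Q k) + (k + 1)
        omega

theorem le_two_pow_pred (t : ℕ) (ht : 1 ≤ t) : t ≤ 2 ^ (t - 1) := by
  have : t - 1 < 2 ^ (t - 1) := Nat.lt_two_pow_self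
  omega

namespace Sys
variable {i0 : σ} (S : Sys σ i0)

/-- the embedding given by the point -/
noncomputable def tauP : (A σ ⧸ S.PP) →ₐ[ℚ] ℂ := Ideal.Quotient.liftₐ S.PP (aeval S.P) (fun _ ha => ha)

theorem pt_tauP : pt S.tauP = S.P := by
  funext i
  change (aeval S.P : A σ →ₐ[ℚ] ℂ) (X i) = S.P i
  rw [aeval_X]

/-- the point is isolated -/
def Iso : Prop := ∀ I : Ideal (A σ), I.IsPrime → I ≤ S.PP → S.Full I → td I = 0

theorem eq_PP {I : Ideal (A σ)} (hI : I.IsPrime) (hle : I ≤ S.PP) (h : td I = 0) : I = S.PP := by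
  haveI := hI
  exact (td_zero h).1.eq_of_le S.PP_prime.ne_top hle

theorem td_PP (hiso : S.Iso) : td S.PP = 0 := hiso _ S.PP_prime le_rfl S.full_PP

theorem caseB (hcard : 2 ≤ Fintype.card σ) (hiso : S.Iso) (h2 : ∃ τ : (A σ ⧸ S.PP) →ₐ[ℚ] ℂ, τ ≠ S.tauP) :
    Real.log ‖S.P‖ ≤ 2 ^ (Fintype.card σ - 2) * Real.log 2 := by
  obtain ⟨q, ρ, hρ, hind, hspan⟩ := exists_rows i0 S.M
  obtain ⟨I, g1, g2, g3, g4, g5, g6, g7, g8⟩ := S.start ρ hρ hspan S.PP_prime S.full_PP le_rfl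
  obtain ⟨k, Q, k1, k2, k3, k4, k5, k6, k7⟩ := Lcuts (thR (latt i0 (Set.range ρ))) 1 S.L S.PP_prime
    (fun l hl => S.lf_PP hl) (td I) I g1 g2 rfl
  have hfQ : S.Full Q := ⟨k2 g3, fun t ht => k2 (g4 t ht), k4⟩
  have hdQ : td Q = 0 := hiso Q k1 k3 hfQ
  have hQ : Q = S.PP := S.eq_PP k1 k3 hdQ
  subst hQ
  haveI := k1
  obtain ⟨hmax, hfin⟩ := td_zero (I := S.PP) hdQ
  haveI := hmax
  haveI := hfin
  obtain ⟨q', hq'⟩ : ∃ q', q' + k + 1 = Fintype.card σ := ⟨Fintype.card σ - 1 - td I, by omega⟩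
  have hq'q : q' ≤ q := by omega
  have hAB := k5.AB (i0 := i0) (J' := J0 (thR (latt i0 (Set.range ρ))) 1) (mem_J0 _ _) g6 (fun D => le_rfl)
    hq'q (toric_rank i0 ρ hind) (by omega) hmax S.X_mem
  obtain ⟨τ, hτ⟩ := h2
  have hv : ∀ τ : (A σ ⧸ S.PP) →ₐ[ℚ] ℂ, ∀ G ∈ S.PP, aeval (pt τ) G = 0 := fun τ G hG => van_pt τ hG
  have hcmp := S.norm_cmp hcard (S.sol S.full_PP (hv τ)).1 (S.min_of_full S.full_PP (hv τ))
  have hnn : ∀ τ : (A σ ⧸ S.PP) →ₐ[ℚ] ℂ, 0 ≤ Real.log ‖pt τ‖ := fun τ =>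
    Real.log_nonneg (one_le_norm (S.sol S.full_PP (hv τ)).1)
  have hpair : Real.log ‖pt τ‖ + Real.log ‖pt S.tauP‖ ≤ ∑ τ : (A σ ⧸ S.PP) →ₐ[ℚ] ℂ, Real.log ‖pt τ‖ := by
    classical
    rw [← Finset.sum_pair (f := fun τ : (A σ ⧸ S.PP) →ₐ[ℚ] ℂ => Real.log ‖pt τ‖) hτ]
    exact Finset.sum_le_sum_of_subset_of_nonneg (Finset.subset_univ _) (fun τ _ _ => hnn τ)
  rw [S.pt_tauP] at hpair
  have hcard1 : Fintype.card σ - 1 = q' + k := by omega
  have hcard2 : Fintype.card σ - 2 = q' + k - 1 := by omega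
  rw [hcard1] at hcmp
  rw [hcard2]
  have h1 : 2 * Real.log ‖S.P‖ ≤ 2 ^ q' * 1 * (k * Real.log 3) + Real.log ((q' + k : ℕ) : ℝ) / 2 := by linarith
  by_cases hk : 1 ≤ k
  · have h2 := num_b q' k hk
    linarith
  · have hk0 : k = 0 := by omega
    subst hk0
    have h2 := num_b0 (q' + 0) (by omega)
    simp only [Nat.cast_zero, zero_mul, mul_zero, add_zero] at h1 h2 ⊢
    linarith

theorem rational (hiso : S.Iso) (h : ∀ τ : (A σ ⧸ S.PP) →ₐ[ℚ] ℂ, τ = S.tauP) :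
    ∃ r : σ → ℚ, ∀ i, S.P i = (r i : ℂ) := by
  haveI := S.PP_prime
  obtain ⟨hmax, hfin⟩ := td_zero (I := S.PP) (S.td_PP hiso)
  haveI := hmax
  haveI := hfin
  have h1 : Fintype.card ((A σ ⧸ S.PP) →ₐ[ℚ] ℂ) = 1 := Fintype.card_eq_one_iff.mpr ⟨S.tauP, h⟩
  rw [card_emb] at h1
  have h2 : ∀ x : A σ ⧸ S.PP, ∃ c : ℚ, algebraMap ℚ _ c = x := by
    intro x
    have h3 := (finrank_eq_one_iff_of_nonzero' (1 : A σ ⧸ S.PP) one_ne_zero).mp h1 x
    obtain ⟨c, hc⟩ := h3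
    exact ⟨c, by rw [← hc]; exact Algebra.algebraMap_eq_smul_one c⟩
  choose r hr using fun i => h2 (Ideal.Quotient.mk S.PP (X i))
  refine ⟨r, fun i => ?_⟩
  have h3 : S.P i = S.tauP (Ideal.Quotient.mk S.PP (X i)) := (congrFun S.pt_tauP i).symm
  rw [h3, ← hr i, AlgHom.commutes]
  rfl

theorem norm_of_log {x : ℝ} (hx : 0 < x) {c : ℕ} (h : Real.log x ≤ 2 ^ c * Real.log 2) : x ≤ 2 ^ (2 ^ c) := by
  rw [← Real.log_le_log_iff hx (by positivity), Real.log_pow]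
  push_cast
  exact h

theorem caseC (hcard : 2 ≤ Fintype.card σ) (hiso : S.Iso) {r : σ → ℚ} (hr : ∀ i, S.P i = (r i : ℂ)) (i : σ) :
    ‖S.P i‖ ≤ 2 ^ (2 ^ (Fintype.card σ - 2)) := by
  obtain ⟨q, ρ, hρ, hind, hspan⟩ := exists_rows i0 S.M
  obtain ⟨I, g1, g2, g3, g4, g5, g6, g7, g8⟩ := S.start ρ hρ hspan S.PP_prime S.full_PP le_rfl
  have hP0 : r i0 = 1 := by
    have := S.P0
    rw [hr] at this
    exact_mod_cast this
  have hPne : ∀ i, r i ≠ 0 := by
    intro i h0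
    apply S.Pne i
    rw [hr, h0]; simp
  have hPM : ∀ t ∈ S.M, r t.1 * r t.2.1 = r t.2.2 := by
    intro t ht
    have := S.PM t ht
    rw [hr, hr, hr] at this
    exact_mod_cast this
  let p : RatPt σ i0 q := ⟨r, hP0, hPne, ρ, fun j => hPM _ (hρ j), hind⟩
  have hval : ∀ G : A σ, aeval S.P G = ((aeval r G : ℚ) : ℂ) := by
    intro G
    have h1 : S.P = fun i => algebraMap ℚ ℂ (r i) := funext hr
    rw [h1]
    exact aeval_algebraMap_apply ℂ r G
  have hVan : ∀ G ∈ S.PP, p.Van G := by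
    intro G hG
    have h1 : aeval S.P G = 0 := hG
    rw [hval] at h1
    have h2 : aeval r G = 0 := by exact_mod_cast h1
    change MvPolynomial.eval r G = 0
    rw [← h2]; rfl
  have hgoodQ : Good I p.P := ⟨g1, fun G hG => hVan G (g2 hG), hPne⟩
  have hT : p.qt ≤ I := p.qt_le hgoodQ g3 (fun j => g4 _ (hρ j))
  have hTP : p.qt ≤ S.PP := hT.trans g2
  have hTp := p.qt_prime
  haveI := hTp
  haveI := S.PP_prime
  have hTM : ∀ t ∈ S.M, toA (bin i0 t) ∈ p.qt := fun t ht => p.qt_bin (hspan t ht) (hPM t ht)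
  have hTX := p.qt_X
  have hub := p.qt_td
  have hlb := td_mono hT
  set t := td p.qt with ht
  have hex : q + t + 1 = Fintype.card σ := by omega
  have hcard2 : Fintype.card σ - 2 = q + t - 1 := by omega
  have hI0 : ∀ {I' : Ideal (A σ)}, p.qt ≤ I' → ∀ D F, F.IsHomogeneous D → p.ph F = 0 → F ∈ I' :=
    fun h D F hF h0 => h ((p.qt_hom D F hF).mpr h0)
  have hlin1 : ∀ l : Option σ × Option σ × Option σ, (lf l).IsHomogeneous 1 := fun l => toA_homog (lin_hom _ _ _)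
  -- existence of equations
  have hexl : ∀ I' : Ideal (A σ), I'.IsPrime → p.qt ≤ I' → I' ≤ S.PP → 1 ≤ td I' → ∃ l ∈ S.L, lf l ∉ I' := by
    intro I' hI' h1 h2 h3
    by_contra hcon
    push Not at hcon
    have := hiso I' hI' h2 ⟨h1 hTX, fun t ht => h1 (hTM t ht), hcon⟩
    omega
  have hnorm : ‖S.P i‖ = |(p.P i : ℝ)| := by
    rw [hr]
    change ‖((r i : ℚ) : ℂ)‖ = |((r i : ℚ) : ℝ)|
    rw [← Complex.ofReal_ratCast, Complex.norm_real, Real.norm_eq_abs]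
  -- conversion of exponents
  have hconv : ∀ {m : ℕ}, q + m + 1 = Fintype.card σ → 1 ≤ m →
      |(p.P i : ℝ)| ≤ 2 ^ ((m:ℝ) * (2:ℝ) ^ (q:ℝ)) → ‖S.P i‖ ≤ 2 ^ (2 ^ (Fintype.card σ - 2)) := by
    intro m hm hm1 h
    rw [hnorm]
    refine h.trans ?_
    have h1 : (m:ℝ) * (2:ℝ) ^ (q:ℝ) = ((m * 2 ^ q : ℕ) : ℝ) := by
      rw [Real.rpow_natCast]; push_cast; ring
    rw [h1, Real.rpow_natCast]
    apply pow_le_pow_right₀ (by norm_num)
    have h2 : Fintype.card σ - 2 = (m - 1) + q := by omega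
    rw [h2, pow_add]
    exact Nat.mul_le_mul_right _ (le_two_pow_pred m hm1)
  rcases Nat.lt_or_ge t 3 with ht3 | ht3
  · interval_cases htt : t
    · -- t = 0
      have h1 := p.bound_of_rows (m := 0) hex (fun j => Fin.elim0 j) (fun b _ => funext fun j => Fin.elim0 j)
        (fun j => Fin.elim0 j) i
      rw [hnorm]
      refine h1.trans ?_
      simp only [Nat.cast_zero, zero_mul, Real.rpow_zero]
      exact one_le_pow₀ (by norm_num)
    · -- t = 1
      obtain ⟨l, hl, hlT⟩ := hexl p.qt hTp le_rfl hTP (by omega)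
      have h1 := p.one hex l.1 l.2.1 l.2.2 (hVan _ (S.lf_PP hl))
        (fun h0 => hlT ((p.qt_hom 1 _ (hlin1 l)).mpr h0)) i
      refine hconv (m := 1) hex le_rfl ?_
      rw [Nat.cast_one, one_mul]; exact h1
    · -- t = 2
      obtain ⟨l, hl, hlT⟩ := hexl p.qt hTp le_rfl hTP (by omega)
      obtain ⟨I1, h1, h2, h3, h4, h5⟩ := td_cut' hTP (S.lf_PP hl) hlT
      obtain ⟨l', hl', hlT'⟩ := hexl I1 h1 h2 h3 (by omega)
      have h6 := p.two hex I1 h1 (hI0 h2) (fun G hG => hVan G (h3 hG)) l.1 l.2.1 l.2.2 l'.1 l'.2.1 l'.2.2 h4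
        (fun h0 => hlT ((p.qt_hom 1 _ (hlin1 l)).mpr h0)) (hVan _ (S.lf_PP hl')) hlT' i
      refine hconv (m := 2) hex (by norm_num) ?_
      have h7 : ((2:ℕ):ℝ) * (2:ℝ) ^ (q:ℝ) = 2 ^ ((q:ℝ) + 1) := by
        rw [Real.rpow_add (by norm_num), Real.rpow_one]; push_cast; ring
      rw [h7]; exact h6
  · by_cases hgood : ∃ l ∈ S.L, lf l ∉ p.qt ∧ ‖p.ph (lf l)‖ ≤ Real.sqrt 3
    · obtain ⟨l, hl, hlT, hln⟩ := hgood
      obtain ⟨I1, h1, h2, h3, h4, h5⟩ := td_cut' hTP (S.lf_PP hl) hlT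
      have hG : ∀ D, Gam (thR p.R) p.sg p.qt D = 1 := fun D =>
        le_antisymm (gam_base_le _ _ _ _) (gam_base_ge _ _ (fun D F hF => p.qt_hom D F hF) D)
      have hs3 : (1:ℝ) ≤ Real.sqrt 3 := by rw [Real.one_le_sqrt]; norm_num
      have hstep : StepOK (thR p.R) p.sg p.qt I1 1 (Real.log (Real.sqrt 3)) :=
        step_mon (thR p.R) p.sg h2 (lin_hom l.1 l.2.1 l.2.2) h4 (NZD_of_prime hTp hlT) (by positivity) hln hG
      obtain ⟨k, Q, k1, k2, k3, k4, k5, k6, k7⟩ := Lcuts (thR p.R) p.sg S.L S.PP_prime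
        (fun l hl => S.lf_PP hl) (td I1) I1 h1 h3 rfl
      have hfQ : S.Full Q := ⟨k2 (h2 hTX), fun t ht => k2 (h2 (hTM t ht)), k4⟩
      have hdQ : td Q = 0 := hiso Q k1 k3 hfQ
      have hQ : Q = S.PP := S.eq_PP k1 k3 hdQ
      subst hQ
      obtain ⟨hmax, hfin⟩ := td_zero (I := S.PP) hdQ
      haveI := hmax
      haveI := hfin
      have hch := Ch.cons hstep le_rfl (Real.log_nonneg hs3) k5
      have hJT : J0 (thR p.R) p.sg ≤ p.qt := by
        unfold J0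
        rw [Ideal.span_le]
        rintro G ⟨⟨D, hD⟩, hG⟩
        exact (p.qt_hom D G hD).mpr hG
      have hlR : latt i0 (Set.range ρ) ≤ p.R := fun v hv => p.mem_R_of_latt v hv
      have hrk : ∀ D, rk (J0 (thR p.R) p.sg) D ≤ rk (J0 (thR (latt i0 (Set.range ρ))) 1) D := fun D =>
        rk_J0_le (QuotientAddGroup.map _ p.R (AddMonoidHom.id _) hlR) (thR (latt i0 (Set.range ρ))) p.sg 1 D
      have hk : k + 1 = t := by omega
      have hAB := hch.AB (i0 := i0) (J' := J0 (thR (latt i0 (Set.range ρ))) 1) (mem_J0 _ _) hJT hrk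
        le_rfl (toric_rank i0 ρ hind) (by omega) hmax S.X_mem
      have hnn : ∀ τ : (A σ ⧸ S.PP) →ₐ[ℚ] ℂ, 0 ≤ Real.log ‖pt τ‖ := fun τ =>
        Real.log_nonneg (one_le_norm (S.sol S.full_PP (fun G hG => van_pt τ hG)).1)
      have hsingle : Real.log ‖pt S.tauP‖ ≤ ∑ τ : (A σ ⧸ S.PP) →ₐ[ℚ] ℂ, Real.log ‖pt τ‖ :=
        Finset.single_le_sum (f := fun τ : (A σ ⧸ S.PP) →ₐ[ℚ] ℂ => Real.log ‖pt τ‖) (fun τ _ => hnn τ)
          (Finset.mem_univ _)
      rw [S.pt_tauP] at hsingle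
      have hnum := num_c q t ht3
      have hP1 := one_le_norm S.P0
      refine (norm_le_pi_norm S.P i).trans ?_
      apply norm_of_log (by linarith)
      rw [hcard2]
      refine (hsingle.trans hAB).trans (le_trans (le_of_eq ?_) hnum)
      rw [← hk]
      push_cast
      ring
    · push Not at hgood
      obtain ⟨k, Q, ls, k0, k1, k2, k3, k4, k5, k6⟩ := Lseq S.L S.PP_prime (fun l hl => S.lf_PP hl) t p.qt hTp hTP rfl
      have hmono : ∀ j, j ≤ k → p.qt ≤ Q j := by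
        intro j
        induction j with
        | zero => intro _; rw [k0]
        | succ j ih => intro hj; exact (ih (by omega)).trans (k2 j (by omega))
      have hfQ : S.Full (Q k) := ⟨hmono k le_rfl hTX, fun t ht => hmono k le_rfl (hTM t ht), k5⟩
      have hdQ : td (Q k) = 0 := hiso (Q k) (k1 k le_rfl) k3 hfQ
      have hk : t = k := by omega
      have h1 := p.onlyD (m := k) (by omega) Q k1 k2 (by rw [k0]; exact hI0 le_rfl)
        (fun G hG => hVan G (k3 hG)) (fun j => (ls j).1) (fun j => (ls j).2.1) (fun j => (ls j).2.2)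
        (fun j hj => (k4 j hj).2.1) (fun j hj => (k4 j hj).2.2) (fun j hj => by
          have h2 := hgood (ls j) (k4 j hj).1 (fun h3 => (k4 j hj).2.2 (hmono j hj.le h3))
          exact not_le.mpr h2) i
      exact hconv (m := k) (by omega) (by omega) h1

/-- the bound for systems -/
theorem bound (i : σ) : ‖S.P i‖ ≤ 2 ^ ((2:ℝ) ^ ((Fintype.card σ : ℝ) - 2)) := by
  by_cases hcard : 2 ≤ Fintype.card σ
  · have key : ‖S.P i‖ ≤ 2 ^ (2 ^ (Fintype.card σ - 2)) := by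
      have hlog : Real.log ‖S.P‖ ≤ 2 ^ (Fintype.card σ - 2) * Real.log 2 →
          ‖S.P i‖ ≤ 2 ^ (2 ^ (Fintype.card σ - 2)) := fun h =>
        (norm_le_pi_norm S.P i).trans (norm_of_log (by have := one_le_norm S.P0; linarith) h)
      by_cases hiso : S.Iso
      · by_cases hτ : ∃ τ : (A σ ⧸ S.PP) →ₐ[ℚ] ℂ, τ ≠ S.tauP
        · exact hlog (S.caseB hcard hiso hτ)
        · push Not at hτ
          obtain ⟨r, hr⟩ := S.rational hiso hτ
          exact S.caseC hcard hiso hr i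
      · unfold Iso at hiso
        push Not at hiso
        obtain ⟨Is, h1, h2, h3, h4⟩ := hiso
        exact hlog (S.caseA hcard h1 h3 h2 (by omega))
    have h2 : (Fintype.card σ : ℝ) - 2 = ((Fintype.card σ - 2 : ℕ) : ℝ) := by
      rw [Nat.cast_sub hcard]; norm_num
    rw [h2, Real.rpow_natCast]
    have h3 : ((2:ℝ) ^ (Fintype.card σ - 2)) = ((2 ^ (Fintype.card σ - 2) : ℕ) : ℝ) := by push_cast; rfl
    rw [h3, Real.rpow_natCast]
    exact key
  · have h1 : Fintype.card σ ≤ 1 := by omega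
    have h2 : i = i0 := (Fintype.card_le_one_iff.mp h1) i i0
    rw [h2, S.P0, norm_one]
    exact Real.one_le_rpow (by norm_num) (by positivity)

end Sys
end Tysz
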