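import Pool.Agent.Tysz.Toric
open Finset MvPolynomial Module

namespace Tysz

variable {σ : Type} [Fintype σ] [DecidableEq σ] {N : Type} [AddCommGroup N]

/-- monomials of X_i0 act trivially -/
theorem mk_X_pow {I : Ideal (A σ)} {i0 : σ} (hX : X i0 - 1 ∈ I) (k : ℕ) (F : A σ) :
    mkL I (X i0 ^ k * F) = mkL I F := by
  rw [mkL_apply, mkL_apply, map_mul, map_pow]
  have : Ideal.Quotient.mk I (X i0) = 1 := by
    rw [← map_one (Ideal.Quotient.mk I)]
    exact Ideal.Quotient.eq.mpr hX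
  rw [this, one_pow, one_mul]

theorem gr_mono {I : Ideal (A σ)} {i0 : σ} (hX : X i0 - 1 ∈ I) {D D' : ℕ} (h : D ≤ D') :
    gr I D ≤ gr I D' := by
  rintro x ⟨F, hF, rfl⟩
  rw [← mk_X_pow hX (D' - D)]
  apply mem_gr
  have := ((isHomogeneous_X ℚ i0).pow (D' - D)).mul (show F.IsHomogeneous D from hF)
  rwa [one_mul, Nat.sub_add_cancel h] at this

theorem gr_top {I : Ideal (A σ)} {i0 : σ} (hX : X i0 - 1 ∈ I) [Module.Finite ℚ (A σ ⧸ I)] :
    ∃ D0, ∀ D, D0 ≤ D → gr I D = ⊤ := by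
  obtain ⟨s, hs⟩ := (inferInstance : Module.Finite ℚ (A σ ⧸ I)).fg_top
  have h1 : ∀ x : A σ ⧸ I, ∃ n, x ∈ gr I n := by
    intro x
    obtain ⟨F, rfl⟩ := Ideal.Quotient.mk_surjective x
    refine ⟨F.totalDegree, ?_⟩
    rw [← mkL_apply, ← sum_homogeneousComponent F, map_sum]
    refine Submodule.sum_mem _ fun i hi => ?_
    refine gr_mono hX (D := i) ?_ (mem_gr (homogeneousComponent_mem i F))
    rw [sum_homogeneousComponent]
    rw [Finset.mem_range] at hi
    omega
  choose n hn using h1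
  refine ⟨s.sup n, fun D hD => ?_⟩
  rw [eq_top_iff, ← hs, Submodule.span_le]
  intro x hx
  exact gr_mono hX ((Finset.le_sup (f := n) hx).trans hD) (hn x)

instance WW_fd (θ : σ → N) (ε : σ → ℤˣ) (I : Ideal (A σ)) (D : ℕ) :
    FiniteDimensional ℂ (WW θ ε I D) := by
  have h : WW θ ε I D ≤ sp ℂ (fun G => ev θ ε G) ((exps σ D).toList.map (fun α => monomial α (1:ℤ))) := by
    unfold WW
    rw [Submodule.span_le]
    rintro x ⟨F, _, hF, rfl⟩
    rw [F.as_sum, map_sum]
    refine Submodule.sum_mem _ fun α hα => ?_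
    have h1 : (monomial α (coeff α F) : A σ) = coeff α F • toA (monomial α 1) := by
      rw [toA_monomial, smul_monomial, smul_eq_mul, mul_one]
    rw [h1, phiQ_smul]
    refine Submodule.smul_mem _ _ ?_
    exact mem_sp (fun G : MvPolynomial σ ℤ => ev θ ε G)
      (List.mem_map.mpr ⟨α, by simpa using homog_support hF hα, rfl⟩)
  exact Submodule.finiteDimensional_of_le h

/-- the point of an embedding -/
noncomputable def pt {I : Ideal (A σ)} (τ : (A σ ⧸ I) →ₐ[ℚ] ℂ) : σ → ℂ :=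
  fun i => τ (Ideal.Quotient.mk I (X i))

theorem aeval_pt {I : Ideal (A σ)} (τ : (A σ ⧸ I) →ₐ[ℚ] ℂ) (F : A σ) :
    aeval (pt τ) (toC F) = τ (mkL I F) := by
  unfold toC
  rw [mkL_apply]
  have h : (τ.comp (Ideal.Quotient.mkₐ ℚ I)) = aeval (pt τ) := by
    apply MvPolynomial.algHom_ext
    intro i
    rw [aeval_X]; rfl
  have h2 : τ (Ideal.Quotient.mk I F) = aeval (pt τ) F := by
    rw [← h]; rfl
  rw [h2, aeval_map_algebraMap]

theorem sp_ofFn {V ι : Type} [AddCommGroup V] [Module ℚ V] (φ : ι → V) {r : ℕ} (f : Fin r → ι) :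
    sp ℚ φ (List.ofFn f) = Submodule.span ℚ (Set.range (fun j => φ (f j))) := by
  unfold sp
  congr 1
  ext v
  simp only [List.mem_ofFn, Set.mem_ofPred_eq, Set.mem_range]
  constructor
  · rintro ⟨x, ⟨j, rfl⟩, rfl⟩; exact ⟨j, rfl⟩
  · rintro ⟨j, rfl⟩; exact ⟨f j, ⟨j, rfl⟩, rfl⟩

/-- a complex form of degree D vanishing at all points has image in W(I,D) -/
theorem phi_mem_WW (θ : σ → N) (ε : σ → ℤˣ) {I : Ideal (A σ)}
    {D r : ℕ} {f : Fin r → MvPolynomial σ ℤ} (hl : IsBL I D (List.ofFn f))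
    {E : Fin r → ((A σ ⧸ I) →ₐ[ℚ] ℂ)}
    (hM : (Matrix.of fun i j => E j (mkL I (toA (f i)))).det ≠ 0)
    {H : MvPolynomial σ ℂ} (hH : H.IsHomogeneous D) (hv : ∀ j, aeval (pt (E j)) H = (0:ℂ)) :
    phi θ ε H ∈ WW θ ε I D := by
  have h1 : ∀ α : σ →₀ ℕ, ∃ a : Fin r → ℚ, α ∈ exps σ D →
      (monomial α 1 : A σ) - ∑ j, a j • toA (f j) ∈ I := by
    intro α
    by_cases hα : α ∈ exps σ D
    · have h2 : mkL I (monomial α 1) ∈ sp ℚ (fun F => mkL I (toA F)) (List.ofFn f) :=
        hl.spn (mem_gr (homog_monomial hα 1))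
      rw [sp_ofFn, Submodule.mem_span_range_iff_exists_fun] at h2
      obtain ⟨a, ha⟩ := h2
      refine ⟨a, fun _ => ?_⟩
      rw [← mkL_eq_zero, map_sub, map_sum]
      simp only [map_smul]
      rw [ha, sub_self]
    · exact ⟨0, fun h => absurd h hα⟩
  choose a ha using h1
  have hsum : ∀ α ∈ exps σ D, (∑ j, a α j • toA (f j)).IsHomogeneous D := by
    intro α _
    exact (homogeneousSubmodule σ ℚ D).sum_mem fun i _ =>
      (homogeneousSubmodule σ ℚ D).smul_mem _ (toA_homog (hl.hom (f i) (by simp [List.mem_ofFn])))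
  set b : Fin r → ℂ := fun j => ∑ α ∈ H.support, coeff α H * (a α j : ℂ) with hb
  have hH2 : H = ∑ α ∈ H.support, coeff α H • toC (monomial α 1 : A σ) := by
    conv_lhs => rw [H.as_sum]
    refine Finset.sum_congr rfl fun α _ => ?_
    unfold toC
    rw [map_monomial, map_one, smul_monomial, smul_eq_mul, mul_one]
  have hb0 : b = 0 := by
    have h3 : (Matrix.of fun i j => E j (mkL I (toA (f i)))).vecMul b = 0 := by
      ext k
      have h4 := hv k
      rw [hH2, map_sum] at h4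
      simp only [map_smul, aeval_pt] at h4
      have h5 : ∀ α ∈ H.support, E k (mkL I (monomial α 1)) = ∑ j, (a α j : ℂ) * E k (mkL I (toA (f j))) := by
        intro α hα
        have h6 := ha α (homog_support hH hα)
        rw [← mkL_eq_zero, map_sub, sub_eq_zero, map_sum] at h6
        rw [h6, map_sum]
        refine Finset.sum_congr rfl fun j _ => ?_
        rw [map_smul, map_smul, Algebra.smul_def]; rfl
      rw [Finset.sum_congr rfl (fun α hα => by rw [h5 α hα])] at h4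
      simp only [Matrix.vecMul, dotProduct, Matrix.of_apply, Pi.zero_apply, hb]
      rw [← h4]
      simp only [smul_eq_mul, Finset.sum_mul, Finset.mul_sum]
      rw [Finset.sum_comm]
      refine Finset.sum_congr rfl fun α _ => Finset.sum_congr rfl fun j _ => by ring
    by_contra hne
    exact hM (Matrix.exists_vecMul_eq_zero_iff.mp ⟨b, hne, h3⟩)
  have h7 : phi θ ε H = ∑ α ∈ H.support, coeff α H • phiQ θ ε ((monomial α 1 : A σ) - ∑ j, a α j • toA (f j))
      + ∑ j, b j • phiQ θ ε (toA (f j)) := by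
    conv_lhs => rw [hH2, map_sum]
    have h8 : ∀ α, phi θ ε (coeff α H • toC (monomial α 1 : A σ)) =
        coeff α H • phiQ θ ε ((monomial α 1 : A σ) - ∑ j, a α j • toA (f j))
        + ∑ j, (coeff α H * (a α j : ℂ)) • phiQ θ ε (toA (f j)) := by
      intro α
      rw [map_smul]
      have h9 : phi θ ε (toC (monomial α 1 : A σ)) = phiQ θ ε (monomial α 1) := rfl
      rw [h9, map_sub, map_sum, smul_sub, Finset.smul_sum]
      simp only [phiQ_smul, smul_smul]
      rw [sub_add_cancel]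
    rw [Finset.sum_congr rfl (fun α _ => h8 α), Finset.sum_add_distrib]
    congr 1
    rw [Finset.sum_comm]
    refine Finset.sum_congr rfl fun j _ => ?_
    rw [← Finset.sum_smul]
  rw [h7, hb0]
  simp only [Pi.zero_apply, zero_smul, Finset.sum_const_zero, add_zero]
  refine Submodule.sum_mem _ fun α hα => Submodule.smul_mem _ _ (Submodule.subset_span ?_)
  have hα' := homog_support hH hα
  exact ⟨_, ha α hα', (homog_monomial hα' 1).sub (hsum α hα'), rfl⟩

theorem det_ne_zero {I : Ideal (A σ)} [hmax : I.IsMaximal] {r : ℕ} {x : Fin r → (A σ ⧸ I)}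
    (hx : Submodule.span ℚ (Set.range x) = ⊤) {E : Fin r → ((A σ ⧸ I) →ₐ[ℚ] ℂ)} (hE : Function.Injective E) :
    (Matrix.of fun i j => E j (x i)).det ≠ 0 := by
  letI := Ideal.Quotient.field I
  intro h0
  obtain ⟨v, hv, hv2⟩ := Matrix.exists_mulVec_eq_zero_iff.mpr h0
  have hli := (linearIndependent_toLinearMap ℚ (A σ ⧸ I) ℂ).comp E hE
  rw [Fintype.linearIndependent_iff] at hli
  apply hv
  funext j
  refine hli v ?_ j
  have h1 : ∀ y ∈ Submodule.span ℚ (Set.range x), (∑ j, v j • (E j).toLinearMap) y = 0 := by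
    intro y hy
    induction hy using Submodule.span_induction with
    | mem y hy =>
      obtain ⟨i, rfl⟩ := hy
      have := congrFun hv2 i
      simp only [Matrix.mulVec, dotProduct, Matrix.of_apply, Pi.zero_apply] at this
      rw [LinearMap.sum_apply]
      rw [← this]
      refine Finset.sum_congr rfl fun j _ => ?_
      rw [LinearMap.smul_apply, smul_eq_mul, mul_comm]; rfl
    | zero => rw [map_zero]
    | add y z _ _ hy hz => rw [map_add, hy, hz, add_zero]
    | smul c y _ hy => rw [map_smul, hy, smul_zero]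
  apply LinearMap.ext
  intro y
  exact h1 y (by rw [hx]; trivial)

theorem norm_phi_twist (θ : σ → N) (ε : σ → ℤˣ) (G : MvPolynomial σ ℂ) (a : ℂ) (i : σ) (k : ℕ) :
    ‖phi θ ε (a • (X i ^ k * G))‖ = ‖a‖ * ‖phi θ ε G‖ := by
  have h1 : phi θ ε (X i ^ k) = GA.mon (k • θ i) ((((ε i : ℤˣ) : ℤ) : ℂ) ^ k) := by
    rw [map_pow]
    unfold phi
    rw [aeval_X, mon_pow]
  rw [map_smul, norm_smul, map_mul, h1, GA.norm_mon_mul, norm_pow]
  rcases Int.units_eq_one_or (ε i) with h | h <;> simp [h]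

/-- SPEC F -/
theorem final_lower (θ : σ → N) (ε : σ → ℤˣ) (i0 : σ) {I : Ideal (A σ)} (hmax : I.IsMaximal)
    [Module.Finite ℚ (A σ ⧸ I)] [Fintype ((A σ ⧸ I) →ₐ[ℚ] ℂ)] (hX : X i0 - 1 ∈ I) :
    ∃ C : ℝ, ∀ D : ℕ, 0 < Gam θ ε I D →
      (∑ τ : (A σ ⧸ I) →ₐ[ℚ] ℂ, Real.log ‖pt τ‖) * D - C ≤ -Real.log (Gam θ ε I D) := by
  classical
  haveI : Nonempty σ := ⟨i0⟩
  obtain ⟨D0, hD0⟩ := gr_top hX
  obtain ⟨l0, hl0, _⟩ := exists_BL I D0
  obtain ⟨f0, rfl⟩ := exists_ofFn hl0.len
  have hcard : Fintype.card (Fin (rk I D0)) = Fintype.card ((A σ ⧸ I) →ₐ[ℚ] ℂ) := by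
    letI := Ideal.Quotient.field I
    rw [Fintype.card_fin]
    have h1 := AlgHom.natCard_of_splits ℚ (A σ ⧸ I) ℂ (fun _ => IsAlgClosed.splits _)
    have h2 : rk I D0 = finrank ℚ (A σ ⧸ I) := by
      unfold rk
      rw [hD0 D0 le_rfl]
      exact finrank_top ℚ _
    rw [h2, ← h1, Nat.card_eq_fintype_card]
  obtain ⟨E⟩ : Nonempty (Fin (rk I D0) ≃ ((A σ ⧸ I) →ₐ[ℚ] ℂ)) := Fintype.card_eq.mp hcard
  set M : Matrix (Fin (rk I D0)) (Fin (rk I D0)) ℂ :=
    Matrix.of fun i j => E j (mkL I (toA (f0 i))) with hM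
  have hspan : Submodule.span ℚ (Set.range (fun j => mkL I (toA (f0 j)))) = ⊤ := by
    rw [← sp_ofFn (fun F => mkL I (toA F)) f0, hl0.sp_eq, hD0 D0 le_rfl]
  have hdet : M.det ≠ 0 := det_ne_zero hspan E.injective
  have hinv : M⁻¹ * M = 1 := Matrix.nonsing_inv_mul _ (isUnit_iff_ne_zero.mpr hdet)
  set G : Fin (rk I D0) → MvPolynomial σ ℂ := fun j => ∑ i, M⁻¹ j i • toC (toA (f0 i)) with hG
  have hGh : ∀ j, (G j).IsHomogeneous D0 := fun j =>
    (homogeneousSubmodule σ ℂ D0).sum_mem fun i _ =>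
      (homogeneousSubmodule σ ℂ D0).smul_mem _ ((toA_homog (hl0.hom (f0 i) (by simp [List.mem_ofFn]))).map _)
  have hGv : ∀ j k, aeval (pt (E k)) (G j) = (if j = k then 1 else 0 : ℂ) := by
    intro j k
    have h1 := congrFun (congrFun hinv j) k
    rw [Matrix.mul_apply, Matrix.one_apply] at h1
    rw [← h1, hG, map_sum]
    refine Finset.sum_congr rfl fun i _ => ?_
    rw [map_smul, aeval_pt, smul_eq_mul]; rfl
  have hidx : ∀ j, ∃ i : σ, ‖pt (E j)‖ = ‖pt (E j) i‖ := by
    intro j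
    obtain ⟨i, hi⟩ := Finite.exists_max (fun i => ‖pt (E j) i‖)
    refine ⟨i, le_antisymm ?_ (norm_le_pi_norm _ i)⟩
    rw [pi_norm_le_iff_of_nonneg (norm_nonneg _)]
    exact hi
  choose idx hidx using hidx
  have hpt1 : ∀ τ : (A σ ⧸ I) →ₐ[ℚ] ℂ, 1 ≤ ‖pt τ‖ := by
    intro τ
    have h1 : pt τ i0 = 1 := by
      unfold pt
      rw [show Ideal.Quotient.mk I (X i0) = 1 by
        rw [← map_one (Ideal.Quotient.mk I)]
        exact Ideal.Quotient.eq.mpr hX, map_one]
    have h2 := norm_le_pi_norm (pt τ) i0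
    rwa [h1, norm_one] at h2
  set Sg : ℝ := ∑ τ : (A σ ⧸ I) →ₐ[ℚ] ℂ, Real.log ‖pt τ‖ with hSg
  have hSg0 : 0 ≤ Sg := Finset.sum_nonneg fun τ _ => Real.log_nonneg (hpt1 τ)
  set c : ℝ := ‖M.det‖ * ∏ j, ‖phi θ ε (G j)‖ with hc
  refine ⟨D0 * Sg + |Real.log c|, fun D hpos => ?_⟩
  by_cases hD : D0 ≤ D
  · set k := D - D0 with hk
    have hkD : k + D0 = D := Nat.sub_add_cancel hD
    have hBL : IsBL I D (List.ofFn (fun j => X i0 ^ k * f0 j)) := by
      refine ⟨?_, ?_, ?_⟩
      · intro F hF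
        obtain ⟨j, rfl⟩ := List.mem_ofFn.mp hF
        have := ((isHomogeneous_X ℤ i0).pow k).mul (hl0.hom (f0 j) (by simp [List.mem_ofFn]))
        rwa [one_mul, hkD] at this
      · rw [List.length_ofFn]
        unfold rk
        rw [hD0 D0 le_rfl, hD0 D hD]
      · rw [sp_ofFn (fun F => mkL I (toA F))]
        have h1 : (fun j => mkL I (toA (X i0 ^ k * f0 j))) = fun j => mkL I (toA (f0 j)) := by
          funext j
          rw [map_mul, map_pow]
          have : toA (X i0 : MvPolynomial σ ℤ) = X i0 := by unfold toA; rw [map_X]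
          rw [this, mk_X_pow hX]
        rw [h1, hspan]
        exact le_top
    have hval : ∀ i j, E j (mkL I (toA (X i0 ^ k * f0 i))) = M i j := by
      intro i j
      rw [map_mul, map_pow]
      have : toA (X i0 : MvPolynomial σ ℤ) = X i0 := by unfold toA; rw [map_X]
      rw [this, mk_X_pow hX]; rfl
    have hdet' : (Matrix.of fun i j => E j (mkL I (toA (X i0 ^ k * f0 i)))).det ≠ 0 := by
      have : (Matrix.of fun i j => E j (mkL I (toA (X i0 ^ k * f0 i)))) = M := by
        ext i j; exact hval i j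
      rw [this]; exact hdet
    set a : Fin (rk I D0) → ℂ := fun j => ((pt (E j) (idx j)) ^ k)⁻¹ with ha
    set H : Fin (rk I D0) → MvPolynomial σ ℂ := fun j => a j • (X (idx j) ^ k * G j) with hH
    have hHh : ∀ j, (H j).IsHomogeneous D := by
      intro j
      apply (homogeneousSubmodule σ ℂ D).smul_mem
      have := ((isHomogeneous_X ℂ (idx j)).pow k).mul (hGh j)
      rw [one_mul, hkD] at this
      exact this
    have hne : ∀ j, pt (E j) (idx j) ≠ 0 := by
      intro j h0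
      have h1 := hpt1 (E j)
      rw [hidx j, h0, norm_zero] at h1
      linarith
    have hHv : ∀ j l, aeval (pt (E l)) (H j) = (if j = l then 1 else 0 : ℂ) := by
      intro j l
      simp only [hH, ha, map_smul, map_mul, map_pow, aeval_X, hGv]
      split_ifs with h
      · subst h
        rw [mul_one, smul_eq_mul]
        exact inv_mul_cancel₀ (pow_ne_zero _ (hne j))
      · simp
    have hvol := vol_eq_det (WW θ ε I D) (fun j => phi θ ε (H j))
      (fun i => ev θ ε (X i0 ^ k * f0 i)) M (by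
        intro i
        have h1 : ev θ ε (X i0 ^ k * f0 i) - ∑ j, M i j • phi θ ε (H j)
            = phi θ ε (toC (toA (X i0 ^ k * f0 i)) - ∑ j, M i j • H j) := by
          rw [map_sub, map_sum]
          simp only [map_smul]
          rfl
        rw [h1]
        refine phi_mem_WW θ ε hBL hdet' ?_ ?_
        · refine ((toA_homog (hBL.hom _ (by simp [List.mem_ofFn]))).map _).sub ?_
          exact (homogeneousSubmodule σ ℂ D).sum_mem fun j _ =>
            (homogeneousSubmodule σ ℂ D).smul_mem _ (hHh j)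
        · intro l
          rw [map_sub, aeval_pt, hval, map_sum]
          simp only [map_smul, hHv, smul_eq_mul, mul_ite, mul_one, mul_zero]
          rw [Finset.sum_ite_eq' Finset.univ l, if_pos (Finset.mem_univ _), sub_self])
    have h1 : Gam θ ε I D ≤ ‖M.det‖ * ∏ j, (‖a j‖ * ‖phi θ ε (G j)‖) := by
      refine (Gam_le θ ε hBL).trans ?_
      unfold vo
      rw [List.map_ofFn]
      have h2 : (⇑(ev θ ε) ∘ fun j => X i0 ^ k * f0 j) = fun i => ev θ ε (X i0 ^ k * f0 i) := rfl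
      rw [h2, hvol]
      apply mul_le_mul_of_nonneg_left _ (norm_nonneg _)
      refine (vol_le_prod _ _).trans ?_
      rw [List.map_ofFn, List.prod_ofFn]
      apply le_of_eq
      refine Finset.prod_congr rfl fun j _ => ?_
      exact norm_phi_twist θ ε (G j) (a j) (idx j) k
    have h2 : ∏ j, (‖a j‖ * ‖phi θ ε (G j)‖) = (∏ j, ‖pt (E j)‖ ^ k)⁻¹ * ∏ j, ‖phi θ ε (G j)‖ := by
      rw [Finset.prod_mul_distrib]
      congr 1
      rw [← Finset.prod_inv_distrib]
      refine Finset.prod_congr rfl fun j _ => ?_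
      rw [ha, norm_inv, norm_pow, ← hidx j]
    have hpp : 0 < ∏ j, ‖pt (E j)‖ ^ k :=
      Finset.prod_pos fun j _ => pow_pos (lt_of_lt_of_le one_pos (hpt1 (E j))) k
    have h3 : Gam θ ε I D ≤ (∏ j, ‖pt (E j)‖ ^ k)⁻¹ * c := by
      refine h1.trans (le_of_eq ?_)
      rw [h2, hc]; ring
    have hcpos : 0 < c := by
      by_contra hcon
      push Not at hcon
      have h4 : (∏ j, ‖pt (E j)‖ ^ k)⁻¹ * c ≤ 0 := mul_nonpos_of_nonneg_of_nonpos (by positivity) hcon
      linarith
    have h4 := Real.log_le_log hpos h3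
    rw [Real.log_mul (inv_pos.mpr hpp).ne' hcpos.ne', Real.log_inv, Real.log_prod (fun j _ =>
      (pow_pos (lt_of_lt_of_le one_pos (hpt1 (E j))) k).ne')] at h4
    simp only [Real.log_pow] at h4
    rw [← Finset.mul_sum] at h4
    have h5 : ∑ j, Real.log ‖pt (E j)‖ = Sg := E.sum_comp (fun τ => Real.log ‖pt τ‖)
    rw [h5] at h4
    have h6 := le_abs_self (Real.log c)
    have h7 : (k : ℝ) = D - D0 := by
      rw [← hkD]; push_cast; ring
    rw [h7] at h4
    nlinarith
  · have h1 := gam_base_le θ ε I D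
    have h2 : Real.log (Gam θ ε I D) ≤ 0 := Real.log_nonpos hpos.le h1
    have h3 := abs_nonneg (Real.log c)
    have h4 : (D : ℝ) ≤ D0 := by exact_mod_cast (not_le.mp hD).le
    have h5 : Sg * D ≤ Sg * D0 := mul_le_mul_of_nonneg_left h4 hSg0
    linarith

end Tysz
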