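import Pool.Agent.Tysz.AB
import Pool.Agent.Tysz.Final
import Pool.Agent.Tysz.Td
open Finset MvPolynomial Module

namespace Tysz

variable {σ : Type} [Fintype σ] [DecidableEq σ] {N : Type} [AddCommGroup N]

/-- chains of steps: length, product of the degrees, sum of the costs -/
inductive Ch (θ : σ → N) (ε : σ → ℤˣ) : Ideal (A σ) → Ideal (A σ) → ℕ → ℝ → ℝ → Prop
  | nil (I) : Ch θ ε I I 0 1 0
  | cons {I I1 I' : Ideal (A σ)} {m e : ℕ} {κ E K : ℝ} (h : StepOK θ ε I I1 e κ) (he : 1 ≤ e) (hκ : 0 ≤ κ)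
      (hc : Ch θ ε I1 I' m E K) : Ch θ ε I I' (m + 1) (e * E) (κ / e + K)

theorem Ch.seq {θ : σ → N} {ε : σ → ℤˣ} {I I' : Ideal (A σ)} {m : ℕ} {E K : ℝ} (h : Ch θ ε I I' m E K) :
    ∃ (Q : ℕ → Ideal (A σ)) (e : ℕ → ℕ) (κ : ℕ → ℝ), (∀ j, 1 ≤ e j) ∧ (∀ j, 0 ≤ κ j) ∧
      (∀ j < m, StepOK θ ε (Q j) (Q (j + 1)) (e j) (κ j)) ∧ Q 0 = I ∧ Q m = I' ∧
      ∏ j ∈ range m, (e j : ℝ) = E ∧ ∑ j ∈ range m, κ j / e j = K := by
  induction h with
  | nil I => exact ⟨fun _ => I, fun _ => 1, fun _ => 0, fun _ => le_rfl, fun _ => le_rfl,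
      fun j hj => absurd hj (by omega), rfl, rfl, by simp, by simp⟩
  | @cons I I1 I' m e κ E K h he hκ hc ih =>
    obtain ⟨Q, e', κ', h1, h2, h3, h4, h5, h6, h7⟩ := ih
    refine ⟨fun j => Nat.casesOn j I (fun j => Q j), fun j => Nat.casesOn j e (fun j => e' j),
      fun j => Nat.casesOn j κ (fun j => κ' j), ?_, ?_, ?_, rfl, h5, ?_, ?_⟩
    · intro j; cases j with
      | zero => exact he
      | succ j => exact h1 j
    · intro j; cases j with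
      | zero => exact hκ
      | succ j => exact h2 j
    · intro j hj; cases j with
      | zero =>
        change StepOK θ ε I (Q 0) e κ
        rw [h4]; exact h
      | succ j => exact h3 j (by omega)
    · rw [Finset.prod_range_succ', ← h6, mul_comm]; rfl
    · rw [Finset.sum_range_succ', ← h7, add_comm]; rfl

theorem Ch.append {θ : σ → N} {ε : σ → ℤˣ} {I I' I'' : Ideal (A σ)} {m m' : ℕ} {E K E' K' : ℝ}
    (h : Ch θ ε I I' m E K) (h' : Ch θ ε I' I'' m' E' K') :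
    Ch θ ε I I'' (m + m') (E * E') (K + K') := by
  induction h with
  | nil I => rw [zero_add, one_mul, zero_add]; exact h'
  | @cons I I1 I' m e κ E K h he hκ hc ih =>
    have h1 := Ch.cons h he hκ (ih h')
    have h2 : m + 1 + m' = m + m' + 1 := by ring
    have h3 : (e : ℝ) * E * E' = e * (E * E') := by ring
    have h4 : κ / e + K + K' = κ / e + (K + K') := by ring
    rw [h2, h3, h4]; exact h1

theorem Ch.E_pos {θ : σ → N} {ε : σ → ℤˣ} {I I' : Ideal (A σ)} {m : ℕ} {E K : ℝ}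
    (h : Ch θ ε I I' m E K) : 1 ≤ E ∧ 0 ≤ K := by
  induction h with
  | nil I => exact ⟨le_rfl, le_rfl⟩
  | @cons I I1 I' m e κ E K h he hκ hc ih =>
    have he' : (1:ℝ) ≤ e := by exact_mod_cast he
    refine ⟨?_, ?_⟩
    · nlinarith [ih.1]
    · have := ih.2; positivity

/-- iterated sums are monotone in the number of iterations -/
theorem S_iter_le {q q' : ℕ} (h : q' ≤ q) {g : ℕ → ℝ} (hg : ∀ D, 0 ≤ g D) (D : ℕ) :
    (S 2)^[q'] g D ≤ (S 2)^[q] g D := by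
  have h0 : ∀ (g : ℕ → ℝ), (∀ D, 0 ≤ g D) → ∀ D, g D ≤ S 2 g D := by
    intro g hg D
    have : S 2 g D = ∑ i ∈ range (D / 2 + 1), g (D - i * 2) := rfl
    rw [this, Finset.sum_range_succ']
    simp only [zero_mul, Nat.sub_zero]
    have : 0 ≤ ∑ i ∈ range (D / 2), g (D - (i + 1) * 2) := Finset.sum_nonneg fun _ _ => hg _
    linarith
  have h1 : ∀ (q : ℕ) (g : ℕ → ℝ), (∀ D, 0 ≤ g D) → ∀ D, 0 ≤ (S 2)^[q] g D := by
    intro q
    induction q with
    | zero => intro g hg D; exact hg D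
    | succ q ih =>
      intro g hg D
      rw [Function.iterate_succ_apply]
      exact ih _ (fun D => (hg D).trans (h0 g hg D)) D
  induction q, h using Nat.le_induction with
  | base => exact le_rfl
  | succ q _ ih =>
    refine ih.trans ?_
    rw [Function.iterate_succ_apply']
    exact h0 _ (h1 q g hg) D

/-- arithmetic Bezout for chains -/
theorem Ch.AB {θ : σ → N} {ε : σ → ℤˣ} {i0 : σ} {I I' : Ideal (A σ)} {m : ℕ} {E K : ℝ}
    (h : Ch θ ε I I' m E K) {J J' : Ideal (A σ)}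
    (hJ : ∀ D F, F.IsHomogeneous D → (F ∈ J ↔ phiQ θ ε F = 0)) (hJI : J ≤ I)
    (hrk : ∀ D, rk J D ≤ rk J' D) {q q' : ℕ} (hq : q' ≤ q)
    (hs : ∀ D, (S 2)^[q] (fun D => (rk J' D : ℝ)) D
      ≤ (Nat.choose (D + (Fintype.card σ - 1)) (Fintype.card σ - 1) : ℝ))
    (hqm : Fintype.card σ ≤ q' + m + 1) (hmax : I'.IsMaximal)
    [Module.Finite ℚ (A σ ⧸ I')] [Fintype ((A σ ⧸ I') →ₐ[ℚ] ℂ)] (hX : X i0 - 1 ∈ I') :
    ∑ τ : (A σ ⧸ I') →ₐ[ℚ] ℂ, Real.log ‖pt τ‖ ≤ 2 ^ q' * E * K := by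
  obtain ⟨Q, e, κ, h1, h2, h3, h4, h5, h6, h7⟩ := h.seq
  have hσ : 1 ≤ Fintype.card σ := Fintype.card_pos_iff.mpr ⟨i0⟩
  rw [← h6, ← h7]
  refine chain_AB θ ε hσ Q e κ h1 h2 h3 hJ (by rw [h4]; exact hJI) hrk
    (fun D => (S_iter_le hq (fun D => Nat.cast_nonneg _) D).trans (hs D)) ?_ hqm
  rw [h5]
  exact final_lower θ ε i0 hmax hX

theorem NZD_of_prime {I : Ideal (A σ)} (hI : I.IsPrime) {f : MvPolynomial σ ℤ} (hf : toA f ∉ I) :
    NZD I f := fun _ _ _ h => (hI.mem_or_mem h).resolve_left hf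

theorem oX_hom (a : Option σ) : (oX a : MvPolynomial σ ℤ).IsHomogeneous 1 := by
  cases a with
  | none => exact isHomogeneous_zero σ ℤ 1
  | some i => exact isHomogeneous_X ℤ i

theorem lin_hom (a b c : Option σ) : (lin a b c : MvPolynomial σ ℤ).IsHomogeneous 1 :=
  ((oX_hom a).add (oX_hom b)).sub (oX_hom c)

theorem norm_ev_oX (θ : σ → N) (ε : σ → ℤˣ) (a : Option σ) (x : GA N) :
    ‖ev θ ε (oX a) * x‖ ≤ ‖x‖ := by
  cases a with
  | none => simp [oX]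
  | some i =>
    change ‖ev θ ε (X i) * x‖ ≤ ‖x‖
    rw [ev_X, GA.norm_mon_mul]
    rcases Int.units_eq_one_or (ε i) with h | h <;> simp [h]

theorem norm_ev_lin (θ : σ → N) (ε : σ → ℤˣ) (a b c : Option σ) (x : GA N) :
    ‖ev θ ε (lin a b c) * x‖ ≤ 3 * ‖x‖ := by
  unfold lin
  rw [map_sub, map_add, sub_mul, add_mul]
  have h1 := norm_ev_oX θ ε a x
  have h2 := norm_ev_oX θ ε b x
  have h3 := norm_ev_oX θ ε c x
  have h4 := norm_sub_le (ev θ ε (oX a) * x + ev θ ε (oX b) * x) (ev θ ε (oX c) * x)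
  have h5 := norm_add_le (ev θ ε (oX a) * x) (ev θ ε (oX b) * x)
  linarith

/-- X_i^N - 2 X_i0^N -/
noncomputable def powF (i0 i : σ) (n : ℕ) : MvPolynomial σ ℤ := X i ^ n - 2 * X i0 ^ n

theorem powF_hom (i0 i : σ) (n : ℕ) : (powF i0 i n).IsHomogeneous n := by
  unfold powF
  have h1 := (isHomogeneous_X ℤ i).pow n
  have h2 := (isHomogeneous_X ℤ i0).pow n
  rw [one_mul] at h1 h2
  refine h1.sub ?_
  have h3 := (isHomogeneous_C σ (2:ℤ)).mul h2
  rw [zero_add] at h3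
  exact h3

theorem norm_ev_powF (θ : σ → N) (ε : σ → ℤˣ) (i0 i : σ) (n : ℕ) (x : GA N) :
    ‖ev θ ε (powF i0 i n) * x‖ ≤ 3 * ‖x‖ := by
  have hX : ∀ j : σ, ‖ev θ ε (X j ^ n) * x‖ = ‖x‖ := by
    intro j
    rw [map_pow, ev_X, mon_pow, GA.norm_mon_mul, norm_pow]
    rcases Int.units_eq_one_or (ε j) with h | h <;> simp [h]
  unfold powF
  rw [map_sub, map_mul, map_ofNat, sub_mul]
  have h4 := norm_sub_le (ev θ ε (X i ^ n) * x) (2 * ev θ ε (X i0 ^ n) * x)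
  have h5 : 2 * ev θ ε (X i0 ^ n) * x = ev θ ε (X i0 ^ n) * x + ev θ ε (X i0 ^ n) * x := by ring
  have h6 := norm_add_le (ev θ ε (X i0 ^ n) * x) (ev θ ε (X i0 ^ n) * x)
  rw [h5] at h4
  rw [hX] at h4 h6
  rw [h5]
  linarith

theorem step_lin (θ : σ → N) (ε : σ → ℤˣ) {I I' : Ideal (A σ)} (hp : I.IsPrime) (hI : I ≤ I')
    {a b c : Option σ} (h1 : toA (lin a b c) ∈ I') (h2 : toA (lin a b c) ∉ I) :
    StepOK θ ε I I' 1 (Real.log 3) :=
  step_op θ ε hI (lin_hom a b c) h1 (NZD_of_prime hp h2) (by norm_num) (norm_ev_lin θ ε a b c)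

theorem toA_powF {I : Ideal (A σ)} {i0 : σ} (hX : X i0 - 1 ∈ I) (i : σ) (n : ℕ) :
    toA (powF i0 i n) ∈ I ↔ X i ^ n - 2 ∈ I := by
  have h1 : toA (powF i0 i n) - (X i ^ n - 2) ∈ I := by
    have h2 : toA (powF i0 i n) = X i ^ n - 2 * X i0 ^ n := by
      unfold powF toA
      rw [map_sub, map_mul, map_pow, map_pow, map_X, map_X, map_ofNat]
    rw [h2]
    have h3 : (X i ^ n - 2 * X i0 ^ n - (X i ^ n - 2) : A σ) = (-2) * (X i0 ^ n - 1) := by ring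
    rw [h3]
    apply I.mul_mem_left
    have h4 := sub_dvd_pow_sub_pow (X i0 : A σ) 1 n
    rw [one_pow] at h4
    exact I.mem_of_dvd h4 hX
  constructor
  · intro h
    have := I.sub_mem h h1
    simpa using this
  · intro h
    have := I.add_mem h1 h
    simpa using this

theorem step_pow (θ : σ → N) (ε : σ → ℤˣ) {I I' : Ideal (A σ)} (hp : I.IsPrime) (hI : I ≤ I') {i0 : σ}
    (hX : X i0 - 1 ∈ I) {i : σ} {n : ℕ} (h1 : X i ^ n - 2 ∈ I') (h2 : X i ^ n - 2 ∉ I) :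
    StepOK θ ε I I' n (Real.log 3) := by
  refine step_op θ ε hI (powF_hom i0 i n) ?_ (NZD_of_prime hp ?_) (by norm_num) (norm_ev_powF θ ε i0 i n)
  · rw [toA_powF (hI hX)]; exact h1
  · rw [toA_powF hX]; exact h2

end Tysz
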