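import Pool.Agent.Tysz.Chain
open Finset MvPolynomial Module

namespace Tysz

variable {σ : Type} [Fintype σ] [DecidableEq σ] {N : Type} [AddCommGroup N]

/-- cutting by the degree one equations -/
theorem Lcuts (θ : σ → N) (ε : σ → ℤˣ) (L : Set (Option σ × Option σ × Option σ)) {P : Ideal (A σ)}
    (hP : P.IsPrime) (hL : ∀ l ∈ L, toA (lin l.1 l.2.1 l.2.2) ∈ P) :
    ∀ (t : ℕ) (I : Ideal (A σ)), I.IsPrime → I ≤ P → td I = t →
      ∃ (k : ℕ) (Q : Ideal (A σ)), Q.IsPrime ∧ I ≤ Q ∧ Q ≤ P ∧ (∀ l ∈ L, toA (lin l.1 l.2.1 l.2.2) ∈ Q) ∧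
        Ch θ ε I Q k 1 (k * Real.log 3) ∧ td I = td Q + k ∧
        (0 < k → ∃ l ∈ L, toA (lin l.1 l.2.1 l.2.2) ∉ I) := by
  intro t
  induction t using Nat.strong_induction_on with
  | _ t ih =>
    intro I hI hIP ht
    by_cases hall : ∀ l ∈ L, toA (lin l.1 l.2.1 l.2.2) ∈ I
    · refine ⟨0, I, hI, le_rfl, hIP, hall, ?_, by simp, fun h => absurd h (by omega)⟩
      have := Ch.nil (θ := θ) (ε := ε) I
      simpa using this
    · push Not at hall
      obtain ⟨l, hl, hlI⟩ := hall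
      haveI := hI
      haveI := hP
      obtain ⟨I1, h1, h2, h3, h4, h5⟩ := td_cut' hIP (hL l hl) hlI
      obtain ⟨k, Q, g1, g2, g3, g4, g5, g6, _⟩ := ih (td I1) (by omega) I1 h1 h3 rfl
      refine ⟨k + 1, Q, g1, h2.trans g2, g3, g4, ?_, by omega, fun _ => ⟨l, hl, hlI⟩⟩
      have h6 := Ch.cons (step_lin θ ε hI h2 h4 hlI) le_rfl (Real.log_nonneg (by norm_num)) g5
      have h7 : ((k + 1 : ℕ) : ℝ) * Real.log 3 = Real.log 3 / ((1 : ℕ) : ℝ) + k * Real.log 3 := by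
        push_cast; ring
      rw [h7]
      simpa using h6

/-- cutting by equations x^n = 2 -/
theorem Ncuts (θ : σ → N) (ε : σ → ℤˣ) {i0 : σ} :
    ∀ (t : ℕ) (I : Ideal (A σ)), I.IsPrime → X i0 - 1 ∈ I → td I = t → ∀ N0 : ℕ,
      ∃ (Ns : Finset ℕ) (Q : Ideal (A σ)), Q.IsPrime ∧ I ≤ Q ∧ td Q = 0 ∧ Ns.card = t ∧
        (∀ n ∈ Ns, N0 ≤ n ∧ n.Prime ∧ ∃ i, X i ^ n - 2 ∈ Q) ∧
        Ch θ ε I Q t (∏ n ∈ Ns, (n : ℝ)) (∑ n ∈ Ns, Real.log 3 / n) := by
  intro t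
  induction t with
  | zero =>
    intro I hI hX ht N0
    refine ⟨∅, I, hI, le_rfl, ht, rfl, by simp, ?_⟩
    have := Ch.nil (θ := θ) (ε := ε) I
    simpa using this
  | succ t ih =>
    intro I hI hX ht N0
    haveI := hI
    obtain ⟨n, i, I1, h1, h2, h3, h4, h5, h6, h7, h8⟩ := td_cut_N (I := I) (by omega) N0
    obtain ⟨Ns, Q, g1, g2, g3, g4, g5, g6⟩ := ih I1 h4 (h5 hX) (by omega) (max N0 (n + 1))
    have hn : n ∉ Ns := by
      intro hn
      have := (g5 n hn).1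
      have := le_max_right N0 (n + 1)
      omega
    refine ⟨insert n Ns, Q, g1, h5.trans g2, g3, ?_, ?_, ?_⟩
    · rw [Finset.card_insert_of_notMem hn, g4]
    · intro m hm
      rcases Finset.mem_insert.mp hm with rfl | hm
      · exact ⟨h1, h2, i, g2 h6⟩
      · obtain ⟨a, b, c⟩ := g5 m hm
        exact ⟨(le_max_left _ _).trans a, b, c⟩
    · rw [Finset.prod_insert hn, Finset.sum_insert hn]
      exact Ch.cons (step_pow θ ε hI h5 hX h6 h7) h2.one_lt.le (Real.log_nonneg (by norm_num)) g6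

/-- the degree of the final field -/
theorem prod_dvd {Q : Ideal (A σ)} (hQ : Q.IsMaximal) [Module.Finite ℚ (A σ ⧸ Q)] {Ns : Finset ℕ}
    (h : ∀ n ∈ Ns, n.Prime ∧ ∃ i, X i ^ n - 2 ∈ Q) : ∏ n ∈ Ns, n ∣ finrank ℚ (A σ ⧸ Q) := by
  letI := Ideal.Quotient.field Q
  apply Finset.prod_primes_dvd
  · intro n hn; exact (h n hn).1.prime
  · intro n hn
    obtain ⟨hp, i, hi⟩ := h n hn
    set y := Ideal.Quotient.mk Q (X i) with hy
    have h1 : y ^ n - 2 = 0 := by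
      rw [hy, ← map_pow, ← map_ofNat (Ideal.Quotient.mk Q) 2, ← map_sub]
      exact Ideal.Quotient.eq_zero_iff_mem.mpr hi
    have hirr := irreducible_X_pow_sub_two hp
    have h2 : Polynomial.aeval y ((Polynomial.X : Polynomial ℚ) ^ n - Polynomial.C 2) = 0 := by
      rw [map_sub, map_pow, Polynomial.aeval_X, Polynomial.aeval_C, map_ofNat]
      exact h1
    have h3 := minpoly.eq_of_irreducible_of_monic hirr h2 (Polynomial.monic_X_pow_sub_C _ hp.ne_zero)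
    have h4 : (minpoly ℚ y).natDegree = n := by rw [← h3]; exact Polynomial.natDegree_X_pow_sub_C
    have h5 := minpoly.degree_dvd (IsIntegral.of_finite ℚ y)
    rw [h4] at h5
    exact h5

end Tysz
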