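import Mathlib

set_option autoImplicit false

open Finset

namespace Tysz

namespace RowsAux

/-- unit vector or zero -/
def vec {κ : Type} [DecidableEq κ] : Option κ → κ → ℤ
  | none => 0
  | some a => Pi.single a 1

theorem sum_vec {κ : Type} [DecidableEq κ] [Fintype κ] (a : κ) : ∑ j, vec (some a) j = 1 := by
  simp [vec]

theorem vec_none {κ : Type} [DecidableEq κ] (j : κ) : vec (none : Option κ) j = 0 := rfl

theorem vec_some {κ : Type} [DecidableEq κ] (a j : κ) :
    vec (some a) j = if j = a then 1 else 0 := by
  simp [vec, Pi.single_apply]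

/-- deleting the column `c` -/
theorem exists_del {k : ℕ} (c : Fin (k + 1)) (a : Option (Fin (k + 1))) :
    ∃ b : Option (Fin k), ∀ j, vec a (c.succAbove j) = vec b j := by
  rcases a with _ | a
  · exact ⟨none, fun j => rfl⟩
  · by_cases h : a = c
    · refine ⟨none, fun j => ?_⟩
      rw [vec_some, vec_none, if_neg]
      rw [h]; exact Fin.succAbove_ne c j
    · obtain ⟨b, hb⟩ := Fin.exists_succAbove_eq h
      refine ⟨some b, fun j => ?_⟩
      rw [vec_some, vec_some, ← hb]
      simp only [Fin.succAbove_right_inj]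

theorem net_fin : ∀ (k : ℕ) (A : Matrix (Fin k) (Fin k) ℤ) (a b : Fin k → Option (Fin k)),
    (∀ i j, A i j = vec (a i) j - vec (b i) j) → |A.det| ≤ 1 := by
  intro k
  induction k with
  | zero => intro A a b _; simp
  | succ k ih =>
    intro A a b h
    by_cases h1 : ∃ i, a i = b i
    · obtain ⟨i, hi⟩ := h1
      have : A.det = 0 := Matrix.det_eq_zero_of_row_eq_zero i fun j => by rw [h, hi, sub_self]
      rw [this]; norm_num
    push Not at h1
    by_cases h2 : ∃ i, a i = none ∨ b i = none
    · obtain ⟨i, hi⟩ := h2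
      obtain ⟨c, s, hs, hc⟩ : ∃ (c : Fin (k + 1)) (s : ℤ), |s| = 1 ∧
          ∀ j, A i j = if j = c then s else 0 := by
        rcases hi with hi | hi
        · obtain ⟨c, hc⟩ := Option.ne_none_iff_exists'.1 (fun hh => h1 i (hi.trans hh.symm))
          refine ⟨c, -1, by norm_num, fun j => ?_⟩
          rw [h, hi, hc, vec_none, vec_some]
          split_ifs <;> norm_num
        · obtain ⟨c, hc⟩ := Option.ne_none_iff_exists'.1
            (fun hh : a i = none => h1 i (hh.trans hi.symm))
          refine ⟨c, 1, by norm_num, fun j => ?_⟩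
          rw [h, hi, hc, vec_none, vec_some]
          split_ifs <;> norm_num
      rw [Matrix.det_succ_row A i, Finset.sum_eq_single c]
      · rw [hc c, if_pos rfl, abs_mul, abs_mul, abs_pow, abs_neg, abs_one, one_pow, one_mul, hs,
          one_mul]
        choose a' ha' using fun i' => exists_del c (a (i.succAbove i'))
        choose b' hb' using fun i' => exists_del c (b (i.succAbove i'))
        refine ih _ a' b' fun i' j => ?_
        rw [Matrix.submatrix_apply, h, ha', hb']
      · intro j _ hj
        rw [hc j, if_neg hj]; ring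
      · intro hh; exact absurd (Finset.mem_univ c) hh
    · push Not at h2
      have : A.det = 0 := by
        refine Matrix.exists_mulVec_eq_zero_iff.1 ⟨fun _ => 1, ?_, ?_⟩
        · intro hh
          have := congrFun hh 0
          simp at this
        · ext i
          obtain ⟨x, hx⟩ := Option.ne_none_iff_exists'.1 (h2 i).1
          obtain ⟨y, hy⟩ := Option.ne_none_iff_exists'.1 (h2 i).2
          simp only [Matrix.mulVec, dotProduct, mul_one, Pi.zero_apply]
          rw [Finset.sum_congr rfl fun j _ => h i j, Finset.sum_sub_distrib, hx, hy, sum_vec,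
            sum_vec, sub_self]
      rw [this]; norm_num

variable {κ : Type} [Fintype κ] [DecidableEq κ]

/-- network rows -/
def Net (v : κ → ℤ) : Prop := ∃ a b : Option κ, ∀ j, v j = vec a j - vec b j

theorem net (A : Matrix κ κ ℤ) (h : ∀ i, Net (A i)) : |A.det| ≤ 1 := by
  choose a b hab using h
  set e := Fintype.equivFin κ with he
  have h1 := net_fin (Fintype.card κ) (A.submatrix e.symm e.symm)
    (fun i => (a (e.symm i)).map e) (fun i => (b (e.symm i)).map e) ?_
  · rwa [Matrix.det_submatrix_equiv_self] at h1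
  · intro i j
    have key : ∀ x : Option κ, vec x (e.symm j) = vec (x.map e) j := by
      rintro (_ | x)
      · rfl
      · rw [Option.map_some, vec_some, vec_some]
        by_cases hh : e.symm j = x
        · rw [if_pos hh, if_pos]
          rw [← hh, Equiv.apply_symm_apply]
        · rw [if_neg hh, if_neg]
          intro h2
          apply hh
          rw [h2, Equiv.symm_apply_apply]
    rw [Matrix.submatrix_apply, hab, key, key]

theorem net2 (Q : Finset κ) : ∀ (A : Matrix κ κ ℤ), (∀ i, i ∉ Q → Net (A i)) →
    (∀ i ∈ Q, ∃ u w : κ → ℤ, Net u ∧ Net w ∧ A i = u + w) → |A.det| ≤ 2 ^ Q.card := by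
  induction Q using Finset.induction_on with
  | empty =>
    intro A h _
    rw [Finset.card_empty, pow_zero]
    exact net A fun i => h i (Finset.notMem_empty i)
  | insert i Q hi ih =>
    intro A h1 h2
    obtain ⟨u, w, hu, hw, huw⟩ := h2 i (Finset.mem_insert_self i Q)
    have key : ∀ v : κ → ℤ, Net v → |(A.updateRow i v).det| ≤ 2 ^ Q.card := by
      intro v hv
      refine ih _ (fun j hj => ?_) (fun j hj => ?_)
      · by_cases hji : j = i
        · subst hji; rw [Matrix.updateRow_self]; exact hv
        · rw [Matrix.updateRow_ne hji]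
          exact h1 j (by rw [Finset.mem_insert]; rintro (hh | hh); exacts [hji hh, hj hh])
      · have hji : j ≠ i := by rintro rfl; exact hi hj
        rw [Matrix.updateRow_ne hji]
        exact h2 j (Finset.mem_insert_of_mem hj)
    have : A.det = (A.updateRow i u).det + (A.updateRow i w).det := by
      rw [← Matrix.det_updateRow_add, ← huw, Matrix.updateRow_eq_self]
    rw [this, Finset.card_insert_of_notMem hi, pow_succ]
    have := abs_add_le (A.updateRow i u).det (A.updateRow i w).det
    have := key u hu
    have := key w hw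
    linarith

end RowsAux

section D
variable {σ : Type} [Fintype σ] [DecidableEq σ]
/-- row of the multiplicative equation x_i x_j = x_k, homogenised with the variable i0 -/
def vecM (i0 : σ) (t : σ × σ × σ) : σ → ℚ :=
  Pi.single t.1 1 + Pi.single t.2.1 1 - Pi.single t.2.2 1 - Pi.single i0 1
/-- row x_a = x_b -/
def vecD (t : σ × σ) : σ → ℚ := Pi.single t.1 1 - Pi.single t.2 1

open RowsAux in
/-- SPEC D -/
theorem row_bound (i0 : σ) {q m : ℕ} (ρ : Fin q → σ × σ × σ) (δ : Fin m → σ × σ)
    (hind : LinearIndependent ℚ (Sum.elim (fun j => vecM i0 (ρ j)) (fun j => vecD (δ j))))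
    (hcard : q + m + 1 = Fintype.card σ) (r : σ → ℝ) (h0 : r i0 = 0)
    (hρ : ∀ j, r (ρ j).1 + r (ρ j).2.1 = r (ρ j).2.2)
    (hδ : ∀ j, |r (δ j).1 - r (δ j).2| ≤ 1) (i : σ) : |r i| ≤ m * 2 ^ q := by
  classical
  by_cases hi : i = i0
  · rw [hi, h0, abs_zero]; positivity
  -- the columns
  have hc : Fintype.card (Fin q ⊕ Fin m) = Fintype.card {c : σ // c ≠ i0} := by
    rw [Fintype.card_sum, Fintype.card_fin, Fintype.card_fin, Fintype.card_subtype_compl,
      Fintype.card_subtype_eq]
    omega
  obtain ⟨e⟩ : Nonempty (Fin q ⊕ Fin m ≃ {c : σ // c ≠ i0}) := Fintype.card_eq.1 hc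
  set tr : σ → Option (Fin q ⊕ Fin m) := fun a => if h : a = i0 then none else some (e.symm ⟨a, h⟩)
    with htr
  have htr1 : ∀ a k, (Pi.single a 1 : σ → ℚ) (e k) = (vec (tr a) k : ℚ) := by
    intro a k
    by_cases ha : a = i0
    · simp only [htr, ha, dif_pos, vec_none]
      rw [Pi.single_apply, if_neg (e k).2]; simp
    · simp only [htr, ha, dif_neg, not_false_eq_true]
      rw [vec_some, Pi.single_apply]
      by_cases hk : (e k : σ) = a
      · rw [if_pos hk, if_pos]
        · simp
        · rw [Equiv.eq_symm_apply]; exact Subtype.ext hk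
      · rw [if_neg hk, if_neg]
        · simp
        · rw [Equiv.eq_symm_apply]; intro hh; exact hk (congrArg Subtype.val hh)
  have htr2 : ∀ a, r a = ∑ k, (vec (tr a) k : ℝ) * r (e k) := by
    intro a
    by_cases ha : a = i0
    · simp only [htr, ha, dif_pos, vec_none]
      simp [h0]
    · simp only [htr, ha, dif_neg, not_false_eq_true]
      rw [Finset.sum_eq_single (e.symm ⟨a, ha⟩)]
      · simp [vec_some]
      · intro b _ hb
        rw [vec_some, if_neg hb]; simp
      · intro hh; exact absurd (Finset.mem_univ _) hh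
  set A : Matrix (Fin q ⊕ Fin m) (Fin q ⊕ Fin m) ℤ := fun j => Sum.elim
    (fun j => (fun k => vec (tr (ρ j).1) k - vec (tr (ρ j).2.2) k) +
      (fun k => vec (tr (ρ j).2.1) k - vec none k))
    (fun j => fun k => vec (tr (δ j).1) k - vec (tr (δ j).2) k) j with hA
  have hdet : A.det ≠ 0 := by
    intro hdet
    have h1 : (A.map (Int.cast : ℤ → ℚ)).det = 0 := by
      have := Int.cast_det (R := ℚ) A
      rw [← this, hdet, Int.cast_zero]
    obtain ⟨v, hv, hv0⟩ := Matrix.exists_vecMul_eq_zero_iff.2 h1
    apply hv
    have h2 : ∑ j, v j • Sum.elim (fun j => vecM i0 (ρ j)) (fun j => vecD (δ j)) j = 0 := by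
      -- the sum of the coordinates vanishes
      have hsum : ∀ j, ∑ c, Sum.elim (fun j => vecM i0 (ρ j)) (fun j => vecD (δ j)) j c = 0 := by
        rintro (j | j)
        · simp [vecM, Finset.sum_add_distrib, Finset.sum_sub_distrib]
        · simp [vecD, Finset.sum_sub_distrib]
      have hcol : ∀ k, (∑ j, v j • Sum.elim (fun j => vecM i0 (ρ j)) (fun j => vecD (δ j)) j)
          (e k : σ) = 0 := by
        intro k
        have h3 := congrFun hv0 k
        rw [Finset.sum_apply]
        rw [← h3.trans (Pi.zero_apply k)]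
        simp only [Matrix.vecMul, dotProduct]
        refine Finset.sum_congr rfl fun j _ => ?_
        rw [Pi.smul_apply, smul_eq_mul, Matrix.map_apply]
        congr 1
        rcases j with j | j
        · simp only [Sum.elim_inl, vecM, hA, Pi.add_apply, Pi.sub_apply, htr1, vec_none]
          have : tr i0 = none := by simp [htr]
          rw [this, vec_none]
          push_cast
          ring
        · simp only [Sum.elim_inr, vecD, hA, Pi.sub_apply, htr1]
          push_cast
          ring
      ext c
      rw [Pi.zero_apply]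
      by_cases hc0 : c = i0
      · have h4 : ∑ c, (∑ j, v j • Sum.elim (fun j => vecM i0 (ρ j)) (fun j => vecD (δ j)) j) c = 0
            := by
          simp only [Finset.sum_apply, Pi.smul_apply, smul_eq_mul]
          rw [Finset.sum_comm]
          refine Finset.sum_eq_zero fun j _ => ?_
          rw [← Finset.mul_sum, hsum, mul_zero]
        rw [Finset.sum_eq_single i0] at h4
        · rw [hc0]; exact h4
        · intro b _ hb
          have := hcol (e.symm ⟨b, hb⟩)
          rwa [Equiv.apply_symm_apply] at this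
        · intro hh; exact absurd (Finset.mem_univ _) hh
      · have := hcol (e.symm ⟨c, hc0⟩)
        rwa [Equiv.apply_symm_apply] at this
    exact funext fun j => Fintype.linearIndependent_iff.1 hind v h2 j
  -- Cramer
  set r' : Fin q ⊕ Fin m → ℝ := fun k => r (e k) with hr'
  set A' : Matrix (Fin q ⊕ Fin m) (Fin q ⊕ Fin m) ℝ := A.map (Int.cast : ℤ → ℝ) with hA'
  have hb1 : ∀ j : Fin q, (A'.mulVec r') (Sum.inl j) = 0 := by
    intro j
    have e1 := htr2 (ρ j).1
    have e2 := htr2 (ρ j).2.1
    have e3 := htr2 (ρ j).2.2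
    have : (A'.mulVec r') (Sum.inl j) = r (ρ j).1 + r (ρ j).2.1 - r (ρ j).2.2 := by
      rw [e1, e2, e3, ← Finset.sum_add_distrib, ← Finset.sum_sub_distrib]
      simp only [Matrix.mulVec, dotProduct]
      refine Finset.sum_congr rfl fun k _ => ?_
      simp only [hA', Matrix.map_apply, hA, Sum.elim_inl, Pi.add_apply, vec_none, hr']
      push_cast
      ring
    rw [this, hρ j, sub_self]
  have hb2 : ∀ j : Fin m, |(A'.mulVec r') (Sum.inr j)| ≤ 1 := by
    intro j
    have e1 := htr2 (δ j).1
    have e2 := htr2 (δ j).2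
    have : (A'.mulVec r') (Sum.inr j) = r (δ j).1 - r (δ j).2 := by
      rw [e1, e2, ← Finset.sum_sub_distrib]
      simp only [Matrix.mulVec, dotProduct]
      refine Finset.sum_congr rfl fun k _ => ?_
      simp only [hA', Matrix.map_apply, hA, Sum.elim_inr, hr']
      push_cast
      ring
    rw [this]; exact hδ j
  have hnet : ∀ (k : Fin q ⊕ Fin m) (j : Fin m), |(A.adjugate k (Sum.inr j) : ℤ)| ≤ 2 ^ q := by
    intro k j
    rw [Matrix.adjugate_apply]
    have := net2 (Finset.univ.image (Sum.inl : Fin q → Fin q ⊕ Fin m))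
      (A.updateRow (Sum.inr j) (Pi.single k 1)) ?_ ?_
    · rwa [Finset.card_image_of_injective _ Sum.inl_injective, Finset.card_univ,
        Fintype.card_fin] at this
    · intro i hi
      by_cases hij : i = Sum.inr j
      · subst hij
        rw [Matrix.updateRow_self]
        exact ⟨some k, none, fun l => by simp [vec]⟩
      · rw [Matrix.updateRow_ne hij]
        rcases i with i | i
        · exact absurd (Finset.mem_image_of_mem _ (Finset.mem_univ i)) hi
        · exact ⟨tr (δ i).1, tr (δ i).2, fun l => rfl⟩
    · intro i hi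
      obtain ⟨i', _, rfl⟩ := Finset.mem_image.1 hi
      rw [Matrix.updateRow_ne (by simp)]
      exact ⟨_, _, ⟨tr (ρ i').1, tr (ρ i').2.2, fun l => rfl⟩, ⟨tr (ρ i').2.1, none, fun l => rfl⟩,
        rfl⟩
  have hadj : A'.adjugate = A.adjugate.map (Int.cast : ℤ → ℝ) := by
    have := RingHom.map_adjugate (Int.castRingHom ℝ) A
    rw [hA']
    exact this.symm
  set k := e.symm ⟨i, hi⟩ with hk
  have hrk : r' k = r i := by
    simp only [hr', hk, Equiv.apply_symm_apply]
  have hcr : A'.det * r' k = ∑ j, A'.adjugate k (Sum.inr j) * (A'.mulVec r') (Sum.inr j) := by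
    have h1 : (A'.adjugate * A').mulVec r' = A'.det • r' := by
      rw [Matrix.adjugate_mul, Matrix.smul_mulVec, Matrix.one_mulVec]
    have h2 := congrFun h1 k
    rw [Pi.smul_apply, smul_eq_mul, ← Matrix.mulVec_mulVec] at h2
    rw [← h2]
    simp only [Matrix.mulVec, dotProduct]
    rw [Fintype.sum_sum_type]
    have h3 : ∑ x : Fin q, A'.adjugate k (Sum.inl x) * ∑ x_1, A' (Sum.inl x) x_1 * r' x_1 = 0 := by
      refine Finset.sum_eq_zero fun x _ => ?_
      have := hb1 x
      simp only [Matrix.mulVec, dotProduct] at this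
      rw [this, mul_zero]
    rw [h3, zero_add]
  have hdet' : A'.det = (A.det : ℝ) := by
    rw [hA', Int.cast_det]
  have h5 : |A'.det * r' k| ≤ m * 2 ^ q := by
    rw [hcr]
    calc |∑ j, A'.adjugate k (Sum.inr j) * (A'.mulVec r') (Sum.inr j)|
        ≤ ∑ j : Fin m, |A'.adjugate k (Sum.inr j) * (A'.mulVec r') (Sum.inr j)| :=
          Finset.abs_sum_le_sum_abs _ _
      _ ≤ ∑ _j : Fin m, (2 : ℝ) ^ q := by
          refine Finset.sum_le_sum fun j _ => ?_
          rw [abs_mul]
          have h6 : |A'.adjugate k (Sum.inr j)| ≤ 2 ^ q := by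
            rw [hadj, Matrix.map_apply]
            exact_mod_cast hnet k j
          calc _ ≤ (2 : ℝ) ^ q * 1 := mul_le_mul h6 (hb2 j) (abs_nonneg _) (by positivity)
            _ = _ := mul_one _
      _ = _ := by rw [Finset.sum_const, Finset.card_univ, Fintype.card_fin, nsmul_eq_mul]
  have h7 : 1 ≤ |A'.det| := by
    rw [hdet']
    have := Int.one_le_abs hdet
    exact_mod_cast this
  rw [abs_mul, hrk] at h5
  have := mul_le_mul_of_nonneg_right h7 (abs_nonneg (r i))
  linarith
end D

end Tysz
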