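import Pool.Agent.Tysz.Gam
import Pool.Agent.Tysz.Rows
open Finset MvPolynomial Module

namespace Tysz

variable {σ : Type} [Fintype σ] [DecidableEq σ] {N : Type} [AddCommGroup N]

/-- integral row of the multiplicative equation x_i x_j = x_k x_i0 -/
def vecZ (i0 : σ) (t : σ × σ × σ) : σ → ℤ :=
  Pi.single t.1 1 + Pi.single t.2.1 1 - Pi.single t.2.2 1 - Pi.single i0 1

/-- lattice generated by multiplicative rows -/
def latt (i0 : σ) (Mt : Set (σ × σ × σ)) : AddSubgroup (σ → ℤ) := AddSubgroup.closure (vecZ i0 '' Mt)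

/-- saturation -/
def satu (R : AddSubgroup (σ → ℤ)) : AddSubgroup (σ → ℤ) where
  carrier := {v | ∃ k : ℤ, k ≠ 0 ∧ k • v ∈ R}
  zero_mem' := ⟨1, one_ne_zero, by simp⟩
  add_mem' := by
    rintro a b ⟨k, hk, hka⟩ ⟨l, hl, hlb⟩
    refine ⟨k * l, mul_ne_zero hk hl, ?_⟩
    rw [smul_add, mul_comm k l, mul_smul, mul_comm l k, mul_smul]
    exact R.add_mem (R.zsmul_mem hka l) (R.zsmul_mem hlb k)
  neg_mem' := by
    rintro a ⟨k, hk, hka⟩
    exact ⟨k, hk, by rw [smul_neg]; exact R.neg_mem hka⟩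

/-- classes of the variables -/
def thR (R : AddSubgroup (σ → ℤ)) (i : σ) : (σ → ℤ) ⧸ R := QuotientAddGroup.mk (Pi.single i 1)

/-- the homogeneous toric ideal -/
noncomputable def J0 (θ : σ → N) (ε : σ → ℤˣ) : Ideal (A σ) :=
  Ideal.span {F | (∃ D, F.IsHomogeneous D) ∧ phiQ θ ε F = 0}

/-- optional variable -/
noncomputable def oX : Option σ → MvPolynomial σ ℤ
  | none => 0
  | some i => X i
/-- degree one equation x_a + x_b = x_c, some terms possibly missing -/
noncomputable def lin (a b c : Option σ) : MvPolynomial σ ℤ := oX a + oX b - oX c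

/-- the data of a rational point with its multiplicative equations -/
structure RatPt (σ : Type) [Fintype σ] [DecidableEq σ] (i0 : σ) (q : ℕ) where
  P : σ → ℚ
  P0 : P i0 = 1
  Pne : ∀ i, P i ≠ 0
  ρ : Fin q → σ × σ × σ
  hρ : ∀ j, P (ρ j).1 * P (ρ j).2.1 = P (ρ j).2.2
  ind : LinearIndependent ℚ (fun j => vecM i0 (ρ j))

namespace RatPt
variable {i0 : σ} {q : ℕ} (p : RatPt σ i0 q)
/-- saturated lattice -/
def R : AddSubgroup (σ → ℤ) := satu (latt i0 (Set.range p.ρ))
/-- signs -/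
noncomputable def sg (i : σ) : ℤˣ := if 0 < p.P i then 1 else -1
/-- Phi for the rational point -/
noncomputable def ph : A σ →+* GA ((σ → ℤ) ⧸ p.R) := phiQ (thR p.R) p.sg
/-- zero at the point -/
def Van (F : A σ) : Prop := MvPolynomial.eval p.P F = 0

/-- type D: three terms, l^2-norm of the image larger than sqrt 3 -/
def TypeD (a b c : Option σ) : Prop := ¬ ‖p.ph (toA (lin a b c))‖ ≤ Real.sqrt 3

end RatPt
end Tysz
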