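import Pool.Agent.Tysz.Graded
open Finset MvPolynomial Module

namespace Tysz

variable {σ : Type} [Fintype σ] [DecidableEq σ] {N : Type} [AddCommGroup N]

theorem coeff_toA (F : MvPolynomial σ ℤ) (α : σ →₀ ℕ) : coeff α (toA F) = ((coeff α F : ℤ) : ℚ) := by
  unfold toA; rw [coeff_map]; rfl

/-- clearing denominators -/
theorem exists_int_mul (F : A σ) : ∃ c : ℤ, c ≠ 0 ∧ ∃ G : MvPolynomial σ ℤ, toA G = (c : ℚ) • F ∧
    ∀ D, F.IsHomogeneous D → G.IsHomogeneous D := by
  obtain ⟨⟨b, hb0⟩, hb⟩ := IsLocalization.exist_integer_multiples (nonZeroDivisors ℤ) F.support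
    (fun α => coeff α F)
  have hb' : ∀ α, ∃ z : ℤ, α ∈ F.support → (z : ℚ) = (b : ℚ) * coeff α F := by
    intro α
    by_cases hα : α ∈ F.support
    · obtain ⟨z, hz⟩ := hb α hα
      refine ⟨z, fun _ => ?_⟩
      have : (algebraMap ℤ ℚ) z = (z : ℚ) := rfl
      rw [this] at hz
      rw [hz]
      simp
    · exact ⟨0, fun h => absurd h hα⟩
  choose z hz using hb'
  have hcoef : ∀ α, coeff α (∑ β ∈ F.support, monomial β (z β) : MvPolynomial σ ℤ)
      = if α ∈ F.support then z α else 0 := by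
    intro α
    rw [coeff_sum]
    simp only [coeff_monomial]
    rw [Finset.sum_ite_eq' F.support α]
  refine ⟨b, nonZeroDivisors.ne_zero hb0, ∑ α ∈ F.support, monomial α (z α), ?_, ?_⟩
  · ext α
    rw [coeff_toA, hcoef, coeff_smul]
    split_ifs with h
    · rw [hz α h, smul_eq_mul]
    · rw [notMem_support_iff.mp h]; simp
  · intro D hF α hα
    rw [hcoef] at hα
    split_ifs at hα with h
    · exact hF (mem_support_iff.mp h)
    · exact absurd rfl hα

/-- integer multiples of the generators in degree D -/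
noncomputable def genList (H : List (ℕ × MvPolynomial σ ℤ)) (D : ℕ) : List (MvPolynomial σ ℤ) :=
  H.flatMap (fun p => if p.1 ≤ D then (exps σ (D - p.1)).toList.map (fun α => monomial α 1 * p.2) else [])

theorem mem_genList {H : List (ℕ × MvPolynomial σ ℤ)} {D : ℕ} {F : MvPolynomial σ ℤ} :
    F ∈ genList H D ↔ ∃ p ∈ H, p.1 ≤ D ∧ ∃ α ∈ exps σ (D - p.1), F = monomial α 1 * p.2 := by
  unfold genList
  rw [List.mem_flatMap]
  constructor
  · rintro ⟨p, hp, h⟩
    split_ifs at h with hd
    · obtain ⟨α, hα, rfl⟩ := List.mem_map.mp h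
      exact ⟨p, hp, hd, α, by simpa using hα, rfl⟩
    · simp at h
  · rintro ⟨p, hp, hd, α, hα, rfl⟩
    refine ⟨p, hp, ?_⟩
    rw [if_pos hd]
    exact List.mem_map.mpr ⟨α, by simpa using hα, rfl⟩

/-- H is a system of homogeneous integral generators of (the homogeneous part of) I -/
structure Gens (I : Ideal (A σ)) (H : List (ℕ × MvPolynomial σ ℤ)) : Prop where
  hom : ∀ p ∈ H, p.2.IsHomogeneous p.1
  mem : ∀ p ∈ H, toA p.2 ∈ I
  spn : ∀ D F, F.IsHomogeneous D → F ∈ I → F ∈ sp ℚ (fun G : MvPolynomial σ ℤ => toA G) (genList H D)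

theorem comp_mul {d D : ℕ} {t : A σ} (ht : t.IsHomogeneous d) (a : A σ) :
    homogeneousComponent D (a * t) = if d ≤ D then homogeneousComponent (D - d) a * t else 0 := by
  conv_lhs => rw [← sum_homogeneousComponent a, Finset.sum_mul, map_sum]
  have h1 : ∀ i, homogeneousComponent D (homogeneousComponent i a * t)
      = if D = i + d then homogeneousComponent i a * t else 0 := by
    intro i
    exact homogeneousComponent_of_mem (IsHomogeneous.mul (homogeneousComponent_mem i a) ht)
  simp only [h1]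
  split_ifs with hd
  · by_cases hD : D - d ∈ Finset.range (a.totalDegree + 1)
    · rw [Finset.sum_eq_single (D - d)]
      · rw [if_pos (by omega)]
      · intro b _ hb; rw [if_neg (by omega)]
      · intro h; exact absurd hD h
    · rw [Finset.sum_eq_zero]
      · rw [Finset.mem_range, not_lt] at hD
        rw [homogeneousComponent_eq_zero (D - d) a (by omega), zero_mul]
      · intro i hi
        rw [if_neg]
        intro h
        apply hD
        rw [Finset.mem_range] at hi ⊢
        omega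
  · apply Finset.sum_eq_zero
    intro i _; rw [if_neg (by omega)]

theorem exists_gens (I : Ideal (A σ)) : ∃ H : List (ℕ × MvPolynomial σ ℤ), Gens I H := by
  classical
  set S : Set (A σ) := {F | F ∈ I ∧ ∃ d, F.IsHomogeneous d} with hS
  obtain ⟨T, hTS, hT⟩ := (Submodule.fg_span_iff_fg_span_finset_subset (R := A σ) S).mp
    (IsNoetherian.noetherian _)
  have hdat : ∀ t : A σ, ∃ p : ℕ × MvPolynomial σ ℤ, t ∈ T → p.2.IsHomogeneous p.1 ∧
      t.IsHomogeneous p.1 ∧ ∃ c : ℤ, c ≠ 0 ∧ toA p.2 = (c : ℚ) • t := by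
    intro t
    by_cases ht : t ∈ T
    · obtain ⟨_, d, hd⟩ := hTS ht
      obtain ⟨c, hc, G, hG1, hG2⟩ := exists_int_mul t
      exact ⟨(d, G), fun _ => ⟨hG2 d hd, hd, c, hc, hG1⟩⟩
    · exact ⟨(0, 0), fun h => absurd h ht⟩
  choose p hp using hdat
  refine ⟨T.toList.map p, ?_, ?_, ?_⟩
  · intro q hq
    obtain ⟨t, ht, rfl⟩ := List.mem_map.mp hq
    exact (hp t (by simpa using ht)).1
  · intro q hq
    obtain ⟨t, ht, rfl⟩ := List.mem_map.mp hq
    have ht' : t ∈ T := by simpa using ht
    obtain ⟨_, _, c, _, h⟩ := hp t ht'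
    rw [h, smul_eq_C_mul]
    exact I.mul_mem_left _ (hTS ht').1
  · intro D F hF hFI
    have h1 : F ∈ Submodule.span (A σ) (T : Set (A σ)) := by
      rw [← hT]; exact Submodule.subset_span ⟨hFI, D, hF⟩
    obtain ⟨a, _, ha⟩ := Submodule.mem_span_finset.mp h1
    have h2 : F = ∑ t ∈ T, homogeneousComponent D (a t • t) := by
      rw [← map_sum, ha]; exact (homogeneousComponent_eq_self hF).symm
    rw [h2]
    refine Submodule.sum_mem _ fun t ht => ?_
    obtain ⟨hp1, hp2, c, hc, hp3⟩ := hp t ht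
    rw [smul_eq_mul, comp_mul hp2]
    split_ifs with hd
    · set b := homogeneousComponent (D - (p t).1) (a t) with hb
      have hbh : b.IsHomogeneous (D - (p t).1) := homogeneousComponent_mem _ _
      have ht' : t = ((c : ℚ)⁻¹) • toA (p t).2 := by
        rw [hp3, smul_smul, inv_mul_cancel₀ (by exact_mod_cast hc), one_smul]
      rw [ht', b.as_sum, Finset.sum_mul]
      refine Submodule.sum_mem _ fun α hα => ?_
      have h3 : (monomial α (coeff α b) : A σ) * ((c : ℚ)⁻¹ • toA (p t).2)
          = (coeff α b * (c : ℚ)⁻¹) • toA (monomial α 1 * (p t).2) := by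
        rw [map_mul, toA_monomial]
        have : (monomial α (coeff α b) : A σ) = coeff α b • monomial α 1 := by
          rw [smul_monomial, smul_eq_mul, mul_one]
        rw [this, smul_mul_smul_comm]
      rw [h3]
      refine Submodule.smul_mem _ _ (mem_sp (fun G : MvPolynomial σ ℤ => toA G) ?_)
      rw [mem_genList]
      exact ⟨p t, List.mem_map.mpr ⟨t, by simpa using ht, rfl⟩, hd, α, homog_support hbh hα, rfl⟩
    · exact Submodule.zero_mem _

theorem genList_hom {I : Ideal (A σ)} {H : List (ℕ × MvPolynomial σ ℤ)} (hH : Gens I H) {D : ℕ}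
    {F : MvPolynomial σ ℤ} (hF : F ∈ genList H D) : F.IsHomogeneous D ∧ toA F ∈ I := by
  obtain ⟨p, hp, hd, α, hα, rfl⟩ := mem_genList.mp hF
  constructor
  · have := (homog_monomial hα (1 : ℤ)).mul (hH.hom p hp)
    rwa [Nat.sub_add_cancel hd] at this
  · rw [map_mul]; exact I.mul_mem_left _ (hH.mem p hp)

/-- a bound for the norms of the generators -/
theorem genList_norm (θ : σ → N) (ε : σ → ℤˣ) (H : List (ℕ × MvPolynomial σ ℤ)) :
    ∃ C : ℝ, 1 ≤ C ∧ ∀ D, ∀ F ∈ genList H D, ‖ev θ ε F‖ ≤ C := by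
  refine ⟨1 + (H.map (fun p => ‖ev θ ε p.2‖)).sum, ?_, ?_⟩
  · have : 0 ≤ (H.map (fun p => ‖ev θ ε p.2‖)).sum := by
      apply List.sum_nonneg
      intro x hx
      obtain ⟨p, _, rfl⟩ := List.mem_map.mp hx
      exact norm_nonneg _
    linarith
  · intro D F hF
    obtain ⟨p, hp, hd, α, hα, rfl⟩ := mem_genList.mp hF
    have h1 : ev θ ε (monomial α 1) = GA.mon (cls θ α) (sgn ε α) := by
      rw [ev_apply, toA_monomial]
      change phi θ ε (toC (monomial α 1)) = _
      unfold toC
      rw [map_monomial, phi_monomial]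
      simp
    rw [map_mul, h1, GA.norm_mon_mul, norm_sgn, one_mul]
    have h2 : ‖ev θ ε p.2‖ ≤ (H.map (fun p => ‖ev θ ε p.2‖)).sum := by
      apply List.single_le_sum
      · intro x hx
        obtain ⟨p, _, rfl⟩ := List.mem_map.mp hx
        exact norm_nonneg _
      · exact List.mem_map.mpr ⟨p, hp, rfl⟩
    linarith

end Tysz
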