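import Pool.Agent.Tysz.Ext
open Finset MvPolynomial Module

namespace Tysz

variable {σ : Type} [Fintype σ] [DecidableEq σ] {N : Type} [AddCommGroup N]

/-- factor map -/
noncomputable def qL {I I' : Ideal (A σ)} (h : I ≤ I') : (A σ ⧸ I) →ₗ[ℚ] (A σ ⧸ I') :=
  (Ideal.Quotient.factorₐ ℚ h).toLinearMap

theorem qL_mkL {I I' : Ideal (A σ)} (h : I ≤ I') (F : A σ) : qL h (mkL I F) = mkL I' F := rfl

/-- kernel part -/
noncomputable def UU (I I' : Ideal (A σ)) (D : ℕ) : Submodule ℚ (A σ ⧸ I) :=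
  (homogeneousSubmodule σ ℚ D ⊓ I'.restrictScalars ℚ).map (mkL I)

instance UU_fd (I I' : Ideal (A σ)) (D : ℕ) : FiniteDimensional ℚ (UU I I' D) := by
  have : UU I I' D ≤ gr I D := Submodule.map_mono inf_le_left
  exact Submodule.finiteDimensional_of_le this

theorem mem_UU {I I' : Ideal (A σ)} {D : ℕ} {F : A σ} (hF : F.IsHomogeneous D) (hF' : F ∈ I') :
    mkL I F ∈ UU I I' D := Submodule.mem_map_of_mem ⟨hF, hF'⟩

theorem finrank_UU {I I' : Ideal (A σ)} (h : I ≤ I') (D : ℕ) :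
    finrank ℚ (UU I I' D) + rk I' D = rk I D := by
  have h1 := LinearMap.finrank_range_add_finrank_ker ((qL h).domRestrict (gr I D))
  rw [LinearMap.range_domRestrict] at h1
  have h2 : (gr I D).map (qL h) = gr I' D := by
    unfold gr
    rw [← Submodule.map_comp]
    rfl
  rw [h2, LinearMap.ker_domRestrict] at h1
  have h3 : ((LinearMap.ker (qL h)).comap (gr I D).subtype).map (gr I D).subtype = UU I I' D := by
    ext x
    constructor
    · rintro ⟨y, hy, rfl⟩
      obtain ⟨F, hF, hFy⟩ := y.2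
      have hy' : qL h y.1 = 0 := hy
      rw [← hFy, qL_mkL, mkL_eq_zero] at hy'
      change y.1 ∈ _
      rw [← hFy]
      exact mem_UU hF hy'
    · rintro ⟨F, ⟨hF1, hF2⟩, rfl⟩
      refine ⟨⟨mkL I F, Submodule.mem_map_of_mem hF1⟩, ?_, rfl⟩
      change qL h (mkL I F) = 0
      rw [qL_mkL, mkL_eq_zero]
      exact hF2
  have h4 : finrank ℚ (UU I I' D) = finrank ℚ ((LinearMap.ker (qL h)).comap (gr I D).subtype) := by
    rw [← h3]; exact Submodule.finrank_map_subtype_eq _ _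
  rw [h4]
  have : finrank ℚ (gr I' D) = rk I' D := rfl
  have h5 : finrank ℚ (gr I D) = rk I D := rfl
  omega

/-- real spans -/
theorem phiQ_mem (θ : σ → N) (ε : σ → ℤˣ) {l : List (MvPolynomial σ ℤ)} {F : A σ}
    (hF : F ∈ sp ℚ (fun G : MvPolynomial σ ℤ => toA G) l) : phiQ θ ε F ∈ sp ℂ (fun G => ev θ ε G) l := by
  unfold sp at hF
  induction hF using Submodule.span_induction with
  | mem x hx => obtain ⟨G, hG, rfl⟩ := hx; exact mem_sp (fun G => ev θ ε G) hG
  | zero => rw [map_zero]; exact Submodule.zero_mem _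
  | add x y _ _ hx hy => rw [map_add]; exact Submodule.add_mem _ hx hy
  | smul c x _ hx => rw [phiQ_smul]; exact Submodule.smul_mem _ _ hx

theorem sp_map_mkL (I : Ideal (A σ)) (l : List (MvPolynomial σ ℤ)) :
    sp ℚ (fun F => mkL I (toA F)) l = (sp ℚ (fun G : MvPolynomial σ ℤ => toA G) l).map (mkL I) := by
  unfold sp
  rw [Submodule.map_span]
  congr 1
  ext v
  constructor
  · rintro ⟨x, hx, rfl⟩; exact ⟨toA x, ⟨x, hx, rfl⟩, rfl⟩
  · rintro ⟨_, ⟨x, hx, rfl⟩, rfl⟩; exact ⟨x, hx, rfl⟩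

theorem sp_homog {D : ℕ} {l : List (MvPolynomial σ ℤ)} (h : ∀ F ∈ l, F.IsHomogeneous D) {F : A σ}
    (hF : F ∈ sp ℚ (fun G : MvPolynomial σ ℤ => toA G) l) : F.IsHomogeneous D :=
  (sp_le (fun G : MvPolynomial σ ℤ => toA G) (p := homogeneousSubmodule σ ℚ D)
    (fun F hF => toA_homog (h F hF))) hF

/-- the extension lemma -/
theorem extension (θ : σ → N) (ε : σ → ℤˣ) {I I' : Ideal (A σ)} (hI : I ≤ I')
    {H : List (ℕ × MvPolynomial σ ℤ)} (hH : Gens I' H) {D : ℕ} {h : List (MvPolynomial σ ℤ)}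
    (hh : ∀ F ∈ h, F.IsHomogeneous D ∧ toA F ∈ I') (hind : Ind ℚ (fun F => mkL I (toA F)) h) :
    ∃ g : List (MvPolynomial σ ℤ), (∀ F ∈ g, F ∈ genList H D) ∧
      h.length + g.length + rk I' D = rk I D ∧
      WW θ ε I D ⊔ sp ℂ (fun G => ev θ ε G) (h ++ g) = WW θ ε I' D ∧
      ∀ l, IsBL I' D l → IsBL I D (h ++ g ++ l) := by
  obtain ⟨g, hg1, hg2, hg3⟩ := ext_list (K := ℚ) (fun F => mkL I (toA F)) (genList H D) h hind
  have hhg : ∀ F ∈ h ++ g, F.IsHomogeneous D ∧ toA F ∈ I' := by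
    intro F hF
    rcases List.mem_append.mp hF with hF | hF
    · exact hh F hF
    · exact genList_hom hH (hg1 F hF)
  have hU : sp ℚ (fun F => mkL I (toA F)) (h ++ g) = UU I I' D := by
    apply le_antisymm
    · exact sp_le _ fun F hF => mem_UU (toA_homog (hhg F hF).1) (hhg F hF).2
    · rintro x ⟨F, ⟨hF1, hF2⟩, rfl⟩
      have h1 := hH.spn D F hF1 hF2
      have h2 : mkL I F ∈ sp ℚ (fun F => mkL I (toA F)) (genList H D) := by
        rw [sp_map_mkL]; exact Submodule.mem_map_of_mem h1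
      exact (sp_le _ hg3) h2
  have hlen : h.length + g.length + rk I' D = rk I D := by
    rw [← finrank_UU hI D, ← hU]
    unfold Ind at hg2
    rw [hg2, List.length_append]
  refine ⟨g, hg1, hlen, ?_, ?_⟩
  · apply le_antisymm
    · apply sup_le
      · apply Submodule.span_mono
        rintro x ⟨F, hF, hF', rfl⟩
        exact ⟨F, hI hF, hF', rfl⟩
      · apply sp_le
        intro F hF
        exact Submodule.subset_span ⟨toA F, (hhg F hF).2, toA_homog (hhg F hF).1, rfl⟩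
    · apply Submodule.span_le.mpr
      rintro x ⟨F, hF, hF', rfl⟩
      have h1 : mkL I F ∈ sp ℚ (fun F => mkL I (toA F)) (h ++ g) := by
        rw [hU]; exact mem_UU hF' hF
      rw [sp_map_mkL] at h1
      obtain ⟨F', hF'1, hF'2⟩ := h1
      have h2 : F - F' ∈ I := by
        rw [← mkL_eq_zero, map_sub, hF'2, sub_self]
      have h3 : (F - F').IsHomogeneous D := hF'.sub (sp_homog (fun G hG => (hhg G hG).1) hF'1)
      have h4 : phiQ θ ε F = phiQ θ ε (F - F') + phiQ θ ε F' := by rw [map_sub]; ring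
      rw [h4]
      exact Submodule.add_mem_sup (Submodule.subset_span ⟨F - F', h2, h3, rfl⟩) (phiQ_mem θ ε hF'1)
  · intro l hl
    refine ⟨?_, ?_, ?_⟩
    · intro F hF
      rcases List.mem_append.mp hF with hF | hF
      · exact (hhg F hF).1
      · exact hl.hom F hF
    · rw [List.length_append, List.length_append, hl.len, hlen]
    · rintro x ⟨F, hF, rfl⟩
      have h1 : mkL I' F ∈ sp ℚ (fun F => mkL I' (toA F)) l := hl.spn (mem_gr hF)
      rw [sp_map_mkL] at h1
      obtain ⟨F', hF'1, hF'2⟩ := h1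
      have h2 : F - F' ∈ I' := by
        rw [← mkL_eq_zero, map_sub, hF'2, sub_self]
      have hF : F.IsHomogeneous D := hF
      have h3 : (F - F').IsHomogeneous D := hF.sub (sp_homog hl.hom hF'1)
      have h4 : mkL I F = mkL I (F - F') + mkL I F' := by rw [map_sub]; abel
      rw [h4, sp_append]
      refine Submodule.add_mem_sup ?_ ?_
      · rw [hU]; exact mem_UU h3 h2
      · rw [sp_map_mkL]; exact Submodule.mem_map_of_mem hF'1

/-- f is a nonzerodivisor on homogeneous elements modulo I -/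
def NZD (I : Ideal (A σ)) (f : MvPolynomial σ ℤ) : Prop :=
  ∀ D F, F.IsHomogeneous D → toA f * F ∈ I → F ∈ I

theorem ind_mul {I : Ideal (A σ)} {f : MvPolynomial σ ℤ} (hf : NZD I f)
    {D : ℕ} {H : List (MvPolynomial σ ℤ)} (hH : IsBL I D H) :
    Ind ℚ (fun F => mkL I (toA F)) (H.map (fun F => f * F)) := by
  unfold Ind
  rw [List.length_map, hH.len]
  set m : (A σ ⧸ I) →ₗ[ℚ] (A σ ⧸ I) := LinearMap.mulLeft ℚ (mkL I (toA f)) with hm
  have h1 : sp ℚ (fun F => mkL I (toA F)) (H.map (fun F => f * F)) = (gr I D).map m := by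
    rw [← hH.sp_eq]
    unfold sp
    rw [Submodule.map_span]
    congr 1
    ext v
    constructor
    · rintro ⟨x, hx, rfl⟩
      obtain ⟨F, hF, rfl⟩ := List.mem_map.mp hx
      refine ⟨mkL I (toA F), ⟨F, hF, rfl⟩, ?_⟩
      simp only [map_mul, hm, LinearMap.mulLeft_apply, mkL_apply]
    · rintro ⟨_, ⟨F, hF, rfl⟩, rfl⟩
      refine ⟨f * F, List.mem_map.mpr ⟨F, hF, rfl⟩, ?_⟩
      simp only [map_mul, hm, LinearMap.mulLeft_apply, mkL_apply]
  rw [h1, ← LinearMap.range_domRestrict]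
  rw [LinearMap.finrank_range_of_inj]
  · rfl
  · rw [← LinearMap.ker_eq_bot, LinearMap.ker_domRestrict, Submodule.eq_bot_iff]
    intro x hx
    obtain ⟨F, hF, hFx⟩ := x.2
    have hx' : m x.1 = 0 := hx
    rw [← hFx, hm, LinearMap.mulLeft_apply] at hx'
    have h2 : mkL I (toA f * F) = 0 := by rw [← hx']; simp only [map_mul, mkL_apply]
    rw [mkL_eq_zero] at h2
    have h3 := hf D F hF h2
    apply Subtype.ext
    rw [← hFx]
    exact mkL_eq_zero.mpr h3

/-- rank inequality -/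
theorem rk_le {I I' : Ideal (A σ)} (hI : I ≤ I') (D : ℕ) : rk I' D ≤ rk I D := by
  have := finrank_UU hI D; omega

theorem rk_cut {I I' : Ideal (A σ)} (hI : I ≤ I') {f : MvPolynomial σ ℤ} {e D : ℕ}
    (hfe : f.IsHomogeneous e) (hfI : toA f ∈ I') (hf : NZD I f) (hD : e ≤ D) :
    rk I' D + rk I (D - e) ≤ rk I D := by
  obtain ⟨H, hH, _⟩ := exists_BL I (D - e)
  have h1 := ind_mul hf hH
  have h2 := finrank_UU hI D
  have h3 : sp ℚ (fun F => mkL I (toA F)) (H.map (fun F => f * F)) ≤ UU I I' D := by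
    apply sp_le
    intro F hF
    obtain ⟨G, hG, rfl⟩ := List.mem_map.mp hF
    apply mem_UU
    · have := hfe.mul (hH.hom G hG)
      rw [Nat.add_sub_cancel' hD] at this
      exact toA_homog this
    · rw [map_mul]; exact I'.mul_mem_right _ hfI
  have h4 := Submodule.finrank_mono h3
  unfold Ind at h1
  rw [h1, List.length_map, hH.len] at h4
  omega

end Tysz
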