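import Mathlib
open Finset

namespace Tysz

/-- the complex group algebra with its l^2 inner product -/
def GA (N : Type) : Type := AddMonoidAlgebra ℂ N

namespace GA
variable {N : Type} [AddCommGroup N]

noncomputable instance : CommRing (GA N) := inferInstanceAs (CommRing (AddMonoidAlgebra ℂ N))
noncomputable instance : Algebra ℂ (GA N) := inferInstanceAs (Algebra ℂ (AddMonoidAlgebra ℂ N))

/-- coefficients -/
noncomputable def cf (x : GA N) : N →₀ ℂ := AddMonoidAlgebra.coeff x

theorem cf_add (x y : GA N) : cf (x + y) = cf x + cf y := AddMonoidAlgebra.coeff_add ..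
theorem cf_smul (c : ℂ) (x : GA N) : cf (c • x) = c • cf x := AddMonoidAlgebra.coeff_smul ..
theorem cf_zero : cf (0 : GA N) = 0 := AddMonoidAlgebra.coeff_zero ..
theorem cf_inj {x y : GA N} (h : cf x = cf y) : x = y := AddMonoidAlgebra.coeff_injective h

/-- the inner product -/
noncomputable def ip (x y : GA N) : ℂ := (cf x).sum fun n a => (starRingEnd ℂ) a * cf y n

theorem ip_eq (x y : GA N) {s : Finset N} (h : (cf x).support ⊆ s) :
    ip x y = ∑ n ∈ s, (starRingEnd ℂ) (cf x n) * cf y n :=
  Finsupp.sum_of_support_subset _ h _ (fun i _ => by simp)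

noncomputable instance core : InnerProductSpace.Core ℂ (GA N) where
  inner := ip
  conj_inner_symm x y := by
    classical
    change (starRingEnd ℂ) (ip y x) = ip x y
    rw [ip_eq y x (s := (cf x).support ∪ (cf y).support) (by simp),
      ip_eq x y (s := (cf x).support ∪ (cf y).support) (by simp), map_sum]
    refine Finset.sum_congr rfl fun n _ => ?_
    simp [mul_comm]
  re_inner_nonneg x := by
    rw [ip_eq x x subset_rfl, map_sum]
    refine Finset.sum_nonneg fun n _ => ?_
    rw [← Complex.normSq_eq_conj_mul_self]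
    simpa using Complex.normSq_nonneg _
  add_left x y z := by
    classical
    change ip (x + y) z = ip x z + ip y z
    rw [ip_eq (x + y) z (s := (cf x).support ∪ (cf y).support)
        (by rw [cf_add]; exact Finsupp.support_add),
      ip_eq x z (s := (cf x).support ∪ (cf y).support) (by simp),
      ip_eq y z (s := (cf x).support ∪ (cf y).support) (by simp), ← Finset.sum_add_distrib]
    refine Finset.sum_congr rfl fun n _ => ?_
    rw [cf_add]; simp [add_mul]
  smul_left x y c := by
    change ip (c • x) y = (starRingEnd ℂ) c * ip x y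
    rw [ip_eq (c • x) y (s := (cf x).support) (by rw [cf_smul]; exact Finsupp.support_smul),
      ip_eq x y subset_rfl, Finset.mul_sum]
    refine Finset.sum_congr rfl fun n _ => ?_
    rw [cf_smul]; simp [mul_assoc]
  definite x hx := by
    change ip x x = 0 at hx
    apply cf_inj
    rw [cf_zero]
    ext n
    by_contra hn
    have h1 : (0:ℝ) < ∑ n ∈ (cf x).support, Complex.normSq (cf x n) := by
      apply Finset.sum_pos'
      · intro i _; exact Complex.normSq_nonneg _
      · exact ⟨n, by simpa using hn, Complex.normSq_pos.mpr (by simpa using hn)⟩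
    rw [ip_eq x x subset_rfl] at hx
    have h2 : ((∑ n ∈ (cf x).support, Complex.normSq (cf x n) : ℝ) : ℂ) = 0 := by
      rw [← hx]; push_cast
      refine Finset.sum_congr rfl fun n _ => ?_
      rw [Complex.normSq_eq_conj_mul_self]
    have h3 : (∑ n ∈ (cf x).support, Complex.normSq (cf x n) : ℝ) = 0 := by exact_mod_cast h2
    linarith

noncomputable instance : NormedAddCommGroup (GA N) := InnerProductSpace.Core.toNormedAddCommGroup (𝕜 := ℂ)
noncomputable instance : InnerProductSpace ℂ (GA N) := InnerProductSpace.ofCore _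

theorem inner_def (x y : GA N) : inner ℂ x y = ip x y := rfl

theorem norm_sq_eq (x : GA N) {s : Finset N} (h : (cf x).support ⊆ s) :
    ‖x‖ ^ 2 = ∑ n ∈ s, ‖cf x n‖ ^ 2 := by
  have h1 := inner_self_eq_norm_sq_to_K (𝕜 := ℂ) x
  rw [inner_def, ip_eq x x h] at h1
  have h2 : ((‖x‖ ^ 2 : ℝ) : ℂ) = ((∑ n ∈ s, ‖cf x n‖ ^ 2 : ℝ) : ℂ) := by
    push_cast
    rw [show ((‖x‖ : ℝ) : ℂ) ^ 2 = ∑ n ∈ s, (starRingEnd ℂ) (cf x n) * cf x n from h1.symm]
    refine Finset.sum_congr rfl fun n _ => ?_
    rw [← Complex.normSq_eq_conj_mul_self, Complex.normSq_eq_norm_sq]; push_cast; rfl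
  exact_mod_cast h2

/-- monomial -/
noncomputable def mon (n : N) (c : ℂ) : GA N := AddMonoidAlgebra.single n c

theorem cf_mon_mul (n : N) (c : ℂ) (x : GA N) (m : N) : cf (mon n c * x) m = c * cf x (m - n) := by
  have h := AddMonoidAlgebra.coeff_single_mul_apply (R := ℂ) (G := N) x c n m
  rw [neg_add_eq_sub] at h
  exact h

theorem cf_mon (n : N) (c : ℂ) : cf (mon n c) = Finsupp.single n c := rfl

theorem norm_mon (n : N) (c : ℂ) : ‖(mon n c : GA N)‖ = ‖c‖ := by
  classical
  have h := norm_sq_eq (mon n c : GA N) (s := {n}) (by rw [cf_mon]; exact Finsupp.support_single_subset)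
  rw [Finset.sum_singleton, cf_mon, Finsupp.single_eq_same] at h
  exact (sq_eq_sq₀ (norm_nonneg _) (norm_nonneg _)).mp h

theorem norm_mon_mul (n : N) (c : ℂ) (x : GA N) : ‖mon n c * x‖ = ‖c‖ * ‖x‖ := by
  classical
  have h : ‖mon n c * x‖ ^ 2 = (‖c‖ * ‖x‖) ^ 2 := by
    rw [norm_sq_eq (mon n c * x) (s := (cf x).support.image (fun m => m + n)) ?_, mul_pow,
      norm_sq_eq x subset_rfl, Finset.mul_sum, Finset.sum_image (by intro a _ b _ h; exact add_right_cancel h)]
    · refine Finset.sum_congr rfl fun m _ => ?_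
      rw [cf_mon_mul, add_sub_cancel_right, norm_mul, mul_pow]
    · intro m hm
      rw [Finsupp.mem_support_iff, cf_mon_mul] at hm
      rw [Finset.mem_image]
      exact ⟨m - n, Finsupp.mem_support_iff.mpr (right_ne_zero_of_mul hm), by abel⟩
  exact (sq_eq_sq₀ (norm_nonneg _) (by positivity)).mp h

end GA
end Tysz
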