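import Mathlib

set_option autoImplicit false

open Finset

namespace Tysz

section S
/-- shift by e (zero for D < e) -/
def sh (e : ℕ) (g : ℕ → ℝ) : ℕ → ℝ := fun D => if e ≤ D then g (D - e) else 0
/-- g(D) + g(D-e) + g(D-2e) + ... -/
def S (e : ℕ) (g : ℕ → ℝ) : ℕ → ℝ := fun D => ∑ i ∈ range (D / e + 1), g (D - i * e)

namespace SumsAux

open PowerSeries

/-- nonnegative coefficients -/
def NN (f : PowerSeries ℝ) : Prop := ∀ D, 0 ≤ coeff D f

theorem NN.add {f g : PowerSeries ℝ} (hf : NN f) (hg : NN g) : NN (f + g) := fun D => by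
  rw [map_add]; exact add_nonneg (hf D) (hg D)

theorem NN.mul {f g : PowerSeries ℝ} (hf : NN f) (hg : NN g) : NN (f * g) := fun D => by
  rw [coeff_mul]; exact Finset.sum_nonneg fun p _ => mul_nonneg (hf _) (hg _)

theorem NN.smul {f : PowerSeries ℝ} {c : ℝ} (hc : 0 ≤ c) (hf : NN f) : NN (c • f) := fun D => by
  rw [map_smul, smul_eq_mul]; exact mul_nonneg hc (hf D)

theorem NN.one : NN (1 : PowerSeries ℝ) := fun D => by
  rw [coeff_one]; split_ifs <;> norm_num

theorem NN.zero : NN (0 : PowerSeries ℝ) := fun D => by simp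

theorem NN.varX : NN (X : PowerSeries ℝ) := fun D => by
  rw [coeff_X]; split_ifs <;> norm_num

theorem NN.pow {f : PowerSeries ℝ} (hf : NN f) (n : ℕ) : NN (f ^ n) := by
  induction n with
  | zero => rw [pow_zero]; exact NN.one
  | succ n ih => rw [pow_succ]; exact ih.mul hf

theorem NN.sum {ι : Type} {f : ι → PowerSeries ℝ} (s : Finset ι) (hf : ∀ i ∈ s, NN (f i)) :
    NN (∑ i ∈ s, f i) := fun D => by
  rw [map_sum]; exact Finset.sum_nonneg fun i hi => hf i hi D

theorem NN.prod {ι : Type} {f : ι → PowerSeries ℝ} (s : Finset ι) (hf : ∀ i ∈ s, NN (f i)) :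
    NN (∏ i ∈ s, f i) := by
  classical
  induction s using Finset.induction_on with
  | empty => rw [Finset.prod_empty]; exact NN.one
  | insert a s ha ih =>
    rw [Finset.prod_insert ha]
    exact (hf a (Finset.mem_insert_self a s)).mul
      (ih fun i hi => hf i (Finset.mem_insert_of_mem hi))

theorem NN.congr {f g : PowerSeries ℝ} (hf : NN f) (h : f = g) : NN g := h ▸ hf

theorem S_eq {e : ℕ} (he : 1 ≤ e) (g : ℕ → ℝ) (D : ℕ) : S e g D = g D + sh e (S e g) D := by
  unfold sh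
  split_ifs with h
  · have h1 : D / e = (D - e) / e + 1 := by
      conv_lhs => rw [← Nat.sub_add_cancel h]
      rw [Nat.add_div_right _ (by omega)]
    have : S e g D = ∑ i ∈ range (D / e + 1), g (D - i * e) := rfl
    rw [this, Finset.sum_range_succ', h1]
    simp only [zero_mul, Nat.sub_zero]
    rw [add_comm]
    congr 1
    have : S e g (D - e) = ∑ i ∈ range ((D - e) / e + 1), g ((D - e) - i * e) := rfl
    rw [this]
    refine Finset.sum_congr rfl fun i _ => ?_
    congr 1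
    rw [add_mul, one_mul, Nat.sub_sub, add_comm]
  · have h1 : D / e = 0 := Nat.div_eq_of_lt (by omega)
    simp [S, h1]

theorem X_pow_mul_mk (e : ℕ) (g : ℕ → ℝ) : (X : PowerSeries ℝ) ^ e * mk g = mk (sh e g) := by
  ext D
  rw [coeff_X_pow_mul']
  simp only [coeff_mk, sh]

theorem mul_mk_S {e : ℕ} (he : 1 ≤ e) (g : ℕ → ℝ) :
    (1 - (X : PowerSeries ℝ) ^ e) * mk (S e g) = mk g := by
  rw [sub_mul, one_mul, X_pow_mul_mk]
  ext D
  rw [map_sub, coeff_mk, coeff_mk, coeff_mk, S_eq he g D]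
  ring

/-- inverse of `1 - X ^ e` -/
noncomputable def T (e : ℕ) : PowerSeries ℝ := mk (S e (fun k => if k = 0 then 1 else 0))

theorem mk_delta : (mk (fun k => if k = 0 then (1 : ℝ) else 0)) = 1 := by
  ext D
  rw [coeff_mk, coeff_one]

theorem T_inv {e : ℕ} (he : 1 ≤ e) : (1 - (X : PowerSeries ℝ) ^ e) * T e = 1 := by
  rw [T, mul_mk_S he, mk_delta]

theorem NN.tT (e : ℕ) : NN (T e) := fun D => by
  rw [SumsAux.T, coeff_mk]
  refine Finset.sum_nonneg fun i _ => ?_
  show (0 : ℝ) ≤ if D - i * e = 0 then 1 else 0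
  split_ifs <;> norm_num

theorem mk_S {e : ℕ} (he : 1 ≤ e) (g : ℕ → ℝ) : mk (S e g) = T e * mk g := by
  have h1 := mul_mk_S he g
  have h2 := T_inv he
  calc mk (S e g) = ((1 - (X : PowerSeries ℝ) ^ e) * T e) * mk (S e g) := by rw [h2, one_mul]
    _ = T e * ((1 - (X : PowerSeries ℝ) ^ e) * mk (S e g)) := by ring
    _ = _ := by rw [h1]

theorem mk_S_iter {e : ℕ} (he : 1 ≤ e) (g : ℕ → ℝ) (q : ℕ) :
    mk ((S e)^[q] g) = T e ^ q * mk g := by
  induction q with
  | zero => simp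
  | succ q ih =>
    rw [Function.iterate_succ_apply', mk_S he, ih, pow_succ]
    ring

/-- geometric sums -/
theorem one_sub_pow (k : ℕ) : (1 - (X : PowerSeries ℝ) ^ k) = (1 - X) * ∑ i ∈ range k, X ^ i := by
  have := mul_neg_geom_sum (X : PowerSeries ℝ) k
  rw [this]

/-- monotone sequences -/
theorem NN.one_sub_pow_mul {f : PowerSeries ℝ} (hf : NN ((1 - X) * f)) (k : ℕ) :
    NN ((1 - X ^ k) * f) := by
  rw [one_sub_pow]
  exact ((NN.sum (range k) fun i _ => NN.varX.pow i).mul hf).congr (by ring)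

theorem T_one_eq {e : ℕ} (he : 1 ≤ e) : T 1 = T e * ∑ i ∈ range e, (X : PowerSeries ℝ) ^ i := by
  have h1 := T_inv (le_refl 1)
  have h2 := T_inv he
  rw [pow_one] at h1
  calc T 1 = T 1 * ((1 - (X : PowerSeries ℝ) ^ e) * T e) := by rw [h2, mul_one]
    _ = ((1 - X) * T 1) * (T e * ∑ i ∈ range e, (X : PowerSeries ℝ) ^ i) := by
        rw [one_sub_pow]; ring
    _ = _ := by rw [h1, one_mul]

/-- `e (T_e - 1) f ≤ T_1 f` for monotone `f` -/
theorem upper {e : ℕ} (he : 1 ≤ e) {f : PowerSeries ℝ} (hf : NN ((1 - X) * f)) :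
    NN (T 1 * f - (e : ℝ) • ((T e - 1) * f)) := by
  have h2 := T_inv he
  have h3 : T e - 1 = T e * X ^ e := by linear_combination h2
  have h4 : ((e : ℝ) • ((T e * X ^ e) * f)) = T e * ∑ _i ∈ range e, X ^ e * f := by
    rw [Finset.sum_const, card_range, nsmul_eq_mul, Algebra.smul_def]
    simp only [map_natCast]
    ring
  rw [h3, h4, T_one_eq he]
  have h5 : T e * ∑ i ∈ range e, X ^ i * f - T e * ∑ _i ∈ range e, X ^ e * f
      = T e * ∑ i ∈ range e, (X ^ i * ((1 - X ^ (e - i)) * f)) := by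
    rw [← mul_sub, ← Finset.sum_sub_distrib]
    congr 1
    refine Finset.sum_congr rfl fun i hi => ?_
    have : X ^ e = (X : PowerSeries ℝ) ^ i * X ^ (e - i) := by
      rw [← pow_add]; congr 1; have := Finset.mem_range.1 hi; omega
    rw [this]; ring
  have h6 : T e * (∑ i ∈ range e, (X : PowerSeries ℝ) ^ i) * f
      = T e * ∑ i ∈ range e, X ^ i * f := by
    rw [mul_assoc, Finset.sum_mul]
  rw [h6, h5]
  exact (NN.tT e).mul (NN.sum _ fun i _ => (NN.varX.pow i).mul (hf.one_sub_pow_mul _))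

/-- `e T_e f ≥ T_1 f` for monotone `f` -/
theorem lower {e : ℕ} (he : 1 ≤ e) {f : PowerSeries ℝ} (hf : NN ((1 - X) * f)) :
    NN ((e : ℝ) • (T e * f) - T 1 * f) := by
  have h4 : ((e : ℝ) • (T e * f)) = T e * ∑ _i ∈ range e, f := by
    rw [Finset.sum_const, card_range, nsmul_eq_mul, Algebra.smul_def]
    simp only [map_natCast]
    ring
  have h6 : T e * (∑ i ∈ range e, (X : PowerSeries ℝ) ^ i) * f
      = T e * ∑ i ∈ range e, X ^ i * f := by
    rw [mul_assoc, Finset.sum_mul]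
  rw [h4, T_one_eq he, h6, ← mul_sub, ← Finset.sum_sub_distrib]
  exact (NN.tT e).mul (NN.sum _ fun i _ => (hf.one_sub_pow_mul i).congr (by ring))

/-- `T_e ≤ T_1` -/
theorem T_le {e : ℕ} (he : 1 ≤ e) : NN (T 1 - T e) := by
  rw [T_one_eq he]
  obtain ⟨k, rfl⟩ : ∃ k, e = k + 1 := ⟨e - 1, by omega⟩
  rw [Finset.sum_range_succ']
  exact ((NN.tT (k + 1)).mul (NN.sum (range k) fun i _ => NN.varX.pow (i + 1))).congr (by ring)

theorem T_one_sub_one : NN (T 1 - 1) := by
  have h2 := T_inv (le_refl 1)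
  exact ((NN.tT 1).mul NN.varX).congr (by linear_combination -h2)

theorem T_one_mk : T 1 = PowerSeries.mk 1 := by
  ext D
  rw [T, coeff_mk, coeff_mk, S]
  simp only [Nat.div_one, mul_one, Pi.one_apply]
  rw [Finset.sum_eq_single D]
  · simp
  · intro b hb hne
    have := Finset.mem_range.1 hb
    rw [if_neg (by omega)]
  · intro h
    exact absurd (Finset.mem_range.2 (Nat.lt_succ_self D)) h

theorem coeff_T_pow (d D : ℕ) : coeff D (T 1 ^ (d + 1)) = (Nat.choose (d + D) d : ℝ) := by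
  rw [T_one_mk, mk_one_pow_eq_mk_choose_add, coeff_mk]

theorem T_pow_mono {a b : ℕ} (h : a ≤ b) : NN (T 1 ^ b - T 1 ^ a) := by
  induction b with
  | zero =>
    obtain rfl : a = 0 := by omega
    rw [sub_self]; exact NN.zero
  | succ b ih =>
    rcases Nat.lt_or_ge b a with h1 | h1
    · obtain rfl : a = b + 1 := by omega
      rw [sub_self]; exact NN.zero
    · exact ((ih h1).add (((NN.tT 1).pow b).mul T_one_sub_one)).congr (by ring)

theorem NN.C_mul {f : PowerSeries ℝ} {c : ℝ} (hc : 0 ≤ c) (hf : NN f) :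
    NN (PowerSeries.C c * f) := (NN.smul hc hf).congr (smul_eq_C_mul f c)

theorem mul_le_mul' {a b a' b' : PowerSeries ℝ} (h : NN (a - b)) (h' : NN (a' - b')) (hb : NN b)
    (ha' : NN a') : NN (a * a' - b * b') :=
  ((h.mul ha').add (hb.mul h')).congr (by ring)

theorem pow_le' {a b : PowerSeries ℝ} (h : NN (a - b)) (hb : NN b) (ha : NN a) (q : ℕ) :
    NN (a ^ q - b ^ q) := by
  induction q with
  | zero => exact NN.zero.congr (by simp)
  | succ q ih =>
    rw [pow_succ, pow_succ]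
    exact mul_le_mul' ih h (hb.pow q) ha

/-- partial products -/
noncomputable def P (e : ℕ → ℕ) (q : ℕ) : ℕ → PowerSeries ℝ
  | 0 => T 2 ^ q
  | j + 1 => T (e j) * P e q j

theorem P_nn (e : ℕ → ℕ) (q j : ℕ) : NN (P e q j) := by
  induction j with
  | zero => exact (NN.tT 2).pow q
  | succ j ih => exact (NN.tT (e j)).mul ih

theorem P_le {e : ℕ → ℕ} (he : ∀ j, 1 ≤ e j) (q j : ℕ) : NN (T 1 ^ (j + q) - P e q j) := by
  induction j with
  | zero =>
    rw [zero_add]
    exact pow_le' (T_le (by norm_num)) (NN.tT 2) (NN.tT 1) q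
  | succ j ih =>
    have : T 1 ^ (j + 1 + q) = T 1 * T 1 ^ (j + q) := by ring
    rw [this]
    exact mul_le_mul' (T_le (he j)) ih (NN.tT _) ((NN.tT 1).pow _)

theorem lower' {e : ℕ} (he : 1 ≤ e) {f : PowerSeries ℝ} (hf : NN ((1 - X) * f)) :
    NN (PowerSeries.C (e : ℝ) * (T e * f) - T 1 * f) :=
  (lower he hf).congr (by rw [smul_eq_C_mul])

theorem upper' {e : ℕ} (he : 1 ≤ e) {f : PowerSeries ℝ} (hf : NN ((1 - X) * f)) :
    NN (T 1 * f - PowerSeries.C (e : ℝ) * ((T e - 1) * f)) :=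
  (upper he hf).congr (by rw [smul_eq_C_mul])

theorem P_lower_zero (q : ℕ) {f : PowerSeries ℝ} (hf : NN ((1 - X) * f)) :
    NN (PowerSeries.C ((2 : ℝ) ^ q) * (T 2 ^ q * f) - T 1 ^ q * f) := by
  induction q with
  | zero => exact NN.zero.congr (by simp)
  | succ q ih =>
    have h1 : NN ((1 - X) * (PowerSeries.C ((2 : ℝ) ^ q) * (T 2 ^ q * f))) :=
      ((NN.C_mul (c := (2 : ℝ) ^ q) (by positivity) ((NN.tT 2).pow q)).mul hf).congr (by ring)
    have h2 := lower' (e := 2) (by norm_num) h1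
    have h3 : PowerSeries.C ((2 : ℝ) ^ (q + 1)) = PowerSeries.C ((2 : ℕ) : ℝ) *
        PowerSeries.C ((2 : ℝ) ^ q) := by
      rw [← map_mul]; congr 1; push_cast; ring
    rw [h3]
    exact (h2.add ((NN.tT 1).mul ih)).congr (by ring)

theorem P_lower {e : ℕ → ℕ} (he : ∀ j, 1 ≤ e j) (q j : ℕ) {f : PowerSeries ℝ}
    (hf : NN ((1 - X) * f)) :
    NN (PowerSeries.C ((2 : ℝ) ^ q * ∏ i ∈ range j, (e i : ℝ)) * (P e q j * f)
      - T 1 ^ (j + q) * f) := by
  induction j with
  | zero =>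
    rw [Finset.range_zero, Finset.prod_empty, mul_one, zero_add]
    exact P_lower_zero q hf
  | succ j ih =>
    set c : ℝ := (2 : ℝ) ^ q * ∏ i ∈ range j, (e i : ℝ) with hc
    have hc0 : 0 ≤ c := by
      refine mul_nonneg (by positivity) (Finset.prod_nonneg fun i _ => Nat.cast_nonneg _)
    have h1 : NN ((1 - X) * (PowerSeries.C c * (P e q j * f))) :=
      ((NN.C_mul hc0 (P_nn e q j)).mul hf).congr (by ring)
    have h2 := lower' (he j) h1
    have h3 : PowerSeries.C ((2 : ℝ) ^ q * ∏ i ∈ range (j + 1), (e i : ℝ)) =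
        PowerSeries.C (e j : ℝ) * PowerSeries.C c := by
      rw [← map_mul]; congr 1; rw [Finset.prod_range_succ, hc]; ring
    rw [h3]
    have h4 : P e q (j + 1) = T (e j) * P e q j := rfl
    rw [h4]
    exact (h2.add ((NN.tT 1).mul ih)).congr (by ring)

theorem series_ineq {q m : ℕ} {e : ℕ → ℕ} (he : ∀ j, 1 ≤ e j) {κ : ℕ → ℝ}
    (hκ : ∀ j, 0 ≤ κ j) {s B : PowerSeries ℝ} (hB : NN (B - T 2 ^ q * s))
    {R Λ : ℕ → PowerSeries ℝ} {c : ℝ} (hc : 0 ≤ c)
    (hR0 : NN (s - R 0)) (hL0 : NN (PowerSeries.C c * s - Λ 0))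
    (ht : ∀ j < m, NN (R j - X ^ (e j) * R j - R (j + 1)))
    (hL : ∀ j < m, NN (Λ j - X ^ (e j) * Λ j + PowerSeries.C (κ j) * (X ^ (e j) * R j)
      + PowerSeries.C c * (R j - X ^ (e j) * R j - R (j + 1)) + PowerSeries.C c * T 1
      - Λ (j + 1))) :
    ∀ j ≤ m, NN (B - P e q j * R j) ∧
      NN (PowerSeries.C c * B + (∑ i ∈ range j, PowerSeries.C (κ i) * ((T (e i) - 1) * B))
        + PowerSeries.C c * (B - P e q j * R j)
        + PowerSeries.C c * (∑ i ∈ range j, P e q (i + 1) * T 1) - P e q j * Λ j) := by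
  intro j
  induction j with
  | zero =>
    intro _
    have h0 : P e q 0 = T 2 ^ q := rfl
    have h1 : NN (B - P e q 0 * R 0) := by
      rw [h0]
      exact (hB.add (((NN.tT 2).pow q).mul hR0)).congr (by ring)
    refine ⟨h1, ?_⟩
    rw [Finset.sum_range_zero, Finset.sum_range_zero]
    have h2 := (((NN.tT 2).pow q).mul hL0).add (NN.C_mul hc hB)
    have h3 := h2.add (NN.C_mul hc h1)
    refine h3.congr ?_
    rw [h0]; ring
  | succ j ih =>
    intro hj
    obtain ⟨i1, i2⟩ := ih (by omega)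
    have hinv := T_inv (he j)
    have h4 : P e q (j + 1) = T (e j) * P e q j := rfl
    have h1 : NN (B - P e q (j + 1) * R (j + 1)) := by
      refine (i1.add ((P_nn e q (j + 1)).mul (ht j (by omega)))).congr ?_
      rw [h4]
      linear_combination (P e q j * R j) * hinv
    refine ⟨h1, ?_⟩
    rw [Finset.sum_range_succ, Finset.sum_range_succ]
    have h5 : NN (T (e j) - 1) := ((NN.tT (e j)).mul (NN.varX.pow (e j))).congr
      (by linear_combination -hinv)
    have h6 := NN.C_mul (hκ j) (h5.mul i1)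
    have h7 := (P_nn e q (j + 1)).mul (hL j (by omega))
    refine ((i2.add h6).add h7).congr ?_
    rw [h4]
    linear_combination (P e q j * Λ j - PowerSeries.C (κ j) * P e q j * R j
      + PowerSeries.C c * P e q j * R j) * hinv

/-- binomial form of the final comparison -/
theorem final_real {M : ℕ} {A K c : ℝ} (hK : 0 ≤ K) (hc : 0 ≤ c)
    (h : ∀ D : ℕ, A * (Nat.choose (M + 1 + D) (M + 1) : ℝ) ≤
      K * (Nat.choose (M + 1 + (D + 1)) (M + 1) : ℝ) + c * (Nat.choose (M + (D + 1)) M : ℝ)) :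
    A ≤ K := by
  by_contra hlt
  push Not at hlt
  have key : ∀ D : ℕ, (A - K) * ((D : ℝ) + 1) ≤ (M + 1) * (K + c) := by
    intro D
    have h1 := h D
    have e1 : (Nat.choose (M + 1 + D) (M + 1) : ℝ) * (M + 1) =
        (Nat.choose (M + 1 + D) M : ℝ) * (D + 1) := by
      have := Nat.choose_succ_right_eq (M + 1 + D) M
      have h2 : M + 1 + D - M = D + 1 := by omega
      rw [h2] at this
      exact_mod_cast this
    have e2 : (Nat.choose (M + 1 + (D + 1)) (M + 1) : ℝ) =
        (Nat.choose (M + 1 + D) M : ℝ) + (Nat.choose (M + 1 + D) (M + 1) : ℝ) := by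
      have : M + 1 + (D + 1) = (M + 1 + D) + 1 := by ring
      rw [this, Nat.choose_succ_succ]
      push_cast
      ring
    have e3 : M + (D + 1) = M + 1 + D := by ring
    rw [e2, e3] at h1
    set b : ℝ := (Nat.choose (M + 1 + D) (M + 1) : ℝ)
    set d : ℝ := (Nat.choose (M + 1 + D) M : ℝ)
    have hd : 0 < d := by
      have : 0 < Nat.choose (M + 1 + D) M := Nat.choose_pos (by omega)
      exact Nat.cast_pos.2 this
    have h3 : (A - K) * b ≤ (K + c) * d := by linarith
    have h4 : (A - K) * (D + 1) * d ≤ (M + 1) * (K + c) * d := by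
      calc (A - K) * (D + 1) * d = (A - K) * (d * (D + 1)) := by ring
        _ = ((A - K) * b) * (M + 1) := by rw [← e1]; ring
        _ ≤ ((K + c) * d) * (M + 1) := by
            refine mul_le_mul_of_nonneg_right h3 (by positivity)
        _ = _ := by ring
    exact le_of_mul_le_mul_right h4 hd
  obtain ⟨D, hD⟩ := exists_nat_gt ((M + 1) * (K + c) / (A - K))
  have hpos : 0 < A - K := by linarith
  rw [div_lt_iff₀ hpos] at hD
  have := key D
  nlinarith

theorem NN.coeff_le {f g : PowerSeries ℝ} (h : NN (f - g)) (D : ℕ) : coeff D g ≤ coeff D f := by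
  have := h D
  rw [map_sub] at this
  linarith

end SumsAux

open SumsAux PowerSeries in
/-- SPEC S -/
theorem chain_asymp {n q m : ℕ} (hn : 1 ≤ n) (e : ℕ → ℕ) (he : ∀ j, 1 ≤ e j) (κ : ℕ → ℝ)
    (hκ : ∀ j, 0 ≤ κ j) (s : ℕ → ℝ) (hs0 : ∀ D, 0 ≤ s D)
    (hs : ∀ D, (S 2)^[q] s D ≤ (Nat.choose (D + (n - 1)) (n - 1) : ℝ))
    (r L : ℕ → ℕ → ℝ) (C : ℝ) (hr : ∀ j D, 0 ≤ r j D) (hr0 : ∀ D, r 0 D ≤ s D)
    (hL0 : ∀ D, L 0 D ≤ C * s D)
    (ht : ∀ j < m, ∀ D, r (j+1) D ≤ r j D - sh (e j) (r j) D)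
    (hL : ∀ j < m, ∀ D, L (j+1) D ≤ L j D - sh (e j) (L j) D + κ j * sh (e j) (r j) D
        + C * (r j D - sh (e j) (r j) D - r (j+1) D) + C)
    (G : ℝ) (hG : ∀ D : ℕ, G * D - C ≤ L m D) (hqm : n ≤ q + m + 1) :
    G ≤ 2 ^ q * (∏ j ∈ range m, (e j : ℝ)) * ∑ j ∈ range m, κ j / e j := by
  set K : ℝ := ∑ j ∈ range m, κ j / e j with hK
  have hK0 : 0 ≤ K := Finset.sum_nonneg fun i _ => div_nonneg (hκ i) (Nat.cast_nonneg _)
  have hep : ∀ j, (0 : ℝ) < e j := fun j => by exact_mod_cast he j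
  set cm : ℝ := 2 ^ q * ∏ j ∈ range m, (e j : ℝ) with hcm
  have hcm0 : 0 < cm := mul_pos (by positivity) (Finset.prod_pos fun i _ => hep i)
  rcases le_or_gt G 0 with hG0 | hG0
  · exact hG0.trans (mul_nonneg hcm0.le hK0)
  -- constant
  set c : ℝ := max C 0 with hc
  have hc0 : 0 ≤ c := le_max_right _ _
  have hCc : C ≤ c := le_max_left _ _
  -- the series
  set B : PowerSeries ℝ := T 1 ^ n with hBdef
  set s' : PowerSeries ℝ := PowerSeries.mk s with hs'
  set R : ℕ → PowerSeries ℝ := fun j => PowerSeries.mk (r j) with hR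
  set Λ : ℕ → PowerSeries ℝ := fun j => PowerSeries.mk (L j) with hΛ
  obtain ⟨n', rfl⟩ : ∃ n', n = n' + 1 := ⟨n - 1, by omega⟩
  have hB : NN (B - T 2 ^ q * s') := fun D => by
    rw [map_sub, hBdef, coeff_T_pow, hs', ← mk_S_iter (by norm_num), coeff_mk]
    have := hs D
    rw [Nat.add_sub_cancel, add_comm D n'] at this
    linarith
  have h1 : NN (s' - R 0) := fun D => by
    simp only [hs', hR, map_sub, coeff_mk]
    linarith [hr0 D]
  have h2 : NN (PowerSeries.C c * s' - Λ 0) := fun D => by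
    simp only [hs', hΛ, map_sub, coeff_C_mul, coeff_mk]
    have := mul_le_mul_of_nonneg_right hCc (hs0 D)
    linarith [hL0 D]
  have htt : ∀ j, R j - X ^ (e j) * R j - R (j + 1)
      = PowerSeries.mk (fun D => r j D - sh (e j) (r j) D - r (j + 1) D) := by
    intro j
    simp only [hR, X_pow_mul_mk]
    ext D
    simp only [map_sub, coeff_mk]
  have h3 : ∀ j < m, NN (R j - X ^ (e j) * R j - R (j + 1)) := by
    intro j hj D
    rw [htt, coeff_mk]
    linarith [ht j hj D]
  have h4 : ∀ j < m, NN (Λ j - X ^ (e j) * Λ j + PowerSeries.C (κ j) * (X ^ (e j) * R j)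
      + PowerSeries.C c * (R j - X ^ (e j) * R j - R (j + 1)) + PowerSeries.C c * T 1
      - Λ (j + 1)) := by
    intro j hj D
    rw [htt, T_one_mk]
    simp only [hΛ, hR, X_pow_mul_mk, map_sub, map_add, coeff_mk, coeff_C_mul, Pi.one_apply]
    have i1 := hL j hj D
    have i2 := ht j hj D
    have i3 : C * (r j D - sh (e j) (r j) D - r (j+1) D) ≤
        c * (r j D - sh (e j) (r j) D - r (j+1) D) :=
      mul_le_mul_of_nonneg_right hCc (by linarith)
    linarith
  obtain ⟨-, h5⟩ := series_ineq he hκ hB hc0 h1 h2 h3 h4 m le_rfl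
  -- the lower bound for the last function
  have h6 : NN (Λ m + PowerSeries.C c * T 1 - PowerSeries.C G * (X * T 1 ^ 2)) := fun D => by
    rw [T_one_mk]
    have : (X : PowerSeries ℝ) * (PowerSeries.mk 1) ^ 2 = PowerSeries.mk (fun D => (D : ℝ)) := by
      ext D
      rcases D with _ | D
      · simp
      · rw [coeff_succ_X_mul, mk_one_pow_eq_mk_choose_add, coeff_mk, coeff_mk, Nat.choose_one_right]
        push_cast; ring
    rw [this]
    simp only [hΛ, map_sub, map_add, coeff_mk, coeff_C_mul, Pi.one_apply]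
    linarith [hG D]
  have hRm : NN (R m) := fun D => by
    simp only [hR, coeff_mk]; exact hr m D
  have h7 := (h5.add ((P_nn e q m).mul h6)).add
    (NN.C_mul hc0 ((P_nn e q m).mul hRm))
  have hmono : NN ((1 - X) * (X * T 1 ^ 2)) := by
    have hinv := T_inv (le_refl 1)
    exact (NN.varX.mul (NN.tT 1)).congr (by linear_combination (-X * T 1) * hinv)
  have h8 := P_lower he q m hmono
  rw [← hcm] at h8
  have hA : 0 ≤ G / cm := (div_pos hG0 hcm0).le
  have h9 := NN.C_mul hA h8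
  have h10 : NN (PowerSeries.C c * B + (∑ i ∈ range m, PowerSeries.C (κ i) * ((T (e i) - 1) * B))
      + PowerSeries.C c * B + PowerSeries.C c * (∑ i ∈ range m, P e q (i + 1) * T 1)
      + PowerSeries.C c * (P e q m * T 1)
      - PowerSeries.C (G / cm) * (T 1 ^ (m + q) * (X * T 1 ^ 2))) := by
    refine (h7.add h9).congr ?_
    have : PowerSeries.C (G / cm) * (PowerSeries.C cm * (P e q m * (X * T 1 ^ 2))) =
        PowerSeries.C G * (P e q m * (X * T 1 ^ 2)) := by
      rw [← mul_assoc, ← map_mul, div_mul_cancel₀ _ hcm0.ne']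
    linear_combination this
  -- coefficients
  have hBmono : NN ((1 - X) * B) := by
    have hinv := T_inv (le_refl 1)
    refine ((NN.tT 1).pow n').congr ?_
    rw [hBdef]
    linear_combination (-T 1 ^ n') * hinv
  set M : ℕ := q + m with hM
  have hM' : n' ≤ M := by omega
  have key : ∀ D : ℕ, (G / cm) * (Nat.choose (M + 1 + D) (M + 1) : ℝ) ≤
      K * (Nat.choose (M + 1 + (D + 1)) (M + 1) : ℝ) +
      (c * (m + 3)) * (Nat.choose (M + (D + 1)) M : ℝ) := by
    intro D
    have i0 := h10 (D + 1)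
    have e1 : coeff (D + 1) (PowerSeries.C (G / cm) * (T 1 ^ (m + q) * (X * T 1 ^ 2))) =
        (G / cm) * (Nat.choose (M + 1 + D) (M + 1) : ℝ) := by
      have : T 1 ^ (m + q) * (X * T 1 ^ 2) = X * T 1 ^ (M + 1 + 1) := by
        rw [hM]; ring
      rw [coeff_C_mul, this, coeff_succ_X_mul, coeff_T_pow]
    have e2 : coeff (D + 1) B ≤ (Nat.choose (M + (D + 1)) M : ℝ) := by
      have := (T_pow_mono (show n' + 1 ≤ M + 1 by omega)).coeff_le (D + 1)
      rwa [coeff_T_pow M] at this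
    have e3 : ∀ i, coeff (D + 1) (PowerSeries.C (κ i) * ((T (e i) - 1) * B)) ≤
        κ i / e i * (Nat.choose (M + 1 + (D + 1)) (M + 1) : ℝ) := by
      intro i
      have j1 := (upper' (he i) hBmono).coeff_le (D + 1)
      have j2 := (T_pow_mono (show n' + 1 + 1 ≤ M + 1 + 1 by omega)).coeff_le (D + 1)
      rw [coeff_T_pow (M + 1)] at j2
      have j3 : T 1 * B = T 1 ^ (n' + 1 + 1) := by rw [hBdef]; ring
      rw [j3, coeff_C_mul] at j1
      rw [coeff_C_mul]
      have j4 : coeff (D + 1) ((T (e i) - 1) * B) ≤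
          (Nat.choose (M + 1 + (D + 1)) (M + 1) : ℝ) / e i := by
        rw [le_div_iff₀ (hep i), mul_comm]
        exact j1.trans j2
      calc κ i * coeff (D + 1) ((T (e i) - 1) * B) ≤
          κ i * ((Nat.choose (M + 1 + (D + 1)) (M + 1) : ℝ) / e i) :=
            mul_le_mul_of_nonneg_left j4 (hκ i)
        _ = _ := by ring
    have e4 : ∀ j ≤ m, coeff (D + 1) (P e q j * T 1) ≤ (Nat.choose (M + (D + 1)) M : ℝ) := by
      intro j hj
      have j1 : NN (T 1 ^ (j + q) * T 1 - P e q j * T 1) :=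
        ((P_le he q j).mul (NN.tT 1)).congr (by ring)
      have j2 := j1.coeff_le (D + 1)
      have j3 := (T_pow_mono (show j + q + 1 ≤ M + 1 by omega)).coeff_le (D + 1)
      rw [coeff_T_pow M] at j3
      have j4 : T 1 ^ (j + q) * T 1 = T 1 ^ (j + q + 1) := by ring
      rw [j4] at j2
      exact j2.trans j3
    rw [map_sub, e1] at i0
    simp only [map_add, map_sum] at i0
    have e5 : ∑ i ∈ range m, coeff (D + 1) (PowerSeries.C (κ i) * ((T (e i) - 1) * B)) ≤
        K * (Nat.choose (M + 1 + (D + 1)) (M + 1) : ℝ) := by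
      rw [hK, Finset.sum_mul]
      exact Finset.sum_le_sum fun i _ => e3 i
    have e6 : coeff (D + 1) (PowerSeries.C c * ∑ i ∈ range m, P e q (i + 1) * T 1) ≤
        c * (m * (Nat.choose (M + (D + 1)) M : ℝ)) := by
      rw [coeff_C_mul, map_sum]
      refine mul_le_mul_of_nonneg_left ?_ hc0
      calc ∑ i ∈ range m, coeff (D + 1) (P e q (i + 1) * T 1) ≤
          ∑ _i ∈ range m, (Nat.choose (M + (D + 1)) M : ℝ) :=
            Finset.sum_le_sum fun i hi => e4 (i + 1) (Finset.mem_range.1 hi)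
        _ = _ := by rw [Finset.sum_const, card_range, nsmul_eq_mul]
    have e7 : coeff (D + 1) (PowerSeries.C c * (P e q m * T 1)) ≤
        c * (Nat.choose (M + (D + 1)) M : ℝ) := by
      rw [coeff_C_mul]
      exact mul_le_mul_of_nonneg_left (e4 m le_rfl) hc0
    have e8 : coeff (D + 1) (PowerSeries.C c * B) ≤ c * (Nat.choose (M + (D + 1)) M : ℝ) := by
      rw [coeff_C_mul]
      exact mul_le_mul_of_nonneg_left e2 hc0
    linarith
  have := final_real hK0 (by positivity) key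
  rwa [div_le_iff₀ hcm0, mul_comm] at this

end S

end Tysz
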