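import Mathlib

set_option autoImplicit false

open Finset

namespace Tysz

section V
variable {E : Type*} [NormedAddCommGroup E] [InnerProductSpace ℂ E]

/-- volume of a list of vectors modulo a subspace: product of the successive distances -/
noncomputable def vol : Submodule ℂ E → List E → ℝ
  | _, [] => 1
  | W, v :: l => Metric.infDist v (W : Set E) * vol (W ⊔ Submodule.span ℂ {v}) l

theorem vol_nil (W : Submodule ℂ E) : vol W [] = 1 := rfl

theorem vol_cons (W : Submodule ℂ E) (v : E) (l : List E) :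
    vol W (v :: l) = Metric.infDist v (W : Set E) * vol (W ⊔ Submodule.span ℂ {v}) l := rfl

/-- SPEC V1 -/
theorem vol_nonneg (W : Submodule ℂ E) (l : List E) : 0 ≤ vol W l := by
  induction l generalizing W with
  | nil => rw [vol_nil]; norm_num
  | cons v l ih => rw [vol_cons]; exact mul_nonneg Metric.infDist_nonneg (ih _)

/-- SPEC V2 -/
theorem vol_append (W : Submodule ℂ E) (l₁ l₂ : List E) :
    vol W (l₁ ++ l₂) = vol W l₁ * vol (W ⊔ Submodule.span ℂ {v | v ∈ l₁}) l₂ := by
  induction l₁ generalizing W with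
  | nil => simp [vol_nil]
  | cons v l ih =>
    rw [List.cons_append, vol_cons, vol_cons, ih, mul_assoc, sup_assoc, ← Submodule.span_union]
    congr 4
    ext x
    simp only [Set.singleton_union, List.mem_cons]
    exact Iff.rfl

/-- SPEC V3 -/
theorem vol_le_prod (W : Submodule ℂ E) (l : List E) : vol W l ≤ (l.map (fun v => ‖v‖)).prod := by
  induction l generalizing W with
  | nil => simp [vol_nil]
  | cons v l ih =>
    rw [vol_cons, List.map_cons, List.prod_cons]
    refine mul_le_mul ?_ (ih _) (vol_nonneg _ _) (norm_nonneg _)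
    have := Metric.infDist_le_dist_of_mem (x := v) (s := (W : Set E)) W.zero_mem
    rwa [dist_zero_right] at this

theorem infDist_map_le {E' : Type*} [NormedAddCommGroup E'] [InnerProductSpace ℂ E']
    (T : E →ₗ[ℂ] E') {c : ℝ} (hc : 0 ≤ c) (hT : ∀ x, ‖T x‖ ≤ c * ‖x‖)
    {W : Submodule ℂ E} {W' : Submodule ℂ E'} (hW : W.map T ≤ W') (v : E) :
    Metric.infDist (T v) (W' : Set E') ≤ c * Metric.infDist v (W : Set E) := by
  have key : ∀ w ∈ W, Metric.infDist (T v) (W' : Set E') ≤ c * dist v w := by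
    intro w hw
    have h1 : T w ∈ (W' : Set E') := hW (Submodule.mem_map_of_mem hw)
    refine (Metric.infDist_le_dist_of_mem h1).trans ?_
    rw [dist_eq_norm, dist_eq_norm, ← map_sub]
    exact hT _
  have hne : (W : Set E).Nonempty := ⟨0, W.zero_mem⟩
  refine le_of_forall_pos_le_add fun ε hε => ?_
  have hpos : 0 < ε / (c + 1) := by positivity
  obtain ⟨w, hw, h1⟩ := (Metric.infDist_lt_iff hne).1
    (lt_add_of_pos_right (Metric.infDist v (W : Set E)) hpos)
  have h2 := key w hw
  have h3 : c * dist v w ≤ c * (Metric.infDist v (W : Set E) + ε / (c + 1)) :=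
    mul_le_mul_of_nonneg_left h1.le hc
  have h4 : c * (ε / (c + 1)) ≤ ε := by
    rw [mul_div_assoc', div_le_iff₀ (by positivity)]
    nlinarith
  linarith

/-- SPEC V4 : contraction -/
theorem vol_map_le {E' : Type*} [NormedAddCommGroup E'] [InnerProductSpace ℂ E']
    (T : E →ₗ[ℂ] E') {c : ℝ} (hc : 0 ≤ c) (hT : ∀ x, ‖T x‖ ≤ c * ‖x‖)
    {W : Submodule ℂ E} {W' : Submodule ℂ E'} (hW : W.map T ≤ W') (l : List E) :
    vol W' (l.map T) ≤ c ^ l.length * vol W l := by
  induction l generalizing W W' with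
  | nil => simp [vol_nil]
  | cons v l ih =>
    rw [List.map_cons, vol_cons, vol_cons, List.length_cons, pow_succ]
    have h1 := infDist_map_le T hc hT hW v
    have h2 : (W ⊔ Submodule.span ℂ {v}).map T ≤ W' ⊔ Submodule.span ℂ {T v} := by
      rw [Submodule.map_sup, Submodule.map_span, Set.image_singleton]
      exact sup_le_sup_right hW _
    have h3 := ih h2
    calc _ ≤ (c * Metric.infDist v (W : Set E)) *
          (c ^ l.length * vol (W ⊔ Submodule.span ℂ {v}) l) :=
          mul_le_mul h1 h3 (vol_nonneg _ _) (mul_nonneg hc Metric.infDist_nonneg)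
      _ = _ := by ring


/-- `ρ` is the orthogonal projection on the complement of `W` -/
def IsRes (W : Submodule ℂ E) (ρ : E → E) : Prop :=
  (∀ x, x - ρ x ∈ W) ∧ ∀ x, ∀ w ∈ W, inner ℂ w (ρ x) = 0

theorem exists_isRes (W : Submodule ℂ E) [FiniteDimensional ℂ W] : ∃ ρ : E → E, IsRes W ρ := by
  haveI : CompleteSpace W := FiniteDimensional.complete ℂ W
  refine ⟨fun x => x - W.starProjection x, fun x => ?_, fun x w hw => ?_⟩
  · rw [sub_sub_cancel]; exact Submodule.starProjection_apply_mem W x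
  · rw [inner_eq_zero_symm]
    exact Submodule.starProjection_inner_eq_zero x w hw

theorem IsRes.infDist {W : Submodule ℂ E} {ρ : E → E} (h : IsRes W ρ) (x : E) :
    Metric.infDist x (W : Set E) = ‖ρ x‖ := by
  apply le_antisymm
  · have := Metric.infDist_le_dist_of_mem (x := x) (s := (W : Set E)) (h.1 x)
    rwa [dist_eq_norm, sub_sub_cancel] at this
  · rw [Metric.le_infDist ⟨0, W.zero_mem⟩]
    intro w hw
    rw [dist_eq_norm]
    have h1 : x - w = (x - ρ x - w) + ρ x := by abel
    have h2 : inner ℂ (x - ρ x - w) (ρ x) = 0 := h.2 x _ (W.sub_mem (h.1 x) hw)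
    have h3 := norm_add_sq_eq_norm_sq_add_norm_sq_of_inner_eq_zero (𝕜 := ℂ) _ _ h2
    rw [h1]
    nlinarith [norm_nonneg (x - ρ x - w + ρ x), norm_nonneg (ρ x),
      mul_self_nonneg ‖x - ρ x - w‖]

/-- the value of `ρ` only depends on the class modulo `W` -/
theorem IsRes.eq_of {W : Submodule ℂ E} {ρ : E → E} (h : IsRes W ρ) {x y : E}
    (hy : x - y ∈ W) (ho : ∀ w ∈ W, inner ℂ w y = 0) : ρ x = y := by
  have h1 : y - ρ x ∈ W := by
    have := W.sub_mem (h.1 x) hy
    have e : x - ρ x - (x - y) = y - ρ x := by abel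
    rwa [e] at this
  have h2 : inner ℂ (y - ρ x) (y - ρ x) = 0 := by
    rw [inner_sub_right, ho _ h1, h.2 x _ h1, sub_zero]
  rw [inner_self_eq_zero, sub_eq_zero] at h2
  exact h2.symm

/-- adding a vector to the subspace -/
theorem IsRes.sup {W : Submodule ℂ E} {ρ : E → E} (h : IsRes W ρ) {v : E} (hv : ρ v ≠ 0) :
    IsRes (W ⊔ Submodule.span ℂ {v})
      (fun x => ρ x - ((inner ℂ (ρ v) (ρ x) / inner ℂ (ρ v) (ρ v) : ℂ)) • ρ v) := by
  have hu : ρ v ∈ W ⊔ Submodule.span ℂ {v} := by
    have h1 : v ∈ W ⊔ Submodule.span ℂ {v} :=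
      Submodule.mem_sup_right (Submodule.mem_span_singleton_self v)
    have h2 : v - ρ v ∈ W ⊔ Submodule.span ℂ {v} := Submodule.mem_sup_left (h.1 v)
    have := Submodule.sub_mem _ h1 h2
    rwa [sub_sub_cancel] at this
  refine ⟨fun x => ?_, fun x w hw => ?_⟩
  · have e : x - (ρ x - ((inner ℂ (ρ v) (ρ x) / inner ℂ (ρ v) (ρ v) : ℂ)) • ρ v) =
        (x - ρ x) + ((inner ℂ (ρ v) (ρ x) / inner ℂ (ρ v) (ρ v) : ℂ)) • ρ v := by abel
    rw [e]
    exact Submodule.add_mem _ (Submodule.mem_sup_left (h.1 x)) (Submodule.smul_mem _ _ hu)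
  · obtain ⟨w1, hw1, w2, hw2, rfl⟩ := Submodule.mem_sup.1 hw
    obtain ⟨a, rfl⟩ := Submodule.mem_span_singleton.1 hw2
    have h0 : inner ℂ (ρ v) (ρ v) ≠ 0 := fun hh => hv (inner_self_eq_zero.1 hh)
    have e1 : inner ℂ v (ρ x) = inner ℂ (ρ v) (ρ x) := by
      have := h.2 x _ (h.1 v)
      rwa [inner_sub_left, sub_eq_zero] at this
    have e2 : inner ℂ v (ρ v) = inner ℂ (ρ v) (ρ v) := by
      have := h.2 v _ (h.1 v)
      rwa [inner_sub_left, sub_eq_zero] at this
    rw [inner_add_left, inner_smul_left, inner_sub_right, inner_sub_right, inner_smul_right,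
      inner_smul_right, h.2 x w1 hw1, h.2 v w1 hw1, e1, e2, div_mul_cancel₀ _ h0]
    ring

/-- Gram matrix modulo `W` -/
noncomputable def gram (ρ : E → E) {s : ℕ} (e : Fin s → E) : Matrix (Fin s) (Fin s) ℂ :=
  fun i j => inner ℂ (ρ (e i)) (ρ (e j))

theorem vol_sq : ∀ (s : ℕ) (W : Submodule ℂ E) (ρ : E → E) (_ : IsRes W ρ) (e : Fin s → E),
    ((vol W (List.ofFn e) : ℝ) : ℂ) ^ 2 = (gram ρ e).det := by
  intro s
  induction s with
  | zero => intro W ρ _ e; simp [vol_nil]
  | succ s ih =>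
    intro W ρ h e
    rw [List.ofFn_succ, vol_cons, h.infDist]
    by_cases h0 : ρ (e 0) = 0
    · rw [h0, norm_zero, zero_mul, Matrix.det_eq_zero_of_row_eq_zero 0]
      · simp
      · intro j; simp [gram, h0]
    · have h1 := ih _ _ (h.sup h0) (fun i => e i.succ)
      set u := ρ (e 0) with hu
      have hun : inner ℂ u u ≠ 0 := fun hh => h0 (inner_self_eq_zero.1 hh)
      set ρ' : E → E := fun x => ρ x - ((inner ℂ u (ρ x) / inner ℂ u u : ℂ)) • u with hρ'
      have key : ∀ x y, inner ℂ (ρ' x) (ρ' y) = inner ℂ (ρ x) (ρ y) +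
          (-(inner ℂ (ρ x) u / inner ℂ u u)) * inner ℂ u (ρ y) := by
        intro x y
        have hc : (starRingEnd ℂ) (inner ℂ u u) = inner ℂ u u := inner_conj_symm u u
        have hx : (starRingEnd ℂ) (inner ℂ u (ρ x)) = inner ℂ (ρ x) u := inner_conj_symm _ _
        simp only [hρ']
        rw [inner_sub_left, inner_sub_right, inner_sub_right, inner_smul_left, inner_smul_left,
          inner_smul_right, inner_smul_right, map_div₀, hc, hx]
        field_simp
        ring
      set c : Fin (s + 1) → ℂ := Fin.cons 0 (fun i => -(inner ℂ (ρ (e i.succ)) u / inner ℂ u u))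
        with hc
      have h2 : (gram ρ e).det =
          Matrix.det (fun i j => gram ρ e i j + c i * gram ρ e 0 j) :=
        (Matrix.det_eq_of_forall_row_eq_smul_add_const c 0 (by simp [hc]) fun i j => rfl).symm
      rw [h2, Matrix.det_succ_column_zero, Fin.sum_univ_succ]
      have h3 : ∀ i : Fin s, gram ρ e i.succ 0 + c i.succ * gram ρ e 0 0 = 0 := by
        intro i
        simp only [gram, hc, Fin.cons_succ]
        rw [← hu]
        field_simp
        ring
      have h4 : ∑ i : Fin s, (-1 : ℂ) ^ ((i.succ : Fin (s + 1)) : ℕ) *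
          (gram ρ e i.succ 0 + c i.succ * gram ρ e 0 0) *
          (Matrix.submatrix (fun i j => gram ρ e i j + c i * gram ρ e 0 j) (i.succ).succAbove
            Fin.succ).det = 0 := by
        refine Finset.sum_eq_zero fun i _ => ?_
        rw [h3]; ring
      rw [h4, add_zero]
      have h5 : (Matrix.submatrix (fun i j => gram ρ e i j + c i * gram ρ e 0 j)
          (0 : Fin (s + 1)).succAbove Fin.succ) = gram ρ' (fun i => e i.succ) := by
        ext i j
        simp only [Matrix.submatrix_apply, gram, hc, Fin.zero_succAbove, Fin.cons_succ]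
        rw [key]
      rw [h5, ← h1]
      have h6 : gram ρ e 0 0 + c 0 * gram ρ e 0 0 = ((‖u‖ : ℝ) : ℂ) ^ 2 := by
        simp only [gram, hc, Fin.cons_zero, zero_mul, add_zero]
        rw [← hu, inner_self_eq_norm_sq_to_K]
        rfl
      rw [h6]
      push_cast
      simp
      ring

/-- SPEC V5 : change of basis (via Gram determinants / gramSchmidt) -/
theorem vol_eq_det (W : Submodule ℂ E) [FiniteDimensional ℂ W] {s : ℕ} (e F : Fin s → E)
    (P : Matrix (Fin s) (Fin s) ℂ) (h : ∀ i, F i - ∑ j, P i j • e j ∈ W) :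
    vol W (List.ofFn F) = ‖P.det‖ * vol W (List.ofFn e) := by
  obtain ⟨ρ, hρ⟩ := exists_isRes W
  have h1 : ∀ i, ρ (F i) = ∑ j, P i j • ρ (e j) := by
    intro i
    refine hρ.eq_of ?_ fun w hw => ?_
    · have e1 : F i - ∑ j, P i j • ρ (e j) =
          (F i - ∑ j, P i j • e j) + ∑ j, P i j • (e j - ρ (e j)) := by
        simp only [smul_sub, Finset.sum_sub_distrib]
        abel
      rw [e1]
      exact W.add_mem (h i) (W.sum_mem fun j _ => W.smul_mem _ (hρ.1 _))
    · rw [inner_sum]
      refine Finset.sum_eq_zero fun j _ => ?_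
      rw [inner_smul_right, hρ.2 _ w hw, mul_zero]
  have h2 : gram ρ F = P.map (starRingEnd ℂ) * gram ρ e * P.transpose := by
    ext i j
    simp only [gram, Matrix.mul_apply, Matrix.map_apply, Matrix.transpose_apply]
    rw [h1, h1, sum_inner]
    simp only [inner_sum, inner_smul_left, inner_smul_right, Finset.sum_mul, Finset.mul_sum]
    rw [Finset.sum_comm]
    refine Finset.sum_congr rfl fun x _ => Finset.sum_congr rfl fun y _ => ?_
    ring
  have h3 : ((vol W (List.ofFn F) : ℝ) : ℂ) ^ 2 =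
      (((‖P.det‖ * vol W (List.ofFn e)) : ℝ) : ℂ) ^ 2 := by
    rw [vol_sq s W ρ hρ F, h2, Matrix.det_mul, Matrix.det_mul, Matrix.det_transpose,
      ← vol_sq s W ρ hρ e]
    have h4 : (P.map (starRingEnd ℂ)).det = (starRingEnd ℂ) P.det :=
      (RingHom.map_det (starRingEnd ℂ) P).symm
    have h5 : (starRingEnd ℂ) P.det * P.det = ((‖P.det‖ : ℝ) : ℂ) ^ 2 := by
      rw [mul_comm, Complex.mul_conj, Complex.normSq_eq_norm_sq]
      push_cast; ring
    rw [h4]
    push_cast
    linear_combination ((vol W (List.ofFn e) : ℝ) : ℂ) ^ 2 * h5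
  have h6 : (vol W (List.ofFn F)) ^ 2 = (‖P.det‖ * vol W (List.ofFn e)) ^ 2 := by
    exact_mod_cast h3
  exact (pow_left_inj₀ (vol_nonneg _ _) (mul_nonneg (norm_nonneg _) (vol_nonneg _ _))
    (by norm_num)).1 h6

/-- SPEC V6 -/
theorem vol_orthonormal {s : ℕ} (e : Fin s → E) (he : Orthonormal ℂ e) :
    vol ⊥ (List.ofFn e) = 1 := by
  have hρ : IsRes (⊥ : Submodule ℂ E) (fun x => x) :=
    ⟨fun x => by rw [sub_self]; exact Submodule.zero_mem _, fun x w hw => by
      rw [(Submodule.mem_bot ℂ).1 hw, inner_zero_left]⟩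
  have h1 := vol_sq s ⊥ _ hρ e
  have h2 : gram (fun x => x) e = (1 : Matrix (Fin s) (Fin s) ℂ) := by
    ext i j
    simp only [gram, Matrix.one_apply]
    exact orthonormal_iff_ite.1 he i j
  rw [h2, Matrix.det_one] at h1
  have h3 : (vol (⊥ : Submodule ℂ E) (List.ofFn e)) ^ 2 = 1 ^ 2 := by
    rw [one_pow]; exact_mod_cast h1
  exact (pow_left_inj₀ (vol_nonneg _ _) zero_le_one (by norm_num)).1 h3
end V

end Tysz
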