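import Pool.Agent.Tysz.Ext2
import Pool.Agent.Tysz.Vol
import Pool.Agent.Tysz.Sums
open Finset MvPolynomial Module

namespace Tysz

variable {σ : Type} [Fintype σ] [DecidableEq σ] {N : Type} [AddCommGroup N]

/-- volume of a list of integer forms modulo I -/
noncomputable def vo (θ : σ → N) (ε : σ → ℤˣ) (I : Ideal (A σ)) (D : ℕ)
    (l : List (MvPolynomial σ ℤ)) : ℝ := vol (WW θ ε I D) (l.map (ev θ ε))

/-- infimum of the volumes of basis lists -/
noncomputable def Gam (θ : σ → N) (ε : σ → ℤˣ) (I : Ideal (A σ)) (D : ℕ) : ℝ :=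
  sInf {v | ∃ l, IsBL I D l ∧ v = vo θ ε I D l}

theorem vo_nonneg (θ : σ → N) (ε : σ → ℤˣ) (I : Ideal (A σ)) (D : ℕ) (l : List (MvPolynomial σ ℤ)) :
    0 ≤ vo θ ε I D l := vol_nonneg _ _

theorem Gam_bdd (θ : σ → N) (ε : σ → ℤˣ) (I : Ideal (A σ)) (D : ℕ) :
    BddBelow {v | ∃ l, IsBL I D l ∧ v = vo θ ε I D l} :=
  ⟨0, by rintro v ⟨l, _, rfl⟩; exact vo_nonneg _ _ _ _ _⟩

theorem Gam_ne (θ : σ → N) (ε : σ → ℤˣ) (I : Ideal (A σ)) (D : ℕ) :
    {v | ∃ l, IsBL I D l ∧ v = vo θ ε I D l}.Nonempty := by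
  obtain ⟨l, hl, _⟩ := exists_BL I D
  exact ⟨_, l, hl, rfl⟩

theorem Gam_le (θ : σ → N) (ε : σ → ℤˣ) {I : Ideal (A σ)} {D : ℕ} {l : List (MvPolynomial σ ℤ)}
    (hl : IsBL I D l) : Gam θ ε I D ≤ vo θ ε I D l := csInf_le (Gam_bdd _ _ _ _) ⟨l, hl, rfl⟩

theorem le_Gam (θ : σ → N) (ε : σ → ℤˣ) {I : Ideal (A σ)} {D : ℕ} {a : ℝ}
    (h : ∀ l, IsBL I D l → a ≤ vo θ ε I D l) : a ≤ Gam θ ε I D := by
  apply le_csInf (Gam_ne _ _ _ _)
  rintro v ⟨l, hl, rfl⟩
  exact h l hl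

theorem Gam_nonneg (θ : σ → N) (ε : σ → ℤˣ) (I : Ideal (A σ)) (D : ℕ) : 0 ≤ Gam θ ε I D :=
  le_Gam θ ε fun l _ => vo_nonneg _ _ _ _ l

theorem exists_near (θ : σ → N) (ε : σ → ℤˣ) {I : Ideal (A σ)} {D : ℕ} (h : 0 < Gam θ ε I D) :
    ∃ l, IsBL I D l ∧ vo θ ε I D l ≤ 2 * Gam θ ε I D := by
  by_contra hcon
  push Not at hcon
  have := le_Gam θ ε (I := I) (D := D) (a := 2 * Gam θ ε I D) fun l hl => (hcon l hl).le
  linarith

theorem span_map_ev (θ : σ → N) (ε : σ → ℤˣ) (l : List (MvPolynomial σ ℤ)) :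
    Submodule.span ℂ {v | v ∈ l.map (ev θ ε)} = sp ℂ (fun G => ev θ ε G) l := by
  unfold sp
  congr 1
  ext v
  constructor
  · intro hv
    obtain ⟨x, hx, rfl⟩ := List.mem_map.mp hv
    exact ⟨x, hx, rfl⟩
  · rintro ⟨x, hx, rfl⟩
    exact List.mem_map.mpr ⟨x, hx, rfl⟩

/-- basic inequality: adding a list h of elements of I' -/
theorem gam_step (θ : σ → N) (ε : σ → ℤˣ) {I I' : Ideal (A σ)} (hI : I ≤ I')
    {H : List (ℕ × MvPolynomial σ ℤ)} (hH : Gens I' H) {C : ℝ} (hC1 : 1 ≤ C)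
    (hC : ∀ D, ∀ F ∈ genList H D, ‖ev θ ε F‖ ≤ C) {D : ℕ} {h : List (MvPolynomial σ ℤ)}
    (hh : ∀ F ∈ h, F.IsHomogeneous D ∧ toA F ∈ I') (hind : Ind ℚ (fun F => mkL I (toA F)) h) :
    ∃ t : ℕ, h.length + t + rk I' D = rk I D ∧
      Gam θ ε I D ≤ vo θ ε I D h * C ^ t * Gam θ ε I' D := by
  obtain ⟨g, hg1, hg2, hg3, hg4⟩ := extension θ ε hI hH hh hind
  refine ⟨g.length, hg2, ?_⟩
  have key : ∀ l, IsBL I' D l → Gam θ ε I D ≤ vo θ ε I D h * C ^ g.length * vo θ ε I' D l := by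
    intro l hl
    refine (Gam_le θ ε (hg4 l hl)).trans ?_
    unfold vo
    rw [List.map_append, List.map_append, vol_append]
    have h1 : WW θ ε I D ⊔ Submodule.span ℂ {v | v ∈ List.map (ev θ ε) h ++ List.map (ev θ ε) g}
        = WW θ ε I' D := by
      rw [← List.map_append, span_map_ev, hg3]
    rw [h1, vol_append]
    apply mul_le_mul_of_nonneg_right _ (vol_nonneg _ _)
    apply mul_le_mul_of_nonneg_left _ (vol_nonneg _ _)
    refine (vol_le_prod _ _).trans ?_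
    rw [List.map_map]
    have h2 : ∀ l : List (MvPolynomial σ ℤ), (∀ F ∈ l, ‖ev θ ε F‖ ≤ C) →
        (l.map ((fun v => ‖v‖) ∘ (ev θ ε))).prod ≤ C ^ l.length := by
      intro l
      induction l with
      | nil => intro _; simp
      | cons x l ih =>
        intro hl
        rw [List.map_cons, List.prod_cons, List.length_cons, pow_succ, mul_comm]
        apply mul_le_mul (ih fun F hF => hl F (List.mem_cons_of_mem _ hF)) (hl x (by simp))
          (norm_nonneg _) (by positivity)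
    exact h2 g fun F hF => hC D F (hg1 F hF)
  have ha : 0 ≤ vo θ ε I D h * C ^ g.length := mul_nonneg (vo_nonneg _ _ _ _ _) (by positivity)
  rcases ha.eq_or_lt with ha0 | ha0
  · obtain ⟨l, hl, _⟩ := exists_BL I' D
    have := key l hl
    rw [← ha0, zero_mul] at this ⊢
    exact this
  · rw [← div_le_iff₀' ha0]
    apply le_Gam
    intro l hl
    rw [div_le_iff₀' ha0]
    exact key l hl

/-- contraction by multiplication with a form -/
theorem vo_mul_le (θ : σ → N) (ε : σ → ℤˣ) {I : Ideal (A σ)} {f : MvPolynomial σ ℤ} {e D : ℕ}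
    (hfe : f.IsHomogeneous e) (hD : e ≤ D) {c : ℝ} (hc : 0 ≤ c) (hfc : ∀ x, ‖ev θ ε f * x‖ ≤ c * ‖x‖)
    (K : List (MvPolynomial σ ℤ)) :
    vo θ ε I D (K.map (fun F => f * F)) ≤ c ^ K.length * vo θ ε I (D - e) K := by
  unfold vo
  set T : GA N →ₗ[ℂ] GA N := LinearMap.mulLeft ℂ (ev θ ε f) with hT
  have h1 : (K.map (fun F => f * F)).map (ev θ ε) = (K.map (ev θ ε)).map T := by
    rw [List.map_map, List.map_map]
    apply List.map_congr_left
    intro F _
    simp only [Function.comp, map_mul, hT, LinearMap.mulLeft_apply]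
  rw [h1]
  have h2 : (WW θ ε I (D - e)).map T ≤ WW θ ε I D := by
    unfold WW
    rw [Submodule.map_span, Submodule.span_le]
    rintro _ ⟨_, ⟨F, hF, hFh, rfl⟩, rfl⟩
    refine Submodule.subset_span ⟨toA f * F, I.mul_mem_left _ hF, ?_, ?_⟩
    · have := (toA_homog hfe).mul hFh
      rwa [Nat.add_sub_cancel' hD] at this
    · rw [map_mul, hT, LinearMap.mulLeft_apply]; rfl
  have h3 := vol_map_le T hc hfc h2 (K.map (ev θ ε))
  rwa [List.length_map] at h3

/-- Hadamard bound for monomial lists -/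
theorem vo_mul_mon_le (θ : σ → N) (ε : σ → ℤˣ) {I : Ideal (A σ)} {f : MvPolynomial σ ℤ} {D : ℕ}
    {D' : ℕ} {K : List (MvPolynomial σ ℤ)} (hK : ∀ F ∈ K, ∃ α ∈ exps σ D', F = monomial α 1) :
    vo θ ε I D (K.map (fun F => f * F)) ≤ ‖ev θ ε f‖ ^ K.length := by
  unfold vo
  refine (vol_le_prod _ _).trans ?_
  rw [List.map_map, List.map_map]
  induction K with
  | nil => simp
  | cons x l ih =>
    rw [List.map_cons, List.prod_cons, List.length_cons, pow_succ, mul_comm]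
    apply mul_le_mul (ih fun F hF => hK F (List.mem_cons_of_mem _ hF)) _ (norm_nonneg _) (by positivity)
    obtain ⟨α, _, rfl⟩ := hK x (by simp)
    have h1 : ev θ ε (monomial α 1) = GA.mon (cls θ α) (sgn ε α) := by
      rw [ev_apply, toA_monomial]
      change phi θ ε (toC (monomial α 1)) = _
      unfold toC
      rw [map_monomial, phi_monomial]
      simp
    simp only [Function.comp, map_mul]
    rw [h1, mul_comm, GA.norm_mon_mul, norm_sgn, one_mul]

/-- the cut inequality in logarithmic form -/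
theorem cut_log (θ : σ → N) (ε : σ → ℤˣ) {I I' : Ideal (A σ)} (hI : I ≤ I')
    {H : List (ℕ × MvPolynomial σ ℤ)} (hH : Gens I' H) {C : ℝ} (hC1 : 1 ≤ C)
    (hC : ∀ D, ∀ F ∈ genList H D, ‖ev θ ε F‖ ≤ C)
    {f : MvPolynomial σ ℤ} {e D : ℕ} (hfe : f.IsHomogeneous e) (hfI : toA f ∈ I') (hf : NZD I f)
    (hD : e ≤ D) {c : ℝ} (hc : 0 < c) (hfc : ∀ x, ‖ev θ ε f * x‖ ≤ c * ‖x‖)
    (hpos : 0 < Gam θ ε I D) (hpos' : 0 < Gam θ ε I (D - e)) :
    0 < Gam θ ε I' D ∧ -Real.log (Gam θ ε I' D) ≤ -Real.log (Gam θ ε I D)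
      + Real.log (Gam θ ε I (D - e)) + rk I (D - e) * Real.log c
      + (rk I D - rk I (D - e) - rk I' D) * Real.log C + Real.log 2 := by
  obtain ⟨K, hK, hK2⟩ := exists_near θ ε hpos'
  have hind := ind_mul hf hK
  have hh : ∀ F ∈ K.map (fun F => f * F), F.IsHomogeneous D ∧ toA F ∈ I' := by
    intro F hF
    obtain ⟨G, hG, rfl⟩ := List.mem_map.mp hF
    refine ⟨?_, ?_⟩
    · have := hfe.mul (hK.hom G hG)
      rwa [Nat.add_sub_cancel' hD] at this
    · rw [map_mul]; exact I'.mul_mem_right _ hfI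
  obtain ⟨t, ht, hle⟩ := gam_step θ ε hI hH hC1 hC hh hind
  rw [List.length_map, hK.len] at ht
  have h1 : vo θ ε I D (K.map (fun F => f * F)) ≤ c ^ rk I (D - e) * (2 * Gam θ ε I (D - e)) := by
    refine (vo_mul_le θ ε hfe hD hc.le hfc K).trans ?_
    rw [hK.len]
    exact mul_le_mul_of_nonneg_left hK2 (by positivity)
  have h2 : Gam θ ε I D ≤ c ^ rk I (D - e) * (2 * Gam θ ε I (D - e)) * C ^ t * Gam θ ε I' D := by
    refine hle.trans ?_
    apply mul_le_mul_of_nonneg_right _ (Gam_nonneg _ _ _ _)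
    exact mul_le_mul_of_nonneg_right h1 (by positivity)
  have hCpos : 0 < C := by linarith
  have h3 : 0 < Gam θ ε I' D := by
    rcases (Gam_nonneg θ ε I' D).eq_or_lt with h | h
    · rw [← h, mul_zero] at h2; linarith
    · exact h
  refine ⟨h3, ?_⟩
  have h4 := Real.log_le_log hpos h2
  rw [Real.log_mul (by positivity) h3.ne', Real.log_mul (by positivity) (by positivity),
    Real.log_mul (by positivity) (by positivity), Real.log_mul (by norm_num) hpos'.ne',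
    Real.log_pow, Real.log_pow] at h4
  have h5 : (t : ℝ) = rk I D - rk I (D - e) - rk I' D := by
    have : (rk I (D - e) : ℝ) + t + rk I' D = rk I D := by exact_mod_cast ht
    linarith
  rw [h5] at h4
  linarith

/-- first cut with the l^2-norm -/
theorem cut_log_mon (θ : σ → N) (ε : σ → ℤˣ) {I I' : Ideal (A σ)} (hI : I ≤ I')
    {H : List (ℕ × MvPolynomial σ ℤ)} (hH : Gens I' H) {C : ℝ} (hC1 : 1 ≤ C)
    (hC : ∀ D, ∀ F ∈ genList H D, ‖ev θ ε F‖ ≤ C)
    {f : MvPolynomial σ ℤ} {e D : ℕ} (hfe : f.IsHomogeneous e) (hfI : toA f ∈ I') (hf : NZD I f)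
    (hD : e ≤ D) {c : ℝ} (hc : 0 < c) (hfc : ‖ev θ ε f‖ ≤ c)
    (hpos : 0 < Gam θ ε I D) :
    0 < Gam θ ε I' D ∧ -Real.log (Gam θ ε I' D) ≤ -Real.log (Gam θ ε I D)
      + rk I (D - e) * Real.log c
      + (rk I D - rk I (D - e) - rk I' D) * Real.log C := by
  obtain ⟨K, hK, hK2⟩ := exists_BL I (D - e)
  have hind := ind_mul hf hK
  have hh : ∀ F ∈ K.map (fun F => f * F), F.IsHomogeneous D ∧ toA F ∈ I' := by
    intro F hF
    obtain ⟨G, hG, rfl⟩ := List.mem_map.mp hF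
    refine ⟨?_, ?_⟩
    · have := hfe.mul (hK.hom G hG)
      rwa [Nat.add_sub_cancel' hD] at this
    · rw [map_mul]; exact I'.mul_mem_right _ hfI
  obtain ⟨t, ht, hle⟩ := gam_step θ ε hI hH hC1 hC hh hind
  rw [List.length_map, hK.len] at ht
  have h1 : vo θ ε I D (K.map (fun F => f * F)) ≤ c ^ rk I (D - e) := by
    refine (vo_mul_mon_le θ ε hK2).trans ?_
    rw [hK.len]
    exact pow_le_pow_left₀ (norm_nonneg _) hfc _
  have h2 : Gam θ ε I D ≤ c ^ rk I (D - e) * C ^ t * Gam θ ε I' D := by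
    refine hle.trans ?_
    apply mul_le_mul_of_nonneg_right _ (Gam_nonneg _ _ _ _)
    exact mul_le_mul_of_nonneg_right h1 (by positivity)
  have hCpos : 0 < C := by linarith
  have h3 : 0 < Gam θ ε I' D := by
    rcases (Gam_nonneg θ ε I' D).eq_or_lt with h | h
    · rw [← h, mul_zero] at h2; linarith
    · exact h
  refine ⟨h3, ?_⟩
  have h4 := Real.log_le_log hpos h2
  rw [Real.log_mul (by positivity) h3.ne', Real.log_mul (by positivity) (by positivity),
    Real.log_pow, Real.log_pow] at h4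
  have h5 : (t : ℝ) = rk I D - rk I (D - e) - rk I' D := by
    have : (rk I (D - e) : ℝ) + t + rk I' D = rk I D := by exact_mod_cast ht
    linarith
  rw [h5] at h4
  linarith

/-- enlarging the ideal -/
theorem enlarge_log (θ : σ → N) (ε : σ → ℤˣ) {I I' : Ideal (A σ)} (hI : I ≤ I')
    {H : List (ℕ × MvPolynomial σ ℤ)} (hH : Gens I' H) {C : ℝ} (hC1 : 1 ≤ C)
    (hC : ∀ D, ∀ F ∈ genList H D, ‖ev θ ε F‖ ≤ C) {D : ℕ} (hpos : 0 < Gam θ ε I D) :
    0 < Gam θ ε I' D ∧ -Real.log (Gam θ ε I' D) ≤ -Real.log (Gam θ ε I D)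
      + (rk I D - rk I' D) * Real.log C := by
  obtain ⟨t, ht, hle⟩ := gam_step θ ε hI hH hC1 hC (D := D) (h := []) (by simp) (Ind.nil _)
  have h1 : vo θ ε I D [] = 1 := rfl
  rw [h1, one_mul] at hle
  have hCpos : 0 < C := by linarith
  have h3 : 0 < Gam θ ε I' D := by
    rcases (Gam_nonneg θ ε I' D).eq_or_lt with h | h
    · rw [← h, mul_zero] at hle; linarith
    · exact h
  refine ⟨h3, ?_⟩
  have h4 := Real.log_le_log hpos hle
  rw [Real.log_mul (by positivity) h3.ne', Real.log_pow] at h4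
  have h5 : (t : ℝ) = rk I D - rk I' D := by
    have : ((0 : ℕ) : ℝ) + t + rk I' D = rk I D := by
      have ht' : (0 : ℕ) + t + rk I' D = rk I D := ht
      exact_mod_cast ht'
    push_cast at this
    linarith
  rw [h5] at h4
  linarith

end Tysz
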