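import Pool.Agent.Tysz.Poly
open Finset MvPolynomial Module

namespace Tysz

section lists
variable {K V ι : Type} [Field K] [AddCommGroup V] [Module K V]

/-- span of the images of a list -/
def sp (K : Type) {V ι : Type} [Field K] [AddCommGroup V] [Module K V] (φ : ι → V) (l : List ι) :
    Submodule K V := Submodule.span K {v | ∃ x ∈ l, v = φ x}

theorem sp_finite (φ : ι → V) (l : List ι) : {v | ∃ x ∈ l, v = φ x}.Finite := by
  have : {v | ∃ x ∈ l, v = φ x} = φ '' {x | x ∈ l} := by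
    ext v; constructor
    · rintro ⟨x, hx, rfl⟩; exact ⟨x, hx, rfl⟩
    · rintro ⟨x, hx, rfl⟩; exact ⟨x, hx, rfl⟩
  rw [this]
  exact (List.finite_toSet l).image φ

instance sp_fd (φ : ι → V) (l : List ι) : FiniteDimensional K (sp K φ l) :=
  FiniteDimensional.span_of_finite K (sp_finite φ l)

theorem sp_append (φ : ι → V) (l₁ l₂ : List ι) : sp K φ (l₁ ++ l₂) = sp K φ l₁ ⊔ sp K φ l₂ := by
  unfold sp
  rw [← Submodule.span_union]
  congr 1
  ext v
  simp only [List.mem_append, Set.mem_ofPred_eq, Set.mem_union]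
  constructor
  · rintro ⟨x, h | h, rfl⟩
    · exact Or.inl ⟨x, h, rfl⟩
    · exact Or.inr ⟨x, h, rfl⟩
  · rintro (⟨x, h, rfl⟩ | ⟨x, h, rfl⟩)
    · exact ⟨x, Or.inl h, rfl⟩
    · exact ⟨x, Or.inr h, rfl⟩

theorem sp_singleton (φ : ι → V) (x : ι) : sp K φ [x] = Submodule.span K {φ x} := by
  unfold sp; congr 1; ext v; simp

theorem mem_sp (φ : ι → V) {l : List ι} {x : ι} (hx : x ∈ l) : φ x ∈ sp K φ l :=
  Submodule.subset_span ⟨x, hx, rfl⟩

theorem sp_mono (φ : ι → V) {l₁ l₂ : List ι} (h : ∀ x ∈ l₁, x ∈ l₂) : sp K φ l₁ ≤ sp K φ l₂ :=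
  Submodule.span_mono (by rintro v ⟨x, hx, rfl⟩; exact ⟨x, h x hx, rfl⟩)

theorem sp_le (φ : ι → V) {l : List ι} {p : Submodule K V} (h : ∀ x ∈ l, φ x ∈ p) : sp K φ l ≤ p :=
  Submodule.span_le.mpr (by rintro v ⟨x, hx, rfl⟩; exact h x hx)

theorem finrank_sup_single {p : Submodule K V} [FiniteDimensional K p] {v : V} (hv : v ∉ p) :
    finrank K (p ⊔ Submodule.span K {v} : Submodule K V) = finrank K p + 1 := by
  have h := Submodule.finrank_sup_add_finrank_inf_eq p (Submodule.span K {v})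
  have hv0 : v ≠ 0 := by rintro rfl; exact hv p.zero_mem
  have h1 : p ⊓ Submodule.span K {v} = ⊥ := by
    rw [Submodule.eq_bot_iff]
    rintro x ⟨hx1, hx2⟩
    obtain ⟨c, rfl⟩ := Submodule.mem_span_singleton.mp hx2
    by_cases hc : c = 0
    · simp [hc]
    · exact absurd ((p.smul_mem_iff hc).mp hx1) hv
  rw [h1, finrank_bot, finrank_span_singleton hv0] at h
  omega

/-- independence of a list, as a dimension count -/
def Ind (K : Type) {V ι : Type} [Field K] [AddCommGroup V] [Module K V] (φ : ι → V) (l : List ι) :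
    Prop := finrank K (sp K φ l) = l.length

theorem Ind.nil (φ : ι → V) : Ind K φ [] := by
  unfold Ind sp
  have : {v | ∃ x ∈ ([] : List ι), v = φ x} = ∅ := by ext v; simp
  rw [this, Submodule.span_empty, finrank_bot]; rfl

theorem ext_list (φ : ι → V) (G : List ι) : ∀ h : List ι, Ind K φ h →
    ∃ g : List ι, (∀ x ∈ g, x ∈ G) ∧ Ind K φ (h ++ g) ∧ ∀ x ∈ G, φ x ∈ sp K φ (h ++ g) := by
  induction G with
  | nil => intro h hh; exact ⟨[], by simp, by simpa using hh, by simp⟩
  | cons x G ih =>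
    intro h hh
    by_cases hx : φ x ∈ sp K φ h
    · obtain ⟨g, hg1, hg2, hg3⟩ := ih h hh
      refine ⟨g, fun y hy => List.mem_cons_of_mem _ (hg1 y hy), hg2, ?_⟩
      intro y hy
      rcases List.mem_cons.mp hy with rfl | hy
      · exact sp_mono φ (by intro z hz; simp [hz]) hx
      · exact hg3 y hy
    · have h1 : Ind K φ (h ++ [x]) := by
        unfold Ind
        rw [sp_append, sp_singleton, finrank_sup_single hx, hh]; simp
      obtain ⟨g, hg1, hg2, hg3⟩ := ih (h ++ [x]) h1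
      refine ⟨x :: g, ?_, ?_, ?_⟩
      · intro y hy
        rcases List.mem_cons.mp hy with rfl | hy
        · simp
        · exact List.mem_cons_of_mem _ (hg1 y hy)
      · simpa using hg2
      · intro y hy
        rcases List.mem_cons.mp hy with rfl | hy
        · exact mem_sp φ (by simp)
        · simpa using hg3 y hy

end lists

variable {σ : Type} [Fintype σ] [DecidableEq σ] {N : Type} [AddCommGroup N]

/-- the quotient map as a linear map -/
noncomputable def mkL (I : Ideal (A σ)) : A σ →ₗ[ℚ] A σ ⧸ I := (Ideal.Quotient.mkₐ ℚ I).toLinearMap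

theorem mkL_apply (I : Ideal (A σ)) (F : A σ) : mkL I F = Ideal.Quotient.mk I F := rfl

theorem mkL_eq_zero {I : Ideal (A σ)} {F : A σ} : mkL I F = 0 ↔ F ∈ I := Ideal.Quotient.eq_zero_iff_mem

/-- degree D part of the quotient -/
noncomputable def gr (I : Ideal (A σ)) (D : ℕ) : Submodule ℚ (A σ ⧸ I) :=
  (homogeneousSubmodule σ ℚ D).map (mkL I)

instance hD_fd (D : ℕ) : FiniteDimensional ℚ (homogeneousSubmodule σ ℚ D) :=
  Module.Finite.iff_fg.mpr (homogeneousSubmodule_fg σ ℚ D)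

instance gr_fd (I : Ideal (A σ)) (D : ℕ) : FiniteDimensional ℚ (gr I D) := by
  unfold gr; infer_instance

/-- rank -/
noncomputable def rk (I : Ideal (A σ)) (D : ℕ) : ℕ := finrank ℚ (gr I D)

/-- W(I,D) -/
noncomputable def WW (θ : σ → N) (ε : σ → ℤˣ) (I : Ideal (A σ)) (D : ℕ) : Submodule ℂ (GA N) :=
  Submodule.span ℂ {x | ∃ F ∈ I, F.IsHomogeneous D ∧ x = phiQ θ ε F}

/-- the list of all exponents of degree D -/
noncomputable def exps (σ : Type) [Fintype σ] [DecidableEq σ] (D : ℕ) : Finset (σ →₀ ℕ) :=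
  Finset.finsuppAntidiag univ D

theorem mem_exps {D : ℕ} {α : σ →₀ ℕ} : α ∈ exps σ D ↔ ∑ i, α i = D := by
  unfold exps
  rw [Finset.mem_finsuppAntidiag]; simp

theorem homog_monomial {R : Type} [CommSemiring R] {D : ℕ} {α : σ →₀ ℕ} (hα : α ∈ exps σ D) (c : R) :
    (monomial α c).IsHomogeneous D := by
  apply isHomogeneous_monomial
  rw [Finsupp.degree_eq_sum]; exact mem_exps.mp hα

theorem homog_support {R : Type} [CommSemiring R] {D : ℕ} {F : MvPolynomial σ R}
    (hF : F.IsHomogeneous D) {α : σ →₀ ℕ} (hα : α ∈ F.support) : α ∈ exps σ D := by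
  rw [mem_exps, ← Finsupp.degree_eq_sum]
  have := hF (mem_support_iff.mp hα)
  rwa [Finsupp.degree_eq_weight_one]

/-- rational basis list of the degree D part modulo I -/
structure IsBL (I : Ideal (A σ)) (D : ℕ) (l : List (MvPolynomial σ ℤ)) : Prop where
  hom : ∀ F ∈ l, F.IsHomogeneous D
  len : l.length = rk I D
  spn : gr I D ≤ sp ℚ (fun F => mkL I (toA F)) l

theorem toA_homog {D : ℕ} {F : MvPolynomial σ ℤ} (hF : F.IsHomogeneous D) : (toA F).IsHomogeneous D :=
  hF.map _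

theorem mem_gr {I : Ideal (A σ)} {D : ℕ} {F : A σ} (hF : F.IsHomogeneous D) : mkL I F ∈ gr I D :=
  Submodule.mem_map_of_mem hF

theorem sp_le_gr {I : Ideal (A σ)} {D : ℕ} {l : List (MvPolynomial σ ℤ)}
    (h : ∀ F ∈ l, F.IsHomogeneous D) : sp ℚ (fun F => mkL I (toA F)) l ≤ gr I D :=
  sp_le _ fun F hF => mem_gr (toA_homog (h F hF))

theorem IsBL.sp_eq {I : Ideal (A σ)} {D : ℕ} {l : List (MvPolynomial σ ℤ)} (h : IsBL I D l) :
    sp ℚ (fun F => mkL I (toA F)) l = gr I D := le_antisymm (sp_le_gr h.hom) h.spn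

theorem IsBL.ind {I : Ideal (A σ)} {D : ℕ} {l : List (MvPolynomial σ ℤ)} (h : IsBL I D l) :
    Ind ℚ (fun F => mkL I (toA F)) l := by
  unfold Ind; rw [h.sp_eq, h.len]; rfl

theorem toA_monomial (α : σ →₀ ℕ) : toA (monomial α 1) = (monomial α 1 : A σ) := by
  unfold toA; rw [map_monomial]; simp

theorem gr_eq_span (I : Ideal (A σ)) (D : ℕ) :
    gr I D = sp ℚ (fun F : MvPolynomial σ ℤ => mkL I (toA F))
      ((exps σ D).toList.map (fun α => monomial α 1)) := by
  apply le_antisymm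
  · rintro x ⟨F, hF, rfl⟩
    have hF' : F.IsHomogeneous D := hF
    rw [F.as_sum, map_sum]
    refine Submodule.sum_mem _ fun α hα => ?_
    have h1 : (monomial α (coeff α F) : A σ) = coeff α F • monomial α 1 := by
      rw [smul_monomial, smul_eq_mul, mul_one]
    rw [h1, map_smul]
    refine Submodule.smul_mem _ _ ?_
    rw [← toA_monomial]
    exact mem_sp (fun F : MvPolynomial σ ℤ => mkL I (toA F))
      (List.mem_map.mpr ⟨α, by simpa using homog_support hF' hα, rfl⟩)
  · apply sp_le_gr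
    intro F hF
    obtain ⟨α, hα, rfl⟩ := List.mem_map.mp hF
    exact homog_monomial (by simpa using hα) 1

/-- basis lists of monomials exist -/
theorem exists_BL (I : Ideal (A σ)) (D : ℕ) : ∃ l : List (MvPolynomial σ ℤ), IsBL I D l ∧
    ∀ F ∈ l, ∃ α ∈ exps σ D, F = monomial α 1 := by
  obtain ⟨g, hg1, hg2, hg3⟩ := ext_list (K := ℚ) (fun F : MvPolynomial σ ℤ => mkL I (toA F))
    ((exps σ D).toList.map (fun α => monomial α 1)) [] (Ind.nil _)
  simp only [List.nil_append] at hg2 hg3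
  have hmon : ∀ F ∈ g, ∃ α ∈ exps σ D, F = monomial α 1 := by
    intro F hF
    obtain ⟨α, hα, rfl⟩ := List.mem_map.mp (hg1 F hF)
    exact ⟨α, by simpa using hα, rfl⟩
  have hhom : ∀ F ∈ g, F.IsHomogeneous D := by
    intro F hF
    obtain ⟨α, hα, rfl⟩ := hmon F hF
    exact homog_monomial hα 1
  have hs : gr I D ≤ sp ℚ (fun F => mkL I (toA F)) g := by
    rw [gr_eq_span]; exact sp_le _ hg3
  refine ⟨g, ⟨hhom, ?_, hs⟩, hmon⟩
  rw [← hg2, le_antisymm (sp_le_gr hhom) hs]; rfl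

end Tysz
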