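import Pool.Agent.Tysz.Toric
open Finset MvPolynomial Module

namespace Tysz

variable {σ : Type} [Fintype σ] [DecidableEq σ] {F : Type} [Field F] [Algebra ℚ F]

/-- the root lemma -/
theorem root_lemma {I : Ideal (A σ)} (hI : I.IsPrime) {P : σ → F} (hP : ∀ G ∈ I, aeval P G = 0)
    {u v : A σ} (huv : aeval P u = aeval P v) (hu : aeval P u ≠ 0) {k : ℕ} (hk : k ≠ 0)
    (h : u ^ k - v ^ k ∈ I) : u - v ∈ I := by
  haveI : CharZero F := algebraRat.charZero F
  rw [← geom_sum₂_mul] at h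
  rcases hI.mem_or_mem h with h1 | h1
  · exfalso
    have h2 := hP _ h1
    rw [map_sum] at h2
    simp only [map_mul, map_pow, ← huv] at h2
    have h3 : ∀ i ∈ range k, aeval P u ^ i * aeval P u ^ (k - 1 - i) = aeval P u ^ (k - 1) := by
      intro i hi
      rw [← pow_add]
      congr 1
      rw [Finset.mem_range] at hi
      omega
    rw [Finset.sum_congr rfl h3, Finset.sum_const, Finset.card_range, nsmul_eq_mul] at h2
    rcases mul_eq_zero.mp h2 with h4 | h4
    · exact hk (by exact_mod_cast h4)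
    · exact pow_ne_zero _ hu h4
  · exact h1

/-- twisted monomial -/
noncomputable def tw (c : σ → ℚ) (α : σ →₀ ℕ) : A σ := monomial α (∏ i, c i ^ α i)

theorem tw_add (c : σ → ℚ) (α β : σ →₀ ℕ) : tw c (α + β) = tw c α * tw c β := by
  unfold tw
  rw [monomial_mul]
  congr 1
  rw [← Finset.prod_mul_distrib]
  exact Finset.prod_congr rfl fun i _ => by rw [Finsupp.add_apply, pow_add]

theorem tw_zero (c : σ → ℚ) : tw c 0 = 1 := by
  unfold tw; simp

theorem tw_nsmul (c : σ → ℚ) (k : ℕ) (α : σ →₀ ℕ) : tw c (k • α) = tw c α ^ k := by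
  induction k with
  | zero => rw [zero_smul, tw_zero, pow_zero]
  | succ k ih => rw [succ_nsmul, tw_add, ih, pow_succ]

theorem aeval_tw (P : σ → F) (c : σ → ℚ) (α : σ →₀ ℕ) :
    aeval P (tw c α) = ∏ i, (algebraMap ℚ F (c i) * P i) ^ α i := by
  unfold tw
  rw [aeval_monomial, map_prod, Finsupp.prod_fintype _ _ (by intro i; simp), ← Finset.prod_mul_distrib]
  refine Finset.prod_congr rfl fun i _ => ?_
  rw [map_pow, mul_pow]

theorem aeval_tw_ne {P : σ → F} {c : σ → ℚ} (hP : ∀ i, P i ≠ 0) (hc : ∀ i, c i ≠ 0) (α : σ →₀ ℕ) :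
    aeval P (tw c α) ≠ 0 := by
  rw [aeval_tw]
  refine Finset.prod_ne_zero_iff.mpr fun i _ => pow_ne_zero _ (mul_ne_zero ?_ (hP i))
  intro h
  exact hc i ((map_eq_zero _).mp h)

/-- good ideals: prime, below the ideal of a point with nonzero coordinates -/
structure Good (I : Ideal (A σ)) (P : σ → F) : Prop where
  pr : I.IsPrime
  van : ∀ G ∈ I, aeval P G = 0
  ne : ∀ i, P i ≠ 0

/-- relation on integer vectors -/
def Rel (I : Ideal (A σ)) (c : σ → ℚ) (v : σ → ℤ) : Prop :=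
  ∀ α β : σ →₀ ℕ, (∀ i, (α i : ℤ) - β i = v i) → tw c α - tw c β ∈ I

theorem tw_notMem {I : Ideal (A σ)} {P : σ → F} (h : Good I P) {c : σ → ℚ} (hc : ∀ i, c i ≠ 0)
    (α : σ →₀ ℕ) : tw c α ∉ I := fun h0 => aeval_tw_ne h.ne hc α (h.van _ h0)

theorem Rel.of {I : Ideal (A σ)} {P : σ → F} (h : Good I P) {c : σ → ℚ} (hc : ∀ i, c i ≠ 0)
    {v : σ → ℤ} {α β : σ →₀ ℕ} (hv : ∀ i, (α i : ℤ) - β i = v i) (hm : tw c α - tw c β ∈ I) :
    Rel I c v := by
  intro α' β' hv'
  have h1 : α + β' = α' + β := by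
    ext i
    have h2 := hv i
    have h3 := hv' i
    rw [Finsupp.add_apply, Finsupp.add_apply]
    omega
  have h2 : tw c β * (tw c α' - tw c β') = tw c β' * (tw c α - tw c β) := by
    have h3 : tw c α * tw c β' = tw c α' * tw c β := by rw [← tw_add, ← tw_add, h1]
    linear_combination -h3
  have h3 : tw c β * (tw c α' - tw c β') ∈ I := by rw [h2]; exact I.mul_mem_left _ hm
  exact (h.pr.mem_or_mem h3).resolve_left (tw_notMem h hc β)

/-- positive part -/
noncomputable def posE (v : σ → ℤ) : σ →₀ ℕ := Finsupp.equivFunOnFinite.symm fun i => (v i).toNat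
/-- negative part -/
noncomputable def negE (v : σ → ℤ) : σ →₀ ℕ := Finsupp.equivFunOnFinite.symm fun i => (-v i).toNat

theorem pos_neg (v : σ → ℤ) (i : σ) : (posE v i : ℤ) - negE v i = v i := by
  change ((v i).toNat : ℤ) - ((-v i).toNat : ℤ) = v i
  omega

/-- the lattice of relations -/
def Lat {I : Ideal (A σ)} {P : σ → F} (h : Good I P) {c : σ → ℚ} (hc : ∀ i, c i ≠ 0) :
    AddSubgroup (σ → ℤ) where
  carrier := {v | Rel I c v}
  zero_mem' := by
    intro α β hv
    have : α = β := by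
      ext i
      have := hv i
      rw [Pi.zero_apply] at this
      omega
    rw [this, sub_self]; exact I.zero_mem
  add_mem' := by
    intro v w hv hw
    have h1 := hv _ _ (pos_neg v)
    have h2 := hw _ _ (pos_neg w)
    apply Rel.of h hc (α := posE v + posE w) (β := negE v + negE w)
    · intro i
      have h3 := pos_neg v i
      have h4 := pos_neg w i
      rw [Finsupp.add_apply, Finsupp.add_apply, Pi.add_apply]
      push_cast
      omega
    · rw [tw_add, tw_add]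
      have h3 : tw c (posE v) * tw c (posE w) - tw c (negE v) * tw c (negE w)
          = tw c (posE v) * (tw c (posE w) - tw c (negE w))
            + tw c (negE w) * (tw c (posE v) - tw c (negE v)) := by ring
      rw [h3]
      exact I.add_mem (I.mul_mem_left _ h2) (I.mul_mem_left _ h1)
  neg_mem' := by
    intro v hv α β hα
    have h1 := hv β α (by intro i; have := hα i; rw [Pi.neg_apply] at this; omega)
    rw [← neg_sub]; exact I.neg_mem h1

theorem mem_Lat {I : Ideal (A σ)} {P : σ → F} (h : Good I P) {c : σ → ℚ} (hc : ∀ i, c i ≠ 0)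
    {v : σ → ℤ} : v ∈ Lat h hc ↔ Rel I c v := Iff.rfl

/-- saturation -/
theorem Lat_sat {I : Ideal (A σ)} {P : σ → F} (h : Good I P) {c : σ → ℚ} (hc : ∀ i, c i ≠ 0)
    {v : σ → ℤ} {α β : σ →₀ ℕ} (hv : ∀ i, (α i : ℤ) - β i = v i)
    (hP : aeval P (tw c α) = aeval P (tw c β)) {k : ℤ} (hk : k ≠ 0) (hkv : k • v ∈ Lat h hc) :
    v ∈ Lat h hc := by
  obtain ⟨n, hn, hn0⟩ : ∃ n : ℕ, (n : ℤ) • v ∈ Lat h hc ∧ n ≠ 0 := by
    refine ⟨k.natAbs, ?_, by omega⟩
    rcases Int.natAbs_eq k with h1 | h1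
    · rw [← h1]; exact hkv
    · have h2 : (k.natAbs : ℤ) = -k := by omega
      rw [h2, neg_smul]; exact (Lat h hc).neg_mem hkv
  rw [mem_Lat] at hn ⊢
  apply Rel.of h hc hv
  have h1 := hn (n • α) (n • β) (by
    intro i
    have := hv i
    rw [Finsupp.smul_apply, Finsupp.smul_apply, Pi.smul_apply, ← this]
    simp only [smul_eq_mul]
    push_cast
    ring)
  rw [tw_nsmul, tw_nsmul] at h1
  exact root_lemma h.pr h.van hP (aeval_tw_ne h.ne hc α) hn0 h1

/-- clearing denominators in a span -/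
theorem exists_zsmul {ι : Type} [Fintype ι] (w : ι → σ → ℤ) {v : σ → ℤ}
    (h : castV v ∈ Submodule.span ℚ (Set.range fun j => castV (w j))) :
    ∃ k : ℤ, k ≠ 0 ∧ ∃ z : ι → ℤ, k • v = ∑ j, z j • w j := by
  rw [Submodule.mem_span_range_iff_exists_fun] at h
  obtain ⟨c, hc⟩ := h
  obtain ⟨⟨b, hb0⟩, hb⟩ := IsLocalization.exist_integer_multiples (nonZeroDivisors ℤ) Finset.univ c
  have hb' : ∀ j, ∃ z : ℤ, (z : ℚ) = b * c j := by
    intro j
    obtain ⟨z, hz⟩ := hb j (Finset.mem_univ _)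
    refine ⟨z, ?_⟩
    have : (algebraMap ℤ ℚ) z = (z : ℚ) := rfl
    rw [this] at hz
    rw [hz]
    simp
  choose z hz using hb'
  refine ⟨b, nonZeroDivisors.ne_zero hb0, z, ?_⟩
  funext i
  have h1 := congrFun hc i
  rw [Finset.sum_apply] at h1 ⊢
  simp only [Pi.smul_apply, smul_eq_mul] at h1 ⊢
  have h2 : ((b * v i : ℤ) : ℚ) = ((∑ j, z j * w j i : ℤ) : ℚ) := by
    push_cast
    have h3 : (castV v) i = (v i : ℚ) := rfl
    rw [← h3, ← h1, Finset.mul_sum]
    refine Finset.sum_congr rfl fun j _ => ?_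
    rw [hz]
    have h4 : (castV (w j)) i = (w j i : ℚ) := rfl
    rw [h4]; ring
  exact_mod_cast h2

/-- transfer: a polynomial killed by phiQ is in I -/
theorem transfer {N : Type} [AddCommGroup N] (θ : σ → N) (ε : σ → ℤˣ) {I : Ideal (A σ)} {G : A σ}
    (hI : ∀ α ∈ G.support, ∀ β ∈ G.support, cls θ α = cls θ β →
      (monomial α (((sgZ ε α : ℤˣ) : ℤ) : ℚ) - monomial β (((sgZ ε β : ℤˣ) : ℤ) : ℚ) : A σ) ∈ I)
    (hG : phiQ θ ε G = 0) : G ∈ I := by
  classical
  rw [← Ideal.Quotient.eq_zero_iff_mem]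
  set m : (σ →₀ ℕ) → A σ ⧸ I := fun α => Ideal.Quotient.mk I (monomial α (((sgZ ε α : ℤˣ) : ℤ) : ℚ)) with hm
  set w : (σ →₀ ℕ) → ℚ := fun α => coeff α G * (((sgZ ε α : ℤˣ) : ℤ) : ℚ) with hw
  have hsq : ∀ α, (((sgZ ε α : ℤˣ) : ℤ) : ℚ) * (((sgZ ε α : ℤˣ) : ℤ) : ℚ) = 1 := by
    intro α
    rcases Int.units_eq_one_or (sgZ ε α) with h | h <;> rw [h] <;> simp
  have h1 : Ideal.Quotient.mk I G = ∑ α ∈ G.support, w α • m α := by
    conv_lhs => rw [G.as_sum, map_sum]
    refine Finset.sum_congr rfl fun α _ => ?_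
    have h2 : (monomial α (coeff α G) : A σ) = w α • monomial α (((sgZ ε α : ℤˣ) : ℤ) : ℚ) := by
      rw [smul_monomial, smul_eq_mul, hw]
      simp only
      rw [mul_assoc, hsq, mul_one]
    rw [h2]
    rfl
  rw [h1, ← Finset.sum_fiberwise_of_maps_to (t := G.support.image (cls θ)) (g := cls θ)
    (fun α hα => Finset.mem_image_of_mem _ hα)]
  apply Finset.sum_eq_zero
  intro χ hχ
  obtain ⟨β, hβ, rfl⟩ := Finset.mem_image.mp hχ
  have h3 : ∀ α ∈ G.support.filter (fun α => cls θ α = cls θ β), w α • m α = w α • m β := by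
    intro α hα
    rw [Finset.mem_filter] at hα
    congr 1
    exact Ideal.Quotient.eq.mpr (hI α hα.1 β hβ hα.2)
  rw [Finset.sum_congr rfl h3, ← Finset.sum_smul]
  have h4 : ∑ α ∈ G.support.filter (fun α => cls θ α = cls θ β), w α = 0 := by
    have h5 : GA.cf (phiQ θ ε G) (cls θ β) = 0 := by rw [hG, GA.cf_zero]; rfl
    conv at h5 => rw [G.as_sum]
    rw [map_sum, ← GA.cfA_apply, map_sum] at h5
    simp only [phiQ_monomial, GA.cfA_apply, GA.cf_mon_apply] at h5
    rw [← Finset.sum_filter] at h5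
    have h6 : (((∑ α ∈ G.support.filter (fun α => cls θ α = cls θ β), w α : ℚ)) : ℂ) = 0 := by
      rw [← h5]
      push_cast
      refine Finset.sum_congr rfl fun α _ => ?_
      rw [hw, sgn_eq]
      push_cast
      rfl
    exact_mod_cast h6
  rw [h4, zero_smul]

end Tysz
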