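import Mathlib
open Finset

namespace Tysz

theorem log3_lt : 5 * Real.log 3 < 8 * Real.log 2 := by
  have h1 : Real.log ((3:ℝ) ^ 5) < Real.log ((2:ℝ) ^ 8) := by
    apply Real.log_lt_log (by norm_num) (by norm_num)
  rw [Real.log_pow, Real.log_pow] at h1
  exact_mod_cast h1

theorem log_succ_le {s : ℕ} (hs : 2 ≤ s) : Real.log ((s + 1 : ℕ) : ℝ) ≤ 2 * Real.log s := by
  have h1 : Real.log (((s + 1 : ℕ) : ℝ)) ≤ Real.log ((s : ℝ) ^ 2) := by
    apply Real.log_le_log (by positivity)
    have : (2:ℝ) ≤ s := by exact_mod_cast hs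
    push_cast
    nlinarith
  rw [Real.log_pow] at h1
  exact_mod_cast h1

theorem log_le_nat (s : ℕ) (hs : 1 ≤ s) : Real.log s ≤ s - 1 :=
  Real.log_le_sub_one_of_pos (by exact_mod_cast hs)

/-- case k = 0 -/
theorem num_zero (s : ℕ) (hs : 1 ≤ s) : Real.log (s : ℕ) / 2 < 2 ^ (s - 1) * Real.log 2 := by
  have h1 := log_le_nat s hs
  have h2 : ((s:ℕ):ℝ) ≤ 2 ^ (s - 1) := by
    have h3 : s - 1 < 2 ^ (s - 1) := Nat.lt_two_pow_self
    have h4 : s ≤ 2 ^ (s - 1) := by omega
    exact_mod_cast h4
  have h5 := Real.log_two_gt_d9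
  have h6 : (1:ℝ) ≤ s := by exact_mod_cast hs
  nlinarith

theorem base_a (k : ℕ) (hk : 2 ≤ k) : Real.log (k + 1 : ℕ) / 2 + k * Real.log 3 < 2 ^ k * Real.log 2 := by
  induction k, hk using Nat.le_induction with
  | base =>
    have := log3_lt
    norm_num
    linarith
  | succ k hk ih =>
    have h1 := log_succ_le (s := k + 1) (by omega)
    have h3 : (2:ℝ) ≤ k := by exact_mod_cast hk
    have h4 : 0 < Real.log 3 := Real.log_pos (by norm_num)
    rw [pow_succ]
    push_cast at *
    nlinarith

theorem base_a2 (k d : ℕ) (hk : 1 ≤ k) (hd : 1 ≤ d) (h : ¬ (k = 1 ∧ d = 1)) :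
    Real.log (k + d : ℕ) / 2 + k * Real.log 3 < 2 ^ (k + d - 1) * Real.log 2 := by
  have key : ∀ d, 1 ≤ d → 2 ≤ k + d → Real.log (k + d : ℕ) / 2 + k * Real.log 3 < 2 ^ (k + d - 1) * Real.log 2 →
      Real.log (k + (d + 1) : ℕ) / 2 + k * Real.log 3 < 2 ^ (k + (d + 1) - 1) * Real.log 2 := by
    intro d hd hkd ih
    have h1 := log_succ_le (s := k + d) hkd
    have h4 : 0 < Real.log 3 := Real.log_pos (by norm_num)
    have h5 : k + (d + 1) - 1 = (k + d - 1) + 1 := by omega
    have h6 : (1:ℝ) ≤ k := by exact_mod_cast hk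
    rw [h5, pow_succ]
    push_cast at *
    rw [← add_assoc]
    nlinarith
  by_cases hk1 : k = 1
  · subst hk1
    have hd2 : 2 ≤ d := by omega
    induction d, hd2 using Nat.le_induction with
    | base =>
      have := log3_lt
      have h4 : 0 < Real.log 3 := Real.log_pos (by norm_num)
      have h5 : 0 < Real.log 2 := Real.log_pos (by norm_num)
      norm_num
      linarith
    | succ d hd ih => exact key d (by omega) (by omega) (ih (by omega) (by omega))
  · induction d, hd using Nat.le_induction with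
    | base => simpa using base_a k (by omega)
    | succ d hd ih => exact key d hd (by omega) (ih (by omega))

theorem num_a (q k d : ℕ) (hd : 1 ≤ d) (h : ¬ (q = 0 ∧ k = 1 ∧ d = 1)) :
    Real.log (q + k + d : ℕ) / 2 + 2 ^ q * k * Real.log 3 < 2 ^ (q + k + d - 1) * Real.log 2 := by
  have h4 : 0 < Real.log 3 := Real.log_pos (by norm_num)
  by_cases hk : k = 0
  · subst hk
    have := num_zero (q + 0 + d) (by omega)
    simpa using this
  · have hk1 : 1 ≤ k := by omega
    have key : ∀ q, 2 ≤ q + k + d →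
        Real.log (q + k + d : ℕ) / 2 + 2 ^ q * k * Real.log 3 < 2 ^ (q + k + d - 1) * Real.log 2 →
        Real.log (q + 1 + k + d : ℕ) / 2 + 2 ^ (q + 1) * k * Real.log 3
          < 2 ^ (q + 1 + k + d - 1) * Real.log 2 := by
      intro q hq ih
      have h1 := log_succ_le (s := q + k + d) hq
      have h5 : q + 1 + k + d - 1 = (q + k + d - 1) + 1 := by omega
      have h6 : q + 1 + k + d = q + k + d + 1 := by ring
      rw [h5, h6, pow_succ, pow_succ]
      nlinarith
    by_cases h11 : k = 1 ∧ d = 1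
    · obtain ⟨rfl, rfl⟩ := h11
      have hq : 1 ≤ q := by omega
      induction q, hq using Nat.le_induction with
      | base =>
        have := log3_lt
        norm_num
        linarith
      | succ q hq ih => exact key q (by omega) (ih (by omega))
    · induction q with
      | zero => simpa using base_a2 k d hk1 hd h11
      | succ q ih => exact key q (by omega) (ih (by omega))

theorem num_a' : Real.log (2 : ℕ) / 2 + 2 ^ 0 * 1 * Real.log 3 < 2 ^ 2 * Real.log 2 := by
  have := log3_lt
  have h5 : 0 < Real.log 2 := Real.log_pos (by norm_num)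
  norm_num
  linarith

theorem base_b (m : ℕ) (hm : 2 ≤ m) :
    m * Real.log 3 / 2 + Real.log (m : ℕ) / 4 ≤ 2 ^ (m - 1) * Real.log 2 := by
  induction m, hm using Nat.le_induction with
  | base =>
    have := log3_lt
    have h5 : 0 < Real.log 2 := Real.log_pos (by norm_num)
    norm_num
    linarith
  | succ m hm ih =>
    have h1 := log_succ_le (s := m) hm
    have h4 : 0 < Real.log 3 := Real.log_pos (by norm_num)
    have h5 : m + 1 - 1 = (m - 1) + 1 := by omega
    have h6 : (2:ℝ) ≤ m := by exact_mod_cast hm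
    rw [h5, pow_succ]
    push_cast at *
    nlinarith

theorem num_b (q m : ℕ) (hm : 1 ≤ m) :
    (2:ℝ) ^ q * m * Real.log 3 / 2 + Real.log (q + m : ℕ) / 4 ≤ 2 ^ (q + m - 1) * Real.log 2 := by
  have h4 : 0 < Real.log 3 := Real.log_pos (by norm_num)
  have h50 : 0 < Real.log 2 := Real.log_pos (by norm_num)
  have h3 := log3_lt
  have key : ∀ q, 2 ≤ q + m →
      (2:ℝ) ^ q * m * Real.log 3 / 2 + Real.log (q + m : ℕ) / 4 ≤ 2 ^ (q + m - 1) * Real.log 2 →
      (2:ℝ) ^ (q + 1) * m * Real.log 3 / 2 + Real.log (q + 1 + m : ℕ) / 4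
        ≤ 2 ^ (q + 1 + m - 1) * Real.log 2 := by
    intro q hq ih
    have h1 := log_succ_le (s := q + m) hq
    have h5 : q + 1 + m - 1 = (q + m - 1) + 1 := by omega
    have h6 : q + 1 + m = q + m + 1 := by ring
    rw [h5, h6, pow_succ, pow_succ]
    nlinarith
  by_cases h1 : m = 1
  · subst h1
    rcases Nat.eq_zero_or_pos q with rfl | hq
    · norm_num; linarith
    · induction q, hq using Nat.le_induction with
      | base => norm_num; linarith
      | succ q hq ih => exact key q (by omega) ih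
  · induction q with
    | zero => simpa using base_b m (by omega)
    | succ q ih => exact key q (by omega) ih

theorem num_b0 (q : ℕ) (hq : 1 ≤ q) : Real.log (q : ℕ) / 4 ≤ 2 ^ (q - 1) * Real.log 2 := by
  have h1 := num_zero q hq
  have h2 : 0 ≤ Real.log (q : ℕ) := Real.log_nonneg (by exact_mod_cast hq)
  linarith

theorem base_c (m : ℕ) (hm : 3 ≤ m) :
    Real.log (Real.sqrt 3) + (m - 1) * Real.log 3 ≤ 2 ^ (m - 1) * Real.log 2 := by
  have h4 : 0 < Real.log 3 := Real.log_pos (by norm_num)
  have h3 := log3_lt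
  rw [Real.log_sqrt (by norm_num)]
  induction m, hm using Nat.le_induction with
  | base => norm_num; linarith
  | succ m hm ih =>
    have h5 : m + 1 - 1 = (m - 1) + 1 := by omega
    have h6 : (3:ℝ) ≤ m := by exact_mod_cast hm
    rw [h5, pow_succ]
    push_cast
    nlinarith

theorem num_c (q m : ℕ) (hm : 3 ≤ m) :
    (2:ℝ) ^ q * (Real.log (Real.sqrt 3) + (m - 1) * Real.log 3) ≤ 2 ^ (q + m - 1) * Real.log 2 := by
  have h1 := base_c m hm
  have h2 : q + m - 1 = q + (m - 1) := by omega
  rw [h2, pow_add, mul_assoc]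
  exact mul_le_mul_of_nonneg_left h1 (by positivity)

end Tysz
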