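import Pool.Agent.Tysz.Rational
open Finset MvPolynomial Module

/-!
The multiplicative character modulo a prime ideal of a rational point; additive equations of
type D (RatPt.onlyD).
-/

namespace Tysz

variable {σ : Type} [Fintype σ] [DecidableEq σ]

namespace RatPt
variable {i0 : σ} {q : ℕ} (p : RatPt σ i0 q)

/-- the multiplicative character of a prime ideal -/
theorem exists_chi {I : Ideal (A σ)} (hprime : I.IsPrime)
    (hI0 : ∀ D F, F.IsHomogeneous D → p.ph F = 0 → F ∈ I) (hIP : ∀ F ∈ I, p.Van F) :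
    ∃ (F : Type) (_ : Field F) (κ : A σ →+* F) (χ : (σ → ℤ) →+ Additive Fˣ),
      (∀ x, κ x = 0 ↔ x ∈ I) ∧
      (∀ s, ((Additive.toMul (χ (Pi.single s 1)) : Fˣ) : F) = κ (p.Y s)) ∧
      ∀ v ∈ p.R, χ v = 0 := by
  have := hprime
  let F := FractionRing (A σ ⧸ I)
  let κ : A σ →+* F := (algebraMap (A σ ⧸ I) F).comp (Ideal.Quotient.mk I)
  have hκ : ∀ x, κ x = 0 ↔ x ∈ I := by
    intro x
    change algebraMap (A σ ⧸ I) F (Ideal.Quotient.mk I x) = 0 ↔ _
    rw [map_eq_zero_iff _ (IsFractionRing.injective (A σ ⧸ I) F),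
      Ideal.Quotient.eq_zero_iff_mem]
  have hne : ∀ s, κ (p.Y s) ≠ 0 := by
    intro s hs
    have h1 := hIP _ ((hκ _).1 hs)
    rw [Van, eval_Y] at h1
    exact (p.absQ_pos s).ne' h1
  let u : σ → Fˣ := fun s => Units.mk0 _ (hne s)
  let χ : (σ → ℤ) →+ Additive Fˣ :=
    { toFun := fun v => Additive.ofMul (∏ s, u s ^ v s)
      map_zero' := by simp
      map_add' := fun v w => by
        rw [← ofMul_mul, ← Finset.prod_mul_distrib]
        congr 1
        refine Finset.prod_congr rfl fun s _ => ?_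
        rw [Pi.add_apply, zpow_add] }
  refine ⟨F, inferInstance, κ, χ, hκ, ?_, ?_⟩
  · intro s
    change (((∏ t, u t ^ ((Pi.single s (1 : ℤ) : σ → ℤ) t) : Fˣ)) : F) = _
    rw [Finset.prod_eq_single s]
    · rw [Pi.single_eq_same, zpow_one]
      rfl
    · intro b _ hb
      rw [Pi.single_eq_of_ne hb, zpow_zero]
    · intro h
      exact absurd (Finset.mem_univ s) h
  · intro v hv
    have h1 := (hκ _).2 (p.mY_sub_mem hI0 v hv)
    rw [map_sub, sub_eq_zero, mY, mY, map_prod, map_prod] at h1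
    have h2 : ∏ s, u s ^ (v s).toNat = ∏ s, u s ^ (-v s).toNat := by
      apply Units.ext
      push_cast
      simp only [map_pow] at h1
      exact h1
    change Additive.ofMul (∏ s, u s ^ v s) = 0
    have h3 : ∏ s, u s ^ v s = 1 := by
      have h4 : ∀ s, u s ^ v s = u s ^ (v s).toNat / u s ^ (-v s).toNat := by
        intro s
        rw [← zpow_natCast, ← zpow_natCast, div_eq_mul_inv, ← zpow_sub]
        congr 1
        omega
      rw [Finset.prod_congr rfl fun s _ => h4 s, Finset.prod_div_distrib, h2, div_self']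
    rw [h3]
    rfl

theorem root_chi {I : Ideal (A σ)} (hprime : I.IsPrime) (hIP : ∀ F ∈ I, p.Van F)
    {F : Type} [Field F] (κ : A σ →+* F) (χ : (σ → ℤ) →+ Additive Fˣ)
    (hκ : ∀ x, κ x = 0 ↔ x ∈ I)
    (hχ : ∀ s, ((Additive.toMul (χ (Pi.single s 1)) : Fˣ) : F) = κ (p.Y s))
    (x y : σ) (r : ℚ) (c : Fˣ) (hc : (c : F) = κ (C r)) (hr : |p.P x| = r * |p.P y|)
    (k : ℤ) (hk : k ≠ 0) (h : k • χ (dZ (x, y)) = k • Additive.ofMul c) :
    p.Y x - C r * p.Y y ∈ I := by
  have hx := p.absQ_pos x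
  have hy := p.absQ_pos y
  -- positive exponent
  obtain ⟨n, hn, h'⟩ : ∃ n : ℕ, n ≠ 0 ∧ n • χ (dZ (x, y)) = n • Additive.ofMul c := by
    refine ⟨k.natAbs, Int.natAbs_ne_zero.2 hk, ?_⟩
    rcases Int.natAbs_eq k with h1 | h1
    · rw [← natCast_zsmul, ← natCast_zsmul, ← h1, h]
    · have h2 : ((k.natAbs : ℕ) : ℤ) = -k := by omega
      rw [← natCast_zsmul, ← natCast_zsmul, h2, neg_smul, neg_smul, h]
  refine p.root_lemma hprime hIP _ _ ?_ ?_ n hn ?_
  · rw [map_mul, eval_Y, eval_Y, eval_C, hr]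
  · rw [map_mul, eval_Y, eval_C, ← hr]
    exact hx.ne'
  · rw [← hκ, map_sub, sub_eq_zero, map_pow, map_pow, map_mul, ← hc, ← hχ, ← hχ]
    have h3 : n • χ (Pi.single x 1) = n • (Additive.ofMul c + χ (Pi.single y 1)) := by
      rw [nsmul_add, ← h', ← nsmul_add, ← map_add]
      congr 2
      rw [dZ]
      abel
    have h4 : (Additive.toMul (χ (Pi.single x 1))) ^ n =
        (c * Additive.toMul (χ (Pi.single y 1))) ^ n := by
      have h5 := congrArg Additive.toMul h3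
      rw [toMul_nsmul, toMul_nsmul, toMul_add, toMul_ofMul] at h5
      exact h5
    have h6 := congrArg (fun z : Fˣ => (z : F)) h4
    push_cast at h6
    exact h6

theorem kappa_C_ne {I : Ideal (A σ)} (hIP : ∀ F ∈ I, p.Van F) {F : Type} [Field F]
    (κ : A σ →+* F) (hκ : ∀ x, κ x = 0 ↔ x ∈ I) (r : ℚ) (hr : r ≠ 0) : κ (C r) ≠ 0 := by
  rw [Ne, hκ]
  intro h
  have h1 := hIP _ h
  rw [Van, eval_C] at h1
  exact hr h1

theorem pm_ne {ε : ℚ} (h : ε = 1 ∨ ε = -1) : ε ≠ 0 := by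
  rcases h with rfl | rfl <;> norm_num

omit [Fintype σ] in
theorem kappa_eq_of {F : Type} [Field F] (χ : (σ → ℤ) →+ Additive Fˣ)
    (Yκ : σ → F) (hχ : ∀ s, ((Additive.toMul (χ (Pi.single s 1)) : Fˣ) : F) = Yκ s)
    (x y : σ) (h : χ (dZ (x, y)) = 0) : Yκ x = Yκ y := by
  rw [← hχ, ← hχ]
  rw [dZ, map_sub, sub_eq_zero] at h
  rw [h]

/-- SPEC R3 -/
theorem onlyD {m : ℕ} (hcard : q + m + 1 = Fintype.card σ) (I : ℕ → Ideal (A σ))
    (hprime : ∀ j ≤ m, (I j).IsPrime) (hmono : ∀ j < m, I j ≤ I (j+1))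
    (hI0 : ∀ D F, F.IsHomogeneous D → p.ph F = 0 → F ∈ I 0) (hIP : ∀ F ∈ I m, p.Van F)
    (a b c : ℕ → Option σ) (h1 : ∀ j < m, toA (lin (a j) (b j) (c j)) ∈ I (j+1))
    (h2 : ∀ j < m, toA (lin (a j) (b j) (c j)) ∉ I j)
    (hD : ∀ j < m, p.TypeD (a j) (b j) (c j)) (i : σ) :
    |(p.P i : ℝ)| ≤ 2 ^ ((m:ℝ) * (2:ℝ) ^ (q:ℝ)) := by
  have hle : ∀ d i, i + d ≤ m → I i ≤ I (i + d) := by
    intro d
    induction d with
    | zero => exact fun i _ => le_rfl
    | succ d ih =>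
      intro i hi
      exact (ih i (by omega)).trans (hmono (i + d) (by omega))
  have hle' : ∀ i j, i ≤ j → j ≤ m → I i ≤ I j := by
    intro i j hij hj
    have := hle (j - i) i (by omega)
    rwa [Nat.add_sub_cancel' hij] at this
  have hV : ∀ j < m, p.Van (toA (lin (a j) (b j) (c j))) := fun j hj =>
    hIP _ (hle' (j+1) m (by omega) le_rfl (h1 j hj))
  have hcase := fun j (hj : j < m) => p.typeD_cases _ _ _ (hV j hj) (hD j hj)
  choose L S T ε hε hLS hST hlin using hcase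
  refine p.bound_of_rows hcard (fun j : Fin m => (L j.1 j.2, S j.1 j.2)) ?_ ?_ i
  · intro β hβ
    by_contra hne
    obtain ⟨j, hj, hmax⟩ : ∃ j : Fin m, β j ≠ 0 ∧ ∀ i : Fin m, j < i → β i = 0 := by
      have hs : (Finset.univ.filter fun j : Fin m => β j ≠ 0).Nonempty := by
        obtain ⟨j, hj⟩ := Function.ne_iff.1 hne
        exact ⟨j, Finset.mem_filter.2 ⟨Finset.mem_univ j, hj⟩⟩
      refine ⟨(Finset.univ.filter fun j : Fin m => β j ≠ 0).max' hs, ?_, ?_⟩
      · exact (Finset.mem_filter.1 (Finset.max'_mem _ hs)).2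
      · intro i hi
        by_contra hcon
        exact absurd (Finset.le_max' _ i (Finset.mem_filter.2 ⟨Finset.mem_univ i, hcon⟩))
          (not_le.2 hi)
    have hprimej := hprime j.1 j.2.le
    have hI0j : ∀ D F, F.IsHomogeneous D → p.ph F = 0 → F ∈ I j.1 := fun D F hF hph =>
      hle' 0 j.1 (Nat.zero_le _) j.2.le (hI0 D F hF hph)
    have hIPj : ∀ F ∈ I j.1, p.Van F := fun F hF => hIP F (hle' j.1 m j.2.le le_rfl hF)
    obtain ⟨F, _, κ, χ, hκ, hχ, hχR⟩ := p.exists_chi hprimej hI0j hIPj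
    let c2 : Fˣ := Units.mk0 _ (p.kappa_C_ne hIPj κ hκ 2 (by norm_num))
    have hS : ∀ x y, dZ (x, y) ∈ p.R → κ (p.Y x) = κ (p.Y y) := fun x y hxy =>
      kappa_eq_of χ _ hχ x y (hχR _ hxy)
    have hC2 : κ (C 2) = 2 := by
      have h5 : (C (2:ℚ) : A σ) = 2 := map_ofNat C 2
      rw [h5, map_ofNat]
    have hi : ∀ i : Fin m, i < j →
        χ (dZ (L i.1 i.2, S i.1 i.2)) = Additive.ofMul c2 := by
      intro i hij
      have hmem : toA (lin (a i.1) (b i.1) (c i.1)) ∈ I j.1 :=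
        hle' (i.1+1) j.1 (by omega) j.2.le (h1 i.1 i.2)
      rw [hlin i.1 i.2, ← hκ, map_mul, mul_eq_zero] at hmem
      have h8 := hmem.resolve_left (p.kappa_C_ne hIPj κ hκ _ (pm_ne (hε i.1 i.2)))
      rw [map_sub, map_sub, ← hS _ _ (hST i.1 i.2)] at h8
      have h9 : κ (p.Y (L i.1 i.2)) = 2 * κ (p.Y (S i.1 i.2)) := by linear_combination h8
      rw [dZ, map_sub, sub_eq_iff_eq_add]
      apply Additive.toMul.injective
      apply Units.ext
      rw [toMul_add, toMul_ofMul]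
      push_cast
      rw [hχ, hχ, h9]
      change _ = κ (C 2) * _
      rw [hC2]
    have hsum : ∑ i, β i = 0 := by
      have h5 := p.LG_R _ hβ
      rw [map_sum] at h5
      have h6 : ∀ i : Fin m, p.LG (β i • dZ (L i.1 i.2, S i.1 i.2)) = β i := by
        intro i
        rw [map_zsmul, LG_dZ, p.lg_type_D (hLS i.1 i.2)]
        simp
      rw [Finset.sum_congr rfl fun i _ => h6 i] at h5
      exact_mod_cast h5
    have h0 := hχR _ hβ
    rw [map_sum] at h0
    have h6 : β j • χ (dZ (L j.1 j.2, S j.1 j.2)) = β j • Additive.ofMul c2 := by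
      have h7 : ∑ i : Fin m, β i • (χ (dZ (L i.1 i.2, S i.1 i.2)) - Additive.ofMul c2) = 0 := by
        have h8 : ∑ i : Fin m, β i • (χ (dZ (L i.1 i.2, S i.1 i.2)) - Additive.ofMul c2) =
            (∑ i : Fin m, χ (β i • dZ (L i.1 i.2, S i.1 i.2))) -
              (∑ i : Fin m, β i) • Additive.ofMul c2 := by
          have h9 : (∑ i : Fin m, β i) • Additive.ofMul c2 =
              ∑ i : Fin m, β i • Additive.ofMul c2 :=
            map_sum (zmultiplesHom (Additive Fˣ) (Additive.ofMul c2)) β Finset.univ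
          rw [h9, ← Finset.sum_sub_distrib]
          refine Finset.sum_congr rfl fun i _ => ?_
          rw [map_zsmul, zsmul_sub]
        rw [h8, h0, hsum, zero_smul, sub_zero]
      rw [Finset.sum_eq_single j] at h7
      · rwa [zsmul_sub, sub_eq_zero] at h7
      · intro i _ hij
        rcases lt_or_gt_of_ne hij with h | h
        · rw [hi i h, sub_self, smul_zero]
        · rw [hmax i h, zero_smul]
      · intro h
        exact absurd (Finset.mem_univ j) h
    have h3 := p.root_chi hprimej hIPj κ χ hκ hχ (L j.1 j.2) (S j.1 j.2) 2 c2 rfl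
      (hLS j.1 j.2) (β j) hj h6
    apply h2 j.1 j.2
    rw [hlin j.1 j.2, ← hκ, map_mul, map_sub, map_sub, ← hS _ _ (hST j.1 j.2)]
    rw [← hκ, map_sub, map_mul, hC2] at h3
    linear_combination κ (C (ε j.1 j.2)) * h3
  · intro j
    change |p.lg (L j.1 j.2) - p.lg (S j.1 j.2)| ≤ 1
    rw [p.lg_type_D (hLS j.1 j.2)]
    norm_num

end RatPt
end Tysz
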