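import Pool.Agent.Tysz.GA
open Finset MvPolynomial

namespace Tysz

variable {σ : Type} [Fintype σ] [DecidableEq σ] {N : Type} [AddCommGroup N]

/-- the monomial map with signs -/
noncomputable def phi (θ : σ → N) (ε : σ → ℤˣ) : MvPolynomial σ ℂ →ₐ[ℂ] GA N :=
  MvPolynomial.aeval (fun i => GA.mon (θ i) (((ε i : ℤˣ) : ℤ) : ℂ))

/-- class of an exponent vector -/
def cls (θ : σ → N) (α : σ →₀ ℕ) : N := ∑ i, α i • θ i

/-- sign of an exponent vector -/
noncomputable def sgn (ε : σ → ℤˣ) (α : σ →₀ ℕ) : ℂ := ∏ i, (((ε i : ℤˣ) : ℤ) : ℂ) ^ α i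

theorem norm_sgn (ε : σ → ℤˣ) (α : σ →₀ ℕ) : ‖sgn ε α‖ = 1 := by
  unfold sgn
  rw [norm_prod]
  apply Finset.prod_eq_one
  intro i _
  rw [norm_pow]
  rcases Int.units_eq_one_or (ε i) with h | h <;> simp [h]

theorem mon_mul_mon (a b : N) (c d : ℂ) : (GA.mon a c : GA N) * GA.mon b d = GA.mon (a + b) (c * d) :=
  AddMonoidAlgebra.single_mul_single ..

theorem mon_zero_one : (GA.mon (0 : N) 1 : GA N) = 1 := rfl

theorem mon_pow (a : N) (c : ℂ) (k : ℕ) : (GA.mon a c : GA N) ^ k = GA.mon (k • a) (c ^ k) := by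
  induction k with
  | zero => simp [mon_zero_one]
  | succ k ih => rw [pow_succ, ih, mon_mul_mon, succ_nsmul, pow_succ]

theorem prod_mon {ι : Type} (s : Finset ι) (a : ι → N) (c : ι → ℂ) :
    ∏ i ∈ s, (GA.mon (a i) (c i) : GA N) = GA.mon (∑ i ∈ s, a i) (∏ i ∈ s, c i) := by
  classical
  induction s using Finset.induction_on with
  | empty => simp [mon_zero_one]
  | insert i s hi ih => rw [prod_insert hi, ih, mon_mul_mon, sum_insert hi, prod_insert hi]

theorem smul_mon (a : N) (c d : ℂ) : d • (GA.mon a c : GA N) = GA.mon a (d * c) := by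
  apply GA.cf_inj
  rw [GA.cf_smul, GA.cf_mon, GA.cf_mon, Finsupp.smul_single, smul_eq_mul]

theorem phi_monomial (θ : σ → N) (ε : σ → ℤˣ) (α : σ →₀ ℕ) (c : ℂ) :
    phi θ ε (monomial α c) = GA.mon (cls θ α) (c * sgn ε α) := by
  unfold phi
  rw [MvPolynomial.aeval_monomial, Finsupp.prod_fintype _ _ (by intro i; simp)]
  simp only [mon_pow]
  rw [prod_mon, ← Algebra.smul_def, smul_mon]
  rfl

/-- l^1 norm -/
noncomputable def l1 (F : MvPolynomial σ ℂ) : ℝ := ∑ α ∈ F.support, ‖coeff α F‖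

theorem l1_nonneg (F : MvPolynomial σ ℂ) : 0 ≤ l1 F := Finset.sum_nonneg fun _ _ => norm_nonneg _

theorem norm_phi_mul_le (θ : σ → N) (ε : σ → ℤˣ) (F : MvPolynomial σ ℂ) (x : GA N) :
    ‖phi θ ε F * x‖ ≤ l1 F * ‖x‖ := by
  conv_lhs => rw [F.as_sum, map_sum, Finset.sum_mul]
  refine (norm_sum_le _ _).trans ?_
  unfold l1
  rw [Finset.sum_mul]
  refine Finset.sum_le_sum fun α _ => ?_
  rw [phi_monomial, GA.norm_mon_mul, norm_mul, norm_sgn, mul_one]

theorem norm_phi_le (θ : σ → N) (ε : σ → ℤˣ) (F : MvPolynomial σ ℂ) :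
    ‖phi θ ε F‖ ≤ l1 F := by
  conv_lhs => rw [F.as_sum, map_sum]
  refine (norm_sum_le _ _).trans ?_
  unfold l1
  refine Finset.sum_le_sum fun α _ => ?_
  rw [phi_monomial, GA.norm_mon, norm_mul, norm_sgn, mul_one]

/-- the polynomial ring -/
abbrev A (σ : Type) := MvPolynomial σ ℚ

/-- from rational to complex -/
noncomputable def toC : A σ →+* MvPolynomial σ ℂ := MvPolynomial.map (algebraMap ℚ ℂ)
/-- from integer to rational -/
noncomputable def toA : MvPolynomial σ ℤ →+* A σ := MvPolynomial.map (Int.castRingHom ℚ)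

/-- Phi on rational polynomials -/
noncomputable def phiQ (θ : σ → N) (ε : σ → ℤˣ) : A σ →+* GA N := (phi θ ε).toRingHom.comp toC

/-- Phi on integer polynomials -/
noncomputable def ev (θ : σ → N) (ε : σ → ℤˣ) : MvPolynomial σ ℤ →+* GA N := (phiQ θ ε).comp toA

theorem ev_apply (θ : σ → N) (ε : σ → ℤˣ) (F : MvPolynomial σ ℤ) : ev θ ε F = phiQ θ ε (toA F) := rfl

theorem toC_toA (F : MvPolynomial σ ℤ) : toC (toA F) = MvPolynomial.map (Int.castRingHom ℂ) F := by
  unfold toC toA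
  rw [MvPolynomial.map_map]
  congr 1

theorem phiQ_smul (θ : σ → N) (ε : σ → ℤˣ) (c : ℚ) (F : A σ) :
    phiQ θ ε (c • F) = (c : ℂ) • phiQ θ ε F := by
  unfold phiQ
  rw [MvPolynomial.smul_eq_C_mul, map_mul]
  have : ((phi θ ε).toRingHom.comp toC) (C c) = algebraMap ℂ (GA N) (c : ℂ) := by
    change phi θ ε (toC (C c)) = _
    unfold toC
    rw [MvPolynomial.map_C]
    exact (phi θ ε).commutes _
  rw [this, ← Algebra.smul_def]

end Tysz
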