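import Pool.Agent.Tysz.Defs2
open Finset MvPolynomial Module

/-!
Rational points: logarithms, rows and monomials (common part of piece R).
-/

namespace Tysz

variable {σ : Type} [Fintype σ] [DecidableEq σ]

/-- integral row x_a = x_b -/
def dZ (t : σ × σ) : σ → ℤ := Pi.single t.1 1 - Pi.single t.2 1

namespace RatPt
variable {i0 : σ} {q : ℕ} (p : RatPt σ i0 q)

/-- logarithms -/
noncomputable def lg (i : σ) : ℝ := Real.logb 2 |(p.P i : ℝ)|

theorem abs_pos (i : σ) : 0 < |(p.P i : ℝ)| := by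
  rw [_root_.abs_pos]
  exact_mod_cast p.Pne i

theorem two_rpow_lg (i : σ) : (2 : ℝ) ^ p.lg i = |(p.P i : ℝ)| :=
  Real.rpow_logb (by norm_num) (by norm_num) (p.abs_pos i)

theorem lg_i0 : p.lg i0 = 0 := by
  rw [lg, p.P0]
  norm_num

theorem lg_rho (j : Fin q) : p.lg (p.ρ j).1 + p.lg (p.ρ j).2.1 = p.lg (p.ρ j).2.2 := by
  rw [lg, lg, lg, ← p.hρ j, Rat.cast_mul, abs_mul,
    Real.logb_mul (p.abs_pos _).ne' (p.abs_pos _).ne']

/-- the logarithm as a functional on exponent vectors -/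
noncomputable def LG : (σ → ℤ) →+ ℝ where
  toFun v := ∑ i, (v i : ℝ) * p.lg i
  map_zero' := by simp
  map_add' v w := by
    rw [← Finset.sum_add_distrib]
    refine Finset.sum_congr rfl fun i _ => ?_
    rw [Pi.add_apply]
    push_cast
    ring

theorem LG_single (a : σ) : p.LG (Pi.single a 1) = p.lg a := by
  change ∑ i, ((Pi.single a (1 : ℤ) : σ → ℤ) i : ℝ) * p.lg i = _
  rw [Finset.sum_eq_single a]
  · simp
  · intro b _ hb
    rw [Pi.single_eq_of_ne hb]
    simp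
  · intro h
    exact absurd (Finset.mem_univ a) h

theorem LG_dZ (a b : σ) : p.LG (dZ (a, b)) = p.lg a - p.lg b := by
  rw [dZ, map_sub, LG_single, LG_single]

theorem latt_le (T : Type) [AddCommGroup T] (χ : (σ → ℤ) →+ T)
    (h : ∀ j, χ (vecZ i0 (p.ρ j)) = 0) : latt i0 (Set.range p.ρ) ≤ χ.ker := by
  rw [latt, AddSubgroup.closure_le]
  rintro _ ⟨_, ⟨j, rfl⟩, rfl⟩
  exact h j

/-- functionals with values in a torsion free group vanish on the saturated lattice -/
theorem eq_zero_of_mem_R {T : Type} [AddCommGroup T] [IsAddTorsionFree T] (χ : (σ → ℤ) →+ T)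
    (h : ∀ j, χ (vecZ i0 (p.ρ j)) = 0) (v : σ → ℤ) (hv : v ∈ p.R) : χ v = 0 := by
  obtain ⟨k, hk, hkv⟩ := hv
  have h1 := p.latt_le T χ h hkv
  rw [AddMonoidHom.mem_ker, map_zsmul] at h1
  exact (smul_eq_zero.1 h1).resolve_left hk

theorem LG_R (v : σ → ℤ) (hv : v ∈ p.R) : p.LG v = 0 := by
  refine p.eq_zero_of_mem_R p.LG (fun j => ?_) v hv
  rw [vecZ, map_sub, map_sub, map_add, LG_single, LG_single, LG_single, LG_single, lg_i0,
    ← p.lg_rho j]
  ring

theorem mem_R_of_zsmul (v : σ → ℤ) (k : ℤ) (hk : k ≠ 0) (h : k • v ∈ p.R) : v ∈ p.R := by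
  obtain ⟨l, hl, hlv⟩ := h
  refine ⟨l * k, mul_ne_zero hl hk, ?_⟩
  rwa [mul_smul]

theorem mem_R_of_latt (v : σ → ℤ) (h : v ∈ latt i0 (Set.range p.ρ)) : v ∈ p.R :=
  ⟨1, one_ne_zero, by rwa [one_smul]⟩

theorem vecZ_mem_latt (j : Fin q) : vecZ i0 (p.ρ j) ∈ latt i0 (Set.range p.ρ) :=
  AddSubgroup.subset_closure ⟨p.ρ j, ⟨j, rfl⟩, rfl⟩

omit [Fintype σ] in
theorem vecM_cast (t : σ × σ × σ) (i : σ) : vecM i0 t i = ((vecZ i0 t i : ℤ) : ℚ) := by
  simp only [vecM, vecZ, Pi.sub_apply, Pi.add_apply, Pi.single_apply]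
  push_cast
  rfl

omit [Fintype σ] in
theorem vecD_cast (t : σ × σ) (i : σ) : vecD t i = ((dZ t i : ℤ) : ℚ) := by
  simp only [vecD, dZ, Pi.sub_apply, Pi.single_apply]
  push_cast
  rfl

/-- linear independence of the rows from integral independence modulo the saturated lattice -/
theorem indep_of {m : ℕ} (δ : Fin m → σ × σ)
    (h : ∀ b : Fin m → ℤ, (∑ j, b j • dZ (δ j)) ∈ p.R → b = 0) :
    LinearIndependent ℚ (Sum.elim (fun j => vecM i0 (p.ρ j)) (fun j => vecD (δ j))) := by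
  rw [Fintype.linearIndependent_iff]
  intro g hg
  -- common denominator
  let N : ℤ := ∏ i, ((g i).den : ℤ)
  have hN : N ≠ 0 := Finset.prod_ne_zero_iff.2 fun i _ => by exact_mod_cast (g i).den_ne_zero
  have hG : ∀ i, ∃ z : ℤ, (z : ℚ) = N * g i := by
    intro i
    refine ⟨(∏ j ∈ Finset.univ.erase i, ((g j).den : ℤ)) * (g i).num, ?_⟩
    have h1 : N = ((g i).den : ℤ) * ∏ j ∈ Finset.univ.erase i, ((g j).den : ℤ) :=
      (Finset.mul_prod_erase _ _ (Finset.mem_univ i)).symm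
    rw [h1]
    push_cast
    have h2 : ((g i).den : ℚ) * g i = (g i).num := by
      rw [mul_comm]
      exact Rat.mul_den_eq_num (g i)
    calc (∏ j ∈ Finset.univ.erase i, ((g j).den : ℚ)) * ((g i).num : ℚ)
        = (∏ j ∈ Finset.univ.erase i, ((g j).den : ℚ)) * (((g i).den : ℚ) * g i) := by rw [h2]
      _ = _ := by ring
  choose G hG using hG
  rw [Fintype.sum_sum_type] at hg
  simp only [Sum.elim_inl, Sum.elim_inr] at hg
  have hz : (∑ j, G (Sum.inl j) • vecZ i0 (p.ρ j)) + ∑ j, G (Sum.inr j) • dZ (δ j) = 0 := by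
    funext i
    have h1 := congrFun hg i
    simp only [Pi.add_apply, Finset.sum_apply, Pi.smul_apply, smul_eq_mul, Pi.zero_apply] at h1 ⊢
    have h2 : (((∑ c, G (Sum.inl c) * vecZ i0 (p.ρ c) i) + ∑ c, G (Sum.inr c) * dZ (δ c) i : ℤ) : ℚ)
        = (N : ℚ) * 0 := by
      rw [← h1, mul_add, Finset.mul_sum, Finset.mul_sum]
      push_cast
      congr 1
      · refine Finset.sum_congr rfl fun c _ => ?_
        rw [hG, vecM_cast]
        ring
      · refine Finset.sum_congr rfl fun c _ => ?_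
        rw [hG, vecD_cast]
        ring
    rw [mul_zero] at h2
    exact_mod_cast h2
  have hmem : (∑ j, G (Sum.inr j) • dZ (δ j)) ∈ p.R := by
    have h1 : (∑ j, G (Sum.inr j) • dZ (δ j)) = -(∑ j, G (Sum.inl j) • vecZ i0 (p.ρ j)) :=
      eq_neg_of_add_eq_zero_right hz
    rw [h1]
    refine p.R.neg_mem (p.R.sum_mem fun j _ => p.R.zsmul_mem ?_ _)
    exact p.mem_R_of_latt _ (p.vecZ_mem_latt j)
  have hb := h (fun j => G (Sum.inr j)) hmem
  have hinr : ∀ j, g (Sum.inr j) = 0 := by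
    intro j
    have h1 : G (Sum.inr j) = 0 := congrFun hb j
    have h2 := hG (Sum.inr j)
    rw [h1, Int.cast_zero] at h2
    exact (mul_eq_zero.1 h2.symm).resolve_left (by exact_mod_cast hN)
  have hinl : ∀ j, g (Sum.inl j) = 0 := by
    have h1 : ∑ j, g (Sum.inl j) • vecM i0 (p.ρ j) = 0 := by
      simp only [hinr, zero_smul, Finset.sum_const_zero, add_zero] at hg
      exact hg
    exact Fintype.linearIndependent_iff.1 p.ind (fun j => g (Sum.inl j)) h1
  intro i
  rcases i with j | j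
  · exact hinl j
  · exact hinr j

theorem bound_of_rows {m : ℕ} (hcard : q + m + 1 = Fintype.card σ) (δ : Fin m → σ × σ)
    (h : ∀ b : Fin m → ℤ, (∑ j, b j • dZ (δ j)) ∈ p.R → b = 0)
    (hδ : ∀ j, |p.lg (δ j).1 - p.lg (δ j).2| ≤ 1) (i : σ) :
    |(p.P i : ℝ)| ≤ 2 ^ ((m : ℝ) * (2 : ℝ) ^ (q : ℝ)) := by
  have h1 := row_bound i0 p.ρ δ (p.indep_of δ h) hcard p.lg p.lg_i0 p.lg_rho hδ i
  rw [← p.two_rpow_lg i]
  refine Real.rpow_le_rpow_of_exponent_le (by norm_num) ?_
  rw [Real.rpow_natCast]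
  exact (le_abs_self _).trans h1

/-! ### normalised variables -/

/-- the variable with its sign -/
noncomputable def Y (s : σ) : A σ := C (((p.sg s : ℤˣ) : ℤ) : ℚ) * X s

theorem sg_sq (s : σ) : (((p.sg s : ℤˣ) : ℤ) : ℚ) * (((p.sg s : ℤˣ) : ℤ) : ℚ) = 1 := by
  rcases Int.units_eq_one_or (p.sg s) with h | h <;> rw [h] <;> norm_num

theorem sg_mul_P (s : σ) : (((p.sg s : ℤˣ) : ℤ) : ℚ) * p.P s = |p.P s| := by
  rw [sg]
  split_ifs with h
  · rw [abs_of_pos h]
    simp
  · rw [abs_of_nonpos (not_lt.1 h)]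
    simp

theorem eval_Y (s : σ) : MvPolynomial.eval p.P (p.Y s) = |p.P s| := by
  rw [Y, map_mul, eval_C, eval_X, sg_mul_P]

theorem X_eq (s : σ) : (X s : A σ) = C (((p.sg s : ℤˣ) : ℤ) : ℚ) * p.Y s := by
  rw [Y, ← mul_assoc, ← C_mul, sg_sq, C_1, one_mul]

theorem ph_Y (s : σ) : p.ph (p.Y s) = GA.mon (thR p.R s) 1 := by
  have h1 : p.ph (p.Y s) = (((p.sg s : ℤˣ) : ℤ) : ℂ) • GA.mon (thR p.R s)
      (((p.sg s : ℤˣ) : ℤ) : ℂ) := by
    rw [Y, ← smul_eq_C_mul, ph, phiQ_smul]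
    congr 1
    unfold phiQ
    change phi (thR p.R) p.sg (toC (X s)) = _
    unfold toC phi
    rw [map_X, aeval_X]
  rw [h1, smul_mon]
  congr 1
  rcases Int.units_eq_one_or (p.sg s) with h | h <;> rw [h] <;> norm_num

theorem Y_homog (s : σ) : (p.Y s).IsHomogeneous 1 := by
  have := (isHomogeneous_C σ (((p.sg s : ℤˣ) : ℤ) : ℚ)).mul (isHomogeneous_X ℚ s)
  rwa [zero_add] at this

/-- monomials in the normalised variables -/
noncomputable def mY (α : σ → ℕ) : A σ := ∏ s, p.Y s ^ α s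

theorem mY_homog (α : σ → ℕ) : (p.mY α).IsHomogeneous (∑ s, α s) := by
  refine IsHomogeneous.prod _ _ _ fun s _ => ?_
  have := (p.Y_homog s).pow (α s)
  rwa [one_mul] at this

theorem ph_mY (α : σ → ℕ) : p.ph (p.mY α) = GA.mon (∑ s, α s • thR p.R s) 1 := by
  rw [mY, map_prod]
  have h1 : ∀ s, p.ph (p.Y s ^ α s) = GA.mon (α s • thR p.R s) 1 := by
    intro s
    rw [map_pow, ph_Y, mon_pow, one_pow]
  rw [Finset.prod_congr rfl fun s _ => h1 s, prod_mon, Finset.prod_const_one]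

theorem sum_of_mem_R (v : σ → ℤ) (hv : v ∈ p.R) : ∑ s, v s = 0 := by
  let χ : (σ → ℤ) →+ ℤ :=
    { toFun := fun v => ∑ s, v s
      map_zero' := by simp
      map_add' := fun v w => by
        simp only [Pi.add_apply]
        exact Finset.sum_add_distrib }
  refine p.eq_zero_of_mem_R χ (fun j => ?_) v hv
  have h1 : ∀ a : σ, χ (Pi.single a 1) = 1 := by
    intro a
    change ∑ s, (Pi.single a (1 : ℤ) : σ → ℤ) s = 1
    rw [Finset.sum_pi_single']
    simp
  rw [vecZ, map_sub, map_sub, map_add, h1, h1, h1, h1]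
  norm_num

/-- toric relations -/
theorem mY_sub_mem {I : Ideal (A σ)} (hI0 : ∀ D F, F.IsHomogeneous D → p.ph F = 0 → F ∈ I)
    (v : σ → ℤ) (hv : v ∈ p.R) :
    p.mY (fun s => (v s).toNat) - p.mY (fun s => (-v s).toNat) ∈ I := by
  have hsum : ∑ s, (v s).toNat = ∑ s, (-v s).toNat := by
    have h1 := p.sum_of_mem_R v hv
    have h2 : ∀ s, v s = ((v s).toNat : ℤ) - ((-v s).toNat : ℤ) := fun s => by omega
    have h3 : ((∑ s, (v s).toNat : ℕ) : ℤ) - ((∑ s, (-v s).toNat : ℕ) : ℤ) = 0 := by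
      push_cast
      rw [← Finset.sum_sub_distrib, ← h1]
      exact Finset.sum_congr rfl fun s _ => (h2 s).symm
    omega
  refine hI0 (∑ s, (v s).toNat) _ ?_ ?_
  · refine (p.mY_homog _).sub ?_
    rw [hsum]
    exact p.mY_homog _
  · rw [map_sub, ph_mY, ph_mY, sub_eq_zero]
    congr 1
    have h4 : ∑ s, (v s) • thR p.R s = 0 := by
      have h5 : ∑ s, (v s) • thR p.R s =
          (QuotientAddGroup.mk' p.R) (∑ s, v s • (Pi.single s (1 : ℤ) : σ → ℤ)) := by
        rw [map_sum]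
        refine Finset.sum_congr rfl fun s _ => ?_
        rw [map_zsmul]
        rfl
      have h6 : ∑ s, v s • (Pi.single s (1 : ℤ) : σ → ℤ) = v := by
        funext i
        rw [Finset.sum_apply, Finset.sum_eq_single i]
        · simp
        · intro b _ hb
          rw [Pi.smul_apply, Pi.single_eq_of_ne hb.symm, smul_zero]
        · intro h
          exact absurd (Finset.mem_univ i) h
      rw [h5, h6]
      exact (QuotientAddGroup.eq_zero_iff v).2 hv
    rw [← sub_eq_zero, ← Finset.sum_sub_distrib, ← h4]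
    refine Finset.sum_congr rfl fun s _ => ?_
    have h7 : v s = ((v s).toNat : ℤ) - ((-v s).toNat : ℤ) := by omega
    conv_rhs => rw [h7]
    rw [sub_smul, natCast_zsmul, natCast_zsmul]

/-- a root of unity which is one at the point is one -/
theorem root_lemma {I : Ideal (A σ)} (hprime : I.IsPrime) (hIP : ∀ F ∈ I, p.Van F) (U W : A σ)
    (h1 : MvPolynomial.eval p.P U = MvPolynomial.eval p.P W) (h2 : MvPolynomial.eval p.P W ≠ 0)
    (k : ℕ) (hk : k ≠ 0) (h : U ^ k - W ^ k ∈ I) : U - W ∈ I := by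
  have h3 := (Commute.all U W).geom_sum₂_mul k
  rw [← h3] at h
  rcases hprime.mem_or_mem h with h4 | h4
  · exfalso
    have h5 := hIP _ h4
    rw [Van, map_sum] at h5
    have h6 : ∀ i ∈ Finset.range k, MvPolynomial.eval p.P (U ^ i * W ^ (k - 1 - i)) =
        (MvPolynomial.eval p.P W) ^ (k - 1) := by
      intro i hi
      rw [map_mul, map_pow, map_pow, h1, ← pow_add]
      congr 1
      have := Finset.mem_range.1 hi
      omega
    rw [Finset.sum_congr rfl h6, Finset.sum_const, Finset.card_range, nsmul_eq_mul] at h5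
    have h7 : (k : ℚ) ≠ 0 := by exact_mod_cast hk
    exact mul_ne_zero h7 (pow_ne_zero _ h2) h5
  · exact h4

end RatPt
end Tysz
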