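import Pool.Agent.Tysz.RatBase
open Finset MvPolynomial Module

/-!
Rational points with one additive equation, and with additive equations of type D only
(RatPt.one, RatPt.onlyD).
-/

namespace Tysz

variable {σ : Type} [Fintype σ] [DecidableEq σ]

namespace RatPt
variable {i0 : σ} {q : ℕ} (p : RatPt σ i0 q)

theorem absQ_pos (i : σ) : 0 < |p.P i| := _root_.abs_pos.2 (p.Pne i)

theorem two_terms (e1 e2 : ℚ) (h1 : e1 = 1 ∨ e1 = -1) (h2 : e2 = 1 ∨ e2 = -1) (x y : σ)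
    (h : e1 * |p.P x| + e2 * |p.P y| = 0) :
    |p.P x| = |p.P y| ∧ C e1 * p.Y x + C e2 * p.Y y = C e1 * (p.Y x - p.Y y) := by
  have hx := p.absQ_pos x
  have hy := p.absQ_pos y
  rcases h1 with rfl | rfl <;> rcases h2 with rfl | rfl
  · linarith
  · refine ⟨by linarith, ?_⟩
    rw [C_neg, C_1]
    ring
  · refine ⟨by linarith, ?_⟩
    rw [C_neg, C_1]
    ring
  · linarith

theorem three_terms (e1 e2 e3 : ℚ) (h1 : e1 = 1 ∨ e1 = -1) (h2 : e2 = 1 ∨ e2 = -1)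
    (h3 : e3 = 1 ∨ e3 = -1) (x y z : σ)
    (h : e1 * |p.P x| + e2 * |p.P y| + e3 * |p.P z| = 0) :
    ∃ (L S T : σ) (ε : ℚ), (ε = 1 ∨ ε = -1) ∧ |p.P L| = |p.P S| + |p.P T| ∧ |p.P T| ≤ |p.P S| ∧
      C e1 * p.Y x + C e2 * p.Y y + C e3 * p.Y z = C ε * (p.Y L - p.Y S - p.Y T) := by
  have hx := p.absQ_pos x
  have hy := p.absQ_pos y
  have hz := p.absQ_pos z
  -- sorting
  have key : ∀ (L S T : σ) (ε : ℚ), (ε = 1 ∨ ε = -1) → |p.P L| = |p.P S| + |p.P T| →
      C e1 * p.Y x + C e2 * p.Y y + C e3 * p.Y z = C ε * (p.Y L - p.Y S - p.Y T) →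
      ∃ (L S T : σ) (ε : ℚ), (ε = 1 ∨ ε = -1) ∧ |p.P L| = |p.P S| + |p.P T| ∧
        |p.P T| ≤ |p.P S| ∧
      C e1 * p.Y x + C e2 * p.Y y + C e3 * p.Y z = C ε * (p.Y L - p.Y S - p.Y T) := by
    intro L S T ε hε h4 h5
    rcases le_total |p.P T| |p.P S| with h6 | h6
    · exact ⟨L, S, T, ε, hε, h4, h6, h5⟩
    · refine ⟨L, T, S, ε, hε, by rw [h4]; ring, h6, ?_⟩
      rw [h5]
      ring
  rcases h1 with rfl | rfl <;> rcases h2 with rfl | rfl <;> rcases h3 with rfl | rfl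
  · linarith
  · exact key z x y (-1) (Or.inr rfl) (by linarith) (by rw [C_neg, C_1]; ring)
  · exact key y x z (-1) (Or.inr rfl) (by linarith) (by rw [C_neg, C_1]; ring)
  · exact key x y z 1 (Or.inl rfl) (by linarith) (by rw [C_neg, C_1]; ring)
  · exact key x y z (-1) (Or.inr rfl) (by linarith) (by rw [C_neg, C_1]; ring)
  · exact key y x z 1 (Or.inl rfl) (by linarith) (by rw [C_neg, C_1]; ring)
  · exact key z x y 1 (Or.inl rfl) (by linarith) (by rw [C_neg, C_1]; ring)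
  · linarith

theorem sgQ (s : σ) : (((p.sg s : ℤˣ) : ℤ) : ℚ) = 1 ∨ (((p.sg s : ℤˣ) : ℤ) : ℚ) = -1 := by
  rcases Int.units_eq_one_or (p.sg s) with h | h
  · left
    rw [h]
    norm_num
  · right
    rw [h]
    norm_num

theorem neg_sgQ (s : σ) : -(((p.sg s : ℤˣ) : ℤ) : ℚ) = 1 ∨ -(((p.sg s : ℤˣ) : ℤ) : ℚ) = -1 := by
  rcases p.sgQ s with h | h
  · right
    rw [h]
  · left
    rw [h]
    norm_num

theorem toA_oX_none : toA (oX (none : Option σ)) = 0 := by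
  rw [oX, map_zero]

theorem toA_oX_some (s : σ) : toA (oX (some s)) = C (((p.sg s : ℤˣ) : ℤ) : ℚ) * p.Y s := by
  rw [← p.X_eq]
  unfold toA oX
  rw [map_X]

theorem toA_lin (a b c : Option σ) :
    toA (lin a b c) = toA (oX a) + toA (oX b) - toA (oX c) := by
  rw [lin, map_sub, map_add]

/-- the shape of an additive equation at the point -/
theorem lin_cases (a b c : Option σ) (hV : p.Van (toA (lin a b c)))
    (hph : p.ph (toA (lin a b c)) ≠ 0) :
    (∃ (x y : σ) (ε : ℚ), (ε = 1 ∨ ε = -1) ∧ |p.P x| = |p.P y| ∧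
      toA (lin a b c) = C ε * (p.Y x - p.Y y)) ∨
    (∃ (L S T : σ) (ε : ℚ), (ε = 1 ∨ ε = -1) ∧ |p.P L| = |p.P S| + |p.P T| ∧
      |p.P T| ≤ |p.P S| ∧
      toA (lin a b c) = C ε * (p.Y L - p.Y S - p.Y T)) := by
  have hne : ∀ e : ℚ, e = 1 ∨ e = -1 → e ≠ 0 := by
    rintro e (rfl | rfl) <;> norm_num
  have two : ∀ (e1 e2 : ℚ), (e1 = 1 ∨ e1 = -1) → (e2 = 1 ∨ e2 = -1) → ∀ x y : σ,
      toA (lin a b c) = C e1 * p.Y x + C e2 * p.Y y →
      (∃ (x y : σ) (ε : ℚ), (ε = 1 ∨ ε = -1) ∧ |p.P x| = |p.P y| ∧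
      toA (lin a b c) = C ε * (p.Y x - p.Y y)) := by
    intro e1 e2 h1 h2 x y h
    rw [Van, h, map_add, map_mul, map_mul, eval_C, eval_C, eval_Y, eval_Y] at hV
    obtain ⟨h3, h4⟩ := p.two_terms e1 e2 h1 h2 x y hV
    exact ⟨x, y, e1, h1, h3, h.trans h4⟩
  have one : ∀ (e1 : ℚ), (e1 = 1 ∨ e1 = -1) → ∀ x : σ,
      toA (lin a b c) = C e1 * p.Y x → False := by
    intro e1 h1 x h
    rw [Van, h, map_mul, eval_C, eval_Y] at hV
    exact mul_ne_zero (hne e1 h1) (p.absQ_pos x).ne' hV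
  rcases a with _ | a <;> rcases b with _ | b <;> rcases c with _ | c
  · exfalso
    apply hph
    rw [toA_lin, toA_oX_none]
    simp
  · exfalso
    refine one (-_) (p.neg_sgQ c) c ?_
    rw [toA_lin, toA_oX_none, p.toA_oX_some, C_neg]
    ring
  · exfalso
    refine one _ (p.sgQ b) b ?_
    rw [toA_lin, toA_oX_none, p.toA_oX_some]
    ring
  · left
    refine two _ (-_) (p.sgQ b) (p.neg_sgQ c) b c ?_
    rw [toA_lin, toA_oX_none, p.toA_oX_some, p.toA_oX_some, C_neg]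
    ring
  · exfalso
    refine one _ (p.sgQ a) a ?_
    rw [toA_lin, toA_oX_none, p.toA_oX_some]
    ring
  · left
    refine two _ (-_) (p.sgQ a) (p.neg_sgQ c) a c ?_
    rw [toA_lin, toA_oX_none, p.toA_oX_some, p.toA_oX_some, C_neg]
    ring
  · left
    refine two _ _ (p.sgQ a) (p.sgQ b) a b ?_
    rw [toA_lin, toA_oX_none, p.toA_oX_some, p.toA_oX_some]
    ring
  · right
    have h : toA (lin (some a) (some b) (some c)) = C (((p.sg a : ℤˣ) : ℤ) : ℚ) * p.Y a +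
        C (((p.sg b : ℤˣ) : ℤ) : ℚ) * p.Y b + C (-(((p.sg c : ℤˣ) : ℤ) : ℚ)) * p.Y c := by
      rw [toA_lin, p.toA_oX_some, p.toA_oX_some, p.toA_oX_some, C_neg]
      ring
    have hV' := hV
    rw [Van, h, map_add, map_add, map_mul, map_mul, map_mul, eval_C, eval_C, eval_C, eval_Y,
      eval_Y, eval_Y] at hV'
    obtain ⟨L, S, T, ε, h1, h2, h3, h4⟩ := p.three_terms _ _ _ (p.sgQ a) (p.sgQ b) (p.neg_sgQ c)
      a b c hV'
    exact ⟨L, S, T, ε, h1, h2, h3, h.trans h4⟩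

theorem lg_eq_of_abs {x y : σ} (h : |p.P x| = |p.P y|) : p.lg x = p.lg y := by
  have h1 : |(p.P x : ℝ)| = |(p.P y : ℝ)| := by exact_mod_cast h
  rw [lg, lg, h1]

theorem abs_eq_of_lg {x y : σ} (h : p.lg x = p.lg y) : |p.P x| = |p.P y| := by
  have h1 := p.two_rpow_lg x
  rw [h, p.two_rpow_lg y] at h1
  have h2 : |(p.P x : ℝ)| = |(p.P y : ℝ)| := h1.symm
  exact_mod_cast h2

theorem abs_eq_of_mem {x y : σ} (h : dZ (x, y) ∈ p.R) : |p.P x| = |p.P y| := by
  apply p.abs_eq_of_lg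
  have h1 := p.LG_R _ h
  rw [LG_dZ] at h1
  linarith

theorem th_eq_iff {x y : σ} : dZ (x, y) ∈ p.R ↔ thR p.R x = thR p.R y := by
  have h1 : (QuotientAddGroup.mk (dZ (x, y)) : (σ → ℤ) ⧸ p.R) = thR p.R x - thR p.R y := rfl
  rw [← QuotientAddGroup.eq_zero_iff, h1, sub_eq_zero]

/-- type C: logarithms of the two largest terms -/
theorem lg_type_C {L S T : σ} (h : |p.P L| = |p.P S| + |p.P T|) (hTS : |p.P T| ≤ |p.P S|) :
    0 < p.lg L - p.lg S ∧ p.lg L - p.lg S ≤ 1 := by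
  have hS := p.abs_pos S
  have hT := p.abs_pos T
  have h1 : |(p.P L : ℝ)| = |(p.P S : ℝ)| + |(p.P T : ℝ)| := by exact_mod_cast h
  have h2 : |(p.P T : ℝ)| ≤ |(p.P S : ℝ)| := by exact_mod_cast hTS
  have h3 : p.lg S < p.lg L := Real.logb_lt_logb (by norm_num) hS (by linarith)
  have h4 : p.lg L ≤ p.lg S + 1 := by
    have h5 : p.lg S + 1 = Real.logb 2 (|(p.P S : ℝ)| * 2) := by
      rw [Real.logb_mul hS.ne' (by norm_num), Real.logb_self_eq_one (by norm_num), lg]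
    rw [h5, lg]
    exact Real.logb_le_logb_of_le (by norm_num) (p.abs_pos L) (by linarith)
  exact ⟨by linarith, by linarith⟩

/-- type C with equal small terms -/
theorem lg_type_D {L S : σ} (h : |p.P L| = 2 * |p.P S|) : p.lg L - p.lg S = 1 := by
  have hS := p.abs_pos S
  have h1 : |(p.P L : ℝ)| = |(p.P S : ℝ)| * 2 := by
    have : |(p.P L : ℝ)| = 2 * |(p.P S : ℝ)| := by exact_mod_cast h
    rw [this]
    ring
  rw [lg, h1, Real.logb_mul hS.ne' (by norm_num), Real.logb_self_eq_one (by norm_num), lg]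
  ring

/-- a usable row for every additive equation -/
theorem exists_row (a b c : Option σ) (hV : p.Van (toA (lin a b c)))
    (hph : p.ph (toA (lin a b c)) ≠ 0) :
    ∃ δ : σ × σ, dZ δ ∉ p.R ∧ |p.lg δ.1 - p.lg δ.2| ≤ 1 := by
  rcases p.lin_cases a b c hV hph with ⟨x, y, ε, hε, hxy, h⟩ | ⟨L, S, T, ε, hε, h1, h2, h⟩
  · refine ⟨(x, y), fun hmem => ?_, ?_⟩
    · apply hph
      rw [h, map_mul, map_sub, ph_Y, ph_Y, (p.th_eq_iff).1 hmem, sub_self, mul_zero]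
    · change |p.lg x - p.lg y| ≤ 1
      rw [p.lg_eq_of_abs hxy, sub_self, abs_zero]
      norm_num
  · obtain ⟨h3, h4⟩ := p.lg_type_C h1 h2
    refine ⟨(L, S), fun hmem => ?_, ?_⟩
    · have h5 := p.LG_R _ hmem
      rw [LG_dZ] at h5
      linarith
    · change |p.lg L - p.lg S| ≤ 1
      rw [abs_of_pos h3]
      exact h4

/-- SPEC R1 -/
theorem one (hcard : q + 1 + 1 = Fintype.card σ) (a b c : Option σ) (h1 : p.Van (toA (lin a b c)))
    (h2 : p.ph (toA (lin a b c)) ≠ 0) (i : σ) : |(p.P i : ℝ)| ≤ 2 ^ ((2:ℝ) ^ (q:ℝ)) := by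
  obtain ⟨δ, hδ, hlg⟩ := p.exists_row a b c h1 h2
  have h3 := p.bound_of_rows hcard (fun _ : Fin 1 => δ) (by
    intro b hb
    rw [Fin.sum_univ_one] at hb
    funext j
    fin_cases j
    by_contra hne
    exact hδ (p.mem_R_of_zsmul _ (b 0) hne hb)) (fun _ => hlg) i
  rwa [Nat.cast_one, one_mul] at h3

theorem cf_sub {N : Type} [AddCommGroup N] (x y : GA N) : GA.cf (x - y) = GA.cf x - GA.cf y := by
  have h : x - y = x + (-1 : ℂ) • y := by rw [neg_one_smul, sub_eq_add_neg]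
  rw [h, GA.cf_add, GA.cf_smul, neg_one_smul, sub_eq_add_neg]

theorem norm2 {N : Type} [AddCommGroup N] (a b : N) :
    ‖(GA.mon a 1 - GA.mon b 1 : GA N)‖ ≤ Real.sqrt 3 := by
  classical
  apply Real.le_sqrt_of_sq_le
  by_cases hab : a = b
  · rw [hab, sub_self, norm_zero]
    norm_num
  rw [GA.norm_sq_eq (GA.mon a 1 - GA.mon b 1 : GA N) (s := {a, b}) ?_]
  · rw [Finset.sum_pair hab]
    rw [cf_sub, GA.cf_mon, GA.cf_mon]
    simp only [Finsupp.sub_apply, Finsupp.single_apply]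
    simp only [if_neg (Ne.symm hab), if_neg hab, if_true]
    norm_num
  · rw [cf_sub, GA.cf_mon, GA.cf_mon]
    intro n hn
    rw [Finsupp.mem_support_iff, Finsupp.sub_apply, Finsupp.single_apply,
      Finsupp.single_apply] at hn
    rw [Finset.mem_insert, Finset.mem_singleton]
    by_contra hcon
    push Not at hcon
    rw [if_neg (Ne.symm hcon.1), if_neg (Ne.symm hcon.2), sub_zero] at hn
    exact hn rfl

theorem norm3 {N : Type} [AddCommGroup N] (a b c : N) (hab : a ≠ b) (hac : a ≠ c) (hbc : b ≠ c) :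
    ‖(GA.mon a 1 - GA.mon b 1 - GA.mon c 1 : GA N)‖ ≤ Real.sqrt 3 := by
  classical
  apply Real.le_sqrt_of_sq_le
  rw [GA.norm_sq_eq (GA.mon a 1 - GA.mon b 1 - GA.mon c 1 : GA N) (s := {a, b, c}) ?_]
  · rw [Finset.sum_insert (by simp [hab, hac]), Finset.sum_pair hbc]
    rw [cf_sub, cf_sub, GA.cf_mon, GA.cf_mon, GA.cf_mon]
    simp only [Finsupp.sub_apply, Finsupp.single_apply]
    simp only [if_neg hab, if_neg hac, if_neg hbc, if_neg hab.symm, if_neg hac.symm,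
      if_neg hbc.symm, if_true]
    norm_num
  · rw [cf_sub, cf_sub, GA.cf_mon, GA.cf_mon, GA.cf_mon]
    intro n hn
    rw [Finsupp.mem_support_iff, Finsupp.sub_apply, Finsupp.sub_apply, Finsupp.single_apply,
      Finsupp.single_apply, Finsupp.single_apply] at hn
    rw [Finset.mem_insert, Finset.mem_insert, Finset.mem_singleton]
    by_contra hcon
    push Not at hcon
    rw [if_neg (Ne.symm hcon.1), if_neg (Ne.symm hcon.2.1), if_neg (Ne.symm hcon.2.2), sub_zero,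
      sub_zero] at hn
    exact hn rfl

theorem norm_ph_mul (ε : ℚ) (hε : ε = 1 ∨ ε = -1) (F : A σ) :
    ‖p.ph (C ε * F)‖ = ‖p.ph F‖ := by
  rcases hε with rfl | rfl
  · rw [C_1, one_mul]
  · rw [C_neg, C_1, neg_one_mul, map_neg, norm_neg]

/-- equations of type D -/
theorem typeD_cases (a b c : Option σ) (hV : p.Van (toA (lin a b c))) (hD : p.TypeD a b c) :
    ∃ (L S T : σ) (ε : ℚ), (ε = 1 ∨ ε = -1) ∧ |p.P L| = 2 * |p.P S| ∧ dZ (S, T) ∈ p.R ∧
      toA (lin a b c) = C ε * (p.Y L - p.Y S - p.Y T) := by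
  have hph : p.ph (toA (lin a b c)) ≠ 0 := by
    intro h
    apply hD
    rw [h, norm_zero]
    positivity
  rcases p.lin_cases a b c hV hph with ⟨x, y, ε, hε, hxy, h⟩ | ⟨L, S, T, ε, hε, h1, h2, h⟩
  · exfalso
    apply hD
    rw [h, p.norm_ph_mul ε hε, map_sub, ph_Y, ph_Y]
    exact norm2 _ _
  · have hS := p.absQ_pos S
    have hT := p.absQ_pos T
    by_cases hST : dZ (S, T) ∈ p.R
    · refine ⟨L, S, T, ε, hε, ?_, hST, h⟩
      rw [h1, ← p.abs_eq_of_mem hST]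
      ring
    · exfalso
      apply hD
      rw [h, p.norm_ph_mul ε hε, map_sub, map_sub, ph_Y, ph_Y, ph_Y]
      refine norm3 _ _ _ ?_ ?_ ?_
      · intro h5
        have h6 := p.abs_eq_of_mem (p.th_eq_iff.2 h5)
        linarith
      · intro h5
        have h6 := p.abs_eq_of_mem (p.th_eq_iff.2 h5)
        linarith
      · intro h5
        exact hST (p.th_eq_iff.2 h5)

end RatPt
end Tysz
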