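import Pool.Agent.Tysz.Cuts
import Pool.Agent.Tysz.Start
import Pool.Agent.Tysz.Num
open Finset MvPolynomial Module

namespace Tysz

variable {σ : Type} [Fintype σ] [DecidableEq σ]

/-- the form of a degree one equation -/
noncomputable def lf (l : Option σ × Option σ × Option σ) : A σ := toA (lin l.1 l.2.1 l.2.2)

/-- a point of minimal norm of a system in the nonzero variables -/
structure Sys (σ : Type) [Fintype σ] [DecidableEq σ] (i0 : σ) where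
  M : Set (σ × σ × σ)
  L : Set (Option σ × Option σ × Option σ)
  P : σ → ℂ
  P0 : P i0 = 1
  Pne : ∀ i, P i ≠ 0
  PM : ∀ t ∈ M, P t.1 * P t.2.1 = P t.2.2
  PL : ∀ l ∈ L, aeval P (lf l) = 0
  min : ∀ Q : σ → ℂ, Q i0 = 1 → (∀ t ∈ M, Q t.1 * Q t.2.1 = Q t.2.2) → (∀ l ∈ L, aeval Q (lf l) = 0) →
    ∑ i, ‖P i‖ ^ 2 ≤ ∑ i, ‖Q i‖ ^ 2

/-- independent rows spanning a set of rows -/
theorem exists_rows (i0 : σ) (M : Set (σ × σ × σ)) : ∃ (q : ℕ) (ρ : Fin q → σ × σ × σ), (∀ j, ρ j ∈ M) ∧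
    LinearIndependent ℚ (fun j => vecM i0 (ρ j)) ∧
    ∀ t ∈ M, vecM i0 t ∈ Submodule.span ℚ (Set.range fun j => vecM i0 (ρ j)) := by
  obtain ⟨b, hb, hspan, hli⟩ := exists_linearIndependent ℚ (vecM i0 '' M)
  haveI : Finite b := hli.finite
  haveI := Fintype.ofFinite b
  set e := Fintype.equivFin b with he
  have h1 : ∀ j : Fin (Fintype.card b), ∃ t ∈ M, vecM i0 t = (e.symm j : σ → ℚ) := fun j =>
    hb (e.symm j).2
  choose ρ hρ hρ2 using h1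
  refine ⟨Fintype.card b, ρ, hρ, ?_, ?_⟩
  · have h2 : (fun j => vecM i0 (ρ j)) = (fun x : b => (x : σ → ℚ)) ∘ e.symm := funext hρ2
    rw [h2]
    exact hli.comp _ e.symm.injective
  · intro t ht
    have h2 : Set.range (fun j => vecM i0 (ρ j)) = b := by
      ext x
      constructor
      · rintro ⟨j, rfl⟩; simp only [hρ2]; exact (e.symm j).2
      · intro hx; exact ⟨e ⟨x, hx⟩, by simp only [hρ2]; simp⟩
    rw [h2, hspan]
    exact Submodule.subset_span ⟨t, ht, rfl⟩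

namespace Sys
variable {i0 : σ} (S : Sys σ i0)

/-- prime ideal of the point -/
noncomputable def PP : Ideal (A σ) := RingHom.ker (aeval S.P : A σ →ₐ[ℚ] ℂ)

theorem PP_prime : S.PP.IsPrime := RingHom.ker_isPrime _

theorem mem_PP {G : A σ} : G ∈ S.PP ↔ aeval S.P G = 0 := Iff.rfl

theorem X_mem : X i0 - 1 ∈ S.PP := by
  rw [mem_PP, map_sub, aeval_X, map_one, S.P0, sub_self]

theorem bin_PP {t : σ × σ × σ} (ht : t ∈ S.M) : toA (bin i0 t) ∈ S.PP := by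
  rw [mem_PP, toA_bin, map_sub, map_mul, map_mul, aeval_X, aeval_X, aeval_X, aeval_X, S.P0, S.PM t ht]
  ring

theorem lf_PP {l} (hl : l ∈ S.L) : lf l ∈ S.PP := S.PL l hl

/-- ideals containing the whole system -/
structure Full (I : Ideal (A σ)) : Prop where
  hX : X i0 - 1 ∈ I
  hM : ∀ t ∈ S.M, toA (bin i0 t) ∈ I
  hL : ∀ l ∈ S.L, lf l ∈ I

theorem Full.mono {I I' : Ideal (A σ)} (h : S.Full I) (hI : I ≤ I') : S.Full I' :=
  ⟨hI h.hX, fun t ht => hI (h.hM t ht), fun l hl => hI (h.hL l hl)⟩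

theorem full_PP : S.Full S.PP := ⟨S.X_mem, fun _ ht => S.bin_PP ht, fun _ hl => S.lf_PP hl⟩

/-- zeros of full ideals are solutions -/
theorem sol {I : Ideal (A σ)} (h : S.Full I) {Q : σ → ℂ} (hQ : ∀ G ∈ I, aeval Q G = 0) :
    Q i0 = 1 ∧ (∀ t ∈ S.M, Q t.1 * Q t.2.1 = Q t.2.2) ∧ ∀ l ∈ S.L, aeval Q (lf l) = 0 := by
  have h0 : Q i0 = 1 := by
    have := hQ _ h.hX
    rw [map_sub, aeval_X, map_one, sub_eq_zero] at this
    exact this
  refine ⟨h0, fun t ht => ?_, fun l hl => hQ _ (h.hL l hl)⟩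
  have := hQ _ (h.hM t ht)
  rw [toA_bin, map_sub, map_mul, map_mul, aeval_X, aeval_X, aeval_X, aeval_X, h0, mul_one, sub_eq_zero] at this
  exact this

theorem one_le_norm {Q : σ → ℂ} (h0 : Q i0 = 1) : 1 ≤ ‖Q‖ := by
  have h2 := norm_le_pi_norm Q i0
  rwa [h0, norm_one] at h2

/-- comparison of the sup norms -/
theorem norm_cmp (hcard : 2 ≤ Fintype.card σ) {Q : σ → ℂ} (h0 : Q i0 = 1)
    (h : ∑ i, ‖S.P i‖ ^ 2 ≤ ∑ i, ‖Q i‖ ^ 2) :
    Real.log ‖S.P‖ ≤ Real.log ((Fintype.card σ - 1 : ℕ) : ℝ) / 2 + Real.log ‖Q‖ := by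
  haveI : Nonempty σ := ⟨i0⟩
  have hQ1 := one_le_norm h0
  have hP1 := one_le_norm S.P0
  have hc : (1:ℝ) ≤ ((Fintype.card σ - 1 : ℕ) : ℝ) := by
    have : 1 ≤ Fintype.card σ - 1 := by omega
    exact_mod_cast this
  have key : ‖S.P‖ ^ 2 ≤ ((Fintype.card σ - 1 : ℕ) : ℝ) * ‖Q‖ ^ 2 := by
    have hub : ∑ i, ‖Q i‖ ^ 2 ≤ 1 + ((Fintype.card σ - 1 : ℕ) : ℝ) * ‖Q‖ ^ 2 := by
      rw [← Finset.add_sum_erase _ _ (Finset.mem_univ i0), h0, norm_one, one_pow]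
      have h1 : ∑ i ∈ Finset.univ.erase i0, ‖Q i‖ ^ 2 ≤ ∑ i ∈ Finset.univ.erase i0, ‖Q‖ ^ 2 :=
        Finset.sum_le_sum fun i _ => pow_le_pow_left₀ (norm_nonneg _) (norm_le_pi_norm Q i) 2
      rw [Finset.sum_const, Finset.card_erase_of_mem (Finset.mem_univ i0), Finset.card_univ, nsmul_eq_mul] at h1
      linarith
    obtain ⟨i, hi⟩ := Finite.exists_max (fun i => ‖S.P i‖)
    have hPi : ‖S.P‖ = ‖S.P i‖ := by
      refine le_antisymm ?_ (norm_le_pi_norm _ i)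
      rw [pi_norm_le_iff_of_nonneg (norm_nonneg _)]
      exact hi
    by_cases hi0 : i = i0
    · rw [hPi, hi0, S.P0, norm_one]
      nlinarith
    · have hlb : 1 + ‖S.P‖ ^ 2 ≤ ∑ i, ‖S.P i‖ ^ 2 := by
        rw [← Finset.add_sum_erase _ _ (Finset.mem_univ i0), S.P0, norm_one, one_pow, hPi]
        have := Finset.single_le_sum (f := fun i => ‖S.P i‖ ^ 2) (s := Finset.univ.erase i0)
          (fun i _ => by positivity) (Finset.mem_erase.mpr ⟨hi0, Finset.mem_univ i⟩)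
        linarith
      linarith
  have h1 := Real.log_le_log (by positivity) key
  rw [Real.log_pow, Real.log_mul (by positivity) (by positivity), Real.log_pow] at h1
  push_cast at h1 ⊢
  linarith

theorem min_of_full {I : Ideal (A σ)} (h : S.Full I) {Q : σ → ℂ} (hQ : ∀ G ∈ I, aeval Q G = 0) :
    ∑ i, ‖S.P i‖ ^ 2 ≤ ∑ i, ‖Q i‖ ^ 2 := by
  obtain ⟨h1, h2, h3⟩ := S.sol h hQ
  exact S.min Q h1 h2 h3

theorem van_pt {I : Ideal (A σ)} (τ : (A σ ⧸ I) →ₐ[ℚ] ℂ) {G : A σ} (hG : G ∈ I) : aeval (pt τ) G = 0 := by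
  have h1 := aeval_pt τ G
  rw [mkL_eq_zero.mpr hG, map_zero] at h1
  unfold toC at h1
  rwa [aeval_map_algebraMap] at h1

/-- the start prime -/
theorem start {q : ℕ} (ρ : Fin q → σ × σ × σ) (hρ : ∀ j, ρ j ∈ S.M)
    (hspan : ∀ t ∈ S.M, vecM i0 t ∈ Submodule.span ℚ (Set.range fun j => vecM i0 (ρ j)))
    {Is : Ideal (A σ)} (hIs : Is.IsPrime) (hfull : S.Full Is) (hle : Is ≤ S.PP) :
    ∃ I : Ideal (A σ), I.IsPrime ∧ I ≤ Is ∧ X i0 - 1 ∈ I ∧ (∀ t ∈ S.M, toA (bin i0 t) ∈ I) ∧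
      Good I S.P ∧ J0 (thR (latt i0 (Set.range ρ))) 1 ≤ I ∧
      Fintype.card σ ≤ td I + 1 + q ∧ td I + 1 ≤ Fintype.card σ := by
  obtain ⟨I, h1, h2, h3, h4, h5, h6⟩ := exists_start i0 ρ hIs hfull.hX (fun j => hfull.hM _ (hρ j))
  have hg : Good I S.P := ⟨h1, fun G hG => hle (h2 hG), S.Pne⟩
  refine ⟨I, h1, h2, h3, fun t ht => ?_, hg, J0_le hg i0 ρ h4, h5, h6⟩
  exact bin_mem hg i0 ρ h4 (hspan t ht) (by rw [S.P0, mul_one]; exact S.PM t ht)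

end Sys
end Tysz
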