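import Pool.Agent.Tysz.Base
open Finset MvPolynomial Module

namespace Tysz

variable {σ : Type} [Fintype σ] [DecidableEq σ] {N : Type} [AddCommGroup N]

/-- the rank is the number of classes -/
theorem rk_eq_card [DecidableEq N] (θ : σ → N) (ε : σ → ℤˣ) {I : Ideal (A σ)}
    (hI : ∀ D F, F.IsHomogeneous D → (F ∈ I ↔ phiQ θ ε F = 0)) (D : ℕ) :
    rk I D = ((exps σ D).image (cls θ)).card := by
  obtain ⟨α, hα, hinj, hcov⟩ := classes θ ε hI D
  have h : (exps σ D).image (cls θ) = Finset.univ.image (fun j => cls θ (α j)) := by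
    ext χ
    simp only [Finset.mem_image, Finset.mem_univ, true_and]
    constructor
    · rintro ⟨β, hβ, rfl⟩; exact hcov β hβ
    · rintro ⟨j, rfl⟩; exact ⟨α j, hα j, rfl⟩
  rw [h, Finset.card_image_of_injective _ hinj, Finset.card_univ, Fintype.card_fin]

theorem cls_map {N' : Type} [AddCommGroup N'] (g : N →+ N') (θ : σ → N) (α : σ →₀ ℕ) :
    cls (fun i => g (θ i)) α = g (cls θ α) := by
  unfold cls
  rw [map_sum]
  exact Finset.sum_congr rfl fun i _ => (map_nsmul g _ _).symm

/-- the rank decreases when classes are identified -/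
theorem rk_J0_le {N' : Type} [AddCommGroup N'] (g : N →+ N') (θ : σ → N) (ε ε' : σ → ℤˣ) (D : ℕ) :
    rk (J0 (fun i => g (θ i)) ε) D ≤ rk (J0 θ ε') D := by
  classical
  rw [rk_eq_card _ _ (mem_J0 _ _), rk_eq_card _ _ (mem_J0 _ _)]
  have h : (exps σ D).image (cls (fun i => g (θ i))) = ((exps σ D).image (cls θ)).image g := by
    rw [Finset.image_image]
    exact Finset.image_congr fun α _ => cls_map g θ α
  rw [h]
  exact Finset.card_image_le

theorem rk_le_choose (I : Ideal (A σ)) (hσ : 1 ≤ Fintype.card σ) (D : ℕ) :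
    rk I D ≤ Nat.choose (D + (Fintype.card σ - 1)) (Fintype.card σ - 1) := by
  obtain ⟨l, hl, hlm⟩ := exists_BL I D
  obtain ⟨f, rfl⟩ := exists_ofFn hl.len
  have hli := hl.ind.li
  have hm : ∀ j, ∃ α ∈ exps σ D, f j = monomial α 1 := fun j => hlm _ (by simp [List.mem_ofFn])
  choose α hα hf using hm
  have hinj : Function.Injective α := by
    intro j k hjk
    apply hli.injective
    simp only [hf, hjk]
  have h1 : (Finset.univ.image α).card ≤ (exps σ D).card := by
    apply Finset.card_le_card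
    intro β hβ
    obtain ⟨j, _, rfl⟩ := Finset.mem_image.mp hβ
    exact hα j
  rw [Finset.card_image_of_injective _ hinj, Finset.card_univ, Fintype.card_fin] at h1
  refine h1.trans ?_
  unfold exps
  rw [Finset.card_finsuppAntidiag_nat_eq_choose, Finset.card_univ]
  have h2 : Fintype.card σ + D - 1 = D + (Fintype.card σ - 1) := by omega
  rw [h2, Nat.choose_symm_add]

theorem S_mono (e : ℕ) {g g' : ℕ → ℝ} (h : ∀ D, g D ≤ g' D) (D : ℕ) : S e g D ≤ S e g' D :=
  Finset.sum_le_sum fun _ _ => h _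

theorem S_iter_mono (e : ℕ) (q : ℕ) {g g' : ℕ → ℝ} (h : ∀ D, g D ≤ g' D) (D : ℕ) :
    (S e)^[q] g D ≤ (S e)^[q] g' D := by
  induction q generalizing g g' with
  | zero => exact h D
  | succ q ih => rw [Function.iterate_succ_apply, Function.iterate_succ_apply]; exact ih (S_mono e h)

theorem S_two_le {g g' : ℕ → ℝ} (h : ∀ D, g D + sh 2 g' D ≤ g' D) (D : ℕ) : S 2 g D ≤ g' D := by
  induction D using Nat.strong_induction_on with
  | _ D ih =>
    rw [SumsAux.S_eq (by norm_num) g D]
    refine le_trans ?_ (h D)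
    unfold sh
    split_ifs with h2
    · have := ih (D - 2) (by omega)
      linarith
    · exact le_rfl

/-- push forward of the group algebra -/
noncomputable def push {N' : Type} [AddCommGroup N'] (g : N →+ N') : GA N →ₐ[ℂ] GA N' :=
  AddMonoidAlgebra.mapDomainAlgHom ℂ ℂ g

theorem push_mon {N' : Type} [AddCommGroup N'] (g : N →+ N') (n : N) (c : ℂ) :
    push g (GA.mon n c) = GA.mon (g n) c := AddMonoidAlgebra.mapDomain_single ..

theorem push_phi {N' : Type} [AddCommGroup N'] (g : N →+ N') (θ : σ → N) (ε : σ → ℤˣ)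
    (F : MvPolynomial σ ℂ) : push g (phi θ ε F) = phi (fun i => g (θ i)) ε F := by
  have h : (push g).comp (phi θ ε) = phi (fun i => g (θ i)) ε := by
    apply MvPolynomial.algHom_ext
    intro i
    unfold phi
    rw [AlgHom.comp_apply, aeval_X, aeval_X, push_mon]
  exact DFunLike.congr_fun h F

theorem push_phiQ {N' : Type} [AddCommGroup N'] (g : N →+ N') (θ : σ → N) (ε : σ → ℤˣ)
    (F : A σ) : push g (phiQ θ ε F) = phiQ (fun i => g (θ i)) ε F := push_phi g θ ε _

/-- translation by an element of infinite order -/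
theorem eq_zero_of_trans {u v : N} (huv : ∀ k : ℤ, k • (u - v) = 0 → k = 0) (x : GA N)
    (h : (GA.mon u 1 - GA.mon v 1) * x = 0) : x = 0 := by
  by_contra hx
  have h1 : ∀ m, GA.cf x (m - u) = GA.cf x (m - v) := by
    intro m
    have h2 : GA.cf ((GA.mon u 1 - GA.mon v 1) * x) m = 0 := by rw [h, GA.cf_zero]; rfl
    rw [sub_mul, ← GA.cfA_apply, map_sub, GA.cfA_apply, GA.cfA_apply, GA.cf_mon_mul, GA.cf_mon_mul] at h2
    simpa [sub_eq_zero] using h2
  have h2 : ∀ m, GA.cf x (m + (u - v)) = GA.cf x m := by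
    intro m
    have := h1 (m + u)
    rw [add_sub_cancel_right] at this
    rw [this]; congr 1; abel
  obtain ⟨m, hm⟩ : ∃ m, GA.cf x m ≠ 0 := by
    by_contra hcon
    push Not at hcon
    apply hx
    apply GA.cf_inj
    ext m
    rw [hcon m, GA.cf_zero]; rfl
  have h3 : ∀ k : ℕ, GA.cf x (m + k • (u - v)) ≠ 0 := by
    intro k
    induction k with
    | zero => simpa using hm
    | succ k ih => rw [succ_nsmul, ← add_assoc, h2]; exact ih
  have h4 : Function.Injective (fun k : ℕ => m + k • (u - v)) := by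
    intro a b hab
    have h5 : a • (u - v) = b • (u - v) := add_left_cancel hab
    have h6 : ((a : ℤ) - b) • (u - v) = 0 := by
      rw [sub_smul, natCast_zsmul, natCast_zsmul, h5, sub_self]
    have := huv _ h6
    omega
  have h5 : Set.Infinite ((GA.cf x).support : Set N) := by
    apply Set.infinite_of_injective_forall_mem h4
    intro k
    simpa using h3 k
  exact h5 (Finset.finite_toSet _)

/-- the binomial of a multiplicative equation -/
noncomputable def bin (i0 : σ) (t : σ × σ × σ) : MvPolynomial σ ℤ := X t.1 * X t.2.1 - X t.2.2 * X i0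

theorem bin_hom (i0 : σ) (t : σ × σ × σ) : (bin i0 t).IsHomogeneous 2 := by
  unfold bin
  exact ((isHomogeneous_X ℤ t.1).mul (isHomogeneous_X ℤ t.2.1)).sub
    ((isHomogeneous_X ℤ t.2.2).mul (isHomogeneous_X ℤ i0))

theorem ev_X (θ : σ → N) (ε : σ → ℤˣ) (i : σ) :
    ev θ ε (X i) = GA.mon (θ i) (((ε i : ℤˣ) : ℤ) : ℂ) := by
  rw [ev_apply]
  change phi θ ε (toC (toA (X i))) = _
  rw [toC_toA, map_X]
  unfold phi
  rw [aeval_X]

theorem phiQ_X (θ : σ → N) (ε : σ → ℤˣ) (i : σ) :
    phiQ θ ε (X i) = GA.mon (θ i) (((ε i : ℤˣ) : ℤ) : ℂ) := by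
  change phi θ ε (toC (X i)) = _
  unfold toC phi
  rw [map_X, aeval_X]

theorem ev_bin (θ : σ → N) (i0 : σ) (t : σ × σ × σ) :
    ev θ 1 (bin i0 t) = GA.mon (θ t.1 + θ t.2.1) 1 - GA.mon (θ t.2.2 + θ i0) 1 := by
  unfold bin
  rw [map_sub, map_mul, map_mul, ev_X, ev_X, ev_X, ev_X, mon_mul_mon, mon_mul_mon]
  simp

theorem thR_rel (R : AddSubgroup (σ → ℤ)) (i0 : σ) (t : σ × σ × σ) :
    (thR R t.1 + thR R t.2.1) - (thR R t.2.2 + thR R i0) = QuotientAddGroup.mk (vecZ i0 t) := by
  unfold thR vecZ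
  rw [QuotientAddGroup.mk_sub, QuotientAddGroup.mk_sub, QuotientAddGroup.mk_add]
  abel

theorem vecZ_cast (i0 : σ) (t : σ × σ × σ) : (fun i => ((vecZ i0 t i : ℤ) : ℚ)) = vecM i0 t := by
  funext i
  unfold vecZ vecM
  simp only [Pi.add_apply, Pi.sub_apply, Pi.single_apply]
  push_cast
  rfl

/-- integer vector to rational vector -/
def castV : (σ → ℤ) →+ (σ → ℚ) where
  toFun v := fun i => (v i : ℚ)
  map_zero' := by funext i; simp
  map_add' a b := by funext i; simp

theorem latt_span {i0 : σ} {Mt : Set (σ × σ × σ)} {v : σ → ℤ} (hv : v ∈ latt i0 Mt) :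
    castV v ∈ Submodule.span ℚ (vecM i0 '' Mt) := by
  unfold latt at hv
  induction hv using AddSubgroup.closure_induction with
  | mem x hx =>
    obtain ⟨t, ht, rfl⟩ := hx
    apply Submodule.subset_span
    exact ⟨t, ht, (vecZ_cast i0 t).symm⟩
  | zero => rw [map_zero]; exact Submodule.zero_mem _
  | add x y _ _ hx hy => rw [map_add]; exact Submodule.add_mem _ hx hy
  | neg x _ hx => rw [map_neg]; exact Submodule.neg_mem _ hx

theorem toric_step (i0 : σ) {Mt : Set (σ × σ × σ)} {t : σ × σ × σ}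
    (ht : vecM i0 t ∉ Submodule.span ℚ (vecM i0 '' Mt)) (D : ℕ) :
    (rk (J0 (thR (latt i0 (insert t Mt))) 1) D : ℝ)
      + sh 2 (fun D => (rk (J0 (thR (latt i0 Mt)) 1) D : ℝ)) D
      ≤ rk (J0 (thR (latt i0 Mt)) 1) D := by
  set R' := latt i0 Mt with hR'
  set R := latt i0 (insert t Mt) with hR
  have hle : R' ≤ R := AddSubgroup.closure_mono (Set.image_mono (Set.subset_insert _ _))
  have hg : ∀ i, thR R i = QuotientAddGroup.map R' R (AddMonoidHom.id _) hle (thR R' i) := fun i => rfl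
  have hmono : ∀ D F, F.IsHomogeneous D → phiQ (thR R') 1 F = 0 → phiQ (thR R) 1 F = 0 := by
    intro D F _ h
    have h1 := push_phiQ (QuotientAddGroup.map R' R (AddMonoidHom.id _) hle) (thR R') 1 F
    rw [h, map_zero] at h1
    exact h1.symm
  have hI : J0 (thR R') 1 ≤ J0 (thR R) 1 := by
    unfold J0
    rw [Ideal.span_le]
    rintro F ⟨⟨D, hD⟩, hF⟩
    exact Ideal.subset_span ⟨⟨D, hD⟩, hmono D F hD hF⟩
  have hfI : toA (bin i0 t) ∈ J0 (thR R) 1 := by
    rw [mem_J0 _ _ 2 _ (toA_homog (bin_hom i0 t)), ← ev_apply, ev_bin, sub_eq_zero]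
    congr 1
    rw [← sub_eq_zero, thR_rel, QuotientAddGroup.eq_zero_iff]
    exact AddSubgroup.subset_closure ⟨t, Set.mem_insert _ _, rfl⟩
  have hf : NZD (J0 (thR R') 1) (bin i0 t) := by
    intro D F hF h
    rw [mem_J0 _ _ (2 + D) _ ((toA_homog (bin_hom i0 t)).mul hF), map_mul, ← ev_apply, ev_bin] at h
    rw [mem_J0 _ _ D _ hF]
    refine eq_zero_of_trans ?_ _ h
    intro k hk
    rw [thR_rel, ← QuotientAddGroup.mk_zsmul, QuotientAddGroup.eq_zero_iff] at hk
    by_contra hk0
    apply ht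
    have h1 := latt_span hk
    rw [map_zsmul] at h1
    have h2 : castV (vecZ i0 t) = vecM i0 t := vecZ_cast i0 t
    rw [h2] at h1
    have h3 : (k : ℚ) • vecM i0 t ∈ Submodule.span ℚ (vecM i0 '' Mt) := by
      rwa [Int.cast_smul_eq_zsmul]
    exact (Submodule.smul_mem_iff _ (by exact_mod_cast hk0)).mp h3
  unfold sh
  split_ifs with h2
  · have h3 := rk_cut hI (bin_hom i0 t) hfI hf h2
    have h4 : (rk (J0 (thR R) 1) D : ℝ) + rk (J0 (thR R') 1) (D - 2) ≤ rk (J0 (thR R') 1) D := by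
      exact_mod_cast h3
    exact h4
  · have := rk_le hI D
    have h3 : (rk (J0 (thR R) 1) D : ℝ) ≤ rk (J0 (thR R') 1) D := by exact_mod_cast this
    linarith

theorem toric_rank (i0 : σ) {q : ℕ} (ρ : Fin q → σ × σ × σ)
    (hind : LinearIndependent ℚ (fun j => vecM i0 (ρ j))) (D : ℕ) :
    (S 2)^[q] (fun D => (rk (J0 (thR (latt i0 (Set.range ρ))) 1) D : ℝ)) D
      ≤ (Nat.choose (D + (Fintype.card σ - 1)) (Fintype.card σ - 1) : ℝ) := by
  have hσ : 1 ≤ Fintype.card σ := Fintype.card_pos_iff.mpr ⟨i0⟩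
  induction q with
  | zero =>
    simp only [Function.iterate_zero, id]
    exact_mod_cast rk_le_choose _ hσ D
  | succ q ih =>
    rw [linearIndependent_finSucc'] at hind
    have h1 := ih (fun j => ρ j.castSucc) hind.1
    refine le_trans ?_ h1
    rw [Function.iterate_succ_apply]
    apply S_iter_mono
    intro D
    apply S_two_le
    intro D
    have h2 : Set.range ρ = insert (ρ (Fin.last q)) (Set.range (fun j : Fin q => ρ j.castSucc)) := by
      ext t
      simp only [Set.mem_range, Set.mem_insert_iff]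
      constructor
      · rintro ⟨j, rfl⟩
        rcases Fin.eq_castSucc_or_eq_last j with ⟨k, rfl⟩ | rfl
        · exact Or.inr ⟨k, rfl⟩
        · exact Or.inl rfl
      · rintro (rfl | ⟨k, rfl⟩)
        · exact ⟨_, rfl⟩
        · exact ⟨_, rfl⟩
    rw [h2]
    apply toric_step
    have h3 := hind.2
    intro h4
    apply h3
    have h5 : vecM i0 '' (Set.range fun j : Fin q => ρ j.castSucc) = Set.range (Fin.init fun j => vecM i0 (ρ j)) := by
      rw [← Set.range_comp]; rfl
    rw [← h5]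
    exact h4

end Tysz
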