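import Pool.Agent.Tysz.OnlyD
open Finset MvPolynomial Module

/-!
Rational points with two additive equations (RatPt.two).
-/

namespace Tysz

/-- a rational number which is not an integer has a negative valuation -/
theorem exists_neg_val {r : ℚ} (h : r.den ≠ 1) : ∃ ℓ : ℕ, ℓ.Prime ∧ padicValRat ℓ r < 0 := by
  refine ⟨r.den.minFac, Nat.minFac_prime h, ?_⟩
  have hp : Fact (Nat.minFac r.den).Prime := ⟨Nat.minFac_prime h⟩
  have h1 : 1 ≤ padicValNat (Nat.minFac r.den) r.den :=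
    one_le_padicValNat_of_dvd r.den_nz (Nat.minFac_dvd _)
  have h2 : padicValInt (Nat.minFac r.den) r.num = 0 := by
    apply padicValInt.eq_zero_of_not_dvd
    intro h3
    have h4 : Nat.minFac r.den ∣ r.num.natAbs := Int.natCast_dvd.1 h3
    have h5 := Nat.dvd_gcd h4 (Nat.minFac_dvd r.den)
    rw [Nat.Coprime.gcd_eq_one r.reduced] at h5
    exact hp.out.one_lt.ne' (Nat.dvd_one.1 h5)
  rw [padicValRat_def, h2]
  omega

theorem exists_pos_val {r : ℚ} (h : 1 < r) : ∃ ℓ : ℕ, ℓ.Prime ∧ 0 < padicValRat ℓ r := by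
  have h1 : (r⁻¹).den ≠ 1 := by
    intro h2
    have h3 : (r⁻¹ : ℚ) = ((r⁻¹).num : ℚ) := ((Rat.den_eq_one_iff _).1 h2).symm
    have h4 : 0 < r⁻¹ := by positivity
    have h5 : r⁻¹ < 1 := inv_lt_one_of_one_lt₀ h
    rw [h3] at h4 h5
    have h6 : 0 < (r⁻¹).num := by exact_mod_cast h4
    have h7 : (r⁻¹).num < 1 := by exact_mod_cast h5
    omega
  obtain ⟨ℓ, hℓ, h2⟩ := exists_neg_val h1
  have : Fact ℓ.Prime := ⟨hℓ⟩
  refine ⟨ℓ, hℓ, ?_⟩
  rw [padicValRat.inv] at h2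
  omega

theorem eq_two_of_den {r : ℚ} (h1 : 1 < r) (h2 : r ≤ 2) (h : r.den = 1) : r = 2 := by
  have h3 : (r : ℚ) = (r.num : ℚ) := ((Rat.den_eq_one_iff _).1 h).symm
  rw [h3] at h1 h2 ⊢
  have h4 : 1 < r.num := by exact_mod_cast h1
  have h5 : r.num ≤ 2 := by exact_mod_cast h2
  have h6 : r.num = 2 := by omega
  rw [h6]
  norm_num

variable {σ : Type} [Fintype σ] [DecidableEq σ]

namespace RatPt
variable {i0 : σ} {q : ℕ} (p : RatPt σ i0 q)

/-- valuations as functionals on exponent vectors -/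
noncomputable def VZ (ℓ : ℕ) : (σ → ℤ) →+ ℤ where
  toFun v := ∑ i, padicValRat ℓ (p.P i) * v i
  map_zero' := by simp
  map_add' v w := by
    rw [← Finset.sum_add_distrib]
    refine Finset.sum_congr rfl fun i _ => ?_
    rw [Pi.add_apply]
    ring

theorem VZ_single (ℓ : ℕ) (a : σ) : p.VZ ℓ (Pi.single a 1) = padicValRat ℓ (p.P a) := by
  change ∑ i, padicValRat ℓ (p.P i) * ((Pi.single a (1 : ℤ) : σ → ℤ) i) = _
  rw [Finset.sum_eq_single a]
  · simp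
  · intro b _ hb
    rw [Pi.single_eq_of_ne hb]
    simp
  · intro h
    exact absurd (Finset.mem_univ a) h

theorem VZ_dZ (ℓ : ℕ) (a b : σ) :
    p.VZ ℓ (dZ (a, b)) = padicValRat ℓ (p.P a) - padicValRat ℓ (p.P b) := by
  rw [dZ, map_sub, VZ_single, VZ_single]

theorem VZ_vecZ (ℓ : ℕ) (hℓ : ℓ.Prime) (j : Fin q) : p.VZ ℓ (vecZ i0 (p.ρ j)) = 0 := by
  have : Fact ℓ.Prime := ⟨hℓ⟩
  rw [vecZ, map_sub, map_sub, map_add, VZ_single, VZ_single, VZ_single, VZ_single, p.P0,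
    ← p.hρ j, padicValRat.mul (p.Pne _) (p.Pne _), padicValRat.one]
  ring

theorem VZ_R (ℓ : ℕ) (hℓ : ℓ.Prime) (v : σ → ℤ) (hv : v ∈ p.R) : p.VZ ℓ v = 0 :=
  p.eq_zero_of_mem_R (p.VZ ℓ) (p.VZ_vecZ ℓ hℓ) v hv

theorem exists_den {ι : Type} [Fintype ι] (g : ι → ℚ) :
    ∃ (N : ℤ) (G : ι → ℤ), N ≠ 0 ∧ ∀ i, (G i : ℚ) = N * g i := by
  classical
  let N : ℤ := ∏ i, ((g i).den : ℤ)
  have hN : N ≠ 0 := Finset.prod_ne_zero_iff.2 fun i _ => by exact_mod_cast (g i).den_ne_zero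
  have hG : ∀ i, ∃ z : ℤ, (z : ℚ) = N * g i := by
    intro i
    refine ⟨(∏ j ∈ Finset.univ.erase i, ((g j).den : ℤ)) * (g i).num, ?_⟩
    have h1 : N = ((g i).den : ℤ) * ∏ j ∈ Finset.univ.erase i, ((g j).den : ℤ) :=
      (Finset.mul_prod_erase _ _ (Finset.mem_univ i)).symm
    rw [h1]
    push_cast
    have h2 : ((g i).den : ℚ) * g i = (g i).num := by
      rw [mul_comm]
      exact Rat.mul_den_eq_num (g i)
    calc (∏ j ∈ Finset.univ.erase i, ((g j).den : ℚ)) * ((g i).num : ℚ)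
        = (∏ j ∈ Finset.univ.erase i, ((g j).den : ℚ)) * (((g i).den : ℚ) * g i) := by rw [h2]
      _ = _ := by ring
  choose G hG using hG
  exact ⟨N, G, hN, hG⟩

/-- the linear functional with given coefficients -/
noncomputable def fl (f : σ → ℚ) : (σ → ℚ) →ₗ[ℚ] ℚ := ∑ s, f s • LinearMap.proj s

omit [DecidableEq σ] in
theorem fl_apply (f : σ → ℚ) (v : σ → ℚ) : fl f v = ∑ s, f s * v s := by
  rw [fl, LinearMap.sum_apply]
  rfl

/-- membership in the saturated lattice of corank two -/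
theorem mem_R_of_two (hcard : q + 2 + 1 = Fintype.card σ) (f g : σ → ℤ)
    (hf : ∀ j, ∑ s, f s * vecZ i0 (p.ρ j) s = 0) (hg : ∀ j, ∑ s, g s * vecZ i0 (p.ρ j) s = 0)
    (v1 v2 v3 : σ → ℤ) (h11 : ∑ s, v1 s ≠ 0) (h12 : ∑ s, f s * v1 s = 0)
    (h13 : ∑ s, g s * v1 s = 0) (h21 : ∑ s, v2 s = 0) (h22 : ∑ s, f s * v2 s ≠ 0)
    (h31 : ∑ s, v3 s = 0) (h32 : ∑ s, f s * v3 s = 0) (h33 : ∑ s, g s * v3 s ≠ 0)
    (v : σ → ℤ) (hv1 : ∑ s, v s = 0) (hv2 : ∑ s, f s * v s = 0) (hv3 : ∑ s, g s * v s = 0) :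
    v ∈ p.R := by
  let Φ : (σ → ℚ) →ₗ[ℚ] ℚ × ℚ × ℚ :=
    (fl fun _ => 1).prod ((fl fun s => (f s : ℚ)).prod (fl fun s => (g s : ℚ)))
  have hΦ : ∀ w : σ → ℤ, Φ (fun s => (w s : ℚ)) =
      (((∑ s, w s : ℤ) : ℚ), ((∑ s, f s * w s : ℤ) : ℚ), ((∑ s, g s * w s : ℤ) : ℚ)) := by
    intro w
    change (fl (fun _ => 1) _, fl (fun s => (f s : ℚ)) _, fl (fun s => (g s : ℚ)) _) = _
    rw [fl_apply, fl_apply, fl_apply]
    push_cast
    simp only [one_mul]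
  have hsurj : Function.Surjective Φ := by
    rintro ⟨x, y, z⟩
    have h11' : ((∑ s, v1 s : ℤ) : ℚ) ≠ 0 := by exact_mod_cast h11
    have h22' : ((∑ s, f s * v2 s : ℤ) : ℚ) ≠ 0 := by exact_mod_cast h22
    have h33' : ((∑ s, g s * v3 s : ℤ) : ℚ) ≠ 0 := by exact_mod_cast h33
    refine ⟨(x / ((∑ s, v1 s : ℤ) : ℚ)) • (fun s => (v1 s : ℚ)) +
      (y / ((∑ s, f s * v2 s : ℤ) : ℚ)) • (fun s => (v2 s : ℚ)) +
      ((z - (y / ((∑ s, f s * v2 s : ℤ) : ℚ)) * ((∑ s, g s * v2 s : ℤ) : ℚ)) /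
        ((∑ s, g s * v3 s : ℤ) : ℚ)) • (fun s => (v3 s : ℚ)), ?_⟩
    rw [map_add, map_add, map_smul, map_smul, map_smul, hΦ, hΦ, hΦ, h12, h13, h21, h31, h32]
    simp only [Prod.smul_mk, Prod.mk_add_mk, smul_eq_mul, Int.cast_zero, mul_zero, add_zero,
      zero_add]
    rw [div_mul_cancel₀ _ h11', div_mul_cancel₀ _ h22', div_mul_cancel₀ _ h33']
    simp
  have hker : finrank ℚ (LinearMap.ker Φ) = q := by
    have h1 := LinearMap.finrank_range_add_finrank_ker Φ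
    rw [LinearMap.range_eq_top.2 hsurj, finrank_top, Module.finrank_prod, Module.finrank_prod,
      Module.finrank_self, Module.finrank_fintype_fun_eq_card, ← hcard] at h1
    omega
  have hspan : Submodule.span ℚ (Set.range fun j => vecM i0 (p.ρ j)) = LinearMap.ker Φ := by
    refine Submodule.eq_of_le_of_finrank_eq ?_ ?_
    · rw [Submodule.span_le]
      rintro _ ⟨j, rfl⟩
      change Φ (vecM i0 (p.ρ j)) = 0
      have h1 : vecM i0 (p.ρ j) = fun s => ((vecZ i0 (p.ρ j) s : ℤ) : ℚ) :=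
        funext fun s => vecM_cast _ _
      have h2 : ∑ s, vecZ i0 (p.ρ j) s = 0 :=
        p.sum_of_mem_R _ (p.mem_R_of_latt _ (p.vecZ_mem_latt j))
      rw [h1, hΦ, hf j, hg j, h2]
      simp
    · rw [hker, finrank_span_eq_card p.ind, Fintype.card_fin]
  have hmem : (fun s => (v s : ℚ)) ∈ Submodule.span ℚ (Set.range fun j => vecM i0 (p.ρ j)) := by
    rw [hspan, LinearMap.mem_ker, hΦ, hv1, hv2, hv3]
    simp
  obtain ⟨c, hc⟩ := (Submodule.mem_span_range_iff_exists_fun ℚ).1 hmem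
  obtain ⟨N, G, hN, hG⟩ := exists_den c
  refine ⟨N, hN, ?_⟩
  have h1 : N • v = ∑ j, G j • vecZ i0 (p.ρ j) := by
    funext s
    have h2 := congrFun hc s
    simp only [Finset.sum_apply, Pi.smul_apply, smul_eq_mul, vecM_cast] at h2 ⊢
    have h3 : ((∑ j, G j * vecZ i0 (p.ρ j) s : ℤ) : ℚ) = N * v s := by
      rw [← h2, Finset.mul_sum]
      push_cast
      refine Finset.sum_congr rfl fun j _ => ?_
      rw [hG]
      ring
    exact_mod_cast h3.symm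
  rw [h1]
  exact AddSubgroup.sum_mem _ fun j _ => AddSubgroup.zsmul_mem _ (p.vecZ_mem_latt j) _

theorem bound2 (hcard : q + 2 + 1 = Fintype.card σ) (δ1 δ2 : σ × σ)
    (h1 : |p.lg δ1.1 - p.lg δ1.2| ≤ 1) (h2 : |p.lg δ2.1 - p.lg δ2.2| ≤ 1)
    (h : ∀ k l : ℤ, k • dZ δ1 + l • dZ δ2 ∈ p.R → k = 0 ∧ l = 0) (i : σ) :
    |(p.P i : ℝ)| ≤ 2 ^ ((2:ℝ) ^ ((q:ℝ) + 1)) := by
  have h3 := p.bound_of_rows hcard ![δ1, δ2] ?_ ?_ i
  · rw [Real.rpow_add_one (by norm_num), mul_comm]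
    exact_mod_cast h3
  · intro b hb
    rw [Fin.sum_univ_two] at hb
    obtain ⟨h4, h5⟩ := h _ _ hb
    funext j
    fin_cases j
    · exact h4
    · exact h5
  · intro j
    fin_cases j
    · exact h1
    · exact h2

theorem exists_dep (δ1 δ2 : σ × σ) (h1 : dZ δ1 ∉ p.R) (h2 : dZ δ2 ∉ p.R)
    (h : ¬ ∀ k l : ℤ, k • dZ δ1 + l • dZ δ2 ∈ p.R → k = 0 ∧ l = 0) :
    ∃ k l : ℤ, 0 < k ∧ l ≠ 0 ∧ k • dZ δ1 - l • dZ δ2 ∈ p.R := by
  push Not at h
  obtain ⟨k, l, hkl, hne⟩ := h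
  have hk : k ≠ 0 := by
    intro hk
    rw [hk, zero_smul, zero_add] at hkl
    exact h2 (p.mem_R_of_zsmul _ l (hne hk) hkl)
  have hl : l ≠ 0 := by
    intro hl
    rw [hl, zero_smul, add_zero] at hkl
    exact h1 (p.mem_R_of_zsmul _ k hk hkl)
  rcases lt_or_gt_of_ne hk with h3 | h3
  · refine ⟨-k, l, by omega, hl, ?_⟩
    have h4 := p.R.neg_mem hkl
    have h5 : -(k • dZ δ1 + l • dZ δ2) = -k • dZ δ1 - l • dZ δ2 := by
      rw [neg_smul]
      abel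
    rwa [h5] at h4
  · refine ⟨k, -l, h3, neg_ne_zero.2 hl, ?_⟩
    rwa [neg_smul, sub_neg_eq_add]

theorem lin_homog (a b c : Option σ) : (toA (lin a b c)).IsHomogeneous 1 := by
  have h : ∀ x : Option σ, (toA (oX x)).IsHomogeneous 1 := by
    intro x
    rcases x with _ | x
    · rw [toA_oX_none]
      exact isHomogeneous_zero _ _ _
    · refine toA_homog ?_
      exact isHomogeneous_X ℤ x
  rw [toA_lin]
  exact ((h a).add (h b)).sub (h c)

/-- equality of the shapes of two equations gives membership -/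
theorem final_two {I : Ideal (A σ)} (hprime : I.IsPrime)
    (hI0 : ∀ D F, F.IsHomogeneous D → p.ph F = 0 → F ∈ I) (hIP : ∀ F ∈ I, p.Van F)
    (L1 S1 T1 L2 S2 T2 : σ) (hδ : dZ (L1, S1) - dZ (L2, S2) ∈ p.R)
    (hη : dZ (L1, T1) - dZ (L2, T2) ∈ p.R) (hf : p.Y L1 - p.Y S1 - p.Y T1 ∈ I) :
    p.Y L2 - p.Y S2 - p.Y T2 ∈ I := by
  obtain ⟨F, _, κ, χ, hκ, hχ, hχR⟩ := p.exists_chi hprime hI0 hIP
  have key : ∀ a b c d : σ, dZ (a, b) - dZ (c, d) ∈ p.R →
      κ (p.Y a) * κ (p.Y d) = κ (p.Y b) * κ (p.Y c) := by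
    intro a b c d h
    have h1 := hχR _ h
    rw [dZ, dZ, map_sub, map_sub, map_sub, sub_eq_zero, sub_eq_sub_iff_add_eq_add,
      add_comm (χ (Pi.single (c, d).1 1))] at h1
    rw [← hχ, ← hχ, ← hχ, ← hχ, ← Units.val_mul, ← Units.val_mul, ← toMul_add, ← toMul_add]
    exact congrArg (fun z => ((Additive.toMul z : Fˣ) : F)) h1
  have h1 := key _ _ _ _ hδ
  have h2 := key _ _ _ _ hη
  have h3 := (hκ _).2 hf
  rw [map_sub, map_sub] at h3
  have h4 : κ (p.Y L1) ≠ 0 := by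
    rw [← hχ]
    exact Units.ne_zero _
  rw [← hκ, map_sub, map_sub]
  have h5 : κ (p.Y L1) * (κ (p.Y L2) - κ (p.Y S2) - κ (p.Y T2)) = 0 := by
    linear_combination κ (p.Y L2) * h3 - h1 - h2
  exact (mul_eq_zero.1 h5).resolve_left h4

theorem pv_abs (ℓ : ℕ) (x : ℚ) : padicValRat ℓ |x| = padicValRat ℓ x := by
  rcases abs_choice x with h | h
  · rw [h]
  · rw [h, padicValRat.neg]

theorem val_T1 (ℓ : ℕ) (hℓ : ℓ.Prime) {L S T : σ} (h : |p.P L| = |p.P S| + |p.P T|)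
    (hv : padicValRat ℓ (p.P L) < padicValRat ℓ (p.P S)) :
    padicValRat ℓ (p.P T) = padicValRat ℓ (p.P L) := by
  have : Fact ℓ.Prime := ⟨hℓ⟩
  have h1 : |p.P T| = |p.P L| + -|p.P S| := by linarith
  rw [← pv_abs ℓ (p.P T), ← pv_abs ℓ (p.P L), h1]
  refine padicValRat.add_eq_of_lt ?_ (p.absQ_pos L).ne' (neg_ne_zero.2 (p.absQ_pos S).ne') ?_
  · rw [← h1]
    exact (p.absQ_pos T).ne'
  · rwa [padicValRat.neg, pv_abs, pv_abs]

theorem val_T2 (ℓ : ℕ) (hℓ : ℓ.Prime) {L S T : σ} (h : |p.P L| = |p.P S| + |p.P T|)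
    (hv : padicValRat ℓ (p.P S) < padicValRat ℓ (p.P L)) :
    padicValRat ℓ (p.P T) = padicValRat ℓ (p.P S) := by
  have : Fact ℓ.Prime := ⟨hℓ⟩
  have h1 : |p.P T| = -|p.P S| + |p.P L| := by linarith
  rw [← pv_abs ℓ (p.P T), ← pv_abs ℓ (p.P S), h1]
  rw [← padicValRat.neg |p.P S|]
  refine padicValRat.add_eq_of_lt ?_ (neg_ne_zero.2 (p.absQ_pos S).ne') (p.absQ_pos L).ne' ?_
  · rw [← h1]
    exact (p.absQ_pos T).ne'
  · rwa [padicValRat.neg, pv_abs, pv_abs]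

theorem exp_lemma (x1 x2 z1 z2 : ℝ) (k l : ℤ) (hk : 0 < k) (hl : 0 < l)
    (hx : (k : ℝ) * x1 = l * x2) (hz : (k : ℝ) * z1 = l * z2) (hx1 : 0 < x1) (hz1 : 0 < z1)
    (h1 : (2:ℝ) ^ (-x1) + (2:ℝ) ^ (-z1) = 1) (h2 : (2:ℝ) ^ (-x2) + (2:ℝ) ^ (-z2) = 1) :
    k = l := by
  have hk' : (0:ℝ) < k := by exact_mod_cast hk
  have hl' : (0:ℝ) < l := by exact_mod_cast hl
  have hmon : ∀ a b : ℝ, a < b → (2:ℝ) ^ (-b) < (2:ℝ) ^ (-a) := fun a b hab =>
    Real.rpow_lt_rpow_of_exponent_lt (by norm_num) (by linarith)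
  rcases lt_trichotomy k l with h | h | h
  · exfalso
    have h' : (k:ℝ) < l := by exact_mod_cast h
    have h3 : x2 < x1 := by
      by_contra hcon
      push Not at hcon
      have : (k:ℝ) * x1 < l * x2 := by
        calc (k:ℝ) * x1 < l * x1 := mul_lt_mul_of_pos_right h' hx1
          _ ≤ l * x2 := mul_le_mul_of_nonneg_left hcon hl'.le
      linarith
    have h4 : z2 < z1 := by
      by_contra hcon
      push Not at hcon
      have : (k:ℝ) * z1 < l * z2 := by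
        calc (k:ℝ) * z1 < l * z1 := mul_lt_mul_of_pos_right h' hz1
          _ ≤ l * z2 := mul_le_mul_of_nonneg_left hcon hl'.le
      linarith
    have h5 := hmon _ _ h3
    have h6 := hmon _ _ h4
    linarith
  · exact h
  · exfalso
    have h' : (l:ℝ) < k := by exact_mod_cast h
    have h3 : x1 < x2 := by
      by_contra hcon
      push Not at hcon
      have : (l:ℝ) * x2 < k * x1 := by
        calc (l:ℝ) * x2 ≤ l * x1 := mul_le_mul_of_nonneg_left hcon hl'.le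
          _ < k * x1 := mul_lt_mul_of_pos_right h' hx1
      linarith
    have h4 : z1 < z2 := by
      by_contra hcon
      push Not at hcon
      have : (l:ℝ) * z2 < k * z1 := by
        calc (l:ℝ) * z2 ≤ l * z1 := mul_le_mul_of_nonneg_left hcon hl'.le
          _ < k * z1 := mul_lt_mul_of_pos_right h' hz1
      linarith
    have h5 := hmon _ _ h3
    have h6 := hmon _ _ h4
    linarith

theorem rpow_lg_sum {L S T : σ} (h : |p.P L| = |p.P S| + |p.P T|) :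
    (2:ℝ) ^ (-(p.lg L - p.lg S)) + (2:ℝ) ^ (-(p.lg L - p.lg T)) = 1 := by
  have h1 : |(p.P L : ℝ)| = |(p.P S : ℝ)| + |(p.P T : ℝ)| := by exact_mod_cast h
  rw [neg_sub, neg_sub, Real.rpow_sub (by norm_num), Real.rpow_sub (by norm_num),
    p.two_rpow_lg, p.two_rpow_lg, p.two_rpow_lg, ← add_div, ← h1,
    div_self (p.abs_pos L).ne']

theorem sum_dZ (a b : σ) : ∑ s, dZ (a, b) s = 0 := by
  simp only [dZ, Pi.sub_apply, Finset.sum_sub_distrib, Finset.sum_pi_single']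
  simp

theorem dZ_notMem_of_lg {a b : σ} (h : 0 < p.lg a - p.lg b) : dZ (a, b) ∉ p.R := by
  intro hmem
  have h1 := p.LG_R _ hmem
  rw [LG_dZ] at h1
  linarith

theorem LG_rel {a b c d : σ} {k l : ℤ} (h : k • dZ (a, b) - l • dZ (c, d) ∈ p.R) :
    (k:ℝ) * (p.lg a - p.lg b) = l * (p.lg c - p.lg d) := by
  have h1 := p.LG_R _ h
  rw [map_sub, map_zsmul, map_zsmul, LG_dZ, LG_dZ, sub_eq_zero, zsmul_eq_mul, zsmul_eq_mul] at h1
  exact h1

theorem VZ_rel {ℓ : ℕ} (hℓ : ℓ.Prime) {a b c d : σ} {k l : ℤ}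
    (h : k • dZ (a, b) - l • dZ (c, d) ∈ p.R) :
    k * (padicValRat ℓ (p.P a) - padicValRat ℓ (p.P b)) =
      l * (padicValRat ℓ (p.P c) - padicValRat ℓ (p.P d)) := by
  have h1 := p.VZ_R ℓ hℓ _ h
  rw [map_sub, map_zsmul, map_zsmul, VZ_dZ, VZ_dZ, sub_eq_zero, smul_eq_mul, smul_eq_mul] at h1
  exact h1

theorem sub_mem_of_eq {k : ℤ} (hk : k ≠ 0) (u w : σ → ℤ) (h : k • u - k • w ∈ p.R) :
    u - w ∈ p.R := by
  refine p.mem_R_of_zsmul _ k hk ?_
  rwa [smul_sub]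

/-- two equal ratios: the case of ratio two -/
theorem two_half (hcard : q + 2 + 1 = Fintype.card σ) (i : σ)
    (hb : ¬ |(p.P i : ℝ)| ≤ 2 ^ ((2:ℝ) ^ ((q:ℝ) + 1))) {L S T : σ}
    (h : |p.P L| = |p.P S| + |p.P T|) (h2 : |p.P L| = 2 * |p.P S|) :
    dZ (L, S) - dZ (L, T) ∈ p.R := by
  have hS : p.lg L - p.lg S = 1 := p.lg_type_D h2
  have hT : p.lg L - p.lg T = 1 := p.lg_type_D (by linarith)
  have hdep : ¬ ∀ k l : ℤ, k • dZ (L, S) + l • dZ (L, T) ∈ p.R → k = 0 ∧ l = 0 := by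
    intro hind
    refine hb (p.bound2 hcard (L, S) (L, T) ?_ ?_ hind i)
    · change |p.lg L - p.lg S| ≤ 1
      rw [hS, abs_one]
    · change |p.lg L - p.lg T| ≤ 1
      rw [hT, abs_one]
  obtain ⟨k, l, hk, hl, hkl⟩ := p.exists_dep (L, S) (L, T)
    (p.dZ_notMem_of_lg (by rw [hS]; norm_num)) (p.dZ_notMem_of_lg (by rw [hT]; norm_num)) hdep
  have h3 := p.LG_rel hkl
  rw [hS, hT, mul_one, mul_one] at h3
  have h4 : k = l := by exact_mod_cast h3
  rw [← h4] at hkl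
  exact p.sub_mem_of_eq hk.ne' _ _ hkl

theorem two_CC (hcard : q + 2 + 1 = Fintype.card σ) (I : Ideal (A σ)) (hprime : I.IsPrime)
    (hI0 : ∀ D F, F.IsHomogeneous D → p.ph F = 0 → F ∈ I) (hIP : ∀ F ∈ I, p.Van F)
    (L1 S1 T1 L2 S2 T2 : σ) (h1 : |p.P L1| = |p.P S1| + |p.P T1|) (h1' : |p.P T1| ≤ |p.P S1|)
    (h2 : |p.P L2| = |p.P S2| + |p.P T2|) (h2' : |p.P T2| ≤ |p.P S2|)
    (hf : p.Y L1 - p.Y S1 - p.Y T1 ∈ I) (hf' : p.Y L2 - p.Y S2 - p.Y T2 ∉ I) (i : σ) :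
    |(p.P i : ℝ)| ≤ 2 ^ ((2:ℝ) ^ ((q:ℝ) + 1)) := by
  by_contra hb
  obtain ⟨hx1, hx1'⟩ := p.lg_type_C h1 h1'
  obtain ⟨hx2, hx2'⟩ := p.lg_type_C h2 h2'
  have hdep : ¬ ∀ k l : ℤ, k • dZ (L1, S1) + l • dZ (L2, S2) ∈ p.R → k = 0 ∧ l = 0 := by
    intro hind
    refine hb (p.bound2 hcard (L1, S1) (L2, S2) ?_ ?_ hind i)
    · change |p.lg L1 - p.lg S1| ≤ 1
      rw [abs_of_pos hx1]
      exact hx1'
    · change |p.lg L2 - p.lg S2| ≤ 1
      rw [abs_of_pos hx2]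
      exact hx2'
  obtain ⟨k, l, hk, hl, hkl⟩ := p.exists_dep (L1, S1) (L2, S2)
    (p.dZ_notMem_of_lg hx1) (p.dZ_notMem_of_lg hx2) hdep
  have hkR : (0:ℝ) < k := by exact_mod_cast hk
  have hLG := p.LG_rel hkl
  have hl' : 0 < l := by
    have h3 : (0:ℝ) < l * (p.lg L2 - p.lg S2) := by
      rw [← hLG]
      positivity
    have h4 : (0:ℝ) < l := pos_of_mul_pos_left h3 hx2.le
    exact_mod_cast h4
  have hL1 := p.absQ_pos L1
  have hS1 := p.absQ_pos S1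
  have hT1 := p.absQ_pos T1
  have hL2 := p.absQ_pos L2
  have hS2 := p.absQ_pos S2
  have hT2 := p.absQ_pos T2
  have hr1 : 1 < |p.P L1| / |p.P S1| := by
    rw [one_lt_div hS1]
    linarith
  have hr1' : |p.P L1| / |p.P S1| ≤ 2 := by
    rw [div_le_iff₀ hS1]
    linarith
  have hr2 : 1 < |p.P L2| / |p.P S2| := by
    rw [one_lt_div hS2]
    linarith
  have hr2' : |p.P L2| / |p.P S2| ≤ 2 := by
    rw [div_le_iff₀ hS2]
    linarith
  have hval1 : ∀ ℓ : ℕ, ℓ.Prime → padicValRat ℓ (|p.P L1| / |p.P S1|) =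
      padicValRat ℓ (p.P L1) - padicValRat ℓ (p.P S1) := by
    intro ℓ hℓ
    have : Fact ℓ.Prime := ⟨hℓ⟩
    rw [padicValRat.div hL1.ne' hS1.ne', pv_abs, pv_abs]
  have hval2 : ∀ ℓ : ℕ, ℓ.Prime → padicValRat ℓ (|p.P L2| / |p.P S2|) =
      padicValRat ℓ (p.P L2) - padicValRat ℓ (p.P S2) := by
    intro ℓ hℓ
    have : Fact ℓ.Prime := ⟨hℓ⟩
    rw [padicValRat.div hL2.ne' hS2.ne', pv_abs, pv_abs]
  by_cases hden : (|p.P L1| / |p.P S1|).den = 1
  · -- ratio two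
    have he1 := eq_two_of_den hr1 hr1' hden
    have he2 : |p.P L2| / |p.P S2| = 2 := by
      refine eq_two_of_den hr2 hr2' ?_
      by_contra hden2
      obtain ⟨ℓ, hℓ, h3⟩ := exists_neg_val hden2
      have h4 := p.VZ_rel hℓ hkl
      rw [← hval1 ℓ hℓ, ← hval2 ℓ hℓ, he1] at h4
      have h5 : 0 ≤ padicValRat ℓ (2:ℚ) := by
        have h6 := padicValRat_of_nat (p := ℓ) 2
        rw [Nat.cast_ofNat] at h6
        rw [← h6]
        positivity
      have h7 : 0 ≤ k * padicValRat ℓ (2:ℚ) := mul_nonneg hk.le h5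
      have h8 : l * padicValRat ℓ (|p.P L2| / |p.P S2|) < 0 := mul_neg_of_pos_of_neg hl' h3
      omega
    have he1' : |p.P L1| = 2 * |p.P S1| := by
      rw [div_eq_iff hS1.ne'] at he1
      exact he1
    have he2' : |p.P L2| = 2 * |p.P S2| := by
      rw [div_eq_iff hS2.ne'] at he2
      exact he2
    have h3 := p.two_half hcard i hb h1 he1'
    have h4 := p.two_half hcard i hb h2 he2'
    rw [p.lg_type_D he1', p.lg_type_D he2', mul_one, mul_one] at hLG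
    have h5 : k = l := by exact_mod_cast hLG
    rw [← h5] at hkl
    have h6 := p.sub_mem_of_eq hk.ne' _ _ hkl
    refine hf' (p.final_two hprime hI0 hIP L1 S1 T1 L2 S2 T2 h6 ?_ hf)
    have h7 : dZ (L1, T1) - dZ (L2, T2) = (dZ (L1, S1) - dZ (L2, S2)) -
        (dZ (L1, S1) - dZ (L1, T1)) + (dZ (L2, S2) - dZ (L2, T2)) := by abel
    rw [h7]
    exact p.R.add_mem (p.R.sub_mem h6 h3) h4
  · obtain ⟨ℓ, hℓ, hv⟩ := exists_neg_val hden
    obtain ⟨ℓ', hℓ', hv'⟩ := exists_pos_val hr1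
    rw [hval1 ℓ hℓ] at hv
    rw [hval1 ℓ' hℓ'] at hv'
    have hrel := p.VZ_rel hℓ hkl
    have hrel' := p.VZ_rel hℓ' hkl
    have hv2 : padicValRat ℓ (p.P L2) - padicValRat ℓ (p.P S2) < 0 := by
      have h3 : l * (padicValRat ℓ (p.P L2) - padicValRat ℓ (p.P S2)) < 0 := by
        rw [← hrel]
        exact mul_neg_of_pos_of_neg hk hv
      by_contra hcon
      push Not at hcon
      have := mul_nonneg hl'.le hcon
      omega
    have hv2' : 0 < padicValRat ℓ' (p.P L2) - padicValRat ℓ' (p.P S2) := by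
      have h3 : 0 < l * (padicValRat ℓ' (p.P L2) - padicValRat ℓ' (p.P S2)) := by
        rw [← hrel']
        exact mul_pos hk hv'
      exact pos_of_mul_pos_right h3 hl'.le
    have hT1v := p.val_T1 ℓ hℓ h1 (by omega)
    have hT2v := p.val_T1 ℓ hℓ h2 (by omega)
    have hT1v' := p.val_T2 ℓ' hℓ' h1 (by omega)
    have hT2v' := p.val_T2 ℓ' hℓ' h2 (by omega)
    have hη : k • dZ (L1, T1) - l • dZ (L2, T2) ∈ p.R := by
      refine p.mem_R_of_two hcard (fun s => padicValRat ℓ (p.P s))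
        (fun s => padicValRat ℓ' (p.P s)) (p.VZ_vecZ ℓ hℓ) (p.VZ_vecZ ℓ' hℓ')
        (Pi.single i0 1) (dZ (L1, S1)) (dZ (L1, T1)) ?_ ?_ ?_ ?_ ?_ ?_ ?_ ?_ _ ?_ ?_ ?_
      · rw [Finset.sum_pi_single']
        simp
      · refine (p.VZ_single ℓ i0).trans ?_
        rw [p.P0, padicValRat.one]
      · refine (p.VZ_single ℓ' i0).trans ?_
        rw [p.P0, padicValRat.one]
      · exact sum_dZ _ _
      · intro h3
        have h4 := (p.VZ_dZ ℓ L1 S1).symm.trans h3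
        omega
      · exact sum_dZ _ _
      · refine (p.VZ_dZ ℓ L1 T1).trans ?_
        omega
      · intro h3
        have h4 := (p.VZ_dZ ℓ' L1 T1).symm.trans h3
        omega
      · simp only [Pi.sub_apply, Pi.smul_apply, smul_eq_mul, Finset.sum_sub_distrib,
          ← Finset.mul_sum, sum_dZ, mul_zero, sub_zero]
      · change p.VZ ℓ _ = 0
        rw [map_sub, map_zsmul, map_zsmul, VZ_dZ, VZ_dZ, hT1v, hT2v, sub_self, sub_self,
          smul_zero, smul_zero, sub_zero]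
      · change p.VZ ℓ' _ = 0
        rw [map_sub, map_zsmul, map_zsmul, VZ_dZ, VZ_dZ, hT1v', hT2v', smul_eq_mul, smul_eq_mul,
          hrel', sub_self]
    have hLG' := p.LG_rel hη
    have hz1 : 0 < p.lg L1 - p.lg T1 := by
      have h3 : |(p.P L1 : ℝ)| = |(p.P S1 : ℝ)| + |(p.P T1 : ℝ)| := by exact_mod_cast h1
      have h4 : p.lg T1 < p.lg L1 :=
        Real.logb_lt_logb (by norm_num) (p.abs_pos T1) (by linarith [p.abs_pos S1])
      linarith
    have hkl' := exp_lemma _ _ _ _ k l hk hl' hLG hLG' hx1 hz1 (p.rpow_lg_sum h1)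
      (p.rpow_lg_sum h2)
    rw [← hkl'] at hkl hη
    exact hf' (p.final_two hprime hI0 hIP L1 S1 T1 L2 S2 T2 (p.sub_mem_of_eq hk.ne' _ _ hkl)
      (p.sub_mem_of_eq hk.ne' _ _ hη) hf)

/-- SPEC R2: two additive equations -/
theorem two (hcard : q + 2 + 1 = Fintype.card σ) (I : Ideal (A σ)) (hprime : I.IsPrime)
    (hI0 : ∀ D F, F.IsHomogeneous D → p.ph F = 0 → F ∈ I) (hIP : ∀ F ∈ I, p.Van F)
    (a b c a' b' c' : Option σ) (h1 : toA (lin a b c) ∈ I) (h2 : p.ph (toA (lin a b c)) ≠ 0)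
    (h1' : p.Van (toA (lin a' b' c'))) (h2' : toA (lin a' b' c') ∉ I) (i : σ) :
    |(p.P i : ℝ)| ≤ 2 ^ ((2:ℝ) ^ ((q:ℝ) + 1)) := by
  have hph' : p.ph (toA (lin a' b' c')) ≠ 0 := fun h => h2' (hI0 1 _ (lin_homog _ _ _) h)
  have hcC : ∀ ε : ℚ, (ε = 1 ∨ ε = -1) → ∀ G : A σ, C ε * G ∈ I → G ∈ I := by
    intro ε hε G hG
    refine (hprime.mem_or_mem hG).resolve_left fun hC => ?_
    have h3 := hIP _ hC
    rw [Van, eval_C] at h3
    exact pm_ne hε h3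
  rcases p.lin_cases a b c (hIP _ h1) h2 with
    ⟨x, y, ε, hε, hxy, h⟩ | ⟨L1, S1, T1, ε, hε, h3, h4, h⟩ <;>
  rcases p.lin_cases a' b' c' h1' hph' with
    ⟨x', y', ε', hε', hxy', h'⟩ | ⟨L2, S2, T2, ε', hε', h3', h4', h'⟩
  · -- both are equalities
    by_contra hb
    have hlg := p.lg_eq_of_abs hxy
    have hlg' := p.lg_eq_of_abs hxy'
    have hn : dZ (x, y) ∉ p.R := by
      intro hmem
      apply h2
      rw [h, map_mul, map_sub, ph_Y, ph_Y, (p.th_eq_iff).1 hmem, sub_self, mul_zero]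
    have hn' : dZ (x', y') ∉ p.R := by
      intro hmem
      apply hph'
      rw [h', map_mul, map_sub, ph_Y, ph_Y, (p.th_eq_iff).1 hmem, sub_self, mul_zero]
    have hdep : ¬ ∀ k l : ℤ, k • dZ (x, y) + l • dZ (x', y') ∈ p.R → k = 0 ∧ l = 0 := by
      intro hind
      refine hb (p.bound2 hcard (x, y) (x', y') ?_ ?_ hind i)
      · change |p.lg x - p.lg y| ≤ 1
        rw [hlg, sub_self, abs_zero]
        norm_num
      · change |p.lg x' - p.lg y'| ≤ 1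
        rw [hlg', sub_self, abs_zero]
        norm_num
    obtain ⟨k, l, hk, hl, hkl⟩ := p.exists_dep (x, y) (x', y') hn hn' hdep
    obtain ⟨F, _, κ, χ, hκ, hχ, hχR⟩ := p.exists_chi hprime hI0 hIP
    have hχ1 : χ (dZ (x, y)) = 0 := by
      rw [h] at h1
      have h5 := hcC ε hε _ h1
      rw [← hκ, map_sub, sub_eq_zero, ← hχ, ← hχ] at h5
      rw [dZ, map_sub, sub_eq_zero]
      exact Additive.toMul.injective (Units.ext h5)
    have h6 := hχR _ hkl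
    rw [map_sub, map_zsmul, map_zsmul, hχ1, zsmul_zero, zero_sub, neg_eq_zero] at h6
    have h7 := p.root_chi hprime hIP κ χ hκ hχ x' y' 1 1 (by simp) (by rw [one_mul, hxy']) l hl
      (by rw [h6, ofMul_one, zsmul_zero])
    apply h2'
    rw [h']
    rw [C_1, one_mul] at h7
    exact I.mul_mem_left _ h7
  · -- equality and sum
    obtain ⟨hx2, hx2'⟩ := p.lg_type_C h3' h4'
    have hlg := p.lg_eq_of_abs hxy
    have hn : dZ (x, y) ∉ p.R := by
      intro hmem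
      apply h2
      rw [h, map_mul, map_sub, ph_Y, ph_Y, (p.th_eq_iff).1 hmem, sub_self, mul_zero]
    by_contra hb
    have hdep : ¬ ∀ k l : ℤ, k • dZ (x, y) + l • dZ (L2, S2) ∈ p.R → k = 0 ∧ l = 0 := by
      intro hind
      refine hb (p.bound2 hcard (x, y) (L2, S2) ?_ ?_ hind i)
      · change |p.lg x - p.lg y| ≤ 1
        rw [hlg, sub_self, abs_zero]
        norm_num
      · change |p.lg L2 - p.lg S2| ≤ 1
        rw [abs_of_pos hx2]
        exact hx2'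
    obtain ⟨k, l, hk, hl, hkl⟩ := p.exists_dep (x, y) (L2, S2) hn (p.dZ_notMem_of_lg hx2) hdep
    have h5 := p.LG_rel hkl
    rw [hlg, sub_self, mul_zero] at h5
    have hlR : (l:ℝ) ≠ 0 := by exact_mod_cast hl
    exact mul_ne_zero hlR hx2.ne' h5.symm
  · -- sum and equality
    obtain ⟨hx1, hx1'⟩ := p.lg_type_C h3 h4
    have hlg' := p.lg_eq_of_abs hxy'
    have hn' : dZ (x', y') ∉ p.R := by
      intro hmem
      apply hph'
      rw [h', map_mul, map_sub, ph_Y, ph_Y, (p.th_eq_iff).1 hmem, sub_self, mul_zero]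
    by_contra hb
    have hdep : ¬ ∀ k l : ℤ, k • dZ (L1, S1) + l • dZ (x', y') ∈ p.R → k = 0 ∧ l = 0 := by
      intro hind
      refine hb (p.bound2 hcard (L1, S1) (x', y') ?_ ?_ hind i)
      · change |p.lg L1 - p.lg S1| ≤ 1
        rw [abs_of_pos hx1]
        exact hx1'
      · change |p.lg x' - p.lg y'| ≤ 1
        rw [hlg', sub_self, abs_zero]
        norm_num
    obtain ⟨k, l, hk, hl, hkl⟩ := p.exists_dep (L1, S1) (x', y') (p.dZ_notMem_of_lg hx1) hn' hdep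
    have h5 := p.LG_rel hkl
    rw [hlg', sub_self, mul_zero] at h5
    have hkR : (k:ℝ) ≠ 0 := by exact_mod_cast hk.ne'
    exact mul_ne_zero hkR hx1.ne' h5
  · -- two sums
    refine p.two_CC hcard I hprime hI0 hIP L1 S1 T1 L2 S2 T2 h3 h4 h3' h4' ?_ ?_ i
    · rw [h] at h1
      exact hcC ε hε _ h1
    · intro hmem
      apply h2'
      rw [h']
      exact I.mul_mem_left _ hmem

end RatPt
end Tysz
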